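import Pool.Agent.H68.CF.Defs

/-!
# [H68 CF NullLip] Null sets and Lipschitz homeomorphisms (Mathlib only)

`F`, `G` inverse to each other, `G` Lipschitz. If `P y` for a.e. `y` then `P (F x)` for a.e. `x`:
the exceptional set is `F⁻¹(N) = G(N)`, and Lipschitz images of null sets in `ℝⁿ` are null
(Hausdorff measure: `LipschitzWith.hausdorffMeasure_image_le` and
`EuclideanSpace.hausdorffMeasure`/`MeasureTheory.hausdorffMeasure_pi_real`; `volume` and `μH[n]`
are both Haar measures on `E n`, so it suffices that `μH[n]` is absolutely continuous and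
vice versa, e.g. via `MeasureTheory.Measure.isAddHaarMeasure_...`; or directly with coverings by
small balls: `N` is covered by balls `B_i` with `∑ vol B_i < ε`
(`Measure.exists_isOpen_lt_of_lt` + Vitali/Besicovitch), and `vol G(B(x,r)) ≤ vol B(G x, L r)`).
-/

open MeasureTheory Set Filter Topology Matrix Polynomial
open scoped ContDiff NNReal

noncomputable section

namespace H68.CF

variable {n : ℕ}

theorem ae_comp_lip {F G : E n → E n} {L : ℝ≥0} (hG : LipschitzWith L G)
    (hGF : ∀ x, G (F x) = x) (hFG : ∀ x, F (G x) = x) {P : E n → Prop} (hP : ∀ᵐ y, P y) :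
    ∀ᵐ x, P (F x) := by
  have h1 : (volume : Measure (E n)) ≪
      (Measure.hausdorffMeasure (Module.finrank ℝ (E n) : ℝ) : Measure (E n)) :=
    Measure.absolutelyContinuous_isAddHaarMeasure _ _
  have h2 : (Measure.hausdorffMeasure (Module.finrank ℝ (E n) : ℝ) : Measure (E n)) ≪
      (volume : Measure (E n)) :=
    Measure.absolutelyContinuous_isAddHaarMeasure _ _
  rw [ae_iff] at hP ⊢
  have h3 : {x | ¬ P (F x)} ⊆ G '' {y | ¬ P y} := fun x hx => ⟨F x, hx, hGF x⟩
  refine measure_mono_null h3 (h1 ?_)
  have h4 := hG.hausdorffMeasure_image_le (d := (Module.finrank ℝ (E n) : ℝ)) (by positivity)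
    {y | ¬ P y}
  rw [h2 hP, mul_zero] at h4
  exact le_antisymm h4 zero_le

end H68.CF
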