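import Pool.Agent.H68.CF.LimDef
import Pool.Agent.H68.CF.NullLip

/-!
# [H68 CF AeConf] The lift is conformal almost everywhere

For a.e. `x`: `F` is differentiable at `x` (Rademacher, `LipschitzWith.ae_differentiableAt`), the
metric differential property `md` of `h` holds at `x`, and that of `h'` holds at `F x`
(`ae_comp_lip`). Let `A = DF(x)`. Fix `u` and let `t → 0+`:
`dist (p x) (p (x + t u)) / t → ‖u‖/w(x)`; on the other hand it is
`dist (p' (F x)) (p' (F (x + t u)))/t` and `F(x + t u) = F x + t A u + o(t)`, so with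
`k = F(x+tu) - F x`, `|dist (p' (F x)) (p' (F x + k)) - ‖k‖/w'(F x)| ≤ ε ‖k‖`, `‖k‖/t → ‖A u‖`: the
limit is `‖A u‖/w'(F x)`. So `‖A u‖ = (w'(F x)/w x) ‖u‖`.
-/

open MeasureTheory Set Filter Topology Matrix Polynomial
open scoped ContDiff NNReal

noncomputable section

namespace H68.CF

variable {n : ℕ} {X : Type} [MetricSpace X] {b b' : Module.Basis (Fin n) ℝ (E n)}
  {c M c' M' : ℝ} {p p' : E n → X} {w w' : E n → ℝ}

private theorem aeConf_zero {x C : ℝ} (hC : 0 ≤ C) (h : ∀ ε : ℝ, 0 < ε → |x| ≤ ε * C) :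
    x = 0 := by
  by_contra hx
  have h0 : 0 < |x| := abs_pos.2 hx
  have h1 := h (|x| / (2 * (C + 1))) (by positivity)
  have h2 : |x| / (2 * (C + 1)) * C < |x| := by
    rw [div_mul_eq_mul_div, div_lt_iff₀ (by positivity)]
    nlinarith
  linarith

theorem ae_conf (h : LimData b c M p w) (h' : LimData b' c' M' p' w') {F G : E n → E n}
    {L L' : ℝ≥0} (hF : LipschitzWith L F) (hG : LipschitzWith L' G) (hGF : ∀ x, G (F x) = x)
    (hFG : ∀ x, F (G x) = x) (hp : ∀ x, p' (F x) = p x) :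
    ∀ᵐ x : E n, ∃ A : E n →L[ℝ] E n, HasFDerivAt F A x ∧
      ∀ u : E n, ‖A u‖ = (w' (F x) / w x) * ‖u‖ := by
  have hdiff := hF.ae_differentiableAt (μ := (volume : Measure (E n)))
  have hmd' := ae_comp_lip hG hGF hFG h'.md
  filter_upwards [hdiff, h.md, hmd'] with x hx hmd hmd2
  refine ⟨fderiv ℝ F x, hx.hasFDerivAt, fun u => ?_⟩
  set A := fderiv ℝ F x with hA
  have hw : 0 < w x := lt_of_lt_of_le h.cpos (h.wlow x)
  have hw' : 0 < w' (F x) := lt_of_lt_of_le h'.cpos (h'.wlow _)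
  have key : ‖u‖ / w x - ‖A u‖ / w' (F x) = 0 := by
    apply aeConf_zero (C := ‖u‖ * (1 + L + 1 / w' (F x))) (by positivity)
    intro ε hε
    obtain ⟨δ1, hδ1, hm1⟩ := hmd ε hε
    obtain ⟨δ2, hδ2, hm2⟩ := hmd2 ε hε
    have htend : Tendsto (fun t : ℝ => t • u) (𝓝[>] 0) (𝓝 0) := by
      have h1 : Tendsto (fun t : ℝ => t • u) (𝓝 0) (𝓝 ((0 : ℝ) • u)) :=
        (continuous_id.smul continuous_const).tendsto 0
      rw [zero_smul] at h1
      exact h1.mono_left nhdsWithin_le_nhds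
    have e1 : ∀ᶠ t : ℝ in 𝓝[>] 0, ‖t • u‖ < δ1 := by
      have := htend.norm
      rw [norm_zero] at this
      exact this.eventually_lt_const hδ1
    have e2 : ∀ᶠ t : ℝ in 𝓝[>] 0, (L : ℝ) * ‖t • u‖ < δ2 := by
      have := htend.norm.const_mul (L : ℝ)
      rw [norm_zero, mul_zero] at this
      exact this.eventually_lt_const hδ2
    have e3 : ∀ᶠ t : ℝ in 𝓝[>] 0, ‖F (x + t • u) - F x - A (t • u)‖ ≤ ε * ‖t • u‖ := by
      have h1 := (hasFDerivAt_iff_isLittleO_nhds_zero.1 hx.hasFDerivAt).def hε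
      exact htend.eventually h1
    have e4 : ∀ᶠ t : ℝ in 𝓝[>] 0, 0 < t := self_mem_nhdsWithin
    obtain ⟨t, ht1, ht2, ht3, ht4⟩ := (e1.and (e2.and (e3.and e4))).exists
    have hk : ‖F (x + t • u) - F x‖ ≤ L * ‖t • u‖ := by
      have h1 := hF.dist_le_mul (x + t • u) x
      rwa [dist_eq_norm, dist_eq_norm, add_sub_cancel_left] at h1
    have g1 := hm1 (t • u) ht1
    have g2 := hm2 (F (x + t • u) - F x) (hk.trans_lt ht2)
    rw [add_sub_cancel, hp, hp] at g2
    have hnt : ‖t • u‖ = t * ‖u‖ := by rw [norm_smul, Real.norm_of_nonneg ht4.le]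
    have g3 : |‖F (x + t • u) - F x‖ - t * ‖A u‖| ≤ ε * (t * ‖u‖) := by
      have h1 : t * ‖A u‖ = ‖A (t • u)‖ := by
        rw [map_smul, norm_smul, Real.norm_of_nonneg ht4.le]
      rw [h1, ← hnt]
      exact (abs_norm_sub_norm_le _ _).trans ht3
    rw [hnt] at g1 hk
    have g4 : |‖F (x + t • u) - F x‖ / w' (F x) - t * ‖A u‖ / w' (F x)| ≤
        ε * (t * ‖u‖) / w' (F x) := by
      rw [← sub_div, abs_div, abs_of_pos hw']
      exact div_le_div_of_nonneg_right g3 hw'.le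
    have g5 : ε * ‖F (x + t • u) - F x‖ ≤ ε * (L * (t * ‖u‖)) :=
      mul_le_mul_of_nonneg_left hk hε.le
    have g6 : |t * ‖u‖ / w x - t * ‖A u‖ / w' (F x)| ≤
        ε * (t * ‖u‖) + ε * (L * (t * ‖u‖)) + ε * (t * ‖u‖) / w' (F x) := by
      have b1 := abs_le.1 g1
      have b2 := abs_le.1 g2
      have b4 := abs_le.1 g4
      rw [abs_le]
      constructor <;> linarith [b1.1, b1.2, b2.1, b2.2, b4.1, b4.2]
    have g7 : t * |‖u‖ / w x - ‖A u‖ / w' (F x)| ≤
        t * (ε * (‖u‖ * (1 + L + 1 / w' (F x)))) := by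
      have h1 : t * |‖u‖ / w x - ‖A u‖ / w' (F x)| =
          |t * ‖u‖ / w x - t * ‖A u‖ / w' (F x)| := by
        rw [← abs_of_pos ht4, ← abs_mul, abs_of_pos ht4]
        congr 1
        ring
      rw [h1]
      refine g6.trans (le_of_eq ?_)
      ring
    exact le_of_mul_le_mul_left g7 ht4
  have h2 : ‖A u‖ / w' (F x) = ‖u‖ / w x := by linarith
  rw [div_eq_iff hw'.ne'] at h2
  rw [h2]
  ring

end H68.CF
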