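import Pool.Agent.H68.CF.Defs

/-!
# [H68 CF ArzA] Arzela-Ascoli for functions of two variables

* `arzela`: let `(x_i)` be a dense sequence in `E n` (`TopologicalSpace.denseSeq`). The values
  `d l x_i x_j` lie in `[-B_ij, B_ij]`, `B_ij = L ‖x_i - x_j‖` (`|L|` to be safe;
  `|d l x y - d l x x| ≤ L ‖x - y‖` gives the bound). The
  product of these countably many compact intervals is compact and metrizable
  (`isCompact_univ_pi`, `IsCompact.tendsto_subseq` in `ℕ × ℕ → ℝ`), so along a subsequence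
  `φ` all `d (φ l) x_i x_j` converge. By equicontinuity `d (φ l) x y` is Cauchy for all `x, y`.
* `unif_of_pointwise`: equicontinuity and compactness: cover the closed ball of radius `R` by
  finitely many balls of small radius with centers `x_i`; `D` has the same Lipschitz bound.
-/

open MeasureTheory Set Filter Topology Matrix Polynomial
open scoped ContDiff NNReal

noncomputable section

namespace H68.CF

variable {n : ℕ}

private theorem arz_small {M ε : ℝ} (hM : 0 ≤ M) (hε : 0 < ε) {a b : ℝ}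
    (ha : a < ε / (6 * (M + 1))) (hb : b < ε / (6 * (M + 1))) (ha0 : 0 ≤ a) (hb0 : 0 ≤ b) :
    M * (a + b) ≤ ε / 3 := by
  have h1 : a + b ≤ ε / (3 * (M + 1)) := by
    have h2 : ε / (6 * (M + 1)) + ε / (6 * (M + 1)) = ε / (3 * (M + 1)) := by
      field_simp
      ring
    linarith
  calc M * (a + b) ≤ (M + 1) * (a + b) := by nlinarith
    _ ≤ (M + 1) * (ε / (3 * (M + 1))) := mul_le_mul_of_nonneg_left h1 (by linarith)
    _ = ε / 3 := by field_simp

private theorem arz_abs {d : E n → E n → ℝ} {L : ℝ}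
    (hL : ∀ x y x' y', |d x y - d x' y'| ≤ L * (‖x - x'‖ + ‖y - y'‖)) (x y x' y' : E n) :
    |d x y - d x' y'| ≤ |L| * (‖x - x'‖ + ‖y - y'‖) :=
  (hL x y x' y').trans (mul_le_mul_of_nonneg_right (le_abs_self L) (by positivity))

theorem arzela (d : ℕ → E n → E n → ℝ) {L : ℝ} (h0 : ∀ l x, d l x x = 0)
    (hL : ∀ l x y x' y', |d l x y - d l x' y'| ≤ L * (‖x - x'‖ + ‖y - y'‖)) :
    ∃ φ : ℕ → ℕ, StrictMono φ ∧ ∃ D : E n → E n → ℝ,
      ∀ x y, Tendsto (fun l => d (φ l) x y) atTop (𝓝 (D x y)) := by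
  set s := TopologicalSpace.denseSeq (E n) with hs
  have hdense : DenseRange s := TopologicalSpace.denseRange_denseSeq (E n)
  set M := |L| with hM
  have hM0 : 0 ≤ M := abs_nonneg L
  set F : ℕ → (ℕ × ℕ → ℝ) := fun l p => d l (s p.1) (s p.2) with hF
  have hK : IsCompact (Set.pi univ (fun p : ℕ × ℕ =>
      Icc (-(M * ‖s p.1 - s p.2‖)) (M * ‖s p.1 - s p.2‖))) :=
    isCompact_univ_pi fun p => isCompact_Icc
  have hmem : ∀ l, F l ∈ Set.pi univ (fun p : ℕ × ℕ =>
      Icc (-(M * ‖s p.1 - s p.2‖)) (M * ‖s p.1 - s p.2‖)) := by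
    intro l p _
    have h1 := arz_abs (hL l) (s p.1) (s p.2) (s p.2) (s p.2)
    rw [h0, sub_zero, sub_self, norm_zero, add_zero] at h1
    exact abs_le.mp h1
  obtain ⟨a, -, φ, hφ, hlim⟩ := hK.tendsto_subseq hmem
  refine ⟨φ, hφ, ?_⟩
  have hlim' : ∀ p : ℕ × ℕ, Tendsto (fun l => d (φ l) (s p.1) (s p.2)) atTop (𝓝 (a p)) := by
    intro p
    exact (tendsto_pi_nhds.mp hlim) p
  have hex : ∀ x y : E n, ∃ D : ℝ, Tendsto (fun l => d (φ l) x y) atTop (𝓝 D) := by
    intro x y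
    apply cauchySeq_tendsto_of_complete
    rw [Metric.cauchySeq_iff']
    intro ε hε
    have hδ : 0 < ε / (6 * (M + 1)) := by positivity
    obtain ⟨i, hi⟩ := hdense.exists_dist_lt x hδ
    obtain ⟨j, hj⟩ := hdense.exists_dist_lt y hδ
    rw [dist_eq_norm] at hi hj
    obtain ⟨N, hN⟩ := Metric.cauchySeq_iff'.mp (hlim' (i, j)).cauchySeq (ε / 3) (by positivity)
    refine ⟨N, fun l hl => ?_⟩
    have h1 := hN l hl
    rw [Real.dist_eq] at h1 ⊢
    simp only at h1
    have hsm := arz_small hM0 hε hi hj (norm_nonneg _) (norm_nonneg _)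
    have h2 := (arz_abs (hL (φ l)) x y (s i) (s j)).trans hsm
    have h3 := (arz_abs (hL (φ N)) x y (s i) (s j)).trans hsm
    rw [abs_le] at h2 h3
    rw [abs_lt] at h1 ⊢
    constructor
    · linarith [h1.1, h2.1, h3.2]
    · linarith [h1.2, h2.2, h3.1]
  choose D hD using hex
  exact ⟨D, hD⟩

theorem unif_of_pointwise {d : ℕ → E n → E n → ℝ} {D : E n → E n → ℝ} {L : ℝ}
    (hL : ∀ l x y x' y', |d l x y - d l x' y'| ≤ L * (‖x - x'‖ + ‖y - y'‖))
    (hD : ∀ x y, Tendsto (fun l => d l x y) atTop (𝓝 (D x y))) (R : ℝ) {ε : ℝ} (hε : 0 < ε) :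
    ∀ᶠ l in atTop, ∀ x y : E n, ‖x‖ ≤ R → ‖y‖ ≤ R → |d l x y - D x y| ≤ ε := by
  set M := |L| with hM
  have hM0 : 0 ≤ M := abs_nonneg L
  have hδ : 0 < ε / (6 * (M + 1)) := by positivity
  have hDL : ∀ x y x' y', |D x y - D x' y'| ≤ M * (‖x - x'‖ + ‖y - y'‖) := by
    intro x y x' y'
    apply le_of_tendsto ((hD x y).sub (hD x' y')).abs
    exact Eventually.of_forall fun l => arz_abs (hL l) x y x' y'
  obtain ⟨t, -, ht⟩ := (isCompact_closedBall (0 : E n) R).elim_nhds_subcover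
    (fun a => Metric.ball a (ε / (6 * (M + 1)))) (fun a _ => Metric.ball_mem_nhds a hδ)
  have hev : ∀ᶠ l in atTop, ∀ a ∈ t, ∀ c ∈ t, |d l a c - D a c| ≤ ε / 3 := by
    rw [Filter.eventually_all_finset]
    intro a _
    rw [Filter.eventually_all_finset]
    intro c _
    have h1 := (hD a c).sub_const (D a c)
    rw [sub_self] at h1
    have h2 := h1.abs
    rw [abs_zero] at h2
    exact h2.eventually (eventually_le_nhds (by positivity))
  filter_upwards [hev] with l hl x y hx hy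
  obtain ⟨a, ha, hxa⟩ := mem_iUnion₂.mp (ht (mem_closedBall_zero_iff.mpr hx))
  obtain ⟨c, hc, hyc⟩ := mem_iUnion₂.mp (ht (mem_closedBall_zero_iff.mpr hy))
  rw [Metric.mem_ball, dist_eq_norm] at hxa hyc
  have hsm := arz_small hM0 hε hxa hyc (norm_nonneg _) (norm_nonneg _)
  have h1 := (arz_abs (hL l) x y a c).trans hsm
  have h2 := (hDL x y a c).trans hsm
  have h3 := hl a ha c hc
  rw [abs_le] at h1 h2 h3 ⊢
  constructor
  · linarith [h1.1, h2.2, h3.1]
  · linarith [h1.2, h2.1, h3.2]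

end H68.CF
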