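import Pool.Agent.H68.CF.IbpP

/-!
# [H68 CF AvgDer] The average of the derivative of a quasi-periodic Lipschitz map

`P(x) = F(x) - A x` is Lipschitz and `Lat b`-periodic. Fix `i, j`. For `t ≠ 0`
`∫_FD (P_j(x + t e_i) - P_j(x))/t dx = 0` (`per_translate`). As `t → 0` (`t = 1/(m+1)`) the
integrand converges a.e. to `(fderiv P x e_i)_j` (Rademacher) and is bounded by the Lipschitz
constant, so by dominated convergence `∫_FD (fderiv P x e_i)_j = 0`, and
`fderiv F x = fderiv P x + A` a.e. `fderiv_bound`: `‖fderiv ℝ F x‖ ≤ L`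
(`norm_fderiv_le_of_lipschitz`). `fderiv_entry_integrable`: bounded and measurable
(`measurable_fderiv_apply_const`) on a set of finite measure.
-/

open MeasureTheory Set Filter Topology Matrix Polynomial
open scoped ContDiff NNReal

noncomputable section

namespace H68.CF

variable {n : ℕ}

private theorem avd_coord (x : E n) (j : Fin n) : |x j| ≤ ‖x‖ := by
  rw [← Real.norm_eq_abs]
  exact PiLp.norm_apply_le x j

private theorem avd_fin (b : Module.Basis (Fin n) ℝ (E n)) :
    volume (ZSpan.fundamentalDomain b) ≠ ⊤ :=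
  (ZSpan.fundamentalDomain_isBounded b).measure_lt_top.ne

theorem fderiv_entry_integrable (b : Module.Basis (Fin n) ℝ (E n)) {F : E n → E n} {L : ℝ≥0}
    (hF : LipschitzWith L F) (i j : Fin n) :
    IntegrableOn (fun x => (fderiv ℝ F x (EuclideanSpace.single i 1)) j)
      (ZSpan.fundamentalDomain b) := by
  have hm : Measurable (fun x => (fderiv ℝ F x (EuclideanSpace.single i 1)) j) := by
    have h1 : Measurable (fun x => fderiv ℝ F x (EuclideanSpace.single i (1 : ℝ))) :=
      measurable_fderiv_apply_const ℝ F _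
    exact ((EuclideanSpace.proj j : E n →L[ℝ] ℝ).continuous.measurable).comp h1
  refine Measure.integrableOn_of_bounded (avd_fin b) hm.aestronglyMeasurable
    (Filter.Eventually.of_forall (fun x => ?_)) (M := (L : ℝ))
  rw [Real.norm_eq_abs]
  refine (avd_coord _ j).trans ?_
  refine (ContinuousLinearMap.le_opNorm _ _).trans ?_
  have h2 : ‖(EuclideanSpace.single i (1 : ℝ) : E n)‖ = 1 := by simp
  rw [h2, mul_one]
  exact norm_fderiv_le_of_lipschitz ℝ hF

private theorem avd_shift (b : Module.Basis (Fin n) ℝ (E n)) {F : E n → E n} {L : ℝ≥0}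
    (hF : LipschitzWith L F) {A : E n →L[ℝ] E n}
    (hA : ∀ v ∈ Lat b, ∀ x, F (x + v) = F x + A v) (w : E n) (j : Fin n) :
    ∫ x in ZSpan.fundamentalDomain b, ((F (x + w)) j - (F x) j) =
      (volume (ZSpan.fundamentalDomain b)).toReal * (A w) j := by
  have hFc : ∀ w : E n, Continuous fun x => (F (x + w)) j := fun w =>
    (EuclideanSpace.proj j : E n →L[ℝ] ℝ).continuous.comp
      (hF.continuous.comp (continuous_id.add continuous_const))
  have hAc : ∀ w : E n, Continuous fun x => (A (x + w)) j := fun w =>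
    (EuclideanSpace.proj j : E n →L[ℝ] ℝ).continuous.comp
      (A.continuous.comp (continuous_id.add continuous_const))
  have hper : ∀ v ∈ Lat b, ∀ x, (fun x => (F x) j - (A x) j) (x + v) =
      (fun x => (F x) j - (A x) j) x := by
    intro v hv x
    simp only [hA v hv x, map_add, PiLp.add_apply]
    ring
  have h1 := per_translate b (f := fun x => (F x) j - (A x) j) hper w
  simp only at h1
  have hF0 : Continuous fun x => (F x) j := by simpa using hFc 0
  have hA0 : Continuous fun x => (A x) j := by simpa using hAc 0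
  have i1 := integrableOn_fd b (hFc w)
  have i2 := integrableOn_fd b (hAc w)
  have i3 := integrableOn_fd b hF0
  have i4 := integrableOn_fd b hA0
  rw [integral_sub i1 i2, integral_sub i3 i4] at h1
  rw [integral_sub i1 i3]
  have h2 : ∫ x in ZSpan.fundamentalDomain b, (A (x + w)) j =
      (∫ x in ZSpan.fundamentalDomain b, (A x) j) +
        (volume (ZSpan.fundamentalDomain b)).toReal * (A w) j := by
    have h3 : (fun x => (A (x + w)) j) = fun x => (A x) j + (A w) j := by
      funext x
      rw [map_add, PiLp.add_apply]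
    have i5 : IntegrableOn (fun _ : E n => (A w) j) (ZSpan.fundamentalDomain b) :=
      integrableOn_const (avd_fin b)
    rw [h3, integral_add i4 i5, setIntegral_const, smul_eq_mul]
    rfl
  rw [h2] at h1
  linarith

theorem avg_der (b : Module.Basis (Fin n) ℝ (E n)) {F : E n → E n} {L : ℝ≥0}
    (hF : LipschitzWith L F) {A : E n →L[ℝ] E n}
    (hA : ∀ v ∈ Lat b, ∀ x, F (x + v) = F x + A v) (i j : Fin n) :
    ∫ x in ZSpan.fundamentalDomain b, (fderiv ℝ F x (EuclideanSpace.single i 1)) j =
      (volume (ZSpan.fundamentalDomain b)).toReal * (A (EuclideanSpace.single i 1)) j := by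
  obtain ⟨e, he⟩ : ∃ e : E n, e = EuclideanSpace.single i (1 : ℝ) := ⟨_, rfl⟩
  have he1 : ‖e‖ = 1 := by
    rw [he]
    simp
  rw [← he]
  obtain ⟨t, ht⟩ : ∃ t : ℕ → ℝ, t = fun m : ℕ => 1 / ((m : ℝ) + 1) := ⟨_, rfl⟩
  have ht0 : ∀ m, 0 < t m := by
    intro m
    rw [ht]
    positivity
  have htl : Tendsto t atTop (𝓝[≠] 0) := by
    rw [tendsto_nhdsWithin_iff]
    refine ⟨?_, Filter.Eventually.of_forall fun m => (ht0 m).ne'⟩
    rw [ht]
    exact tendsto_one_div_add_atTop_nhds_zero_nat
  have hFc : ∀ w : E n, Continuous fun x => (F (x + w)) j := fun w =>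
    (EuclideanSpace.proj j : E n →L[ℝ] ℝ).continuous.comp
      (hF.continuous.comp (continuous_id.add continuous_const))
  have hF0 : Continuous fun x => (F x) j := by simpa using hFc 0
  have hint : ∀ m, ∫ x in ZSpan.fundamentalDomain b,
      (t m)⁻¹ * ((F (x + t m • e)) j - (F x) j) =
      (volume (ZSpan.fundamentalDomain b)).toReal * (A e) j := by
    intro m
    rw [integral_const_mul, avd_shift b hF hA, map_smul, PiLp.smul_apply, smul_eq_mul]
    field_simp [(ht0 m).ne']
  have hlim : Tendsto (fun m => ∫ x in ZSpan.fundamentalDomain b,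
      (t m)⁻¹ * ((F (x + t m • e)) j - (F x) j)) atTop
      (𝓝 (∫ x in ZSpan.fundamentalDomain b, (fderiv ℝ F x e) j)) := by
    refine tendsto_integral_of_dominated_convergence (fun _ => (L : ℝ)) ?_ ?_ ?_ ?_
    · intro m
      exact (((hFc (t m • e)).sub hF0).const_mul ((t m)⁻¹)).aestronglyMeasurable
    · have : IntegrableOn (fun _ : E n => (L : ℝ)) (ZSpan.fundamentalDomain b) :=
        integrableOn_const (avd_fin b)
      exact this
    · intro m
      refine Filter.Eventually.of_forall fun x => ?_
      rw [Real.norm_eq_abs, abs_mul, abs_of_pos (inv_pos.2 (ht0 m))]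
      have h1 : |(F (x + t m • e)) j - (F x) j| ≤ L * t m := by
        have h2 := avd_coord (F (x + t m • e) - F x) j
        rw [PiLp.sub_apply] at h2
        refine h2.trans ?_
        have h3 := hF.dist_le_mul (x + t m • e) x
        rw [dist_eq_norm, dist_eq_norm, add_sub_cancel_left, norm_smul, he1, mul_one,
          Real.norm_eq_abs, abs_of_pos (ht0 m)] at h3
        exact h3
      calc (t m)⁻¹ * |(F (x + t m • e)) j - (F x) j| ≤ (t m)⁻¹ * (L * t m) :=
            mul_le_mul_of_nonneg_left h1 (inv_pos.2 (ht0 m)).le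
        _ = L := by field_simp [(ht0 m).ne']
    · refine ae_restrict_of_ae ?_
      filter_upwards [hF.ae_differentiableAt] with x hx
      have h1 := (hx.hasFDerivAt.hasLineDerivAt e).tendsto_slope_zero
      have h2 := h1.comp htl
      have h3 := ((EuclideanSpace.proj j : E n →L[ℝ] ℝ).continuous.tendsto _).comp h2
      have h4 : ((EuclideanSpace.proj j : E n →L[ℝ] ℝ) ∘ (fun s : ℝ => s⁻¹ • (F (x + s • e) - F x)) ∘ t) =
          fun m => (t m)⁻¹ * ((F (x + t m • e)) j - (F x) j) := by
        funext m
        simp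
      rw [h4] at h3
      exact h3
  simp only [hint] at hlim
  exact (tendsto_nhds_unique hlim tendsto_const_nhds)

end H68.CF
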