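import Pool.Agent.H68.CF.Curve

/-!
# [H68 CF TdBasic] Basic properties of the distance

* `td_self`: constant curve. `td_comm`: reverse the curve and translate by a lattice vector:
  `γ'(t) = γ(1-t) - v`, `v = γ 1 - y`.
* `td_per_right`: the sets of admissible curves are equal. `td_per_left`: translate the curve
  (`deriv` of `γ + v`, periodicity of `w`).
* `td_le_seg`: the segment `t ↦ x + t (y - x)`. `td_le_dist`: `w ≥ c`.
* `td_sub_le`: from the triangle inequality, symmetry and `td_le_dist`. (`TdTri` is not imported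
  here: prove it under the hypothesis `htri`.)
* `gDist_conf`: `√(∑_ij w⁻² δ_ij γ'_i γ'_j) = ‖γ'‖/w` (`EuclideanSpace.norm_eq`,
  `EuclideanSpace.real_norm_sq_eq`), so the two sets of lengths are equal.
-/

open MeasureTheory Set Filter Topology Matrix Polynomial
open scoped ContDiff NNReal

noncomputable section

namespace H68.CF

variable {n : ℕ}

theorem td_self (b : Module.Basis (Fin n) ℝ (E n)) {w : E n → ℝ} (hpos : ∀ x, 0 < w x)
    (x : E n) : td b w x x = 0 := by
  apply le_antisymm _ (td_nonneg b hpos x x)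
  have h1 : LipschitzWith 0 (fun _ : ℝ => x) := LipschitzWith.const x
  have h2 := td_le_len b hpos (x := x) (y := x) h1 rfl (by
    rw [sub_self]
    exact (Lat b).zero_mem)
  refine h2.trans (le_of_eq ?_)
  unfold len
  have h3 : ∀ t : ℝ, ‖deriv (fun _ : ℝ => x) t‖ / w x = 0 := by
    intro t
    rw [deriv_const, norm_zero, zero_div]
  simp_rw [h3]
  rw [intervalIntegral.integral_zero]

private theorem rev_mem (b : Module.Basis (Fin n) ℝ (E n)) {w : E n → ℝ}
    (hper : ∀ v ∈ Lat b, ∀ x, w (x + v) = w x) (x y : E n) (l : ℝ)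
    (h : ∃ γ : ℝ → E n, (∃ M : ℝ≥0, LipschitzWith M γ) ∧ γ 0 = x ∧ γ 1 - y ∈ Lat b ∧
      l = len w γ) :
    ∃ γ : ℝ → E n, (∃ M : ℝ≥0, LipschitzWith M γ) ∧ γ 0 = y ∧ γ 1 - x ∈ Lat b ∧
      l = len w γ := by
  obtain ⟨γ, ⟨M, hM⟩, h0, h1, hl⟩ := h
  refine ⟨fun t => γ (1 - t) - (γ 1 - y), ⟨M, ?_⟩, ?_, ?_, ?_⟩
  · refine LipschitzWith.of_dist_le_mul fun s t => ?_
    rw [dist_sub_right]
    refine (hM.dist_le_mul _ _).trans (le_of_eq ?_)
    rw [dist_sub_left]
  · simp
  · have h2 : γ (1 - 1) - (γ 1 - y) - x = -(γ 1 - y) := by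
      rw [sub_self, h0]
      abel
    show γ (1 - 1) - (γ 1 - y) - x ∈ Lat b
    rw [h2]
    exact (Lat b).neg_mem h1
  · rw [hl]
    unfold len
    have h2 : ∀ t : ℝ, ‖deriv (fun t => γ (1 - t) - (γ 1 - y)) t‖
        / w (γ (1 - t) - (γ 1 - y)) = ‖deriv γ (1 - t)‖ / w (γ (1 - t)) := by
      intro t
      rw [deriv_sub_const, deriv_comp_const_sub, norm_neg, sub_eq_add_neg (γ (1 - t)),
        hper _ ((Lat b).neg_mem h1)]
    simp_rw [h2]
    rw [intervalIntegral.integral_comp_sub_left (fun t => ‖deriv γ t‖ / w (γ t)) 1]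
    simp

theorem td_comm (b : Module.Basis (Fin n) ℝ (E n)) {w : E n → ℝ}
    (hper : ∀ v ∈ Lat b, ∀ x, w (x + v) = w x) (x y : E n) :
    td b w x y = td b w y x := by
  unfold td
  congr 1
  ext l
  exact ⟨rev_mem b hper x y l, rev_mem b hper y x l⟩

theorem td_per_right (b : Module.Basis (Fin n) ℝ (E n)) (w : E n → ℝ) {v : E n}
    (hv : v ∈ Lat b) (x y : E n) : td b w x (y + v) = td b w x y := by
  have h : ∀ z : E n, (z - (y + v) ∈ Lat b ↔ z - y ∈ Lat b) := by
    intro z
    constructor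
    · intro h1
      have h2 : z - y = (z - (y + v)) + v := by abel
      rw [h2]
      exact (Lat b).add_mem h1 hv
    · intro h1
      have h2 : z - (y + v) = (z - y) - v := by abel
      rw [h2]
      exact (Lat b).sub_mem h1 hv
  unfold td
  simp only [h]

theorem td_per_left (b : Module.Basis (Fin n) ℝ (E n)) {w : E n → ℝ}
    (hper : ∀ v ∈ Lat b, ∀ x, w (x + v) = w x) {v : E n}
    (hv : v ∈ Lat b) (x y : E n) : td b w (x + v) y = td b w x y := by
  rw [td_comm b hper (x + v) y, td_per_right b w hv y x, td_comm b hper y x]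

theorem td_le_seg (b : Module.Basis (Fin n) ℝ (E n)) {w : E n → ℝ} (hpos : ∀ x, 0 < w x)
    (x y : E n) :
    td b w x y ≤ ‖y - x‖ * ∫ t in (0 : ℝ)..1, (w (x + t • (y - x)))⁻¹ := by
  have hd : ∀ t : ℝ, HasDerivAt (fun t : ℝ => x + t • (y - x)) (y - x) t := by
    intro t
    have h := ((hasDerivAt_id t).smul_const (y - x)).const_add x
    simpa using h
  have h1 : LipschitzWith ‖y - x‖₊ (fun t : ℝ => x + t • (y - x)) := by
    refine LipschitzWith.of_dist_le_mul fun s t => ?_
    rw [dist_add_left, dist_eq_norm, ← sub_smul, norm_smul, dist_eq_norm, mul_comm]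
    rfl
  have h2 := td_le_len b hpos (x := x) (y := y) h1 (by simp) (by
    simp only [one_smul]
    have h3 : x + (y - x) - y = 0 := by abel
    rw [h3]
    exact (Lat b).zero_mem)
  refine h2.trans (le_of_eq ?_)
  unfold len
  rw [← intervalIntegral.integral_const_mul]
  have h3 : ∀ t : ℝ, ‖deriv (fun t : ℝ => x + t • (y - x)) t‖ / w (x + t • (y - x))
      = ‖y - x‖ * (w (x + t • (y - x)))⁻¹ := by
    intro t
    rw [(hd t).deriv, div_eq_mul_inv]
  simp_rw [h3]

theorem td_le_dist (b : Module.Basis (Fin n) ℝ (E n)) {w : E n → ℝ} {c : ℝ} (hc : 0 < c)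
    (hw : Continuous w) (hlow : ∀ x, c ≤ w x) (x y : E n) : td b w x y ≤ ‖x - y‖ / c := by
  have hpos : ∀ x, 0 < w x := fun x => lt_of_lt_of_le hc (hlow x)
  refine (td_le_seg b hpos x y).trans ?_
  rw [norm_sub_rev x y, div_eq_mul_inv]
  refine mul_le_mul_of_nonneg_left ?_ (norm_nonneg _)
  have h1 := intervalIntegral.norm_integral_le_of_norm_le_const (a := 0) (b := 1) (C := c⁻¹)
    (f := fun t : ℝ => (w (x + t • (y - x)))⁻¹) (fun t _ => by
      rw [norm_inv, Real.norm_eq_abs, abs_of_pos (hpos _)]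
      exact inv_anti₀ hc (hlow _))
  rw [sub_zero, abs_one, mul_one] at h1
  exact (le_abs_self _).trans h1

theorem td_sub_le (b : Module.Basis (Fin n) ℝ (E n)) {w : E n → ℝ} {c : ℝ} (hc : 0 < c)
    (hw : Continuous w) (hlow : ∀ x, c ≤ w x) (hper : ∀ v ∈ Lat b, ∀ x, w (x + v) = w x)
    (htri : ∀ x y z, td b w x z ≤ td b w x y + td b w y z) (x y x' y' : E n) :
    |td b w x y - td b w x' y'| ≤ (1 / c) * (‖x - x'‖ + ‖y - y'‖) := by
  have h1 := htri x x' y
  have h2 := htri x' y' y
  have h3 := htri x' x y'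
  have h4 := htri x y y'
  have d1 := td_le_dist b hc hw hlow x x'
  have d2 := td_le_dist b hc hw hlow x' x
  have d3 := td_le_dist b hc hw hlow y y'
  have d4 := td_le_dist b hc hw hlow y' y
  rw [norm_sub_rev x' x] at d2
  rw [norm_sub_rev y' y] at d4
  have e : (1 / c) * (‖x - x'‖ + ‖y - y'‖) = ‖x - x'‖ / c + ‖y - y'‖ / c := by ring
  rw [e, abs_le]
  constructor <;> linarith

private theorem gLength_conf {w : E n → ℝ} (hpos : ∀ x, 0 < w x) (γ : ℝ → E n) :
    gLength (conf w) γ = len w γ := by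
  unfold gLength len
  have h : ∀ t : ℝ, Real.sqrt (∑ i, ∑ j, conf w (γ t) i j * deriv γ t i * deriv γ t j)
      = ‖deriv γ t‖ / w (γ t) := by
    intro t
    have h1 : ∑ i, ∑ j, conf w (γ t) i j * deriv γ t i * deriv γ t j
        = (‖deriv γ t‖ / w (γ t)) ^ 2 := by
      have h2 : ∀ i : Fin n, ∑ j, conf w (γ t) i j * deriv γ t i * deriv γ t j
          = ((w (γ t)) ^ 2)⁻¹ * (deriv γ t i) ^ 2 := by
        intro i
        unfold conf
        rw [Finset.sum_eq_single i]
        · simp only [Matrix.smul_apply, Matrix.one_apply_eq, smul_eq_mul, mul_one]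
          ring
        · intro j _ hj
          simp only [Matrix.smul_apply, smul_eq_mul]
          rw [Matrix.one_apply_ne (Ne.symm hj)]
          ring
        · intro hi
          exact absurd (Finset.mem_univ i) hi
      simp_rw [h2]
      rw [← Finset.mul_sum, div_pow, EuclideanSpace.real_norm_sq_eq]
      ring
    rw [h1, Real.sqrt_sq (div_nonneg (norm_nonneg _) (hpos _).le)]
  simp_rw [h]

theorem gDist_conf (b : Module.Basis (Fin n) ℝ (E n)) {w : E n → ℝ} (hpos : ∀ x, 0 < w x)
    (x y : E n) : gDist b (conf w) x y = td b w x y := by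
  unfold gDist td
  simp only [gLength_conf hpos]

end H68.CF
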