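import Pool.Agent.H68.CF.TdTri
import Pool.Agent.H68.CF.TdBasic

/-!
# [H68 CF AvgPath] Averaging over parallel segments

For `z ∈ ball 0 η`: `td x y ≤ td x (x+z) + td (x+z) (y+z) + td (y+z) y
 ≤ 2η/c + ‖y - x‖ ∫_0^1 (w(x + z + t(y-x)))⁻¹ dt` (`td_triangle`, `td_le_dist`, `td_le_seg`).
Average over `z ∈ ball 0 η` and exchange the integrals (the integrand is continuous and bounded
by `1/c`, the domain `[0,1] × ball` is bounded).
-/

open MeasureTheory Set Filter Topology Matrix Polynomial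
open scoped ContDiff NNReal

noncomputable section

namespace H68.CF

variable {n : ℕ}

private theorem ap_point (b : Module.Basis (Fin n) ℝ (E n)) {w : E n → ℝ} {c : ℝ} (hc : 0 < c)
    (hw : Continuous w) (hlow : ∀ x, c ≤ w x) (hper : ∀ v ∈ Lat b, ∀ x, w (x + v) = w x)
    (x y : E n) {η : ℝ} {z : E n} (hz : ‖z‖ ≤ η) :
    td b w x y ≤ 2 * η / c + ‖y - x‖ * ∫ t in (0 : ℝ)..1, (w (x + t • (y - x) + z))⁻¹ := by
  have hpos : ∀ x, 0 < w x := fun x => hc.trans_le (hlow x)
  have h1 := td_triangle b hw hpos hper x (x + z) y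
  have h2 := td_triangle b hw hpos hper (x + z) (y + z) y
  have h3 := td_le_dist b hc hw hlow x (x + z)
  have h4 := td_le_dist b hc hw hlow (y + z) y
  have h5 := td_le_seg b hpos (x + z) (y + z)
  have e1 : ‖x - (x + z)‖ = ‖z‖ := by
    rw [show x - (x + z) = -z by abel, norm_neg]
  have e2 : ‖(y + z) - y‖ = ‖z‖ := by
    congr 1
    abel
  have e3 : (y + z) - (x + z) = y - x := by abel
  have e4 : ∀ t : ℝ, x + z + t • (y - x) = x + t • (y - x) + z := fun t => by abel
  rw [e1] at h3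
  rw [e2] at h4
  rw [e3] at h5
  simp only [e4] at h5
  have h6 : ‖z‖ / c ≤ η / c := div_le_div_of_nonneg_right hz hc.le
  have h7 : 2 * η / c = η / c + η / c := by ring
  linarith

theorem td_le_avg (b : Module.Basis (Fin n) ℝ (E n)) {w : E n → ℝ} {c : ℝ} (hc : 0 < c)
    (hw : Continuous w) (hlow : ∀ x, c ≤ w x) (hper : ∀ v ∈ Lat b, ∀ x, w (x + v) = w x)
    (x y : E n) {η : ℝ} (hη : 0 < η) :
    td b w x y ≤ 2 * η / c + ‖y - x‖ * ∫ t in (0 : ℝ)..1,
      (volume (Metric.ball (0 : E n) η)).toReal⁻¹ *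
        ∫ z in Metric.ball (0 : E n) η, (w (x + t • (y - x) + z))⁻¹ := by
  have hpos : ∀ x, 0 < w x := fun x => hc.trans_le (hlow x)
  have hB0 : volume (Metric.ball (0 : E n) η) ≠ 0 := (Metric.measure_ball_pos volume 0 hη).ne'
  have hBt : volume (Metric.ball (0 : E n) η) < ⊤ := measure_ball_lt_top
  have hV : 0 < (volume (Metric.ball (0 : E n) η)).toReal := ENNReal.toReal_pos hB0 hBt.ne
  have hfin : IsFiniteMeasure (volume.restrict (Metric.ball (0 : E n) η)) :=
    ⟨by rw [Measure.restrict_apply_univ]; exact hBt⟩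
  have hcw : Continuous (fun p : ℝ × E n => (w (x + p.1 • (y - x) + p.2))⁻¹) :=
    (hw.comp (by fun_prop : Continuous fun p : ℝ × E n => x + p.1 • (y - x) + p.2)).inv₀
      (fun p => (hpos _).ne')
  have hbd : ∀ v, ‖(w v)⁻¹‖ ≤ c⁻¹ := by
    intro v
    rw [norm_inv, Real.norm_of_nonneg (hpos v).le]
    exact inv_anti₀ hc (hlow v)
  have hint : Integrable (fun p : ℝ × E n => (w (x + p.1 • (y - x) + p.2))⁻¹)
      ((volume.restrict (Ioc (0 : ℝ) 1)).prod (volume.restrict (Metric.ball (0 : E n) η))) :=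
    Integrable.of_bound hcw.aestronglyMeasurable c⁻¹ (ae_of_all _ fun p => hbd _)
  have hswap : ∫ t in Ioc (0 : ℝ) 1, ∫ z in Metric.ball (0 : E n) η, (w (x + t • (y - x) + z))⁻¹ =
      ∫ z in Metric.ball (0 : E n) η, ∫ t in Ioc (0 : ℝ) 1, (w (x + t • (y - x) + z))⁻¹ :=
    integral_integral_swap hint
  have hintz : IntegrableOn (fun z => ∫ t in Ioc (0 : ℝ) 1, (w (x + t • (y - x) + z))⁻¹)
      (Metric.ball (0 : E n) η) := hint.integral_prod_right
  have h1 : ∫ _ in Metric.ball (0 : E n) η, td b w x y ≤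
      ∫ z in Metric.ball (0 : E n) η,
        (2 * η / c + ‖y - x‖ * ∫ t in Ioc (0 : ℝ) 1, (w (x + t • (y - x) + z))⁻¹) := by
    apply setIntegral_mono_on
    · exact integrableOn_const hBt.ne
    · exact (integrableOn_const hBt.ne).add (hintz.const_mul _)
    · exact measurableSet_ball
    · intro z hz
      have h2 := ap_point b hc hw hlow hper x y (mem_ball_zero_iff.mp hz).le
      rw [intervalIntegral.integral_of_le zero_le_one] at h2
      exact h2
  have hi1 : IntegrableOn (fun _ : E n => 2 * η / c) (Metric.ball (0 : E n) η) :=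
    integrableOn_const hBt.ne
  rw [setIntegral_const, integral_add hi1 (hintz.const_mul _), setIntegral_const,
    integral_const_mul, ← hswap, smul_eq_mul, smul_eq_mul] at h1
  have h3 : volume.real (Metric.ball (0 : E n) η) = (volume (Metric.ball (0 : E n) η)).toReal := rfl
  rw [h3] at h1
  rw [intervalIntegral.integral_const_mul, intervalIntegral.integral_of_le zero_le_one]
  set V := (volume (Metric.ball (0 : E n) η)).toReal
  set I := ∫ t in Ioc (0 : ℝ) 1, ∫ z in Metric.ball (0 : E n) η, (w (x + t • (y - x) + z))⁻¹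
  have h4 : V * td b w x y ≤ V * (2 * η / c + ‖y - x‖ * (V⁻¹ * I)) := by
    calc V * td b w x y ≤ V * (2 * η / c) + ‖y - x‖ * I := h1
      _ = V * (2 * η / c + ‖y - x‖ * (V⁻¹ * I)) := by
        field_simp
  exact le_of_mul_le_mul_left h4 hV

end H68.CF
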