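import Pool.Agent.H68.CF.SmoothSig

/-!
# [H68 CF Div] The Newton tensors of `D²w + C0` are divergence free

Write `A = hc w C0`, `T_j = newt j (A x)` (symmetric, commutes with `A`). Claim
`∑_a ∂_a (T_j)_{ab} = 0`. Induction on `j`: `T_0 = 1`. Step (`newt_succ'`:
`T_{j+1} = sig_{j+1} 1 - T_j A`):
`∑_a ∂_a (T_{j+1})_{ab} = ∂_b sig_{j+1} - ∑_c (∑_a ∂_a (T_j)_{ac}) A_{cb} - ∑_{a,c} (T_j)_{ac} ∂_a A_{cb}`.
The second term is `0` by induction, `∂_a A_{cb} = ∂_b A_{ac}` (third derivatives commute:
`A_{cb} = pd c (pd b w) + C0 δ`, use `pd_comm` twice), and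
`∂_b sig_{j+1} = trace (T_j * ∂_b A) = ∑_{a,c} (T_j)_{ac} ∂_b A_{ca}` (`pd_sig`). With
`A` symmetric the first and the third term cancel.
-/

open MeasureTheory Set Filter Topology Matrix Polynomial
open scoped ContDiff NNReal

noncomputable section

namespace H68.CF

variable {n : ℕ}

theorem pd_hc {w : E n → ℝ} (hw : ContDiff ℝ ∞ w) (C0 : ℝ) (c l a : Fin n) (x : E n) :
    pd c (fun y => hc w C0 y l a) x = pd c (pd l (pd a w)) x := by
  have h1 : ContDiff ℝ ∞ (pd l (pd a w)) := contDiff_pd (contDiff_pd hw a) l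
  have h2 : (fun y => hc w C0 y l a) =
      fun y => pd l (pd a w) y + C0 * (1 : Matrix (Fin n) (Fin n) ℝ) l a := by
    funext y
    simp only [hc, hess, Matrix.add_apply, Matrix.smul_apply, smul_eq_mul]
  have hne : (∞ : WithTop ℕ∞) ≠ 0 := by simp
  rw [h2, pd_add ((h1.differentiable hne) x) (differentiableAt_const _), pd_const, add_zero]

theorem pd_hc_swap {w : E n → ℝ} (hw : ContDiff ℝ ∞ w) (C0 : ℝ) (c l a : Fin n) (x : E n) :
    pd c (fun y => hc w C0 y l a) x = pd a (fun y => hc w C0 y l c) x := by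
  rw [pd_hc hw, pd_hc hw, pd_comm (contDiff_pd hw a) c l]
  have h3 : pd c (pd a w) = pd a (pd c w) := funext fun y => pd_comm hw c a y
  rw [h3, pd_comm (contDiff_pd hw c) l a]

theorem div_newt_hc {w : E n → ℝ} (hw : ContDiff ℝ ∞ w) (C0 : ℝ) (j : ℕ) (c : Fin n)
    (x : E n) : ∑ a, pd a (fun y => newt j (hc w C0 y) a c) x = 0 := by
  induction j generalizing c with
  | zero =>
    refine Finset.sum_eq_zero fun a _ => ?_
    simp only [newt_zero]
    exact pd_const a _ x
  | succ j ih =>
    have hne : (∞ : WithTop ℕ∞) ≠ 0 := by simp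
    have hh := contDiff_hc hw C0
    have hs : DifferentiableAt ℝ (fun y => sig (j + 1) (hc w C0 y)) x :=
      ((contDiff_sig hh (j + 1)).differentiable hne) x
    have hN : ∀ a l, DifferentiableAt ℝ (fun y => newt j (hc w C0 y) a l) x := fun a l =>
      ((contDiff_newt hh j a l).differentiable hne) x
    have hH : ∀ a l, DifferentiableAt ℝ (fun y => hc w C0 y a l) x := fun a l =>
      ((hh a l).differentiable hne) x
    have h1 : ∀ a, pd a (fun y => newt (j + 1) (hc w C0 y) a c) x =
        (1 : Matrix (Fin n) (Fin n) ℝ) a c * pd a (fun y => sig (j + 1) (hc w C0 y)) x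
        - ∑ l, (newt j (hc w C0 x) a l * pd a (fun y => hc w C0 y l c) x
          + hc w C0 x l c * pd a (fun y => newt j (hc w C0 y) a l) x) := by
      intro a
      have h2 : (fun y => newt (j + 1) (hc w C0 y) a c) = fun y =>
          (1 : Matrix (Fin n) (Fin n) ℝ) a c * sig (j + 1) (hc w C0 y)
            - ∑ l, newt j (hc w C0 y) a l * hc w C0 y l c := by
        funext y
        rw [newt_succ', Matrix.sub_apply, Matrix.smul_apply, Matrix.mul_apply, smul_eq_mul,
          mul_comm (sig (j + 1) (hc w C0 y))]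
      have hp : ∀ l, DifferentiableAt ℝ (fun y => newt j (hc w C0 y) a l * hc w C0 y l c) x :=
        fun l => (hN a l).mul (hH l c)
      have hps : DifferentiableAt ℝ
          (fun y => ∑ l, newt j (hc w C0 y) a l * hc w C0 y l c) x :=
        DifferentiableAt.fun_sum fun l _ => hp l
      have hs1 : DifferentiableAt ℝ (fun y => (1 : Matrix (Fin n) (Fin n) ℝ) a c *
          sig (j + 1) (hc w C0 y)) x := hs.const_mul _
      rw [h2, pd_sub hs1 hps, pd_const_mul hs, pd_sum Finset.univ (fun l _ => hp l)]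
      congr 1
      refine Finset.sum_congr rfl fun l _ => ?_
      exact pd_mul (hN a l) (hH l c) a
    simp only [h1]
    rw [Finset.sum_sub_distrib]
    simp only [Finset.sum_add_distrib]
    have h3 : ∑ a, ∑ l, hc w C0 x l c * pd a (fun y => newt j (hc w C0 y) a l) x = 0 := by
      rw [Finset.sum_comm]
      refine Finset.sum_eq_zero fun l _ => ?_
      rw [← Finset.mul_sum, ih l, mul_zero]
    have h4 : ∑ a, (1 : Matrix (Fin n) (Fin n) ℝ) a c *
        pd a (fun y => sig (j + 1) (hc w C0 y)) x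
        = pd c (fun y => sig (j + 1) (hc w C0 y)) x := by
      rw [Finset.sum_eq_single c]
      · rw [Matrix.one_apply_eq, one_mul]
      · intro a _ hac
        rw [Matrix.one_apply_ne hac, zero_mul]
      · intro hcn
        exact absurd (Finset.mem_univ c) hcn
    have h5 : pd c (fun y => sig (j + 1) (hc w C0 y)) x =
        ∑ a, ∑ l, newt j (hc w C0 x) a l * pd a (fun y => hc w C0 y l c) x := by
      rw [pd_sig hh j c x, Matrix.trace]
      refine Finset.sum_congr rfl fun a _ => ?_
      rw [Matrix.diag_apply, Matrix.mul_apply]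
      refine Finset.sum_congr rfl fun l _ => ?_
      rw [Matrix.of_apply, pd_hc_swap hw C0 c l a x]
    rw [h4, h5, h3]
    ring

end H68.CF
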