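import Pool.Agent.H68.CF.PdBasic

/-!
# [H68 CF IbpC] Integration by parts, compact support

* `integral_pd_eq_zero`: `integral_fderiv_eq_zero`-type statement; in Mathlib
  `integral_bilinear_hasLineDerivAt_right_eq_neg_left_of_integrable` or
  `integral_mul_fderiv_eq_neg_fderiv_mul_of_integrable` (with the constant function replaced by a
  smooth compactly supported function equal to `1` on the support), or
  `MeasureTheory.integral_fderiv_eq_zero...`; alternatively: `g(t) = ∫ f (x + t e)` does not
  depend on `t` (translation invariance) and has derivative `∫ pd a f` at `0`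
  (`hasDerivAt_integral_of_dominated_loc_of_deriv_le`, `f` is `C¹` with compact support).
* `ibp_compact`: pointwise
  `φ tr(T D²ψ) - ψ tr(T D²φ) = ∑_a ∂_a (φ ∑_b T_{ab} ψ_b - ψ ∑_b T_{ab} φ_b)`
  (product rule; `∑_a ∂_a T_{ab} = 0`; the terms `φ_a T_{ab} ψ_b` cancel by symmetry of `T`).
  The vector field has compact support.
-/

open MeasureTheory Set Filter Topology Matrix Polynomial
open scoped ContDiff NNReal

noncomputable section

namespace H68.CF

variable {n : ℕ}

theorem integral_pd_eq_zero {f : E n → ℝ} (hf : ContDiff ℝ 1 f) (hs : HasCompactSupport f)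
    (a : Fin n) : ∫ x, pd a f x = 0 := by
  have hpc : Continuous (pd a f) := by
    have h1 : Continuous (fderiv ℝ f) := hf.continuous_fderiv (by norm_num)
    exact h1.clm_apply continuous_const
  have hps : HasCompactSupport (pd a f) := hs.fderiv_apply ℝ _
  have h := integral_mul_fderiv_eq_neg_fderiv_mul_of_integrable
    (μ := (volume : Measure (E n))) (f := fun _ : E n => (1 : ℝ)) (g := f)
    (v := EuclideanSpace.single a (1 : ℝ))
    (by
      simp only [fderiv_fun_const, Pi.zero_apply, zero_mul, _root_.zero_apply]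
      exact integrable_zero _ _ _)
    (by
      simp only [one_mul]
      exact hpc.integrable_of_hasCompactSupport hps)
    (by
      simp only [one_mul]
      exact hf.continuous.integrable_of_hasCompactSupport hs)
    (fun x _ => differentiableAt_const _) (fun x _ => hf.differentiable (by norm_num) x)
  simp only [fderiv_fun_const, Pi.zero_apply, zero_mul, _root_.zero_apply, one_mul,
    integral_zero, neg_zero] at h
  exact h

private theorem ibpc_out {φ : E n → ℝ} {x : E n} (hx : x ∉ tsupport φ) (c : Fin n) :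
    φ x = 0 ∧ pd c φ x = 0 := by
  refine ⟨image_eq_zero_of_notMem_tsupport hx, ?_⟩
  unfold pd
  rw [fderiv_of_notMem_tsupport ℝ hx]
  rfl

theorem ibp_compact {T : E n → Matrix (Fin n) (Fin n) ℝ}
    (hT : ∀ a c, ContDiff ℝ ∞ (fun x => T x a c)) (hsym : ∀ x, (T x).IsSymm)
    (hdiv : ∀ c x, ∑ a, pd a (fun y => T y a c) x = 0) {φ ψ : E n → ℝ}
    (hφ : ContDiff ℝ ∞ φ) (hψ : ContDiff ℝ ∞ ψ) (hs : HasCompactSupport φ) :
    ∫ x, φ x * Matrix.trace (T x * hess ψ x) = ∫ x, ψ x * Matrix.trace (T x * hess φ x) := by
  have hW : ∀ c, ContDiff ℝ ∞ (fun y => φ y * pd c ψ y - ψ y * pd c φ y) := fun c =>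
    (hφ.mul (contDiff_pd hψ c)).sub (hψ.mul (contDiff_pd hφ c))
  have hV : ∀ a, ContDiff ℝ ∞ (fun y => ∑ c, T y a c * (φ y * pd c ψ y - ψ y * pd c φ y)) :=
    fun a => ContDiff.sum fun c _ => (hT a c).mul (hW c)
  have hVs : ∀ a, HasCompactSupport (fun y => ∑ c, T y a c * (φ y * pd c ψ y - ψ y * pd c φ y)) := by
    intro a
    refine HasCompactSupport.intro hs.isCompact fun x hx => ?_
    refine Finset.sum_eq_zero fun c _ => ?_
    rw [(ibpc_out hx c).1, (ibpc_out hx c).2]
    ring
  have hd : ∀ {f : E n → ℝ}, ContDiff ℝ ∞ f → ∀ x, DifferentiableAt ℝ f x := fun hf x =>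
    hf.differentiable (by simp) x
  -- the pointwise identity
  have key : ∀ x, φ x * Matrix.trace (T x * hess ψ x) - ψ x * Matrix.trace (T x * hess φ x) =
      ∑ a, pd a (fun y => ∑ c, T y a c * (φ y * pd c ψ y - ψ y * pd c φ y)) x := by
    intro x
    have h1 : ∀ a, pd a (fun y => ∑ c, T y a c * (φ y * pd c ψ y - ψ y * pd c φ y)) x =
        ∑ c, (T x a c * (φ x * pd a (pd c ψ) x + pd c ψ x * pd a φ x -
          (ψ x * pd a (pd c φ) x + pd c φ x * pd a ψ x)) +
          (φ x * pd c ψ x - ψ x * pd c φ x) * pd a (fun y => T y a c) x) := by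
      intro a
      rw [pd_sum Finset.univ (f := fun c y => T y a c * (φ y * pd c ψ y - ψ y * pd c φ y))
        (fun c _ => hd ((hT a c).mul (hW c)) x)]
      refine Finset.sum_congr rfl fun c _ => ?_
      rw [pd_mul (f := fun y => T y a c) (g := fun y => φ y * pd c ψ y - ψ y * pd c φ y)
        (hd (hT a c) x) (hd (hW c) x)]
      rw [pd_sub (f := fun y => φ y * pd c ψ y) (g := fun y => ψ y * pd c φ y)
        (hd (hφ.mul (contDiff_pd hψ c)) x) (hd (hψ.mul (contDiff_pd hφ c)) x)]
      rw [pd_mul (f := φ) (g := pd c ψ) (hd hφ x) (hd (contDiff_pd hψ c) x),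
        pd_mul (f := ψ) (g := pd c φ) (hd hψ x) (hd (contDiff_pd hφ c) x)]
    have h2 : ∑ a, ∑ c, (φ x * pd c ψ x - ψ x * pd c φ x) * pd a (fun y => T y a c) x = 0 := by
      rw [Finset.sum_comm]
      refine Finset.sum_eq_zero fun c _ => ?_
      rw [← Finset.mul_sum, hdiv c x, mul_zero]
    have h3 : ∑ a, ∑ c, T x a c * (pd c ψ x * pd a φ x) =
        ∑ a, ∑ c, T x a c * (pd c φ x * pd a ψ x) := by
      rw [Finset.sum_comm]
      refine Finset.sum_congr rfl fun a _ => Finset.sum_congr rfl fun c _ => ?_
      rw [(hsym x).apply]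
      ring
    have h4 : ∀ η : E n → ℝ, ContDiff ℝ ∞ η →
        Matrix.trace (T x * hess η x) = ∑ a, ∑ c, T x a c * pd a (pd c η) x := by
      intro η hη
      unfold Matrix.trace
      refine Finset.sum_congr rfl fun a _ => ?_
      rw [Matrix.diag_apply, Matrix.mul_apply]
      refine Finset.sum_congr rfl fun c _ => ?_
      unfold hess
      rw [pd_comm hη c a]
    rw [h4 ψ hψ, h4 φ hφ, Finset.sum_congr rfl fun a _ => h1 a]
    simp only [Finset.sum_add_distrib]
    rw [h2, add_zero]
    have h5 : ∀ a c, T x a c * (φ x * pd a (pd c ψ) x + pd c ψ x * pd a φ x -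
          (ψ x * pd a (pd c φ) x + pd c φ x * pd a ψ x)) =
        φ x * (T x a c * pd a (pd c ψ) x) - ψ x * (T x a c * pd a (pd c φ) x) +
          (T x a c * (pd c ψ x * pd a φ x) - T x a c * (pd c φ x * pd a ψ x)) := by
      intro a c
      ring
    simp only [h5, Finset.sum_add_distrib, Finset.sum_sub_distrib, ← Finset.mul_sum]
    rw [h3]
    ring
  have hhess : ∀ {η : E n → ℝ}, ContDiff ℝ ∞ η → Continuous fun x => Matrix.trace (T x * hess η x) := by
    intro η hη
    have h1 : Continuous fun x => ∑ a, ∑ c, T x a c * hess η x c a :=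
      continuous_finsetSum _ fun a _ => continuous_finsetSum _ fun c _ =>
        (hT a c).continuous.mul (contDiff_hess hη c a).continuous
    exact h1
  have hi1 : Integrable fun x => φ x * Matrix.trace (T x * hess ψ x) :=
    (hφ.continuous.mul (hhess hψ)).integrable_of_hasCompactSupport hs.mul_right
  have hi2 : Integrable fun x => ψ x * Matrix.trace (T x * hess φ x) := by
    refine (hψ.continuous.mul (hhess hφ)).integrable_of_hasCompactSupport ?_
    refine HasCompactSupport.intro (hs.fderiv ℝ).isCompact fun x hx => ?_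
    have h1 : Matrix.trace (T x * hess φ x) = 0 := by
      have h2 : hess φ x = 0 := by
        ext a c
        unfold hess
        rw [pd_comm hφ]
        have h3 : x ∉ tsupport (pd a φ) := by
          intro h4
          apply hx
          refine closure_mono ?_ h4
          intro y hy
          rw [Function.mem_support] at hy ⊢
          intro h5
          apply hy
          unfold pd
          rw [h5]
          rfl
        exact (ibpc_out h3 c).2
      rw [h2, Matrix.mul_zero, Matrix.trace_zero]
    change ψ x * Matrix.trace (T x * hess φ x) = 0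
    rw [h1, mul_zero]
  have h0 : ∫ x, (φ x * Matrix.trace (T x * hess ψ x) - ψ x * Matrix.trace (T x * hess φ x)) = 0 := by
    simp only [key]
    rw [integral_finsetSum]
    · exact Finset.sum_eq_zero fun a _ =>
        integral_pd_eq_zero ((hV a).of_le (by simp)) (hVs a) a
    · intro a _
      refine Continuous.integrable_of_hasCompactSupport (contDiff_pd (hV a) a).continuous ?_
      exact (hVs a).fderiv_apply ℝ _
  rw [integral_sub hi1 hi2] at h0
  linarith

end H68.CF
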