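import Pool.Agent.H68.CF.ClsBasic
import Pool.Agent.H68.CF.Div
import Pool.Agent.H68.CF.IbpC

/-!
# [H68 CF CLN] Chern-Levine-Nirenberg estimate

For every `R` there is `K` with `∫_{B_r(y)} sig j (A) ≤ K r^(n-2j)` for all `w` in the class, all
`y`, all `0 < r ≤ R` and `j ≤ k` (`2k ≤ n`, `A = hc w C0 ≥ 0` in the pair sense).

Proof by induction on `j` (for all `R`). `j = 0`: `sig 0 = 1`, volume of balls
(`EuclideanSpace.volume_ball` or `Measure.addHaar_ball`). Step `j → j+1`, `2(j+1) ≤ n`: let `φ` be a fixed smooth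
function, `0 ≤ φ ≤ 1`, `φ = 1` on `B_1(0)`, support in `B_2(0)` (`ContDiffBump`), all entries of
`D²φ` bounded by `m`; `φ_r(x) = φ((x-y)/r)`, entries of `D²φ_r` bounded by `m r⁻²`. By
`trace_newt_mul`, `A = hess w + C0`, `trace_newt`:
`(j+1) sig (j+1) A = tr (newt j A * hess w) + C0 (n - j) sig j A`. By `ibp_compact` with
`T = newt j A` (`contDiff_newt`, `newt_symm`, `div_newt_hc`):
`∫ φ_r tr(T hess w) = ∫ w tr(T hess φ_r) ≤ M n² (n sig j) (m r⁻²)` integrated over `B_{2r}(y)`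
(`abs_newt_entry`, `2j+1 ≤ n`; `0 < c ≤ w ≤ M`). So
`(j+1) ∫_{B_r} sig (j+1) A ≤ (M n³ m r⁻² + C0 n) ∫_{B_{2r}(y)} sig j A`
`≤ (M n³ m r⁻² + C0 n) K' (2r)^(n-2j)` with `K'` for the radius `2R`, and `1 ≤ R² r⁻²`;
`r⁻² (2r)^(n-2j) = 2^(n-2j) r^(n-2j-2)` as `2(j+1) ≤ n`.
-/

open MeasureTheory Set Filter Topology Matrix Polynomial
open scoped ContDiff NNReal

noncomputable section

namespace H68.CF

variable {n : ℕ}

private theorem pd_supp {f : E n → ℝ} (i : Fin n) : tsupport (pd i f) ⊆ tsupport f := by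
  refine closure_minimal (fun x hx => ?_) (isClosed_tsupport f)
  apply support_fderiv_subset ℝ
  rw [Function.mem_support] at hx ⊢
  intro h
  apply hx
  unfold pd
  rw [h]
  rfl

private theorem hess_zero {f : E n → ℝ} {x : E n} (hx : x ∉ tsupport f) (a c : Fin n) :
    hess f x a c = 0 := by
  have h1 : x ∉ tsupport (pd a (pd c f)) := fun h => hx (pd_supp c (pd_supp a h))
  exact image_eq_zero_of_notMem_tsupport (f := pd a (pd c f)) h1

private theorem pd_scale {f : E n → ℝ} (hf : Differentiable ℝ f) (y : E n) (s : ℝ) (i : Fin n)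
    (x : E n) : pd i (fun x => f (s • (x - y))) x = s * pd i f (s • (x - y)) := by
  have h1 : HasFDerivAt (fun x : E n => s • (x - y)) (s • ContinuousLinearMap.id ℝ (E n)) x :=
    ((hasFDerivAt_id x).sub_const y).const_smul s
  have h2 : HasFDerivAt (fun x => f (s • (x - y)))
      ((fderiv ℝ f (s • (x - y))).comp (s • ContinuousLinearMap.id ℝ (E n))) x :=
    (hf _).hasFDerivAt.comp x h1
  unfold pd
  rw [h2.fderiv]
  simp

private theorem hess_scale {f : E n → ℝ} (hf : ContDiff ℝ ∞ f) (y : E n) (s : ℝ) (x : E n)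
    (a c : Fin n) : hess (fun x => f (s • (x - y))) x a c = s ^ 2 * hess f (s • (x - y)) a c := by
  have hne : (∞ : WithTop ℕ∞) ≠ 0 := by simp
  have h1 : pd c (fun x => f (s • (x - y))) = fun x => s * pd c f (s • (x - y)) :=
    funext fun x => pd_scale (hf.differentiable hne) y s c x
  have h2 : Differentiable ℝ (pd c f) := (contDiff_pd hf c).differentiable hne
  have h3 : DifferentiableAt ℝ (fun x => pd c f (s • (x - y))) x :=
    (h2 _).comp x (((differentiable_id.sub_const y).const_smul s) x)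
  unfold hess
  rw [h1, pd_const_mul h3, pd_scale h2]
  ring

private theorem tr_cont {T H : E n → Matrix (Fin n) (Fin n) ℝ}
    (hT : ∀ a c, Continuous (fun x => T x a c)) (hH : ∀ a c, Continuous (fun x => H x a c)) :
    Continuous (fun x => Matrix.trace (T x * H x)) := by
  simp only [Matrix.trace, Matrix.diag_apply, Matrix.mul_apply]
  exact continuous_finsetSum _ fun a _ => continuous_finsetSum _ fun c _ => (hT a c).mul (hH c a)

/-- the cutoff function -/
private theorem cut_exists (n : ℕ) : ∃ φ : E n → ℝ, ContDiff ℝ ∞ φ ∧ (∀ x, 0 ≤ φ x) ∧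
    (∀ x, φ x ≤ 1) ∧ (∀ x, ‖x‖ ≤ 1 → φ x = 1) ∧ (∀ x ∈ tsupport φ, ‖x‖ < 2) ∧
    ∃ m : ℝ, 0 ≤ m ∧ ∀ x a c, |hess φ x a c| ≤ m := by
  let φ0 : ContDiffBump (0 : E n) := ⟨1, 3 / 2, by norm_num, by norm_num⟩
  have hsm : ContDiff ℝ ∞ (φ0 : E n → ℝ) := φ0.contDiff
  have hcs : HasCompactSupport (φ0 : E n → ℝ) := φ0.hasCompactSupport
  have hb : ∀ a c, ∃ C : ℝ, ∀ x, ‖hess (φ0 : E n → ℝ) x a c‖ ≤ C := by
    intro a c
    refine (contDiff_hess hsm a c).continuous.bounded_above_of_compact_support ?_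
    refine hcs.mono' fun x hx => ?_
    by_contra h
    exact hx (hess_zero h a c)
  choose C hC using hb
  refine ⟨φ0, hsm, fun x => φ0.nonneg, fun x => φ0.le_one, fun x hx => ?_, fun x hx => ?_,
    ∑ a, ∑ c, |C a c|, Finset.sum_nonneg fun a _ => Finset.sum_nonneg fun c _ => abs_nonneg _,
    fun x a c => ?_⟩
  · exact φ0.one_of_mem_closedBall (by rwa [Metric.mem_closedBall, dist_zero_right])
  · rw [φ0.tsupport_eq, Metric.mem_closedBall, dist_zero_right] at hx
    have h1 : φ0.rOut = 3 / 2 := rfl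
    rw [h1] at hx
    linarith
  · calc |hess (φ0 : E n → ℝ) x a c| ≤ C a c := hC a c x
      _ ≤ |C a c| := le_abs_self _
      _ ≤ ∑ c, |C a c| := Finset.single_le_sum (f := fun c => |C a c|) (fun _ _ => abs_nonneg _)
          (Finset.mem_univ c)
      _ ≤ ∑ a, ∑ c, |C a c| := Finset.single_le_sum (f := fun a => ∑ c, |C a c|)
          (fun _ _ => Finset.sum_nonneg fun _ _ => abs_nonneg _) (Finset.mem_univ a)

private theorem tr_bound {T H : Matrix (Fin n) (Fin n) ℝ} {s m : ℝ} (hs : 0 ≤ s)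
    (hT : ∀ a c, |T a c| ≤ s) (hH : ∀ a c, |H a c| ≤ m) :
    |Matrix.trace (T * H)| ≤ (n : ℝ) ^ 2 * (s * m) := by
  simp only [Matrix.trace, Matrix.diag_apply, Matrix.mul_apply]
  calc |∑ a, ∑ c, T a c * H c a| ≤ ∑ a : Fin n, ∑ c : Fin n, s * m := by
        refine (Finset.abs_sum_le_sum_abs _ _).trans (Finset.sum_le_sum fun a _ => ?_)
        refine (Finset.abs_sum_le_sum_abs _ _).trans (Finset.sum_le_sum fun c _ => ?_)
        rw [abs_mul]
        exact mul_le_mul (hT a c) (hH c a) (abs_nonneg _) hs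
    _ = (n : ℝ) ^ 2 * (s * m) := by
        simp only [Finset.sum_const, Finset.card_univ, Fintype.card_fin, nsmul_eq_mul]
        ring

/-- one step of the induction, for a given cutoff function -/
private theorem cln_step (b : Module.Basis (Fin n) ℝ (E n)) {θ C0 c M : ℝ} (hθ : 0 < θ)
    (hC0 : 0 ≤ C0) (hc0 : 0 < c) {φ : E n → ℝ} (hφ : ContDiff ℝ ∞ φ) (hφ0 : ∀ x, 0 ≤ φ x)
    (hφ1 : ∀ x, φ x ≤ 1) (hφ2 : ∀ x, ‖x‖ ≤ 1 → φ x = 1) (hφ3 : ∀ x ∈ tsupport φ, ‖x‖ < 2)
    {m : ℝ} (hm : 0 ≤ m) (hφ4 : ∀ x a c, |hess φ x a c| ≤ m) {j : ℕ} (hj : 2 * (j + 1) ≤ n)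
    {w : E n → ℝ} (hw : Cls b θ C0 c M w) (y : E n) {r : ℝ} (hr : 0 < r) :
    ∫ x in Metric.ball y r, sig (j + 1) (hc w C0 x) ≤
      (|M| * (n : ℝ) ^ 3 * m * (r⁻¹) ^ 2 + C0 * n) *
        ∫ x in Metric.ball y (2 * r), sig j (hc w C0 x) := by
  obtain ⟨ψ, hψ⟩ : ∃ ψ : E n → ℝ, ψ = fun x => φ (r⁻¹ • (x - y)) := ⟨_, rfl⟩
  have hri : 0 < r⁻¹ := inv_pos.2 hr
  have hψs : ContDiff ℝ ∞ ψ := by
    rw [hψ]
    exact hφ.comp ((contDiff_id.sub contDiff_const).const_smul r⁻¹)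
  have hψ0 : ∀ x, 0 ≤ ψ x := fun x => by rw [hψ]; exact hφ0 _
  have hψ1 : ∀ x, ψ x ≤ 1 := fun x => by rw [hψ]; exact hφ1 _
  have hnorm : ∀ x : E n, ‖r⁻¹ • (x - y)‖ = r⁻¹ * dist x y := fun x => by
    rw [norm_smul, Real.norm_of_nonneg hri.le, dist_eq_norm]
  have hψ2 : ∀ x ∈ Metric.ball y r, ψ x = 1 := by
    intro x hx
    rw [Metric.mem_ball] at hx
    rw [hψ]
    refine hφ2 _ ?_
    rw [hnorm]
    rw [inv_mul_le_iff₀ hr, mul_one]
    exact hx.le
  have hin : ∀ x, r⁻¹ • (x - y) ∈ tsupport φ → x ∈ Metric.ball y (2 * r) := by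
    intro x hx
    have h1 := hφ3 _ hx
    rw [hnorm, inv_mul_lt_iff₀ hr] at h1
    rw [Metric.mem_ball]
    linarith
  have hψ3 : ∀ x, x ∉ Metric.ball y (2 * r) → ψ x = 0 := by
    intro x hx
    rw [hψ]
    exact image_eq_zero_of_notMem_tsupport fun h => hx (hin x h)
  have hh : ∀ x a c, hess ψ x a c = (r⁻¹) ^ 2 * hess φ (r⁻¹ • (x - y)) a c := fun x a c => by
    rw [hψ]
    exact hess_scale hφ y r⁻¹ x a c
  have hψ4 : ∀ x, x ∉ Metric.ball y (2 * r) → hess ψ x = 0 := by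
    intro x hx
    ext a c
    rw [hh, hess_zero (fun h => hx (hin x h)), mul_zero]
    rfl
  have hψ5 : ∀ x a c, |hess ψ x a c| ≤ m * (r⁻¹) ^ 2 := by
    intro x a c
    rw [hh, abs_mul, abs_of_nonneg (by positivity : 0 ≤ (r⁻¹) ^ 2), mul_comm]
    exact mul_le_mul_of_nonneg_right (hφ4 _ a c) (by positivity)
  have hcs : ∀ F : E n → ℝ, (∀ x, x ∉ Metric.ball y (2 * r) → F x = 0) → HasCompactSupport F := by
    intro F hF
    refine HasCompactSupport.of_support_subset_isCompact (isCompact_closedBall y (2 * r)) ?_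
    intro x hx
    by_contra h
    exact hx (hF x fun h' => h (Metric.ball_subset_closedBall h'))
  have hθ0 := hθ.le
  have hA : ∀ a l, ContDiff ℝ ∞ (fun x => hc w C0 x a l) := contDiff_hc hw.smooth C0
  have hT : ∀ a l, ContDiff ℝ ∞ (fun x => newt j (hc w C0 x) a l) := contDiff_newt hA j
  have hs0 : ∀ x, 0 ≤ sig j (hc w C0 x) := cls_sig_nonneg hθ0 hw (by omega)
  have hs1 : ∀ x, 0 ≤ sig (j + 1) (hc w C0 x) := cls_sig_nonneg hθ0 hw hj
  have hc1 : Continuous fun x => sig j (hc w C0 x) := cls_sig_cont hw j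
  have hc2 : Continuous fun x => sig (j + 1) (hc w C0 x) := cls_sig_cont hw (j + 1)
  have hψc := hψs.continuous
  -- integrability
  have hI1 : Integrable fun x => ψ x * sig (j + 1) (hc w C0 x) :=
    (hψc.mul hc2).integrable_of_hasCompactSupport (hcs _ fun x hx => by
      change ψ x * sig (j + 1) (hc w C0 x) = 0
      rw [hψ3 x hx, zero_mul])
  have hI2 : Integrable fun x => ψ x * sig j (hc w C0 x) :=
    (hψc.mul hc1).integrable_of_hasCompactSupport (hcs _ fun x hx => by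
      change ψ x * sig j (hc w C0 x) = 0
      rw [hψ3 x hx, zero_mul])
  have hI3 : Integrable fun x => ψ x * Matrix.trace (newt j (hc w C0 x) * hess w x) :=
    (hψc.mul (tr_cont (fun a l => (hT a l).continuous)
      (fun a l => (contDiff_hess hw.smooth a l).continuous))).integrable_of_hasCompactSupport
      (hcs _ fun x hx => by
        change ψ x * _ = 0
        rw [hψ3 x hx, zero_mul])
  have hI4 : Integrable fun x => w x * Matrix.trace (newt j (hc w C0 x) * hess ψ x) :=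
    (hw.smooth.continuous.mul (tr_cont (fun a l => (hT a l).continuous)
      (fun a l => (contDiff_hess hψs a l).continuous))).integrable_of_hasCompactSupport
      (hcs _ fun x hx => by
        change w x * Matrix.trace (newt j (hc w C0 x) * hess ψ x) = 0
        rw [hψ4 x hx, Matrix.mul_zero, Matrix.trace_zero, mul_zero])
  -- pointwise identity
  have hpt : ∀ x, ((j : ℝ) + 1) * (ψ x * sig (j + 1) (hc w C0 x)) =
      ψ x * Matrix.trace (newt j (hc w C0 x) * hess w x) +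
        C0 * ((n : ℝ) - j) * (ψ x * sig j (hc w C0 x)) := by
    intro x
    have h1 := trace_newt_mul j (hc w C0 x)
    have h2 : newt j (hc w C0 x) * hc w C0 x =
        newt j (hc w C0 x) * hess w x + C0 • newt j (hc w C0 x) := by
      conv_lhs => rw [show hc w C0 x = hess w x + C0 • (1 : Matrix (Fin n) (Fin n) ℝ) from rfl]
      rw [Matrix.mul_add, Matrix.mul_smul, Matrix.mul_one]
      rfl
    rw [h2, Matrix.trace_add, Matrix.trace_smul, trace_newt, smul_eq_mul] at h1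
    calc ((j : ℝ) + 1) * (ψ x * sig (j + 1) (hc w C0 x))
        = ψ x * (((j : ℝ) + 1) * sig (j + 1) (hc w C0 x)) := by ring
      _ = _ := by rw [← h1]; ring
  have hkey : ((j : ℝ) + 1) * ∫ x, ψ x * sig (j + 1) (hc w C0 x) =
      (∫ x, w x * Matrix.trace (newt j (hc w C0 x) * hess ψ x)) +
        C0 * ((n : ℝ) - j) * ∫ x, ψ x * sig j (hc w C0 x) := by
    rw [← integral_const_mul, ← integral_const_mul]
    simp only [hpt]
    rw [integral_add hI3 (hI2.const_mul _),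
      ibp_compact hT (fun x => newt_symm j (hc_symm hw.smooth C0 x))
        (fun l x => div_newt_hc hw.smooth C0 j l x) hψs hw.smooth
        (hcs _ fun x hx => hψ3 x hx)]
  -- estimates
  have hball : ∀ s : ℝ, IntegrableOn (fun x => sig j (hc w C0 x)) (Metric.ball y s) := fun s =>
    (hc1.continuousOn.integrableOn_compact (isCompact_closedBall y s)).mono_set
      Metric.ball_subset_closedBall
  have hest : (∫ x, w x * Matrix.trace (newt j (hc w C0 x) * hess ψ x)) +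
      C0 * ((n : ℝ) - j) * ∫ x, ψ x * sig j (hc w C0 x) ≤
      (|M| * (n : ℝ) ^ 3 * m * (r⁻¹) ^ 2 + C0 * n) *
        ∫ x in Metric.ball y (2 * r), sig j (hc w C0 x) := by
    rw [← integral_const_mul, ← integral_add hI4 (hI2.const_mul _), ← integral_const_mul,
      ← integral_indicator Metric.isOpen_ball.measurableSet]
    refine integral_mono (hI4.add (hI2.const_mul _))
      (IntegrableOn.integrable_indicator (Integrable.const_mul (hball (2 * r)) _)
        Metric.isOpen_ball.measurableSet)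
      fun x => ?_
    change w x * Matrix.trace (newt j (hc w C0 x) * hess ψ x) +
      C0 * ((n : ℝ) - j) * (ψ x * sig j (hc w C0 x)) ≤ _
    by_cases hx : x ∈ Metric.ball y (2 * r)
    · rw [Set.indicator_of_mem hx]
      have hwx0 : 0 < w x := hc0.trans_le (hw.lower x)
      have hwx : |w x| ≤ |M| := by
        rw [abs_of_pos hwx0]
        exact (hw.upper x).trans (le_abs_self M)
      have h1 := tr_bound (T := newt j (hc w C0 x)) (H := hess ψ x)
        (mul_nonneg (Nat.cast_nonneg n) (hs0 x))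
        (fun a l => abs_newt_entry (hc_symm hw.smooth C0 x) (cls_pair0 hθ0 hw x) (by omega) a l)
        (fun a l => hψ5 x a l)
      have h2 : w x * Matrix.trace (newt j (hc w C0 x) * hess ψ x) ≤
          |M| * ((n : ℝ) ^ 2 * ((n : ℝ) * sig j (hc w C0 x) * (m * (r⁻¹) ^ 2))) := by
        refine (le_abs_self _).trans ?_
        rw [abs_mul]
        exact mul_le_mul hwx h1 (abs_nonneg _) (abs_nonneg _)
      have h3 : C0 * ((n : ℝ) - j) * (ψ x * sig j (hc w C0 x)) ≤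
          C0 * n * sig j (hc w C0 x) := by
        have h4 : (n : ℝ) - j ≤ n := by linarith [Nat.cast_nonneg (α := ℝ) j]
        have h5 : ψ x * sig j (hc w C0 x) ≤ 1 * sig j (hc w C0 x) :=
          mul_le_mul_of_nonneg_right (hψ1 x) (hs0 x)
        have h6 : 0 ≤ ψ x * sig j (hc w C0 x) := mul_nonneg (hψ0 x) (hs0 x)
        calc C0 * ((n : ℝ) - j) * (ψ x * sig j (hc w C0 x))
            ≤ C0 * n * (ψ x * sig j (hc w C0 x)) :=
              mul_le_mul_of_nonneg_right (mul_le_mul_of_nonneg_left h4 hC0) h6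
          _ ≤ C0 * n * (1 * sig j (hc w C0 x)) :=
              mul_le_mul_of_nonneg_left h5 (mul_nonneg hC0 (Nat.cast_nonneg n))
          _ = _ := by rw [one_mul]
      calc _ ≤ |M| * ((n : ℝ) ^ 2 * ((n : ℝ) * sig j (hc w C0 x) * (m * (r⁻¹) ^ 2))) +
            C0 * n * sig j (hc w C0 x) := add_le_add h2 h3
        _ = _ := by ring
    · rw [Set.indicator_of_notMem hx, hψ3 x hx, hψ4 x hx, Matrix.mul_zero, Matrix.trace_zero,
        mul_zero, zero_mul, mul_zero, add_zero]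
  have hleft : ∫ x in Metric.ball y r, sig (j + 1) (hc w C0 x) ≤
      ∫ x, ψ x * sig (j + 1) (hc w C0 x) := by
    have h1 : ∫ x in Metric.ball y r, sig (j + 1) (hc w C0 x) =
        ∫ x in Metric.ball y r, ψ x * sig (j + 1) (hc w C0 x) := by
      refine setIntegral_congr_fun Metric.isOpen_ball.measurableSet fun x hx => ?_
      change _ = ψ x * sig (j + 1) (hc w C0 x)
      rw [hψ2 x hx, one_mul]
    rw [h1]
    exact setIntegral_le_integral hI1 (Filter.Eventually.of_forall fun x =>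
      mul_nonneg (hψ0 x) (hs1 x))
  have h0 : 0 ≤ ∫ x, ψ x * sig (j + 1) (hc w C0 x) :=
    integral_nonneg fun x => mul_nonneg (hψ0 x) (hs1 x)
  have hj1 : (1 : ℝ) ≤ (j : ℝ) + 1 := by linarith [Nat.cast_nonneg (α := ℝ) j]
  calc _ ≤ ∫ x, ψ x * sig (j + 1) (hc w C0 x) := hleft
    _ ≤ ((j : ℝ) + 1) * ∫ x, ψ x * sig (j + 1) (hc w C0 x) := by nlinarith
    _ ≤ _ := by rw [hkey]; exact hest

private theorem cln_one (b : Module.Basis (Fin n) ℝ (E n)) {θ C0 c M : ℝ} (hθ : 0 < θ)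
    (hC0 : 0 ≤ C0) (hc0 : 0 < c) (j : ℕ) (hj : 2 * j ≤ n) : ∀ R : ℝ,
    ∃ K : ℝ, 0 ≤ K ∧ ∀ w : E n → ℝ, Cls b θ C0 c M w → ∀ (y : E n) (r : ℝ), 0 < r → r ≤ R →
      ∫ x in Metric.ball y r, sig j (hc w C0 x) ≤ K * r ^ (n - 2 * j) := by
  induction j with
  | zero =>
    intro R
    refine ⟨volume.real (Metric.ball (0 : E n) 1), measureReal_nonneg, fun w hw y r hr _ => ?_⟩
    simp only [sig_zero]
    rw [setIntegral_const, smul_eq_mul, mul_one, mul_zero, Nat.sub_zero, measureReal_def,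
      measureReal_def, Measure.addHaar_ball_of_pos volume y hr, ENNReal.toReal_mul,
      ENNReal.toReal_ofReal (by positivity), finrank_euclideanSpace, Fintype.card_fin, mul_comm]
  | succ j ih =>
    intro R
    obtain ⟨K, hK, h⟩ := ih (by omega) (2 * R)
    obtain ⟨φ, hφ, hφ0, hφ1, hφ2, hφ3, m, hm, hφ4⟩ := cut_exists n
    refine ⟨(4 * (|M| * (n : ℝ) ^ 3 * m) + 4 * (C0 * n * R ^ 2)) * (K * 2 ^ n), by positivity,
      fun w hw y r hr hrR => ?_⟩
    have h1 := cln_step b hθ hC0 hc0 hφ hφ0 hφ1 hφ2 hφ3 hm hφ4 hj hw y hr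
    have h2 := h w hw y (2 * r) (by linarith) (by linarith)
    have h3 : 0 ≤ |M| * (n : ℝ) ^ 3 * m * (r⁻¹) ^ 2 + C0 * n := by positivity
    obtain ⟨p, hp⟩ : ∃ p, n - 2 * j = p + 2 := ⟨n - 2 * (j + 1), by omega⟩
    have hp' : n - 2 * (j + 1) = p := by omega
    rw [hp] at h2
    rw [hp']
    have h4 : (2 : ℝ) ^ p ≤ 2 ^ n := pow_le_pow_right₀ (by norm_num) (by omega)
    have h5 : r ^ 2 ≤ R ^ 2 := pow_le_pow_left₀ hr.le hrR 2
    have h6 : (r⁻¹) ^ 2 * r ^ 2 = 1 := by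
      rw [← mul_pow, inv_mul_cancel₀ hr.ne', one_pow]
    calc ∫ x in Metric.ball y r, sig (j + 1) (hc w C0 x)
        ≤ (|M| * (n : ℝ) ^ 3 * m * (r⁻¹) ^ 2 + C0 * n) * (K * (2 * r) ^ (p + 2)) :=
          h1.trans (mul_le_mul_of_nonneg_left h2 h3)
      _ = (4 * (|M| * (n : ℝ) ^ 3 * m * ((r⁻¹) ^ 2 * r ^ 2)) + 4 * (C0 * n * r ^ 2)) *
            (K * 2 ^ p) * r ^ p := by rw [pow_add, mul_pow, mul_pow]; ring
      _ = (4 * (|M| * (n : ℝ) ^ 3 * m) + 4 * (C0 * n * r ^ 2)) * (K * 2 ^ p) * r ^ p := by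
          rw [h6, mul_one]
      _ ≤ (4 * (|M| * (n : ℝ) ^ 3 * m) + 4 * (C0 * n * R ^ 2)) * (K * 2 ^ n) * r ^ p := by
          gcongr

theorem cln (b : Module.Basis (Fin n) ℝ (E n)) {θ C0 c M : ℝ} (hθ : 0 < θ) (hC0 : 0 ≤ C0)
    (hc0 : 0 < c) {k : ℕ} (hk : 2 * k ≤ n) (R : ℝ) :
    ∃ K : ℝ, 0 ≤ K ∧ ∀ w : E n → ℝ, Cls b θ C0 c M w → ∀ (y : E n) (r : ℝ), 0 < r → r ≤ R →
      ∀ j ≤ k, ∫ x in Metric.ball y r, sig j (hc w C0 x) ≤ K * r ^ (n - 2 * j) := by
  have h1 : ∀ j : ℕ, ∃ K : ℝ, 0 ≤ K ∧ (2 * j ≤ n → ∀ w : E n → ℝ, Cls b θ C0 c M w →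
      ∀ (y : E n) (r : ℝ), 0 < r → r ≤ R →
      ∫ x in Metric.ball y r, sig j (hc w C0 x) ≤ K * r ^ (n - 2 * j)) := by
    intro j
    by_cases hj : 2 * j ≤ n
    · obtain ⟨K, hK, h⟩ := cln_one b hθ hC0 hc0 (M := M) j hj R
      exact ⟨K, hK, fun _ => h⟩
    · exact ⟨0, le_rfl, fun h => absurd h hj⟩
  choose K hK h using h1
  refine ⟨∑ j ∈ Finset.range (k + 1), K j, Finset.sum_nonneg fun j _ => hK j,
    fun w hw y r hr hrR j hj => ?_⟩
  refine (h j (by omega) w hw y r hr hrR).trans ?_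
  refine mul_le_mul_of_nonneg_right ?_ (by positivity)
  exact Finset.single_le_sum (f := K) (fun i _ => hK i) (Finset.mem_range.2 (by omega))

end H68.CF
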