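import Pool.Agent.H68.CF.Defs

/-!
# [H68 CF EsPos] Positivity of elementary symmetric functions (Mathlib only, does not use `Defs`)

Let `d_i + d_l ≥ 0` for all `i ≠ l` in the finite set `s` and `2 j ≤ |s|`. Then
`e_j(s) := ∑_{t ⊂ s, |t| = j} ∏_{i ∈ t} d_i ≥ 0`.

Proof. If all `d_i ≥ 0` on `s` this is clear. Otherwise some `i₀ ∈ s` has `d_{i₀} = -a < 0`; all
other `l ∈ s` have `d_l ≥ a > 0`. Put `s' = s.erase i₀`, `|s'| = |s| - 1`. For `j = 0` the claim
is `1 ≥ 0`; let `j ≥ 1`. Then `e_j(s) = e_j(s') - a e_{j-1}(s')`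
(`Finset.powersetCard_succ_insert`). Further
`j e_j(s') = ∑_{i ∈ s'} d_i e_{j-1}(s' \ i) ≥ a ∑_{i ∈ s'} e_{j-1}(s' \ i)
 = a (|s'| - (j-1)) e_{j-1}(s')` (count pairs `(i, t)`, `i ∉ t`; all terms are `≥ 0` since
`d > 0` on `s'`). So `j e_j(s) ≥ a (|s| - j) e_{j-1}(s') - a j e_{j-1}(s')
 = a (|s| - 2 j) e_{j-1}(s') ≥ 0`.

Hint for the counting: direct double counting of pairs; e.g.
`j e_j(s') = ∑_{t, |t| = j} ∑_{i ∈ t} d_i ∏_{l ∈ t \ i} d_l` and the bijection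
`(t, i) ↔ (t \ i, i)` (`Finset.sum_sigma'`, `Finset.sum_bij'`), then
`∑_{(u,i), |u| = j-1, u ⊂ s', i ∈ s' \ u} d_i ∏_u d ≥ ∑_u a (|s'| - (j-1)) ∏_u d`.
-/

open MeasureTheory Set Filter Topology Matrix Polynomial
open scoped ContDiff NNReal

noncomputable section

namespace H68.CF

private theorem esp_split {ι : Type*} [DecidableEq ι] (s : Finset ι) (d : ι → ℝ) {i : ι}
    (hi : i ∈ s) (j : ℕ) :
    ∑ t ∈ s.powersetCard (j + 1), ∏ l ∈ t, d l =
      ∑ t ∈ (s.erase i).powersetCard (j + 1), ∏ l ∈ t, d l +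
        d i * ∑ t ∈ (s.erase i).powersetCard j, ∏ l ∈ t, d l := by
  have hni : i ∉ s.erase i := Finset.notMem_erase i s
  have hsub : ∀ m : ℕ, ∀ t ∈ (s.erase i).powersetCard m, i ∉ t := by
    intro m t ht hit
    exact hni ((Finset.mem_powersetCard.1 ht).1 hit)
  conv_lhs => rw [← Finset.insert_erase hi]
  rw [Finset.powersetCard_succ_insert hni, Finset.sum_union]
  · congr 1
    rw [Finset.sum_image, Finset.mul_sum]
    · refine Finset.sum_congr rfl fun t ht => ?_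
      rw [Finset.prod_insert (hsub _ t ht)]
    · intro t ht u hu htu
      have h1 := hsub _ t ht
      have h2 := hsub _ u hu
      have h3 : (insert i t).erase i = (insert i u).erase i := by
        rw [htu]
      rwa [Finset.erase_insert h1, Finset.erase_insert h2] at h3
  · rw [Finset.disjoint_left]
    intro t ht ht2
    obtain ⟨u, -, rfl⟩ := Finset.mem_image.1 ht2
    exact hsub _ _ ht (Finset.mem_insert_self i u)

private theorem esp_count {ι : Type*} [DecidableEq ι] (s : Finset ι) (d : ι → ℝ) (j : ℕ) :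
    ((j : ℝ) + 1) * ∑ t ∈ s.powersetCard (j + 1), ∏ l ∈ t, d l =
      ∑ u ∈ s.powersetCard j, ∑ i ∈ s \ u, d i * ∏ l ∈ u, d l := by
  have h1 : ((j : ℝ) + 1) * ∑ t ∈ s.powersetCard (j + 1), ∏ l ∈ t, d l =
      ∑ t ∈ s.powersetCard (j + 1), ∑ i ∈ t, d i * ∏ l ∈ t.erase i, d l := by
    rw [Finset.mul_sum]
    refine Finset.sum_congr rfl fun t ht => ?_
    have h2 : ∀ i ∈ t, d i * ∏ l ∈ t.erase i, d l = ∏ l ∈ t, d l := fun i hi =>
      Finset.mul_prod_erase t d hi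
    rw [Finset.sum_congr rfl h2, Finset.sum_const, (Finset.mem_powersetCard.1 ht).2,
      nsmul_eq_mul]
    push_cast
    rfl
  rw [h1, Finset.sum_sigma', Finset.sum_sigma']
  refine Finset.sum_bij' (fun x _ => ⟨x.1.erase x.2, x.2⟩) (fun x _ => ⟨insert x.2 x.1, x.2⟩)
    ?_ ?_ ?_ ?_ ?_
  · rintro ⟨t, i⟩ h
    simp only [Finset.mem_sigma, Finset.mem_powersetCard, Finset.mem_sdiff] at h ⊢
    obtain ⟨⟨h2, h3⟩, h4⟩ := h
    refine ⟨⟨(Finset.erase_subset _ _).trans h2, ?_⟩, h2 h4, Finset.notMem_erase _ _⟩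
    rw [Finset.card_erase_of_mem h4, h3]
    omega
  · rintro ⟨u, i⟩ h
    simp only [Finset.mem_sigma, Finset.mem_powersetCard, Finset.mem_sdiff] at h ⊢
    obtain ⟨⟨h2, h3⟩, h4, h5⟩ := h
    refine ⟨⟨Finset.insert_subset h4 h2, ?_⟩, Finset.mem_insert_self _ _⟩
    rw [Finset.card_insert_of_notMem h5, h3]
  · rintro ⟨t, i⟩ h
    simp only [Finset.mem_sigma, Finset.mem_powersetCard] at h
    simp only [Finset.insert_erase h.2]
  · rintro ⟨u, i⟩ h
    simp only [Finset.mem_sigma, Finset.mem_powersetCard, Finset.mem_sdiff] at h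
    simp only [Finset.erase_insert h.2.2]
  · rintro ⟨t, i⟩ h
    rfl

theorem es_nonneg {ι : Type*} [DecidableEq ι] (s : Finset ι) (d : ι → ℝ)
    (h : ∀ i ∈ s, ∀ l ∈ s, i ≠ l → 0 ≤ d i + d l) (j : ℕ) (hj : 2 * j ≤ s.card) :
    0 ≤ ∑ t ∈ s.powersetCard j, ∏ i ∈ t, d i := by
  by_cases hall : ∀ i ∈ s, 0 ≤ d i
  · refine Finset.sum_nonneg fun t ht => Finset.prod_nonneg fun i hi => hall i ?_
    exact (Finset.mem_powersetCard.1 ht).1 hi
  push Not at hall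
  obtain ⟨i₀, hi₀, hneg⟩ := hall
  rcases j with _ | j
  · simp
  obtain ⟨a, ha⟩ : ∃ a : ℝ, a = -d i₀ := ⟨_, rfl⟩
  have ha0 : 0 < a := by rw [ha]; linarith
  have hd : ∀ l ∈ s.erase i₀, a ≤ d l := by
    intro l hl
    have h1 := h i₀ hi₀ l (Finset.mem_of_mem_erase hl) (Finset.ne_of_mem_erase hl).symm
    rw [ha]
    linarith
  have hd0 : ∀ l ∈ s.erase i₀, 0 ≤ d l := fun l hl => ha0.le.trans (hd l hl)
  rw [esp_split s d hi₀ j]
  have hcard : (s.erase i₀).card = s.card - 1 := Finset.card_erase_of_mem hi₀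
  have hs1 : 1 ≤ s.card := Finset.card_pos.2 ⟨i₀, hi₀⟩
  set e' : ℝ := ∑ t ∈ (s.erase i₀).powersetCard j, ∏ l ∈ t, d l with he'
  have he'0 : 0 ≤ e' := Finset.sum_nonneg fun t ht => Finset.prod_nonneg fun l hl =>
    hd0 l ((Finset.mem_powersetCard.1 ht).1 hl)
  have h1 : ((j : ℝ) + 1) * ∑ t ∈ (s.erase i₀).powersetCard (j + 1), ∏ l ∈ t, d l ≥
      a * ((s.card : ℝ) - 1 - j) * e' := by
    rw [esp_count, he', Finset.mul_sum]
    refine Finset.sum_le_sum fun u hu => ?_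
    obtain ⟨hu1, hu2⟩ := Finset.mem_powersetCard.1 hu
    have hp : 0 ≤ ∏ l ∈ u, d l := Finset.prod_nonneg fun l hl => hd0 l (hu1 hl)
    have h2 : ∑ i ∈ s.erase i₀ \ u, a * ∏ l ∈ u, d l ≤
        ∑ i ∈ s.erase i₀ \ u, d i * ∏ l ∈ u, d l := by
      refine Finset.sum_le_sum fun i hi => ?_
      exact mul_le_mul_of_nonneg_right (hd i (Finset.mem_sdiff.1 hi).1) hp
    refine le_trans (le_of_eq ?_) h2
    rw [Finset.sum_const, Finset.card_sdiff_of_subset hu1, hcard, hu2, nsmul_eq_mul]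
    have h3 : ((s.card - 1 - j : ℕ) : ℝ) = (s.card : ℝ) - 1 - j := by
      have h4 : j ≤ s.card - 1 := by
        have := Finset.card_le_card hu1
        omega
      rw [Nat.cast_sub h4, Nat.cast_sub hs1, Nat.cast_one]
    rw [h3]
    ring
  have h5 : (2 : ℝ) * (j + 1) ≤ s.card := by exact_mod_cast hj
  have h6 : d i₀ = -a := by rw [ha]; ring
  rw [h6]
  have h7 : 0 < (j : ℝ) + 1 := by positivity
  have h8 : a * ((j : ℝ) + 1) * e' ≤ a * ((s.card : ℝ) - 1 - j) * e' := by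
    apply mul_le_mul_of_nonneg_right _ he'0
    apply mul_le_mul_of_nonneg_left _ ha0.le
    linarith
  have h9 : ((j : ℝ) + 1) * (a * e') ≤
      ((j : ℝ) + 1) * ∑ t ∈ (s.erase i₀).powersetCard (j + 1), ∏ l ∈ t, d l := by
    linarith
  have h10 := le_of_mul_le_mul_left h9 h7
  linarith

end H68.CF
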