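import Pool.Agent.H68.CF.SigAlg

/-!
# [H68 CF SigDiag] Diagonal matrices and the spectral theorem

* `sig_diagonal`: from `Matrix.coeff_det_one_add_X_smul_eq_sum_minors` (the definition of `sig` is
  literally its left side) and `Matrix.det_diagonal` for the submatrices of `diagonal d`
  (`Matrix.submatrix_diagonal`, injective), `Finset.prod_coe_sort`.
* `newt_diagonal`: induction on `j` with `newt_zero`, `newt_succ`; the induction step is
  `e_{j+1}(d) = e_{j+1}(d without i) + d_i e_j(d without i)`, that is
  `Finset.powersetCard` of `insert i (univ.erase i)` (`Finset.powersetCard_succ_insert`).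
* `exists_diag`: the spectral theorem for symmetric real matrices
  (`Matrix.IsHermitian.spectral_theorem`, `A.IsSymm` is `A.IsHermitian` over `ℝ`,
  `U` the eigenvector unitary).
-/

open MeasureTheory Set Filter Topology Matrix Polynomial
open scoped ContDiff NNReal

noncomputable section

namespace H68.CF

variable {n : ℕ}

private theorem sd_split {ι : Type*} [DecidableEq ι] (s : Finset ι) (d : ι → ℝ) {i : ι}
    (hi : i ∈ s) (j : ℕ) :
    ∑ t ∈ s.powersetCard (j + 1), ∏ l ∈ t, d l =
      ∑ t ∈ (s.erase i).powersetCard (j + 1), ∏ l ∈ t, d l +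
        d i * ∑ t ∈ (s.erase i).powersetCard j, ∏ l ∈ t, d l := by
  have hni : i ∉ s.erase i := Finset.notMem_erase i s
  have hsub : ∀ m : ℕ, ∀ t ∈ (s.erase i).powersetCard m, i ∉ t := by
    intro m t ht hit
    exact hni ((Finset.mem_powersetCard.1 ht).1 hit)
  conv_lhs => rw [← Finset.insert_erase hi]
  rw [Finset.powersetCard_succ_insert hni, Finset.sum_union]
  · congr 1
    rw [Finset.sum_image, Finset.mul_sum]
    · refine Finset.sum_congr rfl fun t ht => ?_
      rw [Finset.prod_insert (hsub _ t ht)]
    · intro t ht u hu htu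
      have h1 := hsub _ t ht
      have h2 := hsub _ u hu
      have h3 : (insert i t).erase i = (insert i u).erase i := by
        rw [htu]
      rwa [Finset.erase_insert h1, Finset.erase_insert h2] at h3
  · rw [Finset.disjoint_left]
    intro t ht ht2
    obtain ⟨u, -, rfl⟩ := Finset.mem_image.1 ht2
    exact hsub _ _ ht (Finset.mem_insert_self i u)

theorem sig_diagonal (j : ℕ) (d : Fin n → ℝ) :
    sig j (Matrix.diagonal d) =
      ∑ s ∈ (Finset.univ : Finset (Fin n)).powersetCard j, ∏ i ∈ s, d i := by
  unfold sig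
  rw [Matrix.coeff_det_one_add_X_smul_eq_sum_minors]
  refine Finset.sum_congr rfl fun t _ => ?_
  rw [Matrix.submatrix_diagonal d _ Subtype.val_injective, Matrix.det_diagonal]
  exact Finset.prod_coe_sort t d

theorem newt_diagonal (j : ℕ) (d : Fin n → ℝ) :
    newt j (Matrix.diagonal d) =
      Matrix.diagonal (fun i =>
        ∑ s ∈ ((Finset.univ : Finset (Fin n)).erase i).powersetCard j, ∏ l ∈ s, d l) := by
  induction j with
  | zero =>
    rw [newt_zero]
    simp
  | succ j ih =>
    rw [newt_succ, ih, sig_diagonal, Matrix.diagonal_mul_diagonal, ← Matrix.diagonal_one,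
      ← Matrix.diagonal_smul, Matrix.diagonal_sub]
    congr 1
    funext i
    rw [Pi.smul_apply, smul_eq_mul, mul_one, sd_split Finset.univ d (Finset.mem_univ i) j]
    ring

theorem exists_diag {A : Matrix (Fin n) (Fin n) ℝ} (hA : A.IsSymm) :
    ∃ (U : Matrix (Fin n) (Fin n) ℝ) (d : Fin n → ℝ),
      U * Uᵀ = 1 ∧ Uᵀ * U = 1 ∧ A = U * Matrix.diagonal d * Uᵀ := by
  have hH : A.IsHermitian := by
    unfold Matrix.IsHermitian
    rw [Matrix.conjTranspose_eq_transpose_of_trivial]
    exact hA
  have hst : star (hH.eigenvectorUnitary : Matrix (Fin n) (Fin n) ℝ) =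
      (hH.eigenvectorUnitary : Matrix (Fin n) (Fin n) ℝ)ᵀ := by
    rw [Matrix.star_eq_conjTranspose, Matrix.conjTranspose_eq_transpose_of_trivial]
  refine ⟨hH.eigenvectorUnitary, hH.eigenvalues, ?_, ?_, ?_⟩
  · rw [← hst]
    exact Unitary.coe_mul_star_self hH.eigenvectorUnitary
  · rw [← hst]
    exact Unitary.coe_star_mul_self hH.eigenvectorUnitary
  · rw [← hst]
    have h1 := hH.spectral_theorem
    exact h1

end H68.CF
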