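import Pool.Agent.H68.CF.SigDer
import Pool.Agent.H68.CF.SigDiag
import Pool.Agent.H68.CF.EsPos

/-!
# [H68 CF MatPos] Positivity of `sig j A` and of the Newton tensors for pair-positive matrices

`PairGe A 0` says `A(u,u) + A(v,v) ≥ 0` for orthonormal `u, v`. Write `A = U diag(d) Uᵀ`
(`exists_diag`). The columns of `U` are orthonormal, so `PairGe A 0` gives `d_i + d_l ≥ 0` for
`i ≠ l` (take `u = U e_i`, `v = U e_l`, `A u = d_i u`).

* `sig_nonneg`: `sig_conj`, `sig_diagonal`, `es_nonneg` on `univ`.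
* `newt_psd`: `newt j A = U diag(e_j(d without i)) Uᵀ` (`newt_conj`, `newt_diagonal`) and
  `es_nonneg` on `univ.erase i` (cardinality `n - 1 ≥ 2 j`).
* `newt_le`: a positive semidefinite symmetric matrix `T` satisfies `uᵀ T u ≤ (trace T) |u|²`
  (with `T = U diag(t) Uᵀ`, `t ≥ 0`: `uᵀ T u = ∑ t_i (Uᵀu)_i² ≤ (∑ t_i) |u|²`), and
  `trace_newt`.
* `newt_bilin`: Cauchy-Schwarz for the semidefinite form and `newt_le`.
* `abs_newt_entry`: `newt_bilin` for `u = e_a`, `v = e_b`, and `(n - j) sig ≤ n sig`.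
* `newt_form_nonneg` is a consequence used later: it is `newt_psd`.
-/

open MeasureTheory Set Filter Topology Matrix Polynomial
open scoped ContDiff NNReal

noncomputable section

namespace H68.CF

variable {n : ℕ}

private theorem mp_pair {A U : Matrix (Fin n) (Fin n) ℝ} {d : Fin n → ℝ} (hUU : Uᵀ * U = 1)
    (hA : A = U * Matrix.diagonal d * Uᵀ) (hp : PairGe A 0) {i l : Fin n} (hil : i ≠ l) :
    0 ≤ d i + d l := by
  have h1 : ∀ a b, (fun x => U x a) ⬝ᵥ (fun x => U x b) =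
      (1 : Matrix (Fin n) (Fin n) ℝ) a b := by
    intro a b
    rw [← hUU]
    rfl
  have h2 : ∀ a, (fun x => U x a) ⬝ᵥ (A *ᵥ (fun x => U x a)) = d a := by
    intro a
    have e1 : (fun x => U x a) ⬝ᵥ (A *ᵥ (fun x => U x a)) = (Uᵀ * (A * U)) a a := rfl
    have e2 : Uᵀ * (U * Matrix.diagonal d * Uᵀ * U) = Matrix.diagonal d := by
      rw [Matrix.mul_assoc (U * Matrix.diagonal d), hUU, Matrix.mul_one, ← Matrix.mul_assoc, hUU,
        Matrix.one_mul]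
    rw [e1, hA, e2, Matrix.diagonal_apply_eq]
  have h3 := hp _ _ ((h1 i i).trans (Matrix.one_apply_eq i))
    ((h1 l l).trans (Matrix.one_apply_eq l)) ((h1 i l).trans (Matrix.one_apply_ne hil))
  rw [h2, h2] at h3
  linarith

private theorem mp_form {A : Matrix (Fin n) (Fin n) ℝ} (hA : A.IsSymm) (hp : PairGe A 0) {j : ℕ}
    (hj : 2 * j + 1 ≤ n) :
    ∃ (W : (Fin n → ℝ) → Fin n → ℝ) (e : Fin n → ℝ), (∀ i, 0 ≤ e i) ∧
      ∑ i, e i = ((n : ℝ) - j) * sig j A ∧ (∀ u, ∑ i, W u i * W u i = u ⬝ᵥ u) ∧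
      ∀ u v, u ⬝ᵥ (newt j A *ᵥ v) = ∑ i, e i * (W u i * W v i) := by
  obtain ⟨U, d, h1, h2, h3⟩ := exists_diag hA
  let e : Fin n → ℝ := fun i =>
    ∑ s ∈ ((Finset.univ : Finset (Fin n)).erase i).powersetCard j, ∏ l ∈ s, d l
  have hN : newt j A = U * Matrix.diagonal e * Uᵀ := by
    conv_lhs => rw [h3]
    rw [newt_conj j _ h1, newt_diagonal]
  refine ⟨fun u => Uᵀ *ᵥ u, e, fun i => ?_, ?_, fun u => ?_, fun u v => ?_⟩
  · apply es_nonneg
    · intro a _ b _ hab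
      exact mp_pair h2 h3 hp hab
    · rw [Finset.card_erase_of_mem (Finset.mem_univ i), Finset.card_univ, Fintype.card_fin]
      omega
  · rw [← trace_newt, hN, Matrix.trace_mul_comm, ← Matrix.mul_assoc, h2, Matrix.one_mul,
      Matrix.trace_diagonal]
  · have e1 : (Uᵀ *ᵥ u) ⬝ᵥ (Uᵀ *ᵥ u) = u ⬝ᵥ u := by
      rw [Matrix.dotProduct_mulVec, Matrix.vecMul_transpose, Matrix.mulVec_mulVec, h1,
        Matrix.one_mulVec]
    exact e1
  · rw [hN, ← Matrix.mulVec_mulVec, ← Matrix.mulVec_mulVec, Matrix.dotProduct_mulVec,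
      ← Matrix.mulVec_transpose]
    refine Finset.sum_congr rfl fun i _ => ?_
    rw [Matrix.mulVec_diagonal]
    ring

theorem sig_nonneg {A : Matrix (Fin n) (Fin n) ℝ} (hA : A.IsSymm) (hp : PairGe A 0) {j : ℕ}
    (hj : 2 * j ≤ n) : 0 ≤ sig j A := by
  obtain ⟨U, d, h1, h2, h3⟩ := exists_diag hA
  rw [h3, sig_conj j _ h1, sig_diagonal]
  apply es_nonneg
  · intro a _ b _ hab
    exact mp_pair h2 h3 hp hab
  · rw [Finset.card_univ, Fintype.card_fin]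
    exact hj

theorem newt_psd {A : Matrix (Fin n) (Fin n) ℝ} (hA : A.IsSymm) (hp : PairGe A 0) {j : ℕ}
    (hj : 2 * j + 1 ≤ n) (u : Fin n → ℝ) : 0 ≤ u ⬝ᵥ (newt j A *ᵥ u) := by
  obtain ⟨W, e, he, _, _, h4⟩ := mp_form hA hp hj
  rw [h4]
  exact Finset.sum_nonneg fun i _ => mul_nonneg (he i) (mul_self_nonneg _)

theorem newt_bilin {A : Matrix (Fin n) (Fin n) ℝ} (hA : A.IsSymm) (hp : PairGe A 0) {j : ℕ}
    (hj : 2 * j + 1 ≤ n) (u v : Fin n → ℝ) :
    |u ⬝ᵥ (newt j A *ᵥ v)| ≤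
      ((n : ℝ) - j) * sig j A * (Real.sqrt (u ⬝ᵥ u) * Real.sqrt (v ⬝ᵥ v)) := by
  obtain ⟨W, e, he, h2, h3, h4⟩ := mp_form hA hp hj
  have hW : ∀ w i, |W w i| ≤ Real.sqrt (w ⬝ᵥ w) := by
    intro w i
    apply Real.abs_le_sqrt
    rw [← h3 w, pow_two]
    exact Finset.single_le_sum (f := fun i => W w i * W w i) (fun _ _ => mul_self_nonneg _)
      (Finset.mem_univ i)
  rw [h4, ← h2, Finset.sum_mul]
  refine (Finset.abs_sum_le_sum_abs _ _).trans (Finset.sum_le_sum fun i _ => ?_)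
  rw [abs_mul, abs_of_nonneg (he i), abs_mul]
  exact mul_le_mul_of_nonneg_left
    (mul_le_mul (hW u i) (hW v i) (abs_nonneg _) (Real.sqrt_nonneg _)) (he i)

theorem newt_le {A : Matrix (Fin n) (Fin n) ℝ} (hA : A.IsSymm) (hp : PairGe A 0) {j : ℕ}
    (hj : 2 * j + 1 ≤ n) (u : Fin n → ℝ) :
    u ⬝ᵥ (newt j A *ᵥ u) ≤ ((n : ℝ) - j) * sig j A * (u ⬝ᵥ u) := by
  have h1 := (le_abs_self _).trans (newt_bilin hA hp hj u u)
  have h2 : 0 ≤ u ⬝ᵥ u := Finset.sum_nonneg fun i _ => mul_self_nonneg _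
  rwa [Real.mul_self_sqrt h2] at h1

theorem abs_newt_entry {A : Matrix (Fin n) (Fin n) ℝ} (hA : A.IsSymm) (hp : PairGe A 0) {j : ℕ}
    (hj : 2 * j + 1 ≤ n) (a c : Fin n) : |newt j A a c| ≤ (n : ℝ) * sig j A := by
  have h1 := newt_bilin hA hp hj (Pi.single a 1) (Pi.single c 1)
  have h2 : Pi.single a 1 ⬝ᵥ (newt j A *ᵥ Pi.single c 1) = newt j A a c := by
    simp
  have h3 : ∀ x : Fin n, (Pi.single x (1 : ℝ) : Fin n → ℝ) ⬝ᵥ Pi.single x 1 = 1 := by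
    intro x
    simp
  rw [h2, h3, h3, Real.sqrt_one, mul_one, mul_one] at h1
  have h4 := sig_nonneg hA hp (j := j) (by omega)
  have h5 : ((n : ℝ) - j) * sig j A ≤ (n : ℝ) * sig j A :=
    mul_le_mul_of_nonneg_right (by linarith [Nat.cast_nonneg (α := ℝ) j]) h4
  exact h1.trans h5

end H68.CF
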