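import Pool.Agent.H68.CF.Shift
import Pool.Agent.H68.CF.MatPos

/-!
# [H68 CF Dom] `s · sig j A ≤ (j+1) sig (j+1) A` if `A(u,u) + A(v,v) ≥ 2 s`

Let `B = A - s 1`; it is symmetric and `PairGe B 0`, so `sig i B ≥ 0` for `2 i ≤ n`
(`sig_nonneg`). By `sig_add_smul_one`
`sig j A = ∑_{i ≤ j} binom(n-i, j-i) s^(j-i) sig i B`,
`sig (j+1) A = ∑_{i ≤ j+1} binom(n-i, j+1-i) s^(j+1-i) sig i B`, and for `i ≤ j`
`(j+1) binom(n-i, j+1-i) ≥ (j+1-i) binom(n-i, j+1-i) = (n-j) binom(n-i, j-i) ≥ binom(n-i, j-i)`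
(`Nat.choose_succ_right_eq`; `n - j ≥ 1`). All terms being `≥ 0`, the claim follows (drop the
term `i = j+1`).

`dom_pow` by induction on `p`: `s^(p+1) sig (k-p-1) A ≤ s^p (k-p) sig (k-p) A ≤ k s^p sig (k-p) A`.
(`p ≤ k`.) `pair_mono`: if `PairGe A s` and `s' ≤ s` then `PairGe A s'`.
-/

open MeasureTheory Set Filter Topology Matrix Polynomial
open scoped ContDiff NNReal

noncomputable section

namespace H68.CF

variable {n : ℕ}

theorem pair_mono {A : Matrix (Fin n) (Fin n) ℝ} {s s' : ℝ} (h : PairGe A s) (hs : s' ≤ s) :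
    PairGe A s' := by
  intro u v hu hv huv
  have := h u v hu hv huv
  linarith

private theorem choose_dom {N k m : ℕ} (hk : k < N) (hm : k + 1 ≤ m) :
    N.choose k ≤ m * N.choose (k + 1) := by
  have h1 := Nat.choose_succ_right_eq N k
  have h2 : 1 ≤ N - k := by omega
  calc N.choose k = N.choose k * 1 := (mul_one _).symm
    _ ≤ N.choose k * (N - k) := Nat.mul_le_mul_left _ h2
    _ = N.choose (k + 1) * (k + 1) := h1.symm
    _ ≤ N.choose (k + 1) * m := Nat.mul_le_mul_left _ hm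
    _ = m * N.choose (k + 1) := Nat.mul_comm _ _

theorem dom_step {A : Matrix (Fin n) (Fin n) ℝ} (hA : A.IsSymm) {s : ℝ} (hs : 0 ≤ s)
    (hp : PairGe A s) {j : ℕ} (hj : 2 * (j + 1) ≤ n) :
    s * sig j A ≤ ((j : ℝ) + 1) * sig (j + 1) A := by
  have hBs : (A - s • (1 : Matrix (Fin n) (Fin n) ℝ)).IsSymm := by
    unfold Matrix.IsSymm
    rw [Matrix.transpose_sub, Matrix.transpose_smul, Matrix.transpose_one, hA.eq]
  have hBp : PairGe (A - s • (1 : Matrix (Fin n) (Fin n) ℝ)) 0 := by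
    intro u v hu hv huv
    have h1 := hp u v hu hv huv
    rw [Matrix.sub_mulVec, Matrix.sub_mulVec, dotProduct_sub, dotProduct_sub,
      Matrix.smul_mulVec, Matrix.smul_mulVec, Matrix.one_mulVec, Matrix.one_mulVec,
      dotProduct_smul, dotProduct_smul, hu, hv]
    simp only [smul_eq_mul, mul_one]
    linarith
  have hAB : A = (A - s • (1 : Matrix (Fin n) (Fin n) ℝ)) + s • (1 : Matrix (Fin n) (Fin n) ℝ) := by
    rw [sub_add_cancel]
  obtain ⟨B, hB⟩ : ∃ B, B = A - s • (1 : Matrix (Fin n) (Fin n) ℝ) := ⟨_, rfl⟩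
  rw [← hB] at hBs hBp hAB
  have hpos : ∀ i, i ≤ j + 1 → 0 ≤ sig i B := fun i hi => sig_nonneg hBs hBp (by omega)
  rw [hAB, sig_add_smul_one, sig_add_smul_one, Finset.sum_range_succ _ (j + 1), mul_add,
    Finset.mul_sum, Finset.mul_sum]
  have hlast : 0 ≤ ((j : ℝ) + 1) * (((n - (j + 1)).choose (j + 1 - (j + 1)) : ℝ) *
      s ^ (j + 1 - (j + 1)) * sig (j + 1) B) := by
    have h1 := hpos (j + 1) le_rfl
    positivity
  refine le_trans (Finset.sum_le_sum fun i hi => ?_) (le_add_of_nonneg_right hlast)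
  have hij : i ≤ j := Nat.lt_succ_iff.mp (Finset.mem_range.mp hi)
  have h1 : j + 1 - i = (j - i) + 1 := by omega
  have h2 : ((n - i).choose (j - i) : ℝ) ≤ ((j : ℝ) + 1) * ((n - i).choose (j - i + 1) : ℝ) := by
    have := choose_dom (N := n - i) (k := j - i) (m := j + 1) (by omega) (by omega)
    exact_mod_cast this
  have h3 := hpos i (by omega)
  rw [h1, pow_succ]
  have h4 : 0 ≤ s ^ (j - i) * s * sig i B := by positivity
  calc s * (((n - i).choose (j - i) : ℝ) * s ^ (j - i) * sig i B)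
      = ((n - i).choose (j - i) : ℝ) * (s ^ (j - i) * s * sig i B) := by ring
    _ ≤ (((j : ℝ) + 1) * ((n - i).choose (j - i + 1) : ℝ)) * (s ^ (j - i) * s * sig i B) :=
        mul_le_mul_of_nonneg_right h2 h4
    _ = ((j : ℝ) + 1) * (((n - i).choose (j - i + 1) : ℝ) * (s ^ (j - i) * s) * sig i B) := by
        ring

theorem dom_pow {A : Matrix (Fin n) (Fin n) ℝ} (hA : A.IsSymm) {s : ℝ} (hs : 0 ≤ s)
    (hp : PairGe A s) {p k : ℕ} (hpk : p ≤ k) (hk : 2 * k ≤ n) :
    s ^ p * sig (k - p) A ≤ (k : ℝ) ^ p * sig k A := by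
  induction p with
  | zero => simp
  | succ p ih =>
    have ih := ih (by omega)
    have h1 : k - p = (k - (p + 1)) + 1 := by omega
    have h2 := dom_step hA hs hp (j := k - (p + 1)) (by omega)
    rw [← h1] at h2
    have h3 : 0 ≤ sig (k - p) A := sig_nonneg hA (pair_mono hp hs) (by omega)
    have h4 : (((k - (p + 1) : ℕ) : ℝ) + 1) ≤ (k : ℝ) := by
      have : k - (p + 1) + 1 ≤ k := by omega
      exact_mod_cast this
    calc s ^ (p + 1) * sig (k - (p + 1)) A = s ^ p * (s * sig (k - (p + 1)) A) := by ring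
      _ ≤ s ^ p * ((((k - (p + 1) : ℕ) : ℝ) + 1) * sig (k - p) A) :=
          mul_le_mul_of_nonneg_left h2 (pow_nonneg hs p)
      _ ≤ s ^ p * ((k : ℝ) * sig (k - p) A) :=
          mul_le_mul_of_nonneg_left (mul_le_mul_of_nonneg_right h4 h3) (pow_nonneg hs p)
      _ = (k : ℝ) * (s ^ p * sig (k - p) A) := by ring
      _ ≤ (k : ℝ) * ((k : ℝ) ^ p * sig k A) :=
          mul_le_mul_of_nonneg_left ih (Nat.cast_nonneg k)
      _ = (k : ℝ) ^ (p + 1) * sig k A := by ring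

end H68.CF
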