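import Pool.Agent.H68.CF.Defs

/-!
# [H68 CF PdBasic] Calculus of partial derivatives

`pd i f x = fderiv ℝ f x (EuclideanSpace.single i 1)`. All statements are direct consequences of
the Mathlib rules for `fderiv` (`fderiv_add`, `fderiv_mul`, ...), of
`ContDiff.fderiv_right` (smoothness), and of the symmetry of second derivatives
(`ContDiffAt.isSymmSndFDerivAt` / `second_derivative_symmetric`; write
`pd i (pd j f) x = fderiv ℝ (fderiv ℝ f) x e_i e_j`). A vector `v : E n` is `∑ i, v i • e_i`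
(`EuclideanSpace.basisFun`), so `fderiv ℝ f x v = ∑ i, v i * pd i f x`. `pd_per`: differentiate
`f (x + v) = f x` (`fderiv_comp_add_right`). `abs_fderiv_le`: Cauchy-Schwarz.
-/

open MeasureTheory Set Filter Topology Matrix Polynomial
open scoped ContDiff NNReal

noncomputable section

namespace H68.CF

variable {n : ℕ}

theorem contDiff_pd {f : E n → ℝ} (hf : ContDiff ℝ ∞ f) (i : Fin n) : ContDiff ℝ ∞ (pd i f) := by
  exact ((contDiff_infty_iff_fderiv.mp hf).2).clm_apply contDiff_const

theorem pd_comm {f : E n → ℝ} (hf : ContDiff ℝ ∞ f) (i j : Fin n) (x : E n) :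
    pd i (pd j f) x = pd j (pd i f) x := by
  have hd : ContDiff ℝ ∞ (fderiv ℝ f) := (contDiff_infty_iff_fderiv.mp hf).2
  have hdiff : DifferentiableAt ℝ (fderiv ℝ f) x :=
    (hd.differentiable (by simp)).differentiableAt
  have key : ∀ a b : Fin n, pd a (pd b f) x =
      fderiv ℝ (fderiv ℝ f) x (EuclideanSpace.single a 1) (EuclideanSpace.single b 1) := by
    intro a b
    have h1 : HasFDerivAt (fun y => fderiv ℝ f y (EuclideanSpace.single b (1 : ℝ)))
        ((ContinuousLinearMap.apply ℝ ℝ (EuclideanSpace.single b (1 : ℝ))).comp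
          (fderiv ℝ (fderiv ℝ f) x)) x :=
      (ContinuousLinearMap.apply ℝ ℝ (EuclideanSpace.single b (1 : ℝ))).hasFDerivAt.comp x
        hdiff.hasFDerivAt
    unfold pd
    rw [h1.fderiv]
    rfl
  rw [key i j, key j i]
  have h2 : IsSymmSndFDerivAt ℝ f x := by
    apply hf.contDiffAt.isSymmSndFDerivAt
    simp only [minSmoothness_of_isRCLikeNormedField]
    exact WithTop.coe_le_coe.mpr le_top
  exact h2 _ _

theorem fderiv_eq_sum (f : E n → ℝ) (x v : E n) :
    fderiv ℝ f x v = ∑ i, v i * pd i f x := by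
  have hv : v = ∑ i, v i • EuclideanSpace.single i (1 : ℝ) := by
    ext j
    simp [Finset.sum_apply, Pi.single_apply]
  conv_lhs => rw [hv, map_sum]
  apply Finset.sum_congr rfl
  intro i _
  rw [map_smul, smul_eq_mul]
  rfl

theorem abs_fderiv_le (f : E n → ℝ) (x v : E n) :
    |fderiv ℝ f x v| ≤ Real.sqrt (grad2 f x) * ‖v‖ := by
  rw [fderiv_eq_sum, EuclideanSpace.norm_eq, ← Real.sqrt_mul (by unfold grad2; positivity)]
  apply Real.abs_le_sqrt
  have h1 := Finset.sum_mul_sq_le_sq_mul_sq Finset.univ (fun i => v i) (fun i => pd i f x)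
  unfold grad2
  simp only [Real.norm_eq_abs, sq_abs]
  linarith

theorem pd_const (i : Fin n) (c : ℝ) (x : E n) : pd i (fun _ => c) x = 0 := by
  unfold pd
  simp

theorem pd_add {f g : E n → ℝ} {x : E n} (hf : DifferentiableAt ℝ f x)
    (hg : DifferentiableAt ℝ g x) (i : Fin n) :
    pd i (fun y => f y + g y) x = pd i f x + pd i g x := by
  unfold pd
  rw [fderiv_fun_add hf hg]
  rfl

theorem pd_sub {f g : E n → ℝ} {x : E n} (hf : DifferentiableAt ℝ f x)
    (hg : DifferentiableAt ℝ g x) (i : Fin n) :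
    pd i (fun y => f y - g y) x = pd i f x - pd i g x := by
  unfold pd
  rw [fderiv_fun_sub hf hg]
  rfl

theorem pd_neg (f : E n → ℝ) (x : E n) (i : Fin n) :
    pd i (fun y => - f y) x = - pd i f x := by
  unfold pd
  rw [fderiv_fun_neg]
  rfl

theorem pd_mul {f g : E n → ℝ} {x : E n} (hf : DifferentiableAt ℝ f x)
    (hg : DifferentiableAt ℝ g x) (i : Fin n) :
    pd i (fun y => f y * g y) x = f x * pd i g x + g x * pd i f x := by
  unfold pd
  rw [fderiv_fun_mul hf hg]
  rfl

theorem pd_const_mul {f : E n → ℝ} {x : E n} (hf : DifferentiableAt ℝ f x) (c : ℝ)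
    (i : Fin n) : pd i (fun y => c * f y) x = c * pd i f x := by
  unfold pd
  rw [fderiv_const_mul hf]
  rfl

theorem pd_sum {ι : Type*} (s : Finset ι) {f : ι → E n → ℝ} {x : E n}
    (hf : ∀ a ∈ s, DifferentiableAt ℝ (f a) x) (i : Fin n) :
    pd i (fun y => ∑ a ∈ s, f a y) x = ∑ a ∈ s, pd i (f a) x := by
  unfold pd
  rw [fderiv_fun_sum hf]
  simp

/-- Chain rule with a function of one variable. -/
theorem pd_comp {g : ℝ → ℝ} {g' : ℝ} {f : E n → ℝ} {x : E n} (hg : HasDerivAt g g' (f x))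
    (hf : DifferentiableAt ℝ f x) (i : Fin n) :
    pd i (fun y => g (f y)) x = g' * pd i f x := by
  have h1 : HasFDerivAt (fun y => g (f y)) (g' • fderiv ℝ f x) x :=
    hg.comp_hasFDerivAt x hf.hasFDerivAt
  unfold pd
  rw [h1.fderiv]
  rfl

theorem pd_per {f : E n → ℝ} {v : E n} (h : ∀ x, f (x + v) = f x) (i : Fin n) (x : E n) :
    pd i f (x + v) = pd i f x := by
  unfold pd
  rw [← fderiv_comp_add_right]
  congr 2
  funext y
  exact h y

/-- Derivative along a line. -/
theorem hasDerivAt_line {f : E n → ℝ} (hf : Differentiable ℝ f) (x v : E n) (t : ℝ) :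
    HasDerivAt (fun s : ℝ => f (x + s • v)) (∑ i, v i * pd i f (x + t • v)) t := by
  have h1 : HasDerivAt (fun s : ℝ => x + s • v) v t := by
    simpa using ((hasDerivAt_id t).smul_const v).const_add x
  have h2 := (hf (x + t • v)).hasFDerivAt.comp_hasDerivAt t h1
  rw [fderiv_eq_sum] at h2
  exact h2

theorem hess_symm {w : E n → ℝ} (hw : ContDiff ℝ ∞ w) (x : E n) : (hess w x).IsSymm := by
  ext i j
  exact pd_comm hw j i x

theorem hc_symm {w : E n → ℝ} (hw : ContDiff ℝ ∞ w) (C0 : ℝ) (x : E n) :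
    (hc w C0 x).IsSymm := by
  exact (hess_symm hw x).add (Matrix.isSymm_one.smul C0)

theorem schouten_symm {w : E n → ℝ} (hw : ContDiff ℝ ∞ w) (x : E n) :
    (schouten w x).IsSymm := by
  exact ((hess_symm hw x).smul _).sub (Matrix.isSymm_one.smul _)

theorem contDiff_hess {w : E n → ℝ} (hw : ContDiff ℝ ∞ w) (i j : Fin n) :
    ContDiff ℝ ∞ (fun x => hess w x i j) := by
  exact contDiff_pd (contDiff_pd hw j) i

theorem contDiff_hc {w : E n → ℝ} (hw : ContDiff ℝ ∞ w) (C0 : ℝ) (i j : Fin n) :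
    ContDiff ℝ ∞ (fun x => hc w C0 x i j) := by
  unfold hc
  simp only [Matrix.add_apply, Matrix.smul_apply, smul_eq_mul]
  exact (contDiff_hess hw i j).add contDiff_const

theorem contDiff_grad2 {w : E n → ℝ} (hw : ContDiff ℝ ∞ w) : ContDiff ℝ ∞ (grad2 w) := by
  unfold grad2
  exact ContDiff.sum fun i _ => (contDiff_pd hw i).pow 2

theorem contDiff_schouten {w : E n → ℝ} (hw : ContDiff ℝ ∞ w) (i j : Fin n) :
    ContDiff ℝ ∞ (fun x => schouten w x i j) := by
  unfold schouten
  simp only [Matrix.sub_apply, Matrix.smul_apply, smul_eq_mul]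
  exact (hw.mul (contDiff_hess hw i j)).sub (((contDiff_grad2 hw).div_const 2).mul contDiff_const)

/-- The Schouten tensor in terms of `hc`. -/
theorem schouten_eq (w : E n → ℝ) (C0 : ℝ) (x : E n) :
    schouten w x = w x • hc w C0 x -
      (w x * C0 + grad2 w x / 2) • (1 : Matrix (Fin n) (Fin n) ℝ) := by
  unfold schouten hc
  ext i j
  simp only [Matrix.sub_apply, Matrix.smul_apply, Matrix.add_apply, smul_eq_mul]
  ring

theorem grad2_nonneg (w : E n → ℝ) (x : E n) : 0 ≤ grad2 w x := by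
  unfold grad2
  positivity

end H68.CF
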