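import Pool.Agent.H68.CF.SigDer
import Pool.Agent.H68.CF.PdBasic

/-!
# [H68 CF SmoothSig] Smoothness of `sig j (M x)` and `newt j (M x)`

`sig j A = ∑_{s ∈ powersetCard j univ} det (A.submatrix s s)` (definition and
`Matrix.coeff_det_one_add_X_smul_eq_sum_minors`), `det` is a finite sum of finite products of
entries (`Matrix.det_apply`): `contDiff_sig`, `continuous_sig`. For `newt` use induction on `j`
with `newt_zero`, `newt_succ` (an entry of a product is a finite sum of products).
`pd_sig`: `t ↦ M (x + t e_c)` has derivative entries `pd c (M · a b)`; apply `hasDerivAt_sig` and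
`hasDerivAt_line` (uniqueness of derivatives, `HasDerivAt.unique`).
-/

open MeasureTheory Set Filter Topology Matrix Polynomial
open scoped ContDiff NNReal

noncomputable section

namespace H68.CF

variable {n : ℕ}

theorem continuous_sig {T : Type*} [TopologicalSpace T] {M : T → Matrix (Fin n) (Fin n) ℝ}
    (h : ∀ i j, Continuous (fun x => M x i j)) (j : ℕ) : Continuous (fun x => sig j (M x)) := by
  have e1 : (fun x => sig j (M x)) = fun x => ∑ s ∈ Finset.powersetCard j (Finset.univ : Finset (Fin n)),
      ∑ σ : Equiv.Perm s, ((Equiv.Perm.sign σ : ℤ) : ℝ) * ∏ i : s, M x (σ i) i := by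
    funext x
    unfold sig
    rw [Matrix.coeff_det_one_add_X_smul_eq_sum_minors]
    refine Finset.sum_congr rfl fun s _ => ?_
    rw [Matrix.det_apply']
    rfl
  rw [e1]
  exact continuous_finsetSum _ fun s _ => continuous_finsetSum _ fun σ _ =>
    continuous_const.mul (continuous_finsetProd _ fun i _ => h _ _)

theorem continuous_newt {T : Type*} [TopologicalSpace T] {M : T → Matrix (Fin n) (Fin n) ℝ}
    (h : ∀ i j, Continuous (fun x => M x i j)) (j : ℕ) (a c : Fin n) :
    Continuous (fun x => newt j (M x) a c) := by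
  induction j generalizing a c with
  | zero =>
    simp only [newt_zero]
    exact continuous_const
  | succ j ih =>
    have e1 : (fun x => newt (j + 1) (M x) a c) = fun x =>
        sig (j + 1) (M x) * (1 : Matrix (Fin n) (Fin n) ℝ) a c - ∑ l, M x a l * newt j (M x) l c := by
      funext x
      rw [newt_succ, Matrix.sub_apply, Matrix.smul_apply, Matrix.mul_apply, smul_eq_mul]
    rw [e1]
    exact ((continuous_sig h (j + 1)).mul continuous_const).sub
      (continuous_finsetSum _ fun l _ => (h a l).mul (ih l c))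

theorem contDiff_sig {M : E n → Matrix (Fin n) (Fin n) ℝ}
    (h : ∀ i j, ContDiff ℝ ∞ (fun x => M x i j)) (j : ℕ) :
    ContDiff ℝ ∞ (fun x => sig j (M x)) := by
  have e1 : (fun x => sig j (M x)) = fun x => ∑ s ∈ Finset.powersetCard j (Finset.univ : Finset (Fin n)),
      ∑ σ : Equiv.Perm s, ((Equiv.Perm.sign σ : ℤ) : ℝ) * ∏ i : s, M x (σ i) i := by
    funext x
    unfold sig
    rw [Matrix.coeff_det_one_add_X_smul_eq_sum_minors]
    refine Finset.sum_congr rfl fun s _ => ?_
    rw [Matrix.det_apply']
    rfl
  rw [e1]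
  exact ContDiff.sum fun s _ => ContDiff.sum fun σ _ =>
    contDiff_const.mul (contDiff_prod fun i _ => h _ _)

theorem contDiff_newt {M : E n → Matrix (Fin n) (Fin n) ℝ}
    (h : ∀ i j, ContDiff ℝ ∞ (fun x => M x i j)) (j : ℕ) (a c : Fin n) :
    ContDiff ℝ ∞ (fun x => newt j (M x) a c) := by
  induction j generalizing a c with
  | zero =>
    simp only [newt_zero]
    exact contDiff_const
  | succ j ih =>
    have e1 : (fun x => newt (j + 1) (M x) a c) = fun x =>
        sig (j + 1) (M x) * (1 : Matrix (Fin n) (Fin n) ℝ) a c - ∑ l, M x a l * newt j (M x) l c := by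
      funext x
      rw [newt_succ, Matrix.sub_apply, Matrix.smul_apply, Matrix.mul_apply, smul_eq_mul]
    rw [e1]
    exact ((contDiff_sig h (j + 1)).mul contDiff_const).sub
      (ContDiff.sum fun l _ => (h a l).mul (ih l c))

theorem pd_sig {M : E n → Matrix (Fin n) (Fin n) ℝ}
    (h : ∀ i j, ContDiff ℝ ∞ (fun x => M x i j)) (j : ℕ) (c : Fin n) (x : E n) :
    pd c (fun y => sig (j + 1) (M y)) x =
      Matrix.trace (newt j (M x) * (Matrix.of fun a l => pd c (fun y => M y a l) x)) := by
  have e0 : ∀ v : ℝ, (0 : ℝ) • (EuclideanSpace.single c v : E n) = 0 := fun v => zero_smul _ _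
  have h0 : ∀ f : E n → ℝ, ContDiff ℝ ∞ f →
      HasDerivAt (fun s : ℝ => f (x + s • (EuclideanSpace.single c (1 : ℝ) : E n))) (pd c f x) 0 := by
    intro f hf
    have h1 := hasDerivAt_line (hf.differentiable (by simp)) x (EuclideanSpace.single c (1 : ℝ)) 0
    have h2 : ∑ i, (EuclideanSpace.single c (1 : ℝ) : E n) i *
        pd i f (x + (0 : ℝ) • (EuclideanSpace.single c (1 : ℝ) : E n)) = pd c f x := by
      rw [e0, add_zero, Finset.sum_eq_single c]
      · simp
      · intro b _ hb
        simp [hb]
      · intro hc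
        exact absurd (Finset.mem_univ c) hc
    rw [h2] at h1
    exact h1
  have h1 := h0 _ (contDiff_sig h (j + 1))
  have h2 := hasDerivAt_sig (A := fun s : ℝ => M (x + s • (EuclideanSpace.single c (1 : ℝ) : E n)))
    (A' := Matrix.of fun a l => pd c (fun y => M y a l) x) (t := 0)
    (fun a l => h0 _ (h a l)) j
  have h3 := h1.unique h2
  rw [h3]
  have h4 : x + (0 : ℝ) • (EuclideanSpace.single c (1 : ℝ) : E n) = x := by
    rw [e0, add_zero]
  simp only [h4]

end H68.CF
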