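import Pool.Agent.H68.CF.PerHess
import Pool.Agent.H68.CF.SmoothSig
import Pool.Agent.H68.CF.Dom
import Pool.Agent.H68.CF.MatPos

/-!
# [H68 CF ClsBasic] First consequences of `Cls`

Let `w ∈ Cls b θ C0 c M`, `A = hc w C0`. `PairGe (A x) (θ |∇w|²)` implies `PairGe (A x) 0`
(`pair_mono`, `grad2_nonneg`, `0 ≤ θ`). So `sig j (A x) ≥ 0` for `2 j ≤ n`. The functions
`x ↦ sig j (A x)` are continuous (`continuous_sig`, `contDiff_hc`) and periodic (`hc_per`).
`cls_mono`: weaken the parameters: `θ' ≤ θ`, `C0 ≤ C0'`, `c' ≤ c`, `M ≤ M'`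
(`hc w C0' = hc w C0 + (C0'-C0) 1`, and `u ⬝ u = 1`).
`cls_convex`: `(1-t) w0 + t w1` is in the class: `hess` is linear (`pd_add`, `pd_const_mul`),
`|∇((1-t) w0 + t w1)|² ≤ (1-t) |∇w0|² + t |∇w1|²` (convexity of squares).
-/

open MeasureTheory Set Filter Topology Matrix Polynomial
open scoped ContDiff NNReal

noncomputable section

namespace H68.CF

variable {n : ℕ} {b : Module.Basis (Fin n) ℝ (E n)} {θ C0 c M : ℝ}

theorem cls_pair0 (hθ : 0 ≤ θ) {w : E n → ℝ} (h : Cls b θ C0 c M w) (x : E n) :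
    PairGe (hc w C0 x) 0 :=
  pair_mono (h.pair x) (mul_nonneg hθ (grad2_nonneg w x))

theorem cls_sig_nonneg (hθ : 0 ≤ θ) {w : E n → ℝ} (h : Cls b θ C0 c M w) {j : ℕ}
    (hj : 2 * j ≤ n) (x : E n) : 0 ≤ sig j (hc w C0 x) :=
  sig_nonneg (hc_symm h.smooth C0 x) (cls_pair0 hθ h x) hj

theorem cls_sig_cont {w : E n → ℝ} (h : Cls b θ C0 c M w) (j : ℕ) :
    Continuous (fun x => sig j (hc w C0 x)) :=
  continuous_sig (fun i l => (contDiff_hc h.smooth C0 i l).continuous) j

theorem cls_sig_per {w : E n → ℝ} (h : Cls b θ C0 c M w) (j : ℕ) :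
    ∀ v ∈ Lat b, ∀ x, sig j (hc w C0 (x + v)) = sig j (hc w C0 x) := by
  intro v hv x
  rw [hc_per (h.per v hv) C0 x]

theorem cls_mono {θ' C0' c' M' : ℝ} (h1 : θ' ≤ θ) (h2 : C0 ≤ C0') (h3 : c' ≤ c) (h4 : M ≤ M')
    {w : E n → ℝ} (h : Cls b θ C0 c M w) : Cls b θ' C0' c' M' w where
  smooth := h.smooth
  per := h.per
  lower x := h3.trans (h.lower x)
  upper x := (h.upper x).trans h4
  pair x := by
    intro u v hu hv huv
    have h5 := h.pair x u v hu hv huv
    have h6 : hc w C0' x = hc w C0 x + (C0' - C0) • (1 : Matrix (Fin n) (Fin n) ℝ) := by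
      unfold hc
      rw [add_assoc, ← add_smul]
      congr 2
      ring
    rw [h6, Matrix.add_mulVec, Matrix.add_mulVec, dotProduct_add, dotProduct_add,
      Matrix.smul_mulVec, Matrix.smul_mulVec, Matrix.one_mulVec, Matrix.one_mulVec,
      dotProduct_smul, dotProduct_smul, hu, hv]
    have h7 : θ' * grad2 w x ≤ θ * grad2 w x := mul_le_mul_of_nonneg_right h1 (grad2_nonneg w x)
    simp only [smul_eq_mul, mul_one]
    linarith

private theorem cls_pd_comb {f g : E n → ℝ} (hf : ContDiff ℝ ∞ f) (hg : ContDiff ℝ ∞ g) (t : ℝ)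
    (i : Fin n) (x : E n) : pd i (fun y => (1 - t) * f y + t * g y) x =
      (1 - t) * pd i f x + t * pd i g x := by
  have h1 : DifferentiableAt ℝ f x := hf.differentiable (by simp) x
  have h2 : DifferentiableAt ℝ g x := hg.differentiable (by simp) x
  rw [pd_add (h1.const_mul (1 - t)) (h2.const_mul t), pd_const_mul h1, pd_const_mul h2]

theorem cls_convex (hθ : 0 ≤ θ) {w0 w1 : E n → ℝ} (h0 : Cls b θ C0 c M w0)
    (h1 : Cls b θ C0 c M w1) {t : ℝ} (ht0 : 0 ≤ t) (ht1 : t ≤ 1) :
    Cls b θ C0 c M (fun x => (1 - t) * w0 x + t * w1 x) where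
  smooth := (contDiff_const.mul h0.smooth).add (contDiff_const.mul h1.smooth)
  per v hv x := by rw [h0.per v hv, h1.per v hv]
  lower x := by
    have e0 := h0.lower x
    have e1 := h1.lower x
    nlinarith
  upper x := by
    have e0 := h0.upper x
    have e1 := h1.upper x
    nlinarith
  pair x := by
    intro u v hu hv huv
    have e0 := h0.pair x u v hu hv huv
    have e1 := h1.pair x u v hu hv huv
    have hh : hc (fun x => (1 - t) * w0 x + t * w1 x) C0 x =
        (1 - t) • hc w0 C0 x + t • hc w1 C0 x := by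
      have h2 : hess (fun x => (1 - t) * w0 x + t * w1 x) x =
          (1 - t) • hess w0 x + t • hess w1 x := by
        ext i j
        rw [Matrix.add_apply, Matrix.smul_apply, Matrix.smul_apply, smul_eq_mul, smul_eq_mul]
        unfold hess
        have h3 : pd j (fun x => (1 - t) * w0 x + t * w1 x) =
            fun y => (1 - t) * pd j w0 y + t * pd j w1 y :=
          funext fun y => cls_pd_comb h0.smooth h1.smooth t j y
        rw [h3, cls_pd_comb (contDiff_pd h0.smooth j) (contDiff_pd h1.smooth j)]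
      unfold hc
      rw [h2, smul_add, smul_add, smul_smul, smul_smul]
      have h4 : C0 • (1 : Matrix (Fin n) (Fin n) ℝ) =
          ((1 - t) * C0) • (1 : Matrix (Fin n) (Fin n) ℝ) + (t * C0) • 1 := by
        rw [← add_smul]
        congr 1
        ring
      rw [h4]
      abel
    have hg : grad2 (fun x => (1 - t) * w0 x + t * w1 x) x ≤
        (1 - t) * grad2 w0 x + t * grad2 w1 x := by
      unfold grad2
      rw [Finset.mul_sum, Finset.mul_sum, ← Finset.sum_add_distrib]
      refine Finset.sum_le_sum fun i _ => ?_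
      rw [cls_pd_comb h0.smooth h1.smooth]
      have h2 : 0 ≤ (1 - t) * t * (pd i w0 x - pd i w1 x) ^ 2 := by
        have : 0 ≤ 1 - t := by linarith
        positivity
      nlinarith
    have h5 : θ * grad2 (fun x => (1 - t) * w0 x + t * w1 x) x ≤
        θ * ((1 - t) * grad2 w0 x + t * grad2 w1 x) := mul_le_mul_of_nonneg_left hg hθ
    rw [hh, Matrix.add_mulVec, Matrix.add_mulVec, dotProduct_add, dotProduct_add,
      Matrix.smul_mulVec, Matrix.smul_mulVec, Matrix.smul_mulVec, Matrix.smul_mulVec,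
      dotProduct_smul, dotProduct_smul, dotProduct_smul, dotProduct_smul]
    simp only [smul_eq_mul]
    have e2 := mul_le_mul_of_nonneg_left e0 (by linarith : (0 : ℝ) ≤ 1 - t)
    have e3 := mul_le_mul_of_nonneg_left e1 ht0
    linarith

end H68.CF
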