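import Pool.Agent.H68.CF.MassB

/-!
# [H68 CF Energy] Higher integrability of the gradient

Let `1 ≤ k`, `2k + 1 ≤ n`. There are `s ∈ (0, 1]`, `K` with
`∫_FD (1 + |∇w|²)^(k+s) ≤ K` for all `w` in the class (real powers).

Proof. `A = hc w C0`, `Z = |∇w|²`, `F = (1+Z)^s`, `T = newt (k-1) A`, `σ_j = sig j A ≥ 0` for
`2j ≤ n`. By `trace_newt_mul`, `k F σ_k = F tr(T A) = F tr(T hess w) + C0 (n-k+1) F σ_{k-1}`.
Since `T` is symmetric and divergence free (`div_newt_hc`),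
`F tr(T hess w) = ∑_a ∂_a (F ∑_b T_{ab} w_b) - ∑_{a,b} T_{ab} ∂_a F w_b`, the first term has
integral `0` over `FD` (`per_integral_pd`), `∂_a F = 2 s (1+Z)^(s-1) ∑_c w_c w_{ca}` and
`∑_{a,b} w_{ca} T_{ab} w_b`: `hess w * T = A T - C0 T = σ_k 1 - newt k A - C0 T` (`newt_succ`). So
`∫ F tr(T hess w) = -2s ∫ (1+Z)^(s-1) (σ_k Z - ⟨newt k A ∇w, ∇w⟩ - C0 ⟨T ∇w, ∇w⟩)`
`≤ 2s (n-k-1) ∫ (1+Z)^(s-1) Z σ_k + 2 s C0 n ∫ (1+Z)^(s-1) Z σ_{k-1}` (`newt_le` for `newt k`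
(`2k+1 ≤ n`) and `newt (k-1)`). As `Z ≤ 1+Z`:
`(k - 2s(n-k-1)) ∫ F σ_k ≤ C0 (3n) ∫ F σ_{k-1}` for `s ≤ 1`. Choose `s = min 1 (k/(4n))`, so the
factor is `≥ k/2`. Finally `F ≤ 1 + Z` and `θ Z σ_{k-1} ≤ k σ_k` (`dom_step`), so
`∫ F σ_{k-1} ≤ ∫ σ_{k-1} + (k/θ) ∫ σ_k` is bounded by `mass_bound`. This gives
`∫ F σ_k ≤ K₁` and (`dom_step`) `∫ F Z^j σ_{k-j} ≤ K₁ (k/θ)^j`; with `j = k`
(`dom_pow`): `(θ Z)^k ≤ k^k σ_k`, so `∫ F Z^k ≤ K₂`. Also `∫ F ≤ ∫ (1 + Z)`, and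
`∫ Z ≤ (1/θ) ∫ σ_1` (`dom_step`, `j = 0`). Since
`(1+Z)^(k+s) ≤ 2^k F (1 + Z^k)`, done.
-/

open MeasureTheory Set Filter Topology Matrix Polynomial
open scoped ContDiff NNReal

noncomputable section

namespace H68.CF

variable {n : ℕ}

private theorem en_alg {A H : Matrix (Fin n) (Fin n) ℝ} (hH : H.IsSymm) {C0 : ℝ} (hC0 : 0 ≤ C0)
    (hA : A = H + C0 • (1 : Matrix (Fin n) (Fin n) ℝ)) (hp : PairGe A 0) {m : ℕ}
    (hm : 2 * (m + 1) + 1 ≤ n) (v : Fin n → ℝ) {s F G : ℝ} (hs0 : 0 ≤ s) (hs1 : s ≤ 1)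
    (hsn : 2 * s * ((n : ℝ) - (m + 1) - 1) ≤ ((m : ℝ) + 1) / 2) (hF : 0 ≤ F) (hG : 0 ≤ G)
    (hGF : G * (v ⬝ᵥ v) ≤ F) :
    F * (((m : ℝ) + 1) / 2 * sig (m + 1) A - 3 * n * C0 * sig m A) ≤
      F * Matrix.trace (newt m A * H) + 2 * s * G * ((H *ᵥ v) ⬝ᵥ (newt m A *ᵥ v)) := by
  have hAs : A.IsSymm := by
    unfold Matrix.IsSymm
    rw [hA, Matrix.transpose_add, Matrix.transpose_smul, Matrix.transpose_one, hH.eq]
  have hHA : H = A - C0 • (1 : Matrix (Fin n) (Fin n) ℝ) := by rw [hA, add_sub_cancel_right]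
  have hk0 : 0 ≤ sig (m + 1) A := sig_nonneg hAs hp (by omega)
  have hm0 : 0 ≤ sig m A := sig_nonneg hAs hp (by omega)
  have h1 : Matrix.trace (newt m A * H) =
      ((m : ℝ) + 1) * sig (m + 1) A - C0 * (((n : ℝ) - m) * sig m A) := by
    rw [hHA, Matrix.mul_sub, Matrix.trace_sub, trace_newt_mul, Matrix.mul_smul, Matrix.mul_one,
      Matrix.trace_smul, trace_newt, smul_eq_mul]
  have h2 : (H *ᵥ v) ⬝ᵥ (newt m A *ᵥ v) = sig (m + 1) A * (v ⬝ᵥ v) -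
      v ⬝ᵥ (newt (m + 1) A *ᵥ v) - C0 * (v ⬝ᵥ (newt m A *ᵥ v)) := by
    have e1 : (H *ᵥ v) ⬝ᵥ (newt m A *ᵥ v) = v ⬝ᵥ ((H * newt m A) *ᵥ v) := by
      rw [← Matrix.mulVec_mulVec, Matrix.dotProduct_mulVec v H, ← Matrix.mulVec_transpose, hH.eq]
    have e2 : H * newt m A = sig (m + 1) A • (1 : Matrix (Fin n) (Fin n) ℝ) -
        newt (m + 1) A - C0 • newt m A := by
      rw [newt_succ, hHA, Matrix.sub_mul, Matrix.smul_mul, Matrix.one_mul]
      abel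
    rw [e1, e2, Matrix.sub_mulVec, Matrix.sub_mulVec, dotProduct_sub, dotProduct_sub,
      Matrix.smul_mulVec, Matrix.smul_mulVec, Matrix.one_mulVec, dotProduct_smul,
      dotProduct_smul, smul_eq_mul, smul_eq_mul]
  have hv : 0 ≤ v ⬝ᵥ v := Finset.sum_nonneg fun i _ => mul_self_nonneg _
  have h3 := newt_le hAs hp (j := m + 1) (by omega) v
  have h4 := newt_le hAs hp (j := m) (by omega) v
  have hn1 : ((m : ℝ) + 1) + 1 ≤ n := by
    have : m + 1 + 1 ≤ n := by omega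
    exact_mod_cast this
  push_cast at h3
  obtain ⟨X, hX⟩ : ∃ X, X = (H *ᵥ v) ⬝ᵥ (newt m A *ᵥ v) := ⟨_, rfl⟩
  obtain ⟨Q, hQ⟩ : ∃ Q, Q = ((n : ℝ) - (m + 1) - 1) * sig (m + 1) A +
      C0 * (((n : ℝ) - m) * sig m A) := ⟨_, rfl⟩
  have hQ0 : 0 ≤ Q := by
    rw [hQ]
    have e1 : 0 ≤ (n : ℝ) - (m + 1) - 1 := by linarith
    have e2 : 0 ≤ (n : ℝ) - m := by linarith
    positivity
  have h5 : -(Q * (v ⬝ᵥ v)) ≤ X := by
    rw [hX, h2, hQ]
    have e1 := mul_le_mul_of_nonneg_left h4 hC0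
    nlinarith [h3, e1]
  have h6 : -(2 * s * F * Q) ≤ 2 * s * G * X := by
    have e1 : 2 * s * G * (-(Q * (v ⬝ᵥ v))) ≤ 2 * s * G * X :=
      mul_le_mul_of_nonneg_left h5 (by positivity)
    have e2 : G * (v ⬝ᵥ v) * (2 * s * Q) ≤ F * (2 * s * Q) :=
      mul_le_mul_of_nonneg_right hGF (by positivity)
    nlinarith [e1, e2]
  rw [h1, ← hX]
  have h7 : ((m : ℝ) + 1) / 2 * sig (m + 1) A - 3 * n * C0 * sig m A ≤
      ((m : ℝ) + 1) * sig (m + 1) A - C0 * (((n : ℝ) - m) * sig m A) - 2 * s * Q := by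
    rw [hQ]
    have e1 : 2 * s * ((n : ℝ) - (m + 1) - 1) * sig (m + 1) A ≤
        ((m : ℝ) + 1) / 2 * sig (m + 1) A := mul_le_mul_of_nonneg_right hsn hk0
    have e3 : (1 + 2 * s) * ((n : ℝ) - m) ≤ 3 * n := by
      have hm1 : (0 : ℝ) ≤ m := Nat.cast_nonneg m
      nlinarith
    have e2 : (1 + 2 * s) * ((n : ℝ) - m) * (C0 * sig m A) ≤ 3 * n * (C0 * sig m A) :=
      mul_le_mul_of_nonneg_right e3 (by positivity)
    nlinarith [e1, e2]
  have h8 := mul_le_mul_of_nonneg_left h7 hF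
  nlinarith [h8, h6]

private theorem en_pd_grad2 {w : E n → ℝ} (hw : ContDiff ℝ ∞ w) (a : Fin n) (x : E n) :
    pd a (grad2 w) x = 2 * ∑ c, pd c w x * hess w x a c := by
  have hne : (∞ : WithTop ℕ∞) ≠ 0 := by simp
  have hd : ∀ c, DifferentiableAt ℝ (pd c w) x := fun c =>
    ((contDiff_pd hw c).differentiable hne) x
  have e1 : grad2 w = fun y => ∑ c, pd c w y * pd c w y := by
    funext y
    unfold grad2
    exact Finset.sum_congr rfl fun c _ => pow_two _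
  rw [e1, pd_sum Finset.univ (fun c _ => (hd c).fun_mul (hd c)), Finset.mul_sum]
  refine Finset.sum_congr rfl fun c _ => ?_
  rw [pd_mul (hd c) (hd c)]
  unfold hess
  ring

private theorem en_F_smooth {w : E n → ℝ} (hw : ContDiff ℝ ∞ w) (s : ℝ) :
    ContDiff ℝ ∞ (fun y => (1 + grad2 w y) ^ s) := by
  refine (contDiff_const.add (contDiff_grad2 hw)).rpow_const_of_ne fun y => ?_
  have := grad2_nonneg w y
  exact (by linarith : 0 < 1 + grad2 w y).ne'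

private theorem en_pd_F {w : E n → ℝ} (hw : ContDiff ℝ ∞ w) (s : ℝ) (a : Fin n) (x : E n) :
    pd a (fun y => (1 + grad2 w y) ^ s) x =
      s * (1 + grad2 w x) ^ (s - 1) * (2 * ∑ c, pd c w x * hess w x a c) := by
  have h0 := grad2_nonneg w x
  have h1 : HasDerivAt (fun z : ℝ => (1 + z) ^ s) (s * (1 + grad2 w x) ^ (s - 1))
      (grad2 w x) := by
    have h2 := ((hasDerivAt_id (grad2 w x)).const_add 1).rpow_const (p := s)
      (Or.inl (by simp only [id]; linarith [h0] : (1 : ℝ) + id (grad2 w x) ≠ 0))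
    simpa using h2
  have h3 : DifferentiableAt ℝ (grad2 w) x :=
    (contDiff_grad2 hw).differentiable (by simp) x
  rw [pd_comp h1 h3 a, en_pd_grad2 hw]

private theorem en_div {w : E n → ℝ} (hw : ContDiff ℝ ∞ w) (C0 s : ℝ) (m : ℕ) (x : E n) :
    ∑ a, pd a (fun y => (1 + grad2 w y) ^ s * ∑ c, newt m (hc w C0 y) a c * pd c w y) x =
      (1 + grad2 w x) ^ s * Matrix.trace (newt m (hc w C0 x) * hess w x) +
      2 * s * (1 + grad2 w x) ^ (s - 1) * ((hess w x *ᵥ fun i => pd i w x) ⬝ᵥ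
        (newt m (hc w C0 x) *ᵥ fun i => pd i w x)) := by
  have hne : (∞ : WithTop ℕ∞) ≠ 0 := by simp
  have hh := contDiff_hc hw C0
  have hN : ∀ a l, DifferentiableAt ℝ (fun y => newt m (hc w C0 y) a l) x := fun a l =>
    ((contDiff_newt hh m a l).differentiable hne) x
  have hd : ∀ c, DifferentiableAt ℝ (pd c w) x := fun c =>
    ((contDiff_pd hw c).differentiable hne) x
  have hF : DifferentiableAt ℝ (fun y => (1 + grad2 w y) ^ s) x :=
    ((en_F_smooth hw s).differentiable hne) x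
  have hP : ∀ a c, DifferentiableAt ℝ (fun y => newt m (hc w C0 y) a c * pd c w y) x :=
    fun a c => (hN a c).mul (hd c)
  have hS : ∀ a, DifferentiableAt ℝ (fun y => ∑ c, newt m (hc w C0 y) a c * pd c w y) x :=
    fun a => DifferentiableAt.fun_sum fun c _ => hP a c
  have h1 : ∀ a, pd a (fun y => (1 + grad2 w y) ^ s *
      ∑ c, newt m (hc w C0 y) a c * pd c w y) x =
      (1 + grad2 w x) ^ s * ∑ c, newt m (hc w C0 x) a c * hess w x a c +
      (1 + grad2 w x) ^ s * ∑ c, pd c w x * pd a (fun y => newt m (hc w C0 y) a c) x +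
      2 * s * (1 + grad2 w x) ^ (s - 1) * ((hess w x *ᵥ fun i => pd i w x) a *
        (newt m (hc w C0 x) *ᵥ fun i => pd i w x) a) := by
    intro a
    rw [pd_mul hF (hS a), pd_sum Finset.univ (fun c _ => hP a c), en_pd_F hw]
    have e1 : ∀ c, pd a (fun y => newt m (hc w C0 y) a c * pd c w y) x =
        newt m (hc w C0 x) a c * hess w x a c +
          pd c w x * pd a (fun y => newt m (hc w C0 y) a c) x :=
      fun c => pd_mul (hN a c) (hd c) a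
    simp only [e1, Finset.sum_add_distrib]
    have e2 : ∑ c, pd c w x * hess w x a c = (hess w x *ᵥ fun i => pd i w x) a := by
      simp only [Matrix.mulVec, dotProduct]
      exact Finset.sum_congr rfl fun c _ => mul_comm _ _
    have e3 : ∑ c, newt m (hc w C0 x) a c * pd c w x =
        (newt m (hc w C0 x) *ᵥ fun i => pd i w x) a := rfl
    rw [e2, e3]
    ring
  simp only [h1, Finset.sum_add_distrib, ← Finset.mul_sum]
  have h2 : ∑ a, ∑ c, pd c w x * pd a (fun y => newt m (hc w C0 y) a c) x = 0 := by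
    rw [Finset.sum_comm]
    exact Finset.sum_eq_zero fun c _ => by rw [← Finset.mul_sum, div_newt_hc hw, mul_zero]
  have h3 : ∑ a, ∑ c, newt m (hc w C0 x) a c * hess w x a c =
      Matrix.trace (newt m (hc w C0 x) * hess w x) := by
    rw [Matrix.trace]
    refine Finset.sum_congr rfl fun a _ => ?_
    rw [Matrix.diag_apply, Matrix.mul_apply]
    exact Finset.sum_congr rfl fun c _ => by rw [(hess_symm hw x).apply]
  rw [h2, h3, mul_zero, add_zero]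
  rfl

private theorem en_point {b : Module.Basis (Fin n) ℝ (E n)} {θ C0 c M : ℝ} (hθ : 0 < θ)
    (hC0 : 0 ≤ C0) {m : ℕ} (hm : 2 * (m + 1) + 1 ≤ n) {s : ℝ} (hs0 : 0 < s) (hs1 : s ≤ 1)
    (hsn : 2 * s * ((n : ℝ) - (m + 1) - 1) ≤ ((m : ℝ) + 1) / 2) {c5 : ℝ}
    (hc5 : c5 = (((m : ℝ) + 1) / θ) ^ (m + 1) * (2 / ((m : ℝ) + 1))) {w : E n → ℝ}
    (h : Cls b θ C0 c M w) (x : E n) :
    (1 + grad2 w x) ^ (((m + 1 : ℕ) : ℝ) + s) ≤
      2 ^ m + 2 ^ m / θ * sig 1 (hc w C0 x) +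
      2 ^ m * c5 * (∑ a, pd a (fun y => (1 + grad2 w y) ^ s *
        ∑ c, newt m (hc w C0 y) a c * pd c w y) x) +
      2 ^ m * c5 * (3 * n * C0) * sig m (hc w C0 x) +
      2 ^ m * c5 * (3 * n * C0) * (((m : ℝ) + 1) / θ) * sig (m + 1) (hc w C0 x) := by
  have hZ := grad2_nonneg w x
  have hw := h.smooth
  have hAs := hc_symm hw C0 x
  have hp := h.pair x
  have hp0 := cls_pair0 hθ.le h x
  rw [en_div hw]
  obtain ⟨A, hA⟩ : ∃ A, A = hc w C0 x := ⟨_, rfl⟩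
  have hAH : A = hess w x + C0 • (1 : Matrix (Fin n) (Fin n) ℝ) := hA
  rw [← hA] at hAs hp hp0 ⊢
  obtain ⟨v, hv⟩ : ∃ v : Fin n → ℝ, v = fun i => pd i w x := ⟨_, rfl⟩
  rw [← hv]
  have hvZ : v ⬝ᵥ v = grad2 w x := by
    rw [hv]
    unfold grad2
    simp only [dotProduct]
    exact Finset.sum_congr rfl fun i _ => (pow_two _).symm
  obtain ⟨Z, hZe⟩ : ∃ Z, Z = grad2 w x := ⟨_, rfl⟩
  rw [← hZe] at hvZ hp hZ ⊢
  have hZ1 : 0 < 1 + Z := by linarith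
  obtain ⟨F, hFe⟩ : ∃ F, F = (1 + Z) ^ s := ⟨_, rfl⟩
  obtain ⟨G, hGe⟩ : ∃ G, G = (1 + Z) ^ (s - 1) := ⟨_, rfl⟩
  have hF0 : 0 < F := hFe ▸ Real.rpow_pos_of_pos hZ1 s
  have hG0 : 0 < G := hGe ▸ Real.rpow_pos_of_pos hZ1 (s - 1)
  have hGF1 : G * (1 + Z) = F := by
    rw [hGe, hFe, Real.rpow_sub_one hZ1.ne', div_mul_cancel₀ _ hZ1.ne']
  have hF1 : F ≤ 1 + Z := by
    rw [hFe]
    calc (1 + Z) ^ s ≤ (1 + Z) ^ (1 : ℝ) :=
          Real.rpow_le_rpow_of_exponent_le (by linarith) hs1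
      _ = 1 + Z := Real.rpow_one _
  have hD := en_alg (hess_symm hw x) hC0 hAH hp0 hm v hs0.le hs1 hsn hF0.le hG0.le
    (by rw [hvZ]; nlinarith)
  have hE : (1 + Z) ^ (((m + 1 : ℕ) : ℝ) + s) = (1 + Z) ^ (m + 1) * F := by
    rw [Real.rpow_add hZ1, Real.rpow_natCast, hFe]
  rw [hE, ← hFe, ← hGe]
  obtain ⟨D, hDe⟩ : ∃ D, D = F * Matrix.trace (newt m A * hess w x) +
    2 * s * G * ((hess w x *ᵥ v) ⬝ᵥ (newt m A *ᵥ v)) := ⟨_, rfl⟩
  rw [← hDe] at hD ⊢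
  have hk0 : 0 ≤ sig (m + 1) A := sig_nonneg hAs hp0 (by omega)
  have hm0 : 0 ≤ sig m A := sig_nonneg hAs hp0 (by omega)
  have hθZ : 0 ≤ θ * Z := by positivity
  have d1 := dom_step hAs hθZ hp (j := m) (by omega)
  have d2 := dom_step hAs hθZ hp (j := 0) (by omega)
  have d3 := dom_pow hAs hθZ hp (p := m + 1) (k := m + 1) le_rfl (by omega)
  rw [Nat.sub_self, sig_zero, mul_one, mul_pow] at d3
  rw [sig_zero, mul_one, Nat.cast_zero, zero_add, one_mul] at d2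
  have hm1 : (0 : ℝ) < (m : ℝ) + 1 := by positivity
  have h4 : F * sig m A ≤ sig m A + ((m : ℝ) + 1) / θ * sig (m + 1) A := by
    have e1 := mul_le_mul_of_nonneg_right hF1 hm0
    have e2 : Z * sig m A ≤ ((m : ℝ) + 1) / θ * sig (m + 1) A := by
      rw [div_mul_eq_mul_div, le_div_iff₀ hθ]
      linarith
    linarith
  have h5 : F * sig (m + 1) A ≤ 2 / ((m : ℝ) + 1) * (D + 3 * n * C0 * (sig m A +
      ((m : ℝ) + 1) / θ * sig (m + 1) A)) := by
    rw [div_mul_eq_mul_div, le_div_iff₀ hm1]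
    have e1 : 3 * n * C0 * (F * sig m A) ≤ 3 * n * C0 * (sig m A +
      ((m : ℝ) + 1) / θ * sig (m + 1) A) := mul_le_mul_of_nonneg_left h4 (by positivity)
    nlinarith [hD, e1]
  have h7 : Z ^ (m + 1) ≤ (((m : ℝ) + 1) / θ) ^ (m + 1) * sig (m + 1) A := by
    rw [div_pow, div_mul_eq_mul_div, le_div_iff₀ (by positivity)]
    push_cast at d3
    linarith
  have h8 : Z ≤ sig 1 A / θ := by
    rw [le_div_iff₀ hθ]
    linarith
  have h10 : (1 + Z) ^ (m + 1) ≤ 2 ^ m * (1 + Z ^ (m + 1)) := by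
    have := add_pow_le (zero_le_one (α := ℝ)) hZ (m + 1)
    simpa using this
  have h11 : (1 + Z) ^ (m + 1) * F ≤ 2 ^ m * (1 + Z ^ (m + 1)) * F :=
    mul_le_mul_of_nonneg_right h10 hF0.le
  have h12 : Z ^ (m + 1) * F ≤ (((m : ℝ) + 1) / θ) ^ (m + 1) * (F * sig (m + 1) A) := by
    have := mul_le_mul_of_nonneg_right h7 hF0.le
    linarith
  have h13 : (((m : ℝ) + 1) / θ) ^ (m + 1) * (F * sig (m + 1) A) ≤
      c5 * (D + 3 * n * C0 * (sig m A + ((m : ℝ) + 1) / θ * sig (m + 1) A)) := by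
    rw [hc5, mul_assoc]
    exact mul_le_mul_of_nonneg_left h5 (by positivity)
  have h14 : (1 + Z ^ (m + 1)) * F ≤ 1 + sig 1 A / θ +
      c5 * (D + 3 * n * C0 * (sig m A + ((m : ℝ) + 1) / θ * sig (m + 1) A)) := by
    linarith
  have h15 := mul_le_mul_of_nonneg_left h14 (by positivity : (0 : ℝ) ≤ 2 ^ m)
  refine h11.trans ((le_of_eq (mul_assoc _ _ _)).trans (h15.trans (le_of_eq ?_)))
  ring

theorem energy (b : Module.Basis (Fin n) ℝ (E n)) {θ C0 c M : ℝ} (hθ : 0 < θ) (hC0 : 0 ≤ C0)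
    (hc0 : 0 < c) {k : ℕ} (hk1 : 1 ≤ k) (hk : 2 * k + 1 ≤ n) :
    ∃ s K : ℝ, 0 < s ∧ s ≤ 1 ∧ 0 ≤ K ∧ ∀ w : E n → ℝ, Cls b θ C0 c M w →
      ∫ x in ZSpan.fundamentalDomain b, (1 + grad2 w x) ^ ((k : ℝ) + s) ≤ K := by
  obtain ⟨m, rfl⟩ : ∃ m, k = m + 1 := ⟨k - 1, by omega⟩
  obtain ⟨K0, hK0, hmass⟩ := mass_bound (M := M) b hθ hC0 hc0 (k := m + 1) (by omega)
  have hn0 : (0 : ℝ) < n := by
    have : 0 < n := by omega
    exact_mod_cast this
  have hmn : 2 * ((m : ℝ) + 1) + 1 ≤ n := by exact_mod_cast hk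
  have hm1 : (0 : ℝ) < (m : ℝ) + 1 := by positivity
  obtain ⟨s, hs⟩ : ∃ s : ℝ, s = ((m : ℝ) + 1) / (4 * n) := ⟨_, rfl⟩
  have hs0 : 0 < s := by rw [hs]; positivity
  have hs1 : s ≤ 1 := by
    rw [hs, div_le_one (by positivity)]
    linarith
  have hsn : 2 * s * ((n : ℝ) - (m + 1) - 1) ≤ ((m : ℝ) + 1) / 2 := by
    have e1 : s * (4 * n) = (m : ℝ) + 1 := by
      rw [hs]
      field_simp
    nlinarith
  obtain ⟨c5, hc5⟩ : ∃ c5 : ℝ, c5 = (((m : ℝ) + 1) / θ) ^ (m + 1) * (2 / ((m : ℝ) + 1)) :=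
    ⟨_, rfl⟩
  have hc50 : 0 ≤ c5 := by rw [hc5]; positivity
  refine ⟨s, 2 ^ m * volume.real (ZSpan.fundamentalDomain b) + 2 ^ m / θ * K0 +
    2 ^ m * c5 * (3 * n * C0) * K0 +
    2 ^ m * c5 * (3 * n * C0) * (((m : ℝ) + 1) / θ) * K0, hs0, hs1, by positivity, ?_⟩
  intro w h
  have hw := h.smooth
  have hh := contDiff_hc hw C0
  have hfs : ∀ a, ContDiff ℝ ∞ (fun y => (1 + grad2 w y) ^ s *
      ∑ c, newt m (hc w C0 y) a c * pd c w y) := fun a =>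
    (en_F_smooth hw s).mul (ContDiff.sum fun c _ => (contDiff_newt hh m a c).mul
      (contDiff_pd hw c))
  have hfp : ∀ a, ∀ v ∈ Lat b, ∀ x, (fun y => (1 + grad2 w y) ^ s *
      ∑ c, newt m (hc w C0 y) a c * pd c w y) (x + v) = (fun y => (1 + grad2 w y) ^ s *
      ∑ c, newt m (hc w C0 y) a c * pd c w y) x := by
    intro a v hv x
    have e1 := fun x => h.per v hv x
    simp only [grad2_per e1, hc_per e1, pd_per e1]
  have hDi : ∀ a, IntegrableOn (pd a (fun y => (1 + grad2 w y) ^ s *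
      ∑ c, newt m (hc w C0 y) a c * pd c w y)) (ZSpan.fundamentalDomain b) := fun a =>
    integrableOn_fd b (contDiff_pd (hfs a) a).continuous
  have hD0 : ∫ x in ZSpan.fundamentalDomain b, (∑ a, pd a (fun y => (1 + grad2 w y) ^ s *
        ∑ c, newt m (hc w C0 y) a c * pd c w y) x) = 0 := by
    rw [integral_finsetSum _ fun a _ => hDi a]
    exact Finset.sum_eq_zero fun a _ => per_integral_pd b ((hfs a).of_le (by simp)) (hfp a) a
  have hDI : IntegrableOn (fun x => ∑ a, pd a (fun y => (1 + grad2 w y) ^ s *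
        ∑ c, newt m (hc w C0 y) a c * pd c w y) x) (ZSpan.fundamentalDomain b) :=
    integrable_finsetSum _ fun a _ => hDi a
  have hS : ∀ j, IntegrableOn (fun x => sig j (hc w C0 x)) (ZSpan.fundamentalDomain b) :=
    fun j => integrableOn_fd b (cls_sig_cont h j)
  have hone : IntegrableOn (fun _ : E n => (2 : ℝ) ^ m) (ZSpan.fundamentalDomain b) :=
    integrableOn_fd b continuous_const
  have hL : IntegrableOn (fun x => (1 + grad2 w x) ^ (((m + 1 : ℕ) : ℝ) + s))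
      (ZSpan.fundamentalDomain b) := integrableOn_fd b (en_F_smooth hw _).continuous
  have i1 := hone.add ((hS 1).const_mul (2 ^ m / θ))
  have i2 := i1.add (hDI.const_mul (2 ^ m * c5))
  have i3 := i2.add ((hS m).const_mul (2 ^ m * c5 * (3 * n * C0)))
  have i4 := (hS (m + 1)).const_mul (2 ^ m * c5 * (3 * n * C0) * (((m : ℝ) + 1) / θ))
  have hI := integral_mono hL (i3.add i4) (fun x => en_point hθ hC0 (by omega) hs0 hs1 hsn hc5 h x)
  refine hI.trans ?_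
  rw [integral_add' i3 i4, integral_add' i2 ((hS m).const_mul (2 ^ m * c5 * (3 * n * C0))),
    integral_add' i1 (hDI.const_mul (2 ^ m * c5)),
    integral_add' hone ((hS 1).const_mul (2 ^ m / θ)), integral_const_mul, integral_const_mul,
    integral_const_mul, integral_const_mul, hD0, mul_zero, add_zero, setIntegral_const,
    smul_eq_mul, mul_comm (volume.real _)]
  have m1 := mul_le_mul_of_nonneg_left (hmass w h 1 (by omega))
    (by positivity : (0 : ℝ) ≤ 2 ^ m / θ)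
  have m2 := mul_le_mul_of_nonneg_left (hmass w h m (by omega))
    (by positivity : (0 : ℝ) ≤ 2 ^ m * c5 * (3 * n * C0))
  have m3 := mul_le_mul_of_nonneg_left (hmass w h (m + 1) le_rfl)
    (by positivity : (0 : ℝ) ≤ 2 ^ m * c5 * (3 * n * C0) * (((m : ℝ) + 1) / θ))
  linarith

end H68.CF
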