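import Pool.Agent.H68.CF.IbpP

/-!
# [H68 CF GN] Interpolation in `L¹`

For `ψ` smooth periodic, `h > 0`, `e = e_i`: Taylor with integral remainder
`ψ(x + h e) = ψ(x) + h ∂_iψ(x) + ∫_0^h (h - s) ∂_i∂_iψ(x + s e) ds`
(from `hasDerivAt_line` and `intervalIntegral.integral_mul_deriv_eq_deriv_mul` or
`intervalIntegral.integral_eq_sub_of_hasDerivAt` for
`s ↦ (h - s) ∂_iψ(x+se) + ψ(x+se)`). Integrate absolute values over `FD`, use Fubini and
`per_translate`: `h ∫|∂_iψ| ≤ 2 ∫|ψ| + (h²/2) ∫|∂_i∂_iψ|`.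
-/

open MeasureTheory Set Filter Topology Matrix Polynomial
open scoped ContDiff NNReal

noncomputable section

namespace H68.CF

variable {n : ℕ}

theorem gn_line {f : E n → ℝ} (hf : ContDiff ℝ ∞ f) (i : Fin n) (x : E n) (t : ℝ) :
    HasDerivAt (fun s : ℝ => f (x + s • (EuclideanSpace.single i (1 : ℝ) : E n)))
      (pd i f (x + t • (EuclideanSpace.single i (1 : ℝ) : E n))) t := by
  have h1 := hasDerivAt_line (f := f) (hf.differentiable (by simp)) x
    (EuclideanSpace.single i (1 : ℝ) : E n) t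
  have h2 : ∑ j, (EuclideanSpace.single i (1 : ℝ) : E n) j *
      pd j f (x + t • (EuclideanSpace.single i (1 : ℝ) : E n)) =
      pd i f (x + t • (EuclideanSpace.single i (1 : ℝ) : E n)) := by
    rw [Finset.sum_eq_single i]
    · simp
    · intro j _ hj
      simp [hj]
    · intro h
      exact absurd (Finset.mem_univ i) h
  rw [h2] at h1
  exact h1

theorem gn_taylor {ψ : E n → ℝ} (hψ : ContDiff ℝ ∞ ψ) (i : Fin n) (h : ℝ) (x : E n) :
    ∫ s in (0 : ℝ)..h, (h - s) *
      pd i (pd i ψ) (x + s • (EuclideanSpace.single i (1 : ℝ) : E n)) =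
    ψ (x + h • (EuclideanSpace.single i (1 : ℝ) : E n)) - h * pd i ψ x - ψ x := by
  set e : E n := EuclideanSpace.single i (1 : ℝ) with he
  have h1 : ContDiff ℝ ∞ (pd i ψ) := contDiff_pd hψ i
  have h2 : ContDiff ℝ ∞ (pd i (pd i ψ)) := contDiff_pd h1 i
  have hd : ∀ t : ℝ, HasDerivAt (fun s : ℝ => (h - s) * pd i ψ (x + s • e) + ψ (x + s • e))
      ((h - t) * pd i (pd i ψ) (x + t • e)) t := by
    intro t
    have a1 : HasDerivAt (fun s : ℝ => h - s) (-1) t := by
      simpa using (hasDerivAt_id t).const_sub h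
    have a2 := (a1.mul (gn_line h1 i x t)).add (gn_line hψ i x t)
    refine a2.congr_deriv ?_
    ring
  have hc : Continuous fun s : ℝ => (h - s) * pd i (pd i ψ) (x + s • e) := by
    have := h2.continuous
    fun_prop
  rw [intervalIntegral.integral_eq_sub_of_hasDerivAt (fun t _ => hd t)
    (hc.intervalIntegrable _ _)]
  simp
  ring

theorem gn (b : Module.Basis (Fin n) ℝ (E n)) {ψ : E n → ℝ} (hψ : ContDiff ℝ ∞ ψ)
    (hper : ∀ v ∈ Lat b, ∀ x, ψ (x + v) = ψ x) (i : Fin n) {h : ℝ} (hh : 0 < h) :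
    ∫ x in ZSpan.fundamentalDomain b, |pd i ψ x| ≤
      (2 / h) * (∫ x in ZSpan.fundamentalDomain b, |ψ x|) +
        (h / 2) * ∫ x in ZSpan.fundamentalDomain b, |pd i (pd i ψ) x| := by
  set S := ZSpan.fundamentalDomain b with hS
  have hSb : Bornology.IsBounded S := ZSpan.fundamentalDomain_isBounded b
  set e : E n := EuclideanSpace.single i (1 : ℝ) with he
  have h1 : ContDiff ℝ ∞ (pd i ψ) := contDiff_pd hψ i
  have h2 : ContDiff ℝ ∞ (pd i (pd i ψ)) := contDiff_pd h1 i
  have c0 := hψ.continuous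
  have c1 := h1.continuous
  have c2 := h2.continuous
  have p1 : ∀ v ∈ Lat b, ∀ x, pd i ψ (x + v) = pd i ψ x := fun v hv x => pd_per (hper v hv) i x
  have p2 : ∀ v ∈ Lat b, ∀ x, pd i (pd i ψ) (x + v) = pd i (pd i ψ) x :=
    fun v hv x => pd_per (p1 v hv) i x
  -- the double integral
  have hG : Continuous (Function.uncurry fun (s : ℝ) (x : E n) =>
      |h - s| * |pd i (pd i ψ) (x + s • e)|) := by
    unfold Function.uncurry
    fun_prop
  have hint : Integrable (Function.uncurry fun (s : ℝ) (x : E n) =>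
      |h - s| * |pd i (pd i ψ) (x + s • e)|)
      ((volume.restrict (Set.uIoc 0 h)).prod (volume.restrict S)) := by
    rw [Measure.prod_restrict]
    have hk : IsCompact (Set.uIcc (0 : ℝ) h ×ˢ closure S) :=
      isCompact_uIcc.prod hSb.isCompact_closure
    exact (hG.continuousOn.integrableOn_compact hk).mono_set
      (Set.prod_mono Set.uIoc_subset_uIcc subset_closure)
  have hsw := intervalIntegral_integral_swap (a := 0) (b := h) (μ := volume.restrict S)
    (f := fun (s : ℝ) (x : E n) => |h - s| * |pd i (pd i ψ) (x + s • e)|) hint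
  have hin : ∀ s : ℝ, ∫ x in S, |h - s| * |pd i (pd i ψ) (x + s • e)| =
      |h - s| * ∫ x in S, |pd i (pd i ψ) x| := by
    intro s
    rw [integral_const_mul]
    congr 1
    exact per_translate b (f := fun x => |pd i (pd i ψ) x|)
      (fun v hv x => by rw [p2 v hv x]) (s • e)
  have hval : ∫ s in (0 : ℝ)..h, |h - s| * ∫ x in S, |pd i (pd i ψ) x| =
      h ^ 2 / 2 * ∫ x in S, |pd i (pd i ψ) x| := by
    rw [intervalIntegral.integral_mul_const]
    congr 1
    have : ∫ s in (0 : ℝ)..h, |h - s| = ∫ s in (0 : ℝ)..h, (h - s) := by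
      refine intervalIntegral.integral_congr fun s hs => ?_
      rw [Set.uIcc_of_le hh.le] at hs
      exact abs_of_nonneg (by linarith [hs.2])
    rw [this, intervalIntegral.integral_sub (by simp) (by simp)]
    simp
    ring
  simp only [hin] at hsw
  rw [hval] at hsw
  -- pointwise bound
  have hpt : ∀ x, h * |pd i ψ x| ≤ |ψ (x + h • e)| + |ψ x| +
      ∫ s in (0 : ℝ)..h, |h - s| * |pd i (pd i ψ) (x + s • e)| := by
    intro x
    have t1 := gn_taylor hψ i h x
    rw [← he] at t1
    have t2 : h * |pd i ψ x| = |ψ (x + h • e) - ψ x -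
        ∫ s in (0 : ℝ)..h, (h - s) * pd i (pd i ψ) (x + s • e)| := by
      rw [t1, ← abs_of_pos hh, ← abs_mul, abs_of_pos hh]
      congr 1
      ring
    have t3 : |∫ s in (0 : ℝ)..h, (h - s) * pd i (pd i ψ) (x + s • e)| ≤
        ∫ s in (0 : ℝ)..h, |h - s| * |pd i (pd i ψ) (x + s • e)| := by
      refine (intervalIntegral.abs_integral_le_integral_abs hh.le).trans (le_of_eq ?_)
      refine intervalIntegral.integral_congr fun s _ => ?_
      exact abs_mul _ _
    rw [t2]
    refine (abs_sub _ _).trans ?_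
    exact add_le_add (abs_sub _ _) t3
  have i1 : IntegrableOn (fun x => h * |pd i ψ x|) S :=
    integrableOn_fd b (by fun_prop)
  have i2 : IntegrableOn (fun x => |ψ (x + h • e)|) S :=
    integrableOn_fd b (by fun_prop)
  have i3 : IntegrableOn (fun x => |ψ x|) S :=
    integrableOn_fd b (by fun_prop)
  have i4 : IntegrableOn (fun x => ∫ s in (0 : ℝ)..h, |h - s| * |pd i (pd i ψ) (x + s • e)|) S := by
    refine integrableOn_fd b ?_
    refine intervalIntegral.continuous_parametric_intervalIntegral_of_continuous' ?_ 0 h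
    unfold Function.uncurry
    fun_prop
  have hI := integral_mono i1 ((i2.add i3).add i4) (fun x => hpt x)
  have hsum : ∫ x in S, ((|ψ (x + h • e)| + |ψ x|) +
      ∫ s in (0 : ℝ)..h, |h - s| * |pd i (pd i ψ) (x + s • e)|) =
      (∫ x in S, |ψ (x + h • e)|) + (∫ x in S, |ψ x|) +
      ∫ x in S, ∫ s in (0 : ℝ)..h, |h - s| * |pd i (pd i ψ) (x + s • e)| := by
    refine (integral_add (i2.add i3) i4).trans ?_
    congr 1
    exact integral_add i2 i3
  have htr : ∫ x in S, |ψ (x + h • e)| = ∫ x in S, |ψ x| :=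
    per_translate b (f := fun x => |ψ x|) (fun v hv x => by rw [hper v hv x]) (h • e)
  rw [integral_const_mul] at hI
  have hI2 : h * ∫ x in S, |pd i ψ x| ≤ 2 * (∫ x in S, |ψ x|) +
      h ^ 2 / 2 * ∫ x in S, |pd i (pd i ψ) x| := by
    refine hI.trans (le_of_eq ?_)
    refine hsum.trans ?_
    rw [htr, ← hsw]
    ring
  have : (∫ x in S, |pd i ψ x|) = (h * ∫ x in S, |pd i ψ x|) / h := by
    field_simp
  rw [this, div_le_iff₀ hh]
  refine hI2.trans (le_of_eq ?_)
  field_simp

end H68.CF
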