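import Pool.Agent.H68.CF.Defs

/-!
# [H68 CF Interp] Hölder interpolation

`g ≥ 0` continuous on `E n`, `1 < q < q₀`, `λ = (q₀ - q)/(q₀ - 1)`: `q = λ·1 + (1-λ) q₀`,
`∫_FD g^q ≤ (∫_FD g)^λ (∫_FD g^{q₀})^(1-λ)`: Hölder's inequality for
`g^q = (g^λ) (g^{q₀ (1-λ)})` with exponents `1/λ`, `1/(1-λ)`
(`MeasureTheory.integral_mul_le_Lp_mul_Lq_of_nonneg`).
All functions are bounded on the bounded set `FD` (`ZSpan.fundamentalDomain_isBounded`).
-/

open MeasureTheory Set Filter Topology Matrix Polynomial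
open scoped ContDiff NNReal

noncomputable section

namespace H68.CF

variable {n : ℕ}

theorem interp (b : Module.Basis (Fin n) ℝ (E n)) {g : E n → ℝ} (hg : Continuous g)
    (h0 : ∀ x, 0 ≤ g x) {q q0 : ℝ} (hq : 1 < q) (hq0 : q < q0) :
    ∫ x in ZSpan.fundamentalDomain b, g x ^ q ≤
      (∫ x in ZSpan.fundamentalDomain b, g x) ^ ((q0 - q) / (q0 - 1)) *
        (∫ x in ZSpan.fundamentalDomain b, g x ^ q0) ^ ((q - 1) / (q0 - 1)) := by
  set S := ZSpan.fundamentalDomain b with hS
  have hSb : Bornology.IsBounded S := ZSpan.fundamentalDomain_isBounded b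
  have hSm : MeasurableSet S := ZSpan.fundamentalDomain_measurableSet b
  have hfin : volume S < ⊤ := hSb.measure_lt_top
  have : IsFiniteMeasure (volume.restrict S) := ⟨by
    rw [Measure.restrict_apply MeasurableSet.univ, Set.univ_inter]; exact hfin⟩
  obtain ⟨C, hC⟩ := hSb.isCompact_closure.exists_bound_of_continuousOn hg.continuousOn
  have hC' : ∀ x ∈ S, g x ≤ C := by
    intro x hx
    have h1 := hC x (subset_closure hx)
    rw [Real.norm_eq_abs] at h1
    exact (le_abs_self _).trans h1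
  have h10 : (0 : ℝ) < q0 - 1 := by linarith
  have hla : 0 < (q0 - q) / (q0 - 1) := div_pos (by linarith) h10
  have hmu : 0 < (q - 1) / (q0 - 1) := div_pos (by linarith) h10
  have hsum : (q0 - q) / (q0 - 1) + (q - 1) / (q0 - 1) = 1 := by
    field_simp
    ring
  have hexp : (q0 - q) / (q0 - 1) + q0 * ((q - 1) / (q0 - 1)) = q := by
    field_simp
    ring
  set la := (q0 - q) / (q0 - 1) with hla_def
  set mu := (q - 1) / (q0 - 1) with hmu_def
  have hq0' : 0 < q0 * mu := mul_pos (by linarith) hmu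
  have hpq : (1 / la).HolderConjugate (1 / mu) := by
    rw [Real.holderConjugate_iff]
    constructor
    · rw [lt_div_iff₀ hla]
      linarith
    · rw [one_div, one_div, inv_inv, inv_inv]
      exact hsum
  have hmem : ∀ (e p : ℝ), 0 < e →
      MemLp (fun x => g x ^ e) (ENNReal.ofReal p) (volume.restrict S) := by
    intro e p he
    refine MemLp.of_bound ?_ (C ^ e) ?_
    · exact (hg.rpow_const fun x => Or.inr he.le).aestronglyMeasurable
    · refine (ae_restrict_iff' hSm).2 (Eventually.of_forall fun x hx => ?_)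
      rw [Real.norm_eq_abs, abs_of_nonneg (Real.rpow_nonneg (h0 x) e)]
      exact Real.rpow_le_rpow (h0 x) (hC' x hx) he.le
  have key := MeasureTheory.integral_mul_le_Lp_mul_Lq_of_nonneg (μ := volume.restrict S) hpq
    (f := fun x => g x ^ la) (g := fun x => g x ^ (q0 * mu))
    (Eventually.of_forall fun x => Real.rpow_nonneg (h0 x) _)
    (Eventually.of_forall fun x => Real.rpow_nonneg (h0 x) _)
    (hmem la _ hla) (hmem (q0 * mu) _ hq0')
  have e1 : ∀ x, g x ^ la * g x ^ (q0 * mu) = g x ^ q := by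
    intro x
    rw [← Real.rpow_add_of_nonneg (h0 x) hla.le hq0'.le, hexp]
  have e2 : ∀ x, (g x ^ la) ^ (1 / la) = g x := by
    intro x
    rw [← Real.rpow_mul (h0 x), mul_one_div_cancel hla.ne', Real.rpow_one]
  have e3 : ∀ x, (g x ^ (q0 * mu)) ^ (1 / mu) = g x ^ q0 := by
    intro x
    rw [← Real.rpow_mul (h0 x), mul_assoc, mul_one_div_cancel hmu.ne', mul_one]
  simp only [e1, e2, e3] at key
  simp only [one_div, inv_inv] at key
  exact key

end H68.CF
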