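import Pool.Agent.H68.CF.IbpP

/-!
# [H68 CF FdBall] Integrals over balls and over the fundamental domain

`FD = ZSpan.fundamentalDomain b`.

* `fd_pos`: `0 < volume FD < ∞` (`ZSpan.measure_fundamentalDomain_ne_zero`,
  `ZSpan.fundamentalDomain_isBounded`).
* `ball_le_fd`: for continuous periodic `f ≥ 0`: `∫_{ball y R} f ≤ K ∫_FD f`, `K` depends on `R`
  and `b` only: the ball `ball y R` is covered by `K` translates of `FD` by lattice vectors
  (the lattice translates are disjoint, of volume `vol FD`, and those meeting `ball y R` lie in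
  `ball y (R + diam FD)`), each integral being `∫_FD f`. Simpler: every `y` is congruent to a
  point of `FD` (`ZSpan.exist_unique_vadd_mem_fundamentalDomain`), and `f` is periodic, so one may
  assume `y ∈ FD`, `ball y R ⊂ ball 0 R'`; only finitely many lattice points `v` satisfy
  `(v + FD) ∩ ball 0 R' ≠ ∅` (`ZSpan.setFinite_inter` or discreteness), let `K` be their number;
  `ball y R ⊂ ⋃_v (v + FD)`.
* `fd_le_ball`: for continuous `f ≥ 0`, `∫_FD f ≤ ∫_{ball 0 R} f` if `FD ⊂ ball 0 R`
  (monotonicity), and such an `R` exists.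
-/

open MeasureTheory Set Filter Topology Matrix Polynomial
open scoped ContDiff NNReal

noncomputable section

namespace H68.CF

variable {n : ℕ}

theorem fd_pos (b : Module.Basis (Fin n) ℝ (E n)) :
    0 < (volume (ZSpan.fundamentalDomain b)).toReal ∧
      volume (ZSpan.fundamentalDomain b) ≠ ⊤ := by
  have h1 : volume (ZSpan.fundamentalDomain b) ≠ ⊤ :=
    (ZSpan.fundamentalDomain_isBounded b).measure_lt_top.ne
  exact ⟨ENNReal.toReal_pos (ZSpan.measure_fundamentalDomain_ne_zero b) h1, h1⟩

private theorem fdb_ball (b : Module.Basis (Fin n) ℝ (E n)) :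
    ∃ ρ : ℝ, 0 ≤ ρ ∧ ∀ x ∈ ZSpan.fundamentalDomain b, ‖x‖ ≤ ρ := by
  obtain ⟨ρ, hρ⟩ := (ZSpan.fundamentalDomain_isBounded b).subset_closedBall 0
  refine ⟨max ρ 0, le_max_right _ _, fun x hx => ?_⟩
  have h := hρ hx
  rw [mem_closedBall_zero_iff] at h
  exact h.trans (le_max_left _ _)

theorem ball_le_fd (b : Module.Basis (Fin n) ℝ (E n)) (R : ℝ) :
    ∃ K : ℝ, 0 ≤ K ∧ ∀ f : E n → ℝ, Continuous f → (∀ v ∈ Lat b, ∀ x, f (x + v) = f x) →
      (∀ x, 0 ≤ f x) → ∀ y, ∫ x in Metric.ball y R, f x ≤
        K * ∫ x in ZSpan.fundamentalDomain b, f x := by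
  classical
  obtain ⟨ρ, hρ0, hρ⟩ := fdb_ball b
  have hfin : ((Metric.closedBall (0 : E n) (R + 2 * ρ)) ∩
      (Submodule.span ℤ (Set.range b) : Set (E n))).Finite :=
    ZSpan.setFinite_inter b Metric.isBounded_closedBall
  obtain ⟨S, hS⟩ : ∃ S : Finset (E n), S = hfin.toFinset := ⟨_, rfl⟩
  have hmem : ∀ v, v ∈ S ↔ ‖v‖ ≤ R + 2 * ρ ∧ v ∈ Lat b := by
    intro v
    rw [hS, Set.Finite.mem_toFinset, Set.mem_inter_iff, mem_closedBall_zero_iff]
    rfl
  refine ⟨(S.card : ℝ), Nat.cast_nonneg _, fun f hc hf h0 y => ?_⟩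
  have hper : ∀ v ∈ Lat b, ∀ x, f (x - v) = f x := by
    intro v hv x
    have h1 := hf v hv (x - v)
    rw [sub_add_cancel] at h1
    exact h1.symm
  have hFm : MeasurableSet (ZSpan.fundamentalDomain b) := ZSpan.fundamentalDomain_measurableSet b
  have hint : Integrable ((ZSpan.fundamentalDomain b).indicator f) :=
    (integrable_indicator_iff hFm).2 (integrableOn_fd b hc)
  have hI : ∀ v : E n, ∫ x, (ZSpan.fundamentalDomain b).indicator f (x - v) =
      ∫ x in ZSpan.fundamentalDomain b, f x := by
    intro v
    rw [integral_sub_right_eq_self (fun x => (ZSpan.fundamentalDomain b).indicator f x) v,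
      integral_indicator hFm]
  have hbi : IntegrableOn f (Metric.ball y R) :=
    (hc.continuousOn.integrableOn_compact (isCompact_closedBall y R)).mono_set
      Metric.ball_subset_closedBall
  rw [← integral_indicator measurableSet_ball]
  calc ∫ x, (Metric.ball y R).indicator f x
      ≤ ∫ x, ∑ v ∈ S, (ZSpan.fundamentalDomain b).indicator f
          (x - (v + (ZSpan.floor b y : E n))) := by
        refine integral_mono ((integrable_indicator_iff measurableSet_ball).2 hbi)
          (integrable_finsetSum _ fun v _ => hint.comp_sub_right _) ?_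
        intro x
        have hnn : ∀ v ∈ S, 0 ≤ (ZSpan.fundamentalDomain b).indicator f
            (x - (v + (ZSpan.floor b y : E n))) := fun v _ =>
          Set.indicator_nonneg (fun z _ => h0 z) _
        change (Metric.ball y R).indicator f x ≤ ∑ v ∈ S, (ZSpan.fundamentalDomain b).indicator f
            (x - (v + (ZSpan.floor b y : E n)))
        by_cases hx : x ∈ Metric.ball y R
        · rw [Set.indicator_of_mem hx]
          have hv : (ZSpan.floor b x : E n) - (ZSpan.floor b y : E n) ∈ S := by
            rw [hmem]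
            refine ⟨?_, Submodule.sub_mem _ (ZSpan.floor b x).2 (ZSpan.floor b y).2⟩
            have h1 : (ZSpan.floor b x : E n) - (ZSpan.floor b y : E n) =
                (x - y) - (ZSpan.fract b x - ZSpan.fract b y) := by
              rw [ZSpan.fract_apply, ZSpan.fract_apply]
              abel
            have h2 := hρ _ (ZSpan.fract_mem_fundamentalDomain b x)
            have h3 := hρ _ (ZSpan.fract_mem_fundamentalDomain b y)
            have h4 : ‖x - y‖ ≤ R := by
              rw [Metric.mem_ball, dist_eq_norm] at hx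
              exact hx.le
            rw [h1]
            have h5 := norm_sub_le (x - y) (ZSpan.fract b x - ZSpan.fract b y)
            have h6 := norm_sub_le (ZSpan.fract b x) (ZSpan.fract b y)
            linarith
          have h7 := Finset.single_le_sum hnn hv
          refine le_trans ?_ h7
          have h8 : x - ((ZSpan.floor b x : E n) - (ZSpan.floor b y : E n) +
              (ZSpan.floor b y : E n)) = ZSpan.fract b x := by
            rw [ZSpan.fract_apply]
            abel
          rw [h8, Set.indicator_of_mem (ZSpan.fract_mem_fundamentalDomain b x), ZSpan.fract_apply,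
            hper _ (ZSpan.floor b x).2]
        · rw [Set.indicator_of_notMem hx]
          exact Finset.sum_nonneg hnn
    _ = ∑ v ∈ S, ∫ x, (ZSpan.fundamentalDomain b).indicator f
          (x - (v + (ZSpan.floor b y : E n))) :=
        integral_finsetSum _ fun v _ => hint.comp_sub_right _
    _ = (S.card : ℝ) * ∫ x in ZSpan.fundamentalDomain b, f x := by
        rw [Finset.sum_congr rfl fun v _ => hI _, Finset.sum_const, nsmul_eq_mul]

theorem fd_le_ball (b : Module.Basis (Fin n) ℝ (E n)) :
    ∃ R : ℝ, 0 < R ∧ ∀ f : E n → ℝ, Continuous f → (∀ x, 0 ≤ f x) →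
      ∫ x in ZSpan.fundamentalDomain b, f x ≤ ∫ x in Metric.ball 0 R, f x := by
  obtain ⟨ρ, hρ0, hρ⟩ := fdb_ball b
  refine ⟨ρ + 1, by linarith, fun f hc h0 => ?_⟩
  have hbi : IntegrableOn f (Metric.ball 0 (ρ + 1)) :=
    (hc.continuousOn.integrableOn_compact (isCompact_closedBall 0 (ρ + 1))).mono_set
      Metric.ball_subset_closedBall
  refine setIntegral_mono_set hbi (Filter.Eventually.of_forall fun x => h0 x) ?_
  refine LE.le.eventuallyLE fun x hx => ?_
  rw [mem_ball_zero_iff]
  have := hρ x hx
  linarith

end H68.CF
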