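import Pool.Agent.H68.CF.CLN
import Pool.Agent.H68.CF.FdBall

/-!
# [H68 CF MassB] Uniform bounds for the total masses

`∫_FD sig j (A) ≤ K` for `j ≤ k`, `2k ≤ n`: `cln` with `R` of `fd_le_ball`, `y = 0`, `r = R`.
Consequence with `j = 1` (`n ≥ 3`): the second derivatives satisfy `∫_FD |∂_i ∂_i w| ≤ K`
(`entry_bound`: `|A_ii| ≤ 3 sig 1 A`, `∂_i ∂_i w = A_ii - C0`).
-/

open MeasureTheory Set Filter Topology Matrix Polynomial
open scoped ContDiff NNReal

noncomputable section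

namespace H68.CF

variable {n : ℕ}

theorem mass_bound (b : Module.Basis (Fin n) ℝ (E n)) {θ C0 c M : ℝ} (hθ : 0 < θ)
    (hC0 : 0 ≤ C0) (hc0 : 0 < c) {k : ℕ} (hk : 2 * k ≤ n) :
    ∃ K : ℝ, 0 ≤ K ∧ ∀ w : E n → ℝ, Cls b θ C0 c M w → ∀ j ≤ k,
      ∫ x in ZSpan.fundamentalDomain b, sig j (hc w C0 x) ≤ K := by
  obtain ⟨R, hR, h1⟩ := fd_le_ball b
  obtain ⟨K, hK, h2⟩ := cln (M := M) b hθ hC0 hc0 hk R
  have hm : (1 : ℝ) ≤ max 1 R := le_max_left _ _
  refine ⟨K * (max 1 R) ^ n, by positivity, fun w hw j hj => ?_⟩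
  calc ∫ x in ZSpan.fundamentalDomain b, sig j (hc w C0 x)
      ≤ ∫ x in Metric.ball 0 R, sig j (hc w C0 x) :=
        h1 _ (cls_sig_cont hw j) fun x => cls_sig_nonneg hθ.le hw (by omega) x
    _ ≤ K * R ^ (n - 2 * j) := h2 w hw 0 R hR le_rfl j hj
    _ ≤ K * (max 1 R) ^ n := by
        apply mul_le_mul_of_nonneg_left _ hK
        calc R ^ (n - 2 * j) ≤ (max 1 R) ^ (n - 2 * j) :=
              pow_le_pow_left₀ hR.le (le_max_right _ _) _
          _ ≤ (max 1 R) ^ n := pow_le_pow_right₀ hm (Nat.sub_le _ _)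

private theorem mb_integrable (b : Module.Basis (Fin n) ℝ (E n)) {f : E n → ℝ}
    (hf : Continuous f) : IntegrableOn f (ZSpan.fundamentalDomain b) := by
  obtain ⟨r, hr⟩ := (ZSpan.fundamentalDomain_isBounded b).subset_closedBall (0 : E n)
  exact (hf.continuousOn.integrableOn_compact (isCompact_closedBall (0 : E n) r)).mono_set hr

private theorem mb_entry (hn : 3 ≤ n) {A : Matrix (Fin n) (Fin n) ℝ} (hA : A.IsSymm)
    (hp : PairGe A 0) (i : Fin n) : |A i i| ≤ ((n : ℝ) + 1) * sig 1 A := by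
  have h1 := abs_newt_entry hA hp (j := 1) (by omega) i i
  have h2 : newt 1 A = sig 1 A • (1 : Matrix (Fin n) (Fin n) ℝ) - A * newt 0 A := newt_succ 0 A
  have h3 : 0 ≤ sig 1 A := sig_nonneg hA hp (by omega)
  rw [h2, newt_zero, Matrix.mul_one, Matrix.sub_apply, Matrix.smul_apply, Matrix.one_apply_eq,
    smul_eq_mul, mul_one] at h1
  rw [abs_le] at h1 ⊢
  constructor <;> linarith [h1.1, h1.2]

theorem second_bound (hn : 3 ≤ n) (b : Module.Basis (Fin n) ℝ (E n)) {θ C0 c M : ℝ}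
    (hθ : 0 < θ) (hC0 : 0 ≤ C0) (hc0 : 0 < c) :
    ∃ K : ℝ, 0 ≤ K ∧ ∀ w : E n → ℝ, Cls b θ C0 c M w → ∀ i : Fin n,
      ∫ x in ZSpan.fundamentalDomain b, |pd i (pd i w) x| ≤ K := by
  obtain ⟨K, hK, h1⟩ := mass_bound (M := M) b hθ hC0 hc0 (k := 1) (by omega)
  refine ⟨((n : ℝ) + 1) * K + (volume.real (ZSpan.fundamentalDomain b)) * C0, by positivity,
    fun w hw i => ?_⟩
  have hcont : Continuous (fun x => |pd i (pd i w) x|) :=
    (contDiff_pd (contDiff_pd hw.smooth i) i).continuous.abs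
  have hpt : ∀ x, |pd i (pd i w) x| ≤ ((n : ℝ) + 1) * sig 1 (hc w C0 x) + C0 := by
    intro x
    have h2 := mb_entry hn (hc_symm hw.smooth C0 x) (cls_pair0 hθ.le hw x) i
    have h3 : hc w C0 x i i = pd i (pd i w) x + C0 := by
      unfold hc
      rw [Matrix.add_apply, Matrix.smul_apply, Matrix.one_apply_eq, smul_eq_mul, mul_one]
      rfl
    rw [h3] at h2
    rw [abs_le] at h2 ⊢
    constructor <;> linarith [h2.1, h2.2]
  have hi1 := mb_integrable b hcont
  have hi2 : IntegrableOn (fun x => ((n : ℝ) + 1) * sig 1 (hc w C0 x))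
      (ZSpan.fundamentalDomain b) := mb_integrable b (continuous_const.mul (cls_sig_cont hw 1))
  have hi3 : IntegrableOn (fun _ : E n => C0) (ZSpan.fundamentalDomain b) :=
    mb_integrable b continuous_const
  calc ∫ x in ZSpan.fundamentalDomain b, |pd i (pd i w) x|
      ≤ ∫ x in ZSpan.fundamentalDomain b, (((n : ℝ) + 1) * sig 1 (hc w C0 x) + C0) :=
        integral_mono hi1 (hi2.add hi3) hpt
    _ = ((n : ℝ) + 1) * (∫ x in ZSpan.fundamentalDomain b, sig 1 (hc w C0 x)) +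
          (volume.real (ZSpan.fundamentalDomain b)) * C0 := by
        rw [integral_add hi2 hi3, integral_const_mul, setIntegral_const, smul_eq_mul]
    _ ≤ ((n : ℝ) + 1) * K + (volume.real (ZSpan.fundamentalDomain b)) * C0 := by
        have h4 := h1 w hw 1 le_rfl
        have h5 : (0 : ℝ) ≤ (n : ℝ) + 1 := by positivity
        have h6 := mul_le_mul_of_nonneg_left h4 h5
        linarith

end H68.CF
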