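import Pool.Agent.H68.CF.TraceB
import Pool.Agent.H68.CF.MassB
import Pool.Agent.H68.CF.Energy
import Pool.Agent.H68.CF.GN
import Pool.Agent.H68.CF.Interp

/-!
# [H68 CF ContA] The trace estimate for differences

`∫_FD |w1 - w0| ∑_{j ≤ k} sig j (hc w C0) ≤ K (∫_FD |w1 - w0|)^γ` for all `w0, w1, w` in the
class.

Proof. `ρ = ∑_{j ≤ k} sig j (hc w C0)` is continuous, periodic, `≥ 0`, and
`∫_{ball y r} ρ ≤ K r^(n-2k)` for `r ≤ 1` (`cln`). Let `s` be as in `energy`,
`q₀ = 2(k+s)`, `q = 2k + s`. `trace_ineq` for `ψ = w1 - w0` reduces the claim to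
`(∫_FD |∇ψ|^q)^(1/q) ≤ K (∫_FD |ψ|)^γ` (as `∫_FD |ψ| ≤ 2 M vol(FD)`, also the first term is bounded by a multiple
of `(∫|ψ|)^γ` when `γ ≤ 1`). By `interp`, `λ = (q₀-q)/(q₀-1)`,
`∫ |∇ψ|^q ≤ (∫|∇ψ|)^λ (∫ |∇ψ|^{q₀})^(1-λ)`, and `|∇ψ| ≤ |∇w0| + |∇w1|`,
`|∇ψ|^{q₀} ≤ 2^{q₀} ((1+|∇w0|²)^(k+s) + (1+|∇w1|²)^(k+s))`, bounded by `energy`. Finally
`|∇ψ| ≤ ∑_i |∂_i ψ|` and by `gn` with `h = √δ`, `δ = ∫|ψ|` (if `δ = 0` then `ψ = 0` everywhere on `FD`
and everything is `0`, or use `δ + ε`, `ε → 0`), and `second_bound`: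
`∫|∂_iψ| ≤ 2 √δ + √δ K`. So `γ = λ/(2q)` (note `λ/(2q) ≤ 1`).
-/

open MeasureTheory Set Filter Topology Matrix Polynomial
open scoped ContDiff NNReal

noncomputable section

namespace H68.CF

variable {n : ℕ}

private theorem contA_grad_cont {f : E n → ℝ} (hf : ContDiff ℝ ∞ f) : Continuous (grad2 f) := by
  unfold grad2
  exact continuous_finsetSum _ fun i _ => ((contDiff_pd hf i).continuous).pow 2

private theorem contA_grad_nonneg (f : E n → ℝ) (x : E n) : 0 ≤ grad2 f x :=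
  Finset.sum_nonneg fun _ _ => sq_nonneg _

private theorem contA_sqrt_le (f : E n → ℝ) (x : E n) :
    Real.sqrt (grad2 f x) ≤ ∑ i, |pd i f x| := by
  rw [Real.sqrt_le_left (Finset.sum_nonneg fun _ _ => abs_nonneg _)]
  unfold grad2
  have h1 : ∀ i, (pd i f x) ^ 2 = |pd i f x| ^ 2 := fun i => (sq_abs _).symm
  rw [Finset.sum_congr rfl fun i _ => h1 i]
  rw [sq (∑ i, |pd i f x|), Finset.sum_mul]
  refine Finset.sum_le_sum fun i _ => ?_
  rw [sq]
  exact mul_le_mul_of_nonneg_left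
    (Finset.single_le_sum (f := fun j => |pd j f x|) (fun j _ => abs_nonneg _)
      (Finset.mem_univ i)) (abs_nonneg _)

/-- the pointwise bound of the high power of the gradient of a difference -/
private theorem contA_pow {w0 w1 : E n → ℝ} (h0 : ContDiff ℝ ∞ w0) (h1 : ContDiff ℝ ∞ w1)
    {p : ℝ} (hp : 0 ≤ p) (x : E n) :
    Real.sqrt (grad2 (fun x => w1 x - w0 x) x) ^ (2 * p) ≤
      4 ^ p * ((1 + grad2 w0 x) ^ p + (1 + grad2 w1 x) ^ p) := by
  have hd0 : DifferentiableAt ℝ w0 x := (h0.differentiable (by simp)).differentiableAt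
  have hd1 : DifferentiableAt ℝ w1 x := (h1.differentiable (by simp)).differentiableAt
  have hg : grad2 (fun x => w1 x - w0 x) x ≤ 2 * grad2 w0 x + 2 * grad2 w1 x := by
    unfold grad2
    rw [Finset.mul_sum, Finset.mul_sum, ← Finset.sum_add_distrib]
    refine Finset.sum_le_sum fun i _ => ?_
    rw [pd_sub hd1 hd0]
    nlinarith [sq_nonneg (pd i w1 x + pd i w0 x)]
  have hn0 := contA_grad_nonneg w0 x
  have hn1 := contA_grad_nonneg w1 x
  have hnn := contA_grad_nonneg (fun x => w1 x - w0 x) x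
  have e1 : Real.sqrt (grad2 (fun x => w1 x - w0 x) x) ^ (2 * p) =
      (grad2 (fun x => w1 x - w0 x) x) ^ p := by
    rw [Real.rpow_mul (Real.sqrt_nonneg _)]
    congr 1
    have := Real.sq_sqrt hnn
    rw [← Real.rpow_natCast] at this
    exact_mod_cast this
  rw [e1]
  rcases le_total (grad2 w0 x) (grad2 w1 x) with hle | hle
  · calc (grad2 (fun x => w1 x - w0 x) x) ^ p ≤ (4 * (1 + grad2 w1 x)) ^ p :=
          Real.rpow_le_rpow hnn (by linarith) hp
      _ = 4 ^ p * (1 + grad2 w1 x) ^ p := Real.mul_rpow (by norm_num) (by linarith)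
      _ ≤ 4 ^ p * ((1 + grad2 w0 x) ^ p + (1 + grad2 w1 x) ^ p) := by
          refine mul_le_mul_of_nonneg_left ?_ (by positivity)
          have : 0 ≤ (1 + grad2 w0 x) ^ p := Real.rpow_nonneg (by linarith) _
          linarith
  · calc (grad2 (fun x => w1 x - w0 x) x) ^ p ≤ (4 * (1 + grad2 w0 x)) ^ p :=
          Real.rpow_le_rpow hnn (by linarith) hp
      _ = 4 ^ p * (1 + grad2 w0 x) ^ p := Real.mul_rpow (by norm_num) (by linarith)
      _ ≤ 4 ^ p * ((1 + grad2 w0 x) ^ p + (1 + grad2 w1 x) ^ p) := by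
          refine mul_le_mul_of_nonneg_left ?_ (by positivity)
          have : 0 ≤ (1 + grad2 w1 x) ^ p := Real.rpow_nonneg (by linarith) _
          linarith

theorem cont_a (hn : 3 ≤ n) (b : Module.Basis (Fin n) ℝ (E n)) {θ C0 c M : ℝ} (hθ : 0 < θ)
    (hC0 : 0 ≤ C0) (hc0 : 0 < c) {k : ℕ} (hk1 : 1 ≤ k) (hk : 2 * k + 1 ≤ n) :
    ∃ K γ : ℝ, 0 ≤ K ∧ 0 < γ ∧ ∀ w0 w1 w : E n → ℝ, Cls b θ C0 c M w0 → Cls b θ C0 c M w1 →
      Cls b θ C0 c M w →
      ∫ x in ZSpan.fundamentalDomain b,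
          |w1 x - w0 x| * ∑ j ∈ Finset.range (k + 1), sig j (hc w C0 x) ≤
        K * (∫ x in ZSpan.fundamentalDomain b, |w1 x - w0 x|) ^ γ := by
  obtain ⟨K₁, hK₁, hcln⟩ := cln (M := M) b hθ hC0 hc0 (k := k) (by omega) 1
  obtain ⟨s, KE, hs0, hs1, hKE, hen⟩ := energy (M := M) b hθ hC0 hc0 hk1 hk
  obtain ⟨KS, hKS, hsec⟩ := second_bound (M := M) hn b hθ hC0 hc0
  have hk1r : (1 : ℝ) ≤ k := by exact_mod_cast hk1
  obtain ⟨q, hq⟩ : ∃ q : ℝ, q = 2 * k + s := ⟨_, rfl⟩
  obtain ⟨q0, hq0⟩ : ∃ q0 : ℝ, q0 = 2 * (k + s) := ⟨_, rfl⟩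
  have hq1 : 1 < q := by linarith
  have hqq : q < q0 := by linarith
  have hqpos : 0 < q := by linarith
  obtain ⟨KT, hKT, htr⟩ := trace_ineq b hk1 hk (q := q) (by linarith) (((k : ℝ) + 1) * K₁)
  obtain ⟨lam, hlam⟩ : ∃ lam : ℝ, lam = (q0 - q) / (q0 - 1) := ⟨_, rfl⟩
  obtain ⟨mu, hmu⟩ : ∃ mu : ℝ, mu = (q - 1) / (q0 - 1) := ⟨_, rfl⟩
  have hlam0 : 0 < lam := by
    rw [hlam]
    exact div_pos (by linarith) (by linarith)
  have hlam1 : lam ≤ 1 := by
    rw [hlam, div_le_one (by linarith)]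
    linarith
  have hmu0 : 0 ≤ mu := by
    rw [hmu]
    exact div_nonneg (by linarith) (by linarith)
  obtain ⟨V, hV⟩ : ∃ V : ℝ, V = (volume (ZSpan.fundamentalDomain b)).toReal := ⟨_, rfl⟩
  have hV0 : 0 < V := hV ▸ (fd_pos b).1
  obtain ⟨D, hD⟩ : ∃ D : ℝ, D = max 1 (|M| * V) := ⟨_, rfl⟩
  have hD1 : 1 ≤ D := hD ▸ le_max_left _ _
  have hDM : |M| * V ≤ D := hD ▸ le_max_right _ _
  obtain ⟨A, hA⟩ : ∃ A : ℝ, A = n * (2 + KS) := ⟨_, rfl⟩
  have hA0 : 0 ≤ A := by
    rw [hA]
    positivity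
  obtain ⟨KQ, hKQ⟩ : ∃ KQ : ℝ, KQ = 4 ^ ((k : ℝ) + s) * (KE + KE) := ⟨_, rfl⟩
  have hKQ0 : 0 ≤ KQ := by
    rw [hKQ]
    positivity
  have hγ0 : 0 < lam / (2 * q) := by positivity
  have hγ1 : lam / (2 * q) ≤ 1 := by
    rw [div_le_one (by positivity)]
    linarith
  refine ⟨KT * (D + (A ^ lam * KQ ^ mu) ^ (1 / q)), lam / (2 * q), by positivity, hγ0, ?_⟩
  intro w0 w1 w h0 h1 hw
  obtain ⟨ψ, hψ⟩ : ∃ ψ : E n → ℝ, ψ = fun x => w1 x - w0 x := ⟨_, rfl⟩
  have hψs : ContDiff ℝ ∞ ψ := hψ ▸ h1.smooth.sub h0.smooth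
  have hψp : ∀ v ∈ Lat b, ∀ x, ψ (x + v) = ψ x := by
    intro v hv x
    rw [hψ]
    show w1 (x + v) - w0 (x + v) = w1 x - w0 x
    rw [h1.per v hv, h0.per v hv]
  have hψx : ∀ x, w1 x - w0 x = ψ x := fun x => by rw [hψ]
  simp only [hψx]
  have hψc : Continuous fun x => |ψ x| := hψs.continuous.abs
  have hψi := integrableOn_fd b hψc
  obtain ⟨δ, hδ⟩ : ∃ δ : ℝ, δ = ∫ x in ZSpan.fundamentalDomain b, |ψ x| := ⟨_, rfl⟩
  rw [← hδ]
  have hδ0 : 0 ≤ δ := hδ ▸ integral_nonneg fun x => abs_nonneg _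
  have hρc : Continuous fun x => ∑ j ∈ Finset.range (k + 1), sig j (hc w C0 x) :=
    continuous_finsetSum _ fun j _ => cls_sig_cont hw j
  -- the case `δ = 0`
  rcases eq_or_lt_of_le hδ0 with hz | hδpos
  · rw [← hz, Real.zero_rpow hγ0.ne', mul_zero]
    have h2 : (fun x => |ψ x|) =ᵐ[volume.restrict (ZSpan.fundamentalDomain b)] 0 := by
      rw [← integral_eq_zero_iff_of_nonneg (fun x => abs_nonneg _) hψi]
      rw [← hδ, ← hz]
    have h3 : ∫ x in ZSpan.fundamentalDomain b,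
        |ψ x| * ∑ j ∈ Finset.range (k + 1), sig j (hc w C0 x) = 0 := by
      rw [← integral_zero (E n) ℝ (μ := volume.restrict (ZSpan.fundamentalDomain b))]
      refine integral_congr_ae ?_
      filter_upwards [h2] with x hx
      have hx' : |ψ x| = 0 := hx
      rw [hx', zero_mul]
    exact h3.le
  -- the size of `δ`
  have hδD : δ ≤ D := by
    refine le_trans ?_ hDM
    have h2 : ∫ x in ZSpan.fundamentalDomain b, |ψ x| ≤
        ∫ _x in ZSpan.fundamentalDomain b, |M| := by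
      refine setIntegral_mono hψi (integrableOn_fd b continuous_const) fun x => ?_
      show |ψ x| ≤ |M|
      rw [hψ]
      have e1 := h0.lower x
      have e2 := h0.upper x
      have e3 := h1.lower x
      have e4 := h1.upper x
      have e5 : M ≤ |M| := le_abs_self M
      rw [abs_le]
      constructor <;> linarith
    rw [← hδ] at h2
    refine h2.trans (le_of_eq ?_)
    rw [setIntegral_const, smul_eq_mul, mul_comm, hV]
    rfl
  -- the trace inequality
  have hT := htr (fun x => ∑ j ∈ Finset.range (k + 1), sig j (hc w C0 x)) ψ hρc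
    (fun v hv x => Finset.sum_congr rfl fun j _ => cls_sig_per hw j v hv x)
    (fun x => Finset.sum_nonneg fun j hj => cls_sig_nonneg hθ.le hw
      (by have := Finset.mem_range.1 hj; omega) x)
    (by
      intro y r hr0 hr1
      have hint : ∀ j ∈ Finset.range (k + 1), Integrable (fun x => sig j (hc w C0 x))
          (volume.restrict (Metric.ball y r)) := by
        intro j _
        have hcc : IntegrableOn (fun x => sig j (hc w C0 x)) (Metric.closedBall y r) :=
          (cls_sig_cont hw j).continuousOn.integrableOn_compact (isCompact_closedBall y r)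
        exact hcc.mono_set Metric.ball_subset_closedBall
      rw [integral_finsetSum _ hint]
      have h2 : ∀ j ∈ Finset.range (k + 1), ∫ x in Metric.ball y r, sig j (hc w C0 x) ≤
          K₁ * r ^ (n - 2 * k) := by
        intro j hj
        have hjk : j ≤ k := by
          have := Finset.mem_range.1 hj
          omega
        refine (hcln w hw y r hr0 hr1 j hjk).trans ?_
        refine mul_le_mul_of_nonneg_left ?_ hK₁
        exact pow_le_pow_of_le_one hr0.le hr1 (by omega)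
      refine (Finset.sum_le_sum h2).trans (le_of_eq ?_)
      rw [Finset.sum_const, Finset.card_range, nsmul_eq_mul]
      push_cast
      ring)
    hψs hψp
  rw [← hδ] at hT
  -- the gradient in `L¹`
  have hgc : Continuous fun x => Real.sqrt (grad2 ψ x) := (contA_grad_cont hψs).sqrt
  have hg1 : ∫ x in ZSpan.fundamentalDomain b, Real.sqrt (grad2 ψ x) ≤ A * δ ^ (1 / 2 : ℝ) := by
    have hpi : ∀ i : Fin n, Integrable (fun x => |pd i ψ x|)
        (volume.restrict (ZSpan.fundamentalDomain b)) := fun i =>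
      integrableOn_fd b (contDiff_pd hψs i).continuous.abs
    have h2 : ∫ x in ZSpan.fundamentalDomain b, Real.sqrt (grad2 ψ x) ≤
        ∫ x in ZSpan.fundamentalDomain b, ∑ i, |pd i ψ x| :=
      integral_mono (integrableOn_fd b hgc) (integrable_finsetSum _ fun i _ => hpi i)
        fun x => contA_sqrt_le ψ x
    rw [integral_finsetSum _ fun i _ => hpi i] at h2
    refine h2.trans ?_
    have hsq : 0 < δ ^ (1 / 2 : ℝ) := Real.rpow_pos_of_pos hδpos _
    have hsq2 : δ ^ (1 / 2 : ℝ) * δ ^ (1 / 2 : ℝ) = δ := by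
      rw [← Real.rpow_add hδpos]
      norm_num
    have h3 : ∀ i ∈ (Finset.univ : Finset (Fin n)),
        ∫ x in ZSpan.fundamentalDomain b, |pd i ψ x| ≤ (2 + KS) * δ ^ (1 / 2 : ℝ) := by
      intro i _
      have h4 := gn b hψs hψp i hsq
      rw [← hδ] at h4
      have h5 : ∫ x in ZSpan.fundamentalDomain b, |pd i (pd i ψ) x| ≤ KS + KS := by
        have e0 : pd i ψ = fun x => pd i w1 x - pd i w0 x := by
          funext x
          rw [hψ]
          exact pd_sub (h1.smooth.differentiable (by simp)).differentiableAt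
            (h0.smooth.differentiable (by simp)).differentiableAt i
        have e1 : ∀ x, pd i (pd i ψ) x = pd i (pd i w1) x - pd i (pd i w0) x := by
          intro x
          rw [e0]
          exact pd_sub ((contDiff_pd h1.smooth i).differentiable (by simp)).differentiableAt
            ((contDiff_pd h0.smooth i).differentiable (by simp)).differentiableAt i
        have i1 := integrableOn_fd b
          (contDiff_pd (contDiff_pd h1.smooth i) i).continuous.abs
        have i0 := integrableOn_fd b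
          (contDiff_pd (contDiff_pd h0.smooth i) i).continuous.abs
        calc ∫ x in ZSpan.fundamentalDomain b, |pd i (pd i ψ) x|
            ≤ ∫ x in ZSpan.fundamentalDomain b,
                (|pd i (pd i w1) x| + |pd i (pd i w0) x|) := by
              refine integral_mono (integrableOn_fd b
                (contDiff_pd (contDiff_pd hψs i) i).continuous.abs) (i1.add i0) fun x => ?_
              show |pd i (pd i ψ) x| ≤ |pd i (pd i w1) x| + |pd i (pd i w0) x|
              rw [e1]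
              exact abs_sub _ _
          _ = (∫ x in ZSpan.fundamentalDomain b, |pd i (pd i w1) x|) +
                ∫ x in ZSpan.fundamentalDomain b, |pd i (pd i w0) x| := integral_add i1 i0
          _ ≤ KS + KS := add_le_add (hsec w1 h1 i) (hsec w0 h0 i)
      have h6 : 2 / δ ^ (1 / 2 : ℝ) * δ = 2 * δ ^ (1 / 2 : ℝ) := by
        rw [div_mul_eq_mul_div, div_eq_iff hsq.ne', mul_assoc, hsq2]
      rw [h6] at h4
      have h7 : δ ^ (1 / 2 : ℝ) / 2 * ∫ x in ZSpan.fundamentalDomain b, |pd i (pd i ψ) x| ≤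
          δ ^ (1 / 2 : ℝ) / 2 * (KS + KS) := mul_le_mul_of_nonneg_left h5 (by positivity)
      linarith
    refine (Finset.sum_le_sum h3).trans (le_of_eq ?_)
    rw [Finset.sum_const, Finset.card_univ, Fintype.card_fin, nsmul_eq_mul, hA]
    ring
  -- the high power of the gradient
  have hks : 0 ≤ (k : ℝ) + s := by linarith
  have hg2 : ∫ x in ZSpan.fundamentalDomain b, Real.sqrt (grad2 ψ x) ^ q0 ≤ KQ := by
    have hc' : ∀ f : E n → ℝ, ContDiff ℝ ∞ f →
        Continuous fun x => (1 + grad2 f x) ^ ((k : ℝ) + s) := fun f hf =>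
      (continuous_const.add (contA_grad_cont hf)).rpow_const fun x => Or.inr hks
    have i0 := integrableOn_fd b (hc' w0 h0.smooth)
    have i1 := integrableOn_fd b (hc' w1 h1.smooth)
    have hcq : Continuous fun x => Real.sqrt (grad2 ψ x) ^ q0 :=
      hgc.rpow_const fun x => Or.inr (by linarith)
    calc ∫ x in ZSpan.fundamentalDomain b, Real.sqrt (grad2 ψ x) ^ q0
        ≤ ∫ x in ZSpan.fundamentalDomain b, 4 ^ ((k : ℝ) + s) *
            ((1 + grad2 w0 x) ^ ((k : ℝ) + s) + (1 + grad2 w1 x) ^ ((k : ℝ) + s)) := by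
          refine integral_mono (integrableOn_fd b hcq) ((i0.add i1).const_mul _) fun x => ?_
          show Real.sqrt (grad2 ψ x) ^ q0 ≤ _
          rw [hψ, hq0]
          exact contA_pow h0.smooth h1.smooth hks x
      _ = 4 ^ ((k : ℝ) + s) * ((∫ x in ZSpan.fundamentalDomain b,
            (1 + grad2 w0 x) ^ ((k : ℝ) + s)) + ∫ x in ZSpan.fundamentalDomain b,
            (1 + grad2 w1 x) ^ ((k : ℝ) + s)) := by
          rw [integral_const_mul, integral_add i0 i1]
      _ ≤ KQ := by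
          rw [hKQ]
          exact mul_le_mul_of_nonneg_left (add_le_add (hen w0 h0) (hen w1 h1)) (by positivity)
  -- interpolation
  have hint := interp b hgc (fun x => Real.sqrt_nonneg _) hq1 hqq
  rw [← hlam, ← hmu] at hint
  have hg1n : 0 ≤ ∫ x in ZSpan.fundamentalDomain b, Real.sqrt (grad2 ψ x) :=
    integral_nonneg fun x => Real.sqrt_nonneg _
  have hg2n : 0 ≤ ∫ x in ZSpan.fundamentalDomain b, Real.sqrt (grad2 ψ x) ^ q0 :=
    integral_nonneg fun x => Real.rpow_nonneg (Real.sqrt_nonneg _) _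
  have hgq : ∫ x in ZSpan.fundamentalDomain b, Real.sqrt (grad2 ψ x) ^ q ≤
      (A ^ lam * KQ ^ mu) * δ ^ (lam / 2) := by
    calc ∫ x in ZSpan.fundamentalDomain b, Real.sqrt (grad2 ψ x) ^ q
        ≤ (A * δ ^ (1 / 2 : ℝ)) ^ lam * KQ ^ mu :=
          hint.trans (mul_le_mul (Real.rpow_le_rpow hg1n hg1 hlam0.le)
            (Real.rpow_le_rpow hg2n hg2 hmu0) (Real.rpow_nonneg hg2n _) (by positivity))
      _ = (A ^ lam * KQ ^ mu) * δ ^ (lam / 2) := by
          rw [Real.mul_rpow hA0 (by positivity), ← Real.rpow_mul hδ0]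
          have : (1 / 2 : ℝ) * lam = lam / 2 := by ring
          rw [this]
          ring
  have hgqn : 0 ≤ ∫ x in ZSpan.fundamentalDomain b, Real.sqrt (grad2 ψ x) ^ q :=
    integral_nonneg fun x => Real.rpow_nonneg (Real.sqrt_nonneg _) _
  have hroot : (∫ x in ZSpan.fundamentalDomain b, Real.sqrt (grad2 ψ x) ^ q) ^ (1 / q) ≤
      (A ^ lam * KQ ^ mu) ^ (1 / q) * δ ^ (lam / (2 * q)) := by
    refine (Real.rpow_le_rpow hgqn hgq (by positivity)).trans (le_of_eq ?_)
    rw [Real.mul_rpow (by positivity) (by positivity), ← Real.rpow_mul hδ0]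
    congr 2
    field_simp
  have hδγ : δ ≤ D * δ ^ (lam / (2 * q)) := by
    have h2 : δ = δ ^ (1 - lam / (2 * q)) * δ ^ (lam / (2 * q)) := by
      rw [← Real.rpow_add hδpos, sub_add_cancel, Real.rpow_one]
    have h3 : δ ^ (1 - lam / (2 * q)) ≤ D := by
      calc δ ^ (1 - lam / (2 * q)) ≤ D ^ (1 - lam / (2 * q)) :=
            Real.rpow_le_rpow hδ0 hδD (by linarith)
        _ ≤ D ^ (1 : ℝ) := Real.rpow_le_rpow_of_exponent_le hD1 (by linarith)
        _ = D := Real.rpow_one D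
    calc δ = δ ^ (1 - lam / (2 * q)) * δ ^ (lam / (2 * q)) := h2
      _ ≤ D * δ ^ (lam / (2 * q)) := mul_le_mul_of_nonneg_right h3 (by positivity)
  refine hT.trans ?_
  rw [mul_assoc]
  refine mul_le_mul_of_nonneg_left ?_ hKT
  rw [add_mul]
  exact add_le_add hδγ hroot

end H68.CF
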