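import Pool.Agent.H68.CF.Dom

/-!
# [H68 CF SchB] Bound for `sig k` of the Schouten tensor

`w D²w - |∇w|²/2 = w A - (w C0 + Z/2)` with `A = D²w + C0`, `Z = |∇w|²`. By `sig_add_smul_one`,
`sig_smul`: `sig k (w A - x) = ∑_{i ≤ k} binom(n-i,k-i) (-x)^(k-i) w^i sig i A` with
`0 ≤ x = w C0 + Z/2 ≤ M C0 + Z`. So `x^(k-i) ≤ 2^k ((M C0)^(k-i) + Z^(k-i))`, `w^i ≤ M^i`, and
`Z^(k-i) sig i A ≤ (k/θ)^(k-i) sig k A` by `dom_pow` with `s = θ Z`, `p = k - i`; all
`sig i A ≥ 0` (`sig_nonneg`, `pair_mono`). Collect the constants.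
-/

open MeasureTheory Set Filter Topology Matrix Polynomial
open scoped ContDiff NNReal

noncomputable section

namespace H68.CF

variable {n : ℕ}

private theorem pow_add_le {a b x : ℝ} (ha : 0 ≤ a) (hb : 0 ≤ b) (hx : 0 ≤ x) (h : x ≤ a + b) (p : ℕ) :
    x ^ p ≤ 2 ^ p * (a ^ p + b ^ p) := by
  rcases le_total a b with hab | hab
  · have h1 : x ≤ 2 * b := by linarith
    calc x ^ p ≤ (2 * b) ^ p := pow_le_pow_left₀ hx h1 p
      _ = 2 ^ p * b ^ p := mul_pow _ _ _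
      _ ≤ 2 ^ p * (a ^ p + b ^ p) :=
        mul_le_mul_of_nonneg_left (le_add_of_nonneg_left (pow_nonneg ha p)) (by positivity)
  · have h1 : x ≤ 2 * a := by linarith
    calc x ^ p ≤ (2 * a) ^ p := pow_le_pow_left₀ hx h1 p
      _ = 2 ^ p * a ^ p := mul_pow _ _ _
      _ ≤ 2 ^ p * (a ^ p + b ^ p) :=
        mul_le_mul_of_nonneg_left (le_add_of_nonneg_right (pow_nonneg hb p)) (by positivity)

theorem sch_bound {k : ℕ} (hk : 2 * k ≤ n) {θ C0 c M : ℝ} (hθ : 0 < θ) (hC0 : 0 ≤ C0)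
    (hc : 0 < c) :
    ∃ K : ℝ, 0 ≤ K ∧ ∀ (A : Matrix (Fin n) (Fin n) ℝ) (Z w : ℝ), A.IsSymm → 0 ≤ Z → c ≤ w →
      w ≤ M → PairGe A (θ * Z) →
      |sig k (w • A - (w * C0 + Z / 2) • (1 : Matrix (Fin n) (Fin n) ℝ))| ≤
        K * ∑ j ∈ Finset.range (k + 1), sig j A := by
  refine ⟨∑ i ∈ Finset.range (k + 1), ((n - i).choose (k - i) : ℝ) * 2 ^ (k - i) * |M| ^ i *
    ((|M| * C0) ^ (k - i) + ((k : ℝ) / θ) ^ (k - i)), ?_, ?_⟩
  · exact Finset.sum_nonneg fun i _ => by positivity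
  intro A Z w hA hZ hcw hwM hpair
  have hw : 0 < w := hc.trans_le hcw
  have hM : 0 < M := hw.trans_le hwM
  rw [abs_of_pos hM]
  have hp0 : PairGe A 0 := pair_mono hpair (mul_nonneg hθ.le hZ)
  have hpos : ∀ i, i ≤ k → 0 ≤ sig i A := fun i hi => sig_nonneg hA hp0 (by omega)
  obtain ⟨S, hS⟩ : ∃ S, S = ∑ j ∈ Finset.range (k + 1), sig j A := ⟨_, rfl⟩
  have hle : ∀ i, i ≤ k → sig i A ≤ S := by
    intro i hi
    rw [hS]
    exact Finset.single_le_sum (f := fun j => sig j A)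
      (fun j hj => hpos j (Nat.lt_succ_iff.1 (Finset.mem_range.1 hj)))
      (Finset.mem_range.2 (Nat.lt_succ_of_le hi))
  obtain ⟨x, hx⟩ : ∃ x, x = w * C0 + Z / 2 := ⟨_, rfl⟩
  have hx0 : 0 ≤ x := by
    rw [hx]
    have := mul_nonneg hw.le hC0
    linarith
  have hxle : x ≤ M * C0 + Z := by
    rw [hx]
    have := mul_le_mul_of_nonneg_right hwM hC0
    linarith
  rw [← hx, ← hS, sub_eq_add_neg, ← neg_smul, sig_add_smul_one, Finset.sum_mul]
  refine (Finset.abs_sum_le_sum_abs _ _).trans (Finset.sum_le_sum fun i hi => ?_)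
  have hik : i ≤ k := Nat.lt_succ_iff.1 (Finset.mem_range.1 hi)
  have hsi := hpos i hik
  rw [sig_smul, abs_mul, abs_mul, abs_pow, abs_neg, abs_of_nonneg hx0, abs_of_nonneg (by positivity :
    (0 : ℝ) ≤ ((n - i).choose (k - i) : ℝ)), abs_of_nonneg (by positivity : 0 ≤ w ^ i * sig i A)]
  have h1 := pow_add_le (by positivity : 0 ≤ M * C0) hZ hx0 hxle (k - i)
  have h2 : Z ^ (k - i) * sig i A ≤ ((k : ℝ) / θ) ^ (k - i) * S := by
    have h3 := dom_pow hA (mul_nonneg hθ.le hZ) hpair (Nat.sub_le k i) hk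
    have h4 : k - (k - i) = i := by omega
    rw [h4, mul_pow] at h3
    have h5 : 0 < θ ^ (k - i) := pow_pos hθ _
    have h6 : Z ^ (k - i) * sig i A ≤ ((k : ℝ) ^ (k - i) * sig k A) / θ ^ (k - i) := by
      rw [le_div_iff₀ h5]
      calc Z ^ (k - i) * sig i A * θ ^ (k - i) = θ ^ (k - i) * Z ^ (k - i) * sig i A := by ring
        _ ≤ _ := h3
    refine h6.trans ?_
    rw [div_pow, div_mul_eq_mul_div]
    exact div_le_div_of_nonneg_right (mul_le_mul_of_nonneg_left (hle k le_rfl) (by positivity)) h5.le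
  have h7 : w ^ i ≤ M ^ i := pow_le_pow_left₀ hw.le hwM i
  calc ((n - i).choose (k - i) : ℝ) * x ^ (k - i) * (w ^ i * sig i A)
      ≤ ((n - i).choose (k - i) : ℝ) * (2 ^ (k - i) * ((M * C0) ^ (k - i) + Z ^ (k - i))) *
          (M ^ i * sig i A) := by
        gcongr
    _ = ((n - i).choose (k - i) : ℝ) * 2 ^ (k - i) * M ^ i *
          ((M * C0) ^ (k - i) * sig i A + Z ^ (k - i) * sig i A) := by ring
    _ ≤ ((n - i).choose (k - i) : ℝ) * 2 ^ (k - i) * M ^ i *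
          ((M * C0) ^ (k - i) * S + ((k : ℝ) / θ) ^ (k - i) * S) := by
        have h8 := hle i hik
        gcongr
    _ = _ := by ring

end H68.CF
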