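import Pool.Agent.H68.CF.VarB
import Pool.Agent.H68.CF.FdBall

/-!
# [H68 CF VarInt] First variation formula, integrated

`w_t = w0 + t ψ`, `ψ = w1 - w0`, is positive for `0 ≤ t ≤ 1` (also on a neighbourhood, but only
`[0,1]` is needed). For every `x`
`sig (k+1) (schouten w1 x)/(w1 x)^n - sig (k+1) (schouten w0 x)/(w0 x)^n = ∫_0^1 dens k w_t ψ x dt`
(`intervalIntegral.integral_eq_sub_of_hasDerivAt`, `hasDerivAt_density`; continuity from
`continuousOn_dens`). Integrate over `FD` and exchange the integrals (the integrand is continuous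
on the compact set `[0,1] × closure FD`, hence bounded; `MeasureTheory.integral_integral_swap`).
For fixed `t`: `∫_FD dens k w_t ψ = (2(k+1) - n) ∫_FD sig (k+1) (schouten w_t) ψ / w_t^{n+1}`
by `dens_eq`, and `∫_FD ∑_a ∂_a flux = 0` (`per_integral_pd`).
-/

open MeasureTheory Set Filter Topology Matrix Polynomial
open scoped ContDiff NNReal

noncomputable section

namespace H68.CF

variable {n : ℕ}

private theorem vi_pos {w0 w1 : E n → ℝ} (p0 : ∀ x, 0 < w0 x) (p1 : ∀ x, 0 < w1 x) {t : ℝ}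
    (h0 : 0 ≤ t) (h1 : t ≤ 1) (x : E n) : 0 < w0 x + t * (w1 x - w0 x) := by
  have e : w0 x + t * (w1 x - w0 x) = (1 - t) * w0 x + t * w1 x := by ring
  rw [e]
  rcases h0.eq_or_lt with h | h
  · rw [← h]
    simpa using p0 x
  · have i1 : 0 ≤ (1 - t) * w0 x := mul_nonneg (by linarith) (p0 x).le
    have i2 : 0 < t * w1 x := mul_pos h (p1 x)
    linarith

private theorem vi_cont {w : E n → ℝ} (hw : ContDiff ℝ ∞ w) (pw : ∀ x, 0 < w x) (k m : ℕ) :
    Continuous fun x => sig (k + 1) (schouten w x) / (w x) ^ m := by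
  have h1 : Continuous fun x => sig (k + 1) (schouten w x) :=
    (contDiff_sig (fun i j => contDiff_schouten hw i j) (k + 1)).continuous
  exact h1.div (hw.continuous.pow m) fun x => pow_ne_zero m (pw x).ne'

theorem VV_sub (b : Module.Basis (Fin n) ℝ (E n)) (k : ℕ) {w0 w1 : E n → ℝ}
    (h0 : ContDiff ℝ ∞ w0) (h1 : ContDiff ℝ ∞ w1) (p0 : ∀ x, 0 < w0 x) (p1 : ∀ x, 0 < w1 x)
    (per0 : ∀ v ∈ Lat b, ∀ x, w0 (x + v) = w0 x) (per1 : ∀ v ∈ Lat b, ∀ x, w1 (x + v) = w1 x) :
    VV b (k + 1) w1 - VV b (k + 1) w0 =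
      ∫ t in (0 : ℝ)..1, (2 * ((k : ℝ) + 1) - n) *
        ∫ x in ZSpan.fundamentalDomain b,
          sig (k + 1) (schouten (fun y => w0 y + t * (w1 y - w0 y)) x) * (w1 x - w0 x) /
            (w0 x + t * (w1 x - w0 x)) ^ (n + 1) := by
  obtain ⟨ψ, hψe⟩ : ∃ ψ : E n → ℝ, ψ = fun y => w1 y - w0 y := ⟨_, rfl⟩
  have hψ : ContDiff ℝ ∞ ψ := by
    rw [hψe]
    exact h1.sub h0
  have hψx : ∀ x, w1 x - w0 x = ψ x := fun x => by rw [hψe]
  simp only [hψx]
  have hwt : ∀ t : ℝ, ContDiff ℝ ∞ (fun y => w0 y + t * ψ y) := fun t =>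
    h0.add (contDiff_const.mul hψ)
  have hpos : ∀ t : ℝ, 0 ≤ t → t ≤ 1 → ∀ x, 0 < w0 x + t * ψ x := by
    intro t ht0 ht1 x
    rw [← hψx]
    exact vi_pos p0 p1 ht0 ht1 x
  have hcd := continuousOn_dens h0 hψ k
  -- step 1
  have s1 : ∀ x, sig (k + 1) (schouten w1 x) / (w1 x) ^ n -
      sig (k + 1) (schouten w0 x) / (w0 x) ^ n =
      ∫ t in (0 : ℝ)..1, dens k (fun y => w0 y + t * ψ y) ψ x := by
    intro x
    have hc : ContinuousOn (fun t : ℝ => dens k (fun y => w0 y + t * ψ y) ψ x)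
        (Set.uIcc (0 : ℝ) 1) := by
      rw [Set.uIcc_of_le zero_le_one]
      have e : ContinuousOn (fun t : ℝ => ((t, x) : ℝ × E n)) (Set.Icc (0 : ℝ) 1) := by
        fun_prop
      have hm : Set.MapsTo (fun t : ℝ => ((t, x) : ℝ × E n)) (Set.Icc (0 : ℝ) 1)
          {q | 0 < w0 q.2 + q.1 * ψ q.2} := fun t ht => hpos t ht.1 ht.2 x
      have h3 := ContinuousOn.comp hcd e hm
      exact h3
    have h2 := intervalIntegral.integral_eq_sub_of_hasDerivAt
      (f := fun t : ℝ => sig (k + 1) (schouten (fun y => w0 y + t * ψ y) x) /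
        (w0 x + t * ψ x) ^ n)
      (f' := fun t : ℝ => dens k (fun y => w0 y + t * ψ y) ψ x) (a := 0) (b := 1)
      (fun t ht => by
        rw [Set.uIcc_of_le zero_le_one] at ht
        exact hasDerivAt_density h0 hψ k x t (hpos t ht.1 ht.2 x).ne')
      hc.intervalIntegrable
    rw [h2]
    have e1 : (fun y => w0 y + 1 * ψ y) = w1 := by
      funext y
      rw [← hψx]
      ring
    have e0 : (fun y => w0 y + 0 * ψ y) = w0 := by
      funext y
      ring
    have e1x : w0 x + 1 * ψ x = w1 x := congrFun e1 x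
    have e0x : w0 x + 0 * ψ x = w0 x := congrFun e0 x
    simp only [e1, e0, e1x, e0x]
  -- step 2
  have s2 : VV b (k + 1) w1 - VV b (k + 1) w0 = ∫ x in ZSpan.fundamentalDomain b,
      ∫ t in (0 : ℝ)..1, dens k (fun y => w0 y + t * ψ y) ψ x := by
    unfold VV
    rw [← integral_sub (integrableOn_fd b (vi_cont h1 p1 k n))
      (integrableOn_fd b (vi_cont h0 p0 k n))]
    congr 1
    funext x
    exact s1 x
  -- step 3
  obtain ⟨R, hR⟩ : ∃ R : ℝ, ZSpan.fundamentalDomain b ⊆ Metric.closedBall 0 R :=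
    (ZSpan.fundamentalDomain_isBounded b).subset_closedBall 0
  have s3 : ∫ x in ZSpan.fundamentalDomain b,
      ∫ t in (0 : ℝ)..1, dens k (fun y => w0 y + t * ψ y) ψ x =
      ∫ t in (0 : ℝ)..1, ∫ x in ZSpan.fundamentalDomain b,
        dens k (fun y => w0 y + t * ψ y) ψ x := by
    simp only [intervalIntegral.integral_of_le zero_le_one]
    apply integral_integral_swap
    rw [Measure.prod_restrict]
    have hc : ContinuousOn (Function.uncurry fun (x : E n) (t : ℝ) =>
        dens k (fun y => w0 y + t * ψ y) ψ x)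
        (Metric.closedBall (0 : E n) R ×ˢ Set.Icc (0 : ℝ) 1) := by
      have e : ContinuousOn (fun q : E n × ℝ => ((q.2, q.1) : ℝ × E n))
          (Metric.closedBall (0 : E n) R ×ˢ Set.Icc (0 : ℝ) 1) := by
        fun_prop
      have hm : Set.MapsTo (fun q : E n × ℝ => ((q.2, q.1) : ℝ × E n))
          (Metric.closedBall (0 : E n) R ×ˢ Set.Icc (0 : ℝ) 1)
          {q | 0 < w0 q.2 + q.1 * ψ q.2} := fun q hq => hpos q.2 hq.2.1 hq.2.2 q.1
      have h3 := ContinuousOn.comp hcd e hm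
      exact h3
    have hcomp : IsCompact (Metric.closedBall (0 : E n) R ×ˢ Set.Icc (0 : ℝ) 1) :=
      (isCompact_closedBall _ _).prod isCompact_Icc
    exact (hc.integrableOn_compact hcomp).mono_set
      (Set.prod_mono hR Set.Ioc_subset_Icc_self)
  rw [s2, s3]
  apply intervalIntegral.integral_congr
  intro t ht
  rw [Set.uIcc_of_le zero_le_one] at ht
  have hw := hwt t
  have hp := hpos t ht.1 ht.2
  simp only
  have hfs := fun a => flux_smooth hw hψ hp k a
  have hfp : ∀ a, ∀ v ∈ Lat b, ∀ x, flux k (fun y => w0 y + t * ψ y) ψ a (x + v) =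
      flux k (fun y => w0 y + t * ψ y) ψ a x := by
    intro a v hv x
    refine flux_per (fun x => ?_) (fun x => ?_) k a x
    · rw [hψe]
      simp only [per0 v hv, per1 v hv]
    · rw [hψe]
      simp only [per0 v hv, per1 v hv]
  have hi0 : ∀ a, ∫ x in ZSpan.fundamentalDomain b,
      pd a (flux k (fun y => w0 y + t * ψ y) ψ a) x = 0 := fun a =>
    per_integral_pd b ((hfs a).of_le (by simp)) (hfp a) a
  have hic : ∀ a, IntegrableOn (pd a (flux k (fun y => w0 y + t * ψ y) ψ a))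
      (ZSpan.fundamentalDomain b) := fun a =>
    integrableOn_fd b (contDiff_pd (hfs a) a).continuous
  have hc1 : Continuous fun x => sig (k + 1) (schouten (fun y => w0 y + t * ψ y) x) * ψ x /
      (w0 x + t * ψ x) ^ (n + 1) := by
    have h2 := (vi_cont hw hp k (n + 1)).mul hψ.continuous
    refine h2.congr fun x => ?_
    rw [Pi.mul_apply]
    exact div_mul_eq_mul_div _ _ _
  have e1 : ∀ x, dens k (fun y => w0 y + t * ψ y) ψ x =
      (2 * ((k : ℝ) + 1) - n) * (sig (k + 1) (schouten (fun y => w0 y + t * ψ y) x) * ψ x /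
        (w0 x + t * ψ x) ^ (n + 1)) +
      ∑ a, pd a (flux k (fun y => w0 y + t * ψ y) ψ a) x := fun x => dens_eq hw hψ hp k x
  simp only [e1]
  rw [integral_add ((integrableOn_fd b hc1).const_mul _)
    (integrable_finsetSum _ fun a _ => hic a), integral_const_mul,
    integral_finsetSum _ fun a _ => hic a, Finset.sum_congr rfl fun a _ => hi0 a,
    Finset.sum_const_zero, add_zero]

end H68.CF
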