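import Pool.Agent.H68.CF.ContA
import Pool.Agent.H68.CF.VarInt
import Pool.Agent.H68.CF.SchB

/-!
# [H68 CF ContB] Hölder continuity of the intrinsic volumes in `L¹`

`VV_sub` (with `k = (k-1)+1`), `w_t = w0 + t (w1 - w0) = (1-t) w0 + t w1` is in the class
(`cls_convex`), `schouten_eq` and `sch_bound`: `|sig k (schouten w_t x)| ≤ K ρ_t(x)`,
`ρ_t = ∑_{j ≤ k} sig j (hc w_t C0 x)`, `w_t ≥ c`. So
`|VV w1 - VV w0| ≤ |2k - n| K c^{-(n+1)} sup_t ∫_FD |w1 - w0| ρ_t` and `cont_a`.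
-/

open MeasureTheory Set Filter Topology Matrix Polynomial
open scoped ContDiff NNReal

noncomputable section

namespace H68.CF

variable {n : ℕ}

theorem VV_holder (hn : 3 ≤ n) (b : Module.Basis (Fin n) ℝ (E n)) {θ C0 c M : ℝ} (hθ : 0 < θ)
    (hC0 : 0 ≤ C0) (hc0 : 0 < c) {k : ℕ} (hk1 : 1 ≤ k) (hk : 2 * k + 1 ≤ n) :
    ∃ K γ : ℝ, 0 ≤ K ∧ 0 < γ ∧ ∀ w0 w1 : E n → ℝ, Cls b θ C0 c M w0 → Cls b θ C0 c M w1 →
      |VV b k w1 - VV b k w0| ≤
        K * (∫ x in ZSpan.fundamentalDomain b, |w1 x - w0 x|) ^ γ := by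
  obtain ⟨m, rfl⟩ : ∃ m, k = m + 1 := ⟨k - 1, by omega⟩
  obtain ⟨K₁, γ, hK₁, hγ, hA⟩ := cont_a hn b (θ := θ) (C0 := C0) (c := c) (M := M) hθ hC0 hc0
    hk1 hk
  obtain ⟨K₂, hK₂, hS⟩ := sch_bound (n := n) (k := m + 1) (by omega) (θ := θ) (C0 := C0) (c := c)
    (M := M) hθ hC0 hc0
  refine ⟨|2 * ((m : ℝ) + 1) - n| * (K₂ / c ^ (n + 1) * K₁), γ, by positivity, hγ, ?_⟩
  intro w0 w1 h0 h1
  set D : ℝ := ∫ x in ZSpan.fundamentalDomain b, |w1 x - w0 x| with hD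
  rw [VV_sub b m h0.smooth h1.smooth (fun x => lt_of_lt_of_le hc0 (h0.lower x))
    (fun x => lt_of_lt_of_le hc0 (h1.lower x)) h0.per h1.per, ← Real.norm_eq_abs]
  have hbound : ∀ t ∈ Set.uIoc (0 : ℝ) 1, ‖(2 * ((m : ℝ) + 1) - n) *
        ∫ x in ZSpan.fundamentalDomain b,
          sig (m + 1) (schouten (fun y => w0 y + t * (w1 y - w0 y)) x) * (w1 x - w0 x) /
            (w0 x + t * (w1 x - w0 x)) ^ (n + 1)‖ ≤
      |2 * ((m : ℝ) + 1) - n| * (K₂ / c ^ (n + 1) * K₁) * D ^ γ := by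
    intro t ht
    rw [Set.uIoc_of_le zero_le_one, Set.mem_Ioc] at ht
    have hwt : (fun y => w0 y + t * (w1 y - w0 y)) = fun y => (1 - t) * w0 y + t * w1 y := by
      funext y
      ring
    obtain ⟨w, hw⟩ : ∃ w : E n → ℝ, w = fun y => w0 y + t * (w1 y - w0 y) := ⟨_, rfl⟩
    have hcls : Cls b θ C0 c M w := by
      rw [hw, hwt]
      exact cls_convex hθ.le h0 h1 ht.1.le ht.2
    have hwx : ∀ x, w0 x + t * (w1 x - w0 x) = w x := fun x => by rw [hw]
    rw [← hw]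
    simp only [hwx]
    rw [norm_mul, Real.norm_eq_abs, mul_assoc, mul_assoc]
    refine mul_le_mul_of_nonneg_left ?_ (abs_nonneg _)
    have hcont : Continuous fun x =>
        K₂ / c ^ (n + 1) * (|w1 x - w0 x| * ∑ j ∈ Finset.range (m + 1 + 1), sig j (hc w C0 x)) := by
      refine continuous_const.mul (((h1.smooth.continuous.sub h0.smooth.continuous).abs).mul ?_)
      exact continuous_finsetSum _ fun j _ => cls_sig_cont hcls j
    have hpt : ∀ x, ‖sig (m + 1) (schouten w x) * (w1 x - w0 x) / (w x) ^ (n + 1)‖ ≤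
        K₂ / c ^ (n + 1) * (|w1 x - w0 x| * ∑ j ∈ Finset.range (m + 1 + 1), sig j (hc w C0 x)) := by
      intro x
      have e1 := hS (hc w C0 x) (grad2 w x) (w x) (hc_symm hcls.smooth C0 x) (grad2_nonneg w x)
        (hcls.lower x) (hcls.upper x) (hcls.pair x)
      rw [← schouten_eq w C0 x] at e1
      have hwpos : 0 < w x := lt_of_lt_of_le hc0 (hcls.lower x)
      rw [norm_div, norm_mul, Real.norm_eq_abs, Real.norm_eq_abs, Real.norm_eq_abs,
        abs_of_pos (pow_pos hwpos (n + 1))]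
      have e2 : c ^ (n + 1) ≤ (w x) ^ (n + 1) := pow_le_pow_left₀ hc0.le (hcls.lower x) _
      have e3 : (0 : ℝ) < c ^ (n + 1) := pow_pos hc0 _
      have e4 : 0 ≤ |sig (m + 1) (schouten w x)| * |w1 x - w0 x| := by positivity
      calc |sig (m + 1) (schouten w x)| * |w1 x - w0 x| / (w x) ^ (n + 1)
          ≤ |sig (m + 1) (schouten w x)| * |w1 x - w0 x| / c ^ (n + 1) := by gcongr
        _ ≤ (K₂ * ∑ j ∈ Finset.range (m + 1 + 1), sig j (hc w C0 x)) * |w1 x - w0 x| /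
            c ^ (n + 1) := by gcongr
        _ = _ := by ring
    refine (norm_integral_le_of_norm_le (integrableOn_fd b hcont)
      (Filter.Eventually.of_forall hpt)).trans ?_
    rw [integral_const_mul]
    exact mul_le_mul_of_nonneg_left (hA w0 w1 w h0 h1 hcls) (by positivity)
  have := intervalIntegral.norm_integral_le_of_norm_le_const hbound
  simpa using this

end H68.CF
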