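import Pool.Agent.H68.CF.Defs

/-!
# [H68 CF Curve] Lengths of Lipschitz curves

`γ : ℝ → E n` Lipschitz with constant `L`: `‖deriv γ t‖ ≤ L` (`norm_deriv_le_of_lipschitz`),
`deriv γ` is measurable (`measurable_deriv`), `w ∘ γ` is continuous and positive, hence bounded
below on compact intervals.

* `len_integrable`: bounded measurable function on a compact interval.
* `norm_le_int`: for a unit vector `e` the function `t ↦ ⟪e, γ t⟫` is Lipschitz, so
  `⟪e, γ t - γ s⟫ = ∫_s^t ⟪e, deriv γ⟫ ≤ ∫_s^t ‖deriv γ‖`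
  (`LipschitzOnWith.absolutelyContinuousOnInterval`,
  `AbsolutelyContinuousOnInterval.integral_deriv_eq_sub`; `γ` is differentiable a.e.,
  `LipschitzWith.ae_differentiableAt`, there `deriv ⟪e, γ ·⟫ = ⟪e, deriv γ⟫`; where `γ` is not
  differentiable nothing is needed as this is a null set).
  Take `e = (γ t - γ s)/‖γ t - γ s‖`.
* `norm_le_len`: `‖deriv γ‖ ≤ m ‖deriv γ‖ / w(γ)` on `[s,t]`.
* `td_le_len`: `csInf_le` (all lengths are `≥ 0`). `exists_len_lt`: `exists_lt_of_csInf_lt`, the set is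
  nonempty: the segment `t ↦ x + t (y - x)`. `td_nonneg`: `Real.sInf_nonneg`.
-/

open MeasureTheory Set Filter Topology Matrix Polynomial
open scoped ContDiff NNReal

noncomputable section

namespace H68.CF

variable {n : ℕ}

private theorem curve_int {γ : ℝ → E n} {L : ℝ≥0} (hγ : LipschitzWith L γ) (s t : ℝ) :
    IntervalIntegrable (fun u => ‖deriv γ u‖) volume s t := by
  apply (intervalIntegrable_const (c := (L : ℝ))).mono_fun
  · exact (measurable_deriv γ).norm.aestronglyMeasurable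
  · apply Eventually.of_forall
    intro u
    simp only []
    rw [norm_norm, Real.norm_of_nonneg L.coe_nonneg]
    exact norm_deriv_le_of_lipschitz hγ

theorem len_integrable {w : E n → ℝ} (hw : Continuous w) (hpos : ∀ x, 0 < w x)
    {γ : ℝ → E n} {L : ℝ≥0} (hγ : LipschitzWith L γ) (s t : ℝ) :
    IntervalIntegrable (fun u => ‖deriv γ u‖ / w (γ u)) volume s t := by
  have h1 : Continuous (fun u => (w (γ u))⁻¹) :=
    (hw.comp hγ.continuous).inv₀ fun u => (hpos (γ u)).ne'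
  simp only [div_eq_mul_inv]
  exact (curve_int hγ s t).mul_continuousOn h1.continuousOn

theorem len_nonneg {w : E n → ℝ} (hpos : ∀ x, 0 < w x) (γ : ℝ → E n) : 0 ≤ len w γ := by
  apply intervalIntegral.integral_nonneg zero_le_one
  intro u _
  exact div_nonneg (norm_nonneg _) (hpos _).le

theorem norm_le_int {γ : ℝ → E n} {L : ℝ≥0} (hγ : LipschitzWith L γ) {s t : ℝ} (hst : s ≤ t) :
    ‖γ t - γ s‖ ≤ ∫ u in s..t, ‖deriv γ u‖ := by
  rcases eq_or_ne (γ t - γ s) 0 with h0 | h0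
  · rw [h0, norm_zero]
    exact intervalIntegral.integral_nonneg hst fun u _ => norm_nonneg _
  set e : E n := ‖γ t - γ s‖⁻¹ • (γ t - γ s) with he
  have hen : ‖e‖ = 1 := by
    rw [he, norm_smul, norm_inv, norm_norm, inv_mul_cancel₀ (norm_ne_zero_iff.mpr h0)]
  set f : ℝ → ℝ := fun u => inner ℝ e (γ u) with hf
  have hfL : LipschitzWith (‖innerSL ℝ e‖₊ * L) f := (innerSL ℝ e).lipschitz.comp hγ
  have hac : AbsolutelyContinuousOnInterval f s t :=
    hfL.lipschitzOnWith.absolutelyContinuousOnInterval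
  have hftc := hac.integral_deriv_eq_sub
  have hval : f t - f s = ‖γ t - γ s‖ := by
    simp only [hf]
    rw [← inner_sub_right, he, real_inner_smul_left, real_inner_self_eq_norm_sq, sq,
      ← mul_assoc, inv_mul_cancel₀ (norm_ne_zero_iff.mpr h0), one_mul]
  rw [← hval, ← hftc]
  apply intervalIntegral.integral_mono_ae hst
  · apply (intervalIntegrable_const (c := ((‖innerSL ℝ e‖₊ * L : ℝ≥0) : ℝ))).mono_fun
    · exact (measurable_deriv f).aestronglyMeasurable
    · apply Eventually.of_forall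
      intro u
      rw [Real.norm_of_nonneg (NNReal.coe_nonneg _)]
      exact norm_deriv_le_of_lipschitz hfL
  · exact curve_int hγ s t
  · filter_upwards [hγ.ae_differentiableAt_real] with u hu
    have h1 : HasDerivAt f (innerSL ℝ e (deriv γ u)) u :=
      (innerSL ℝ e).hasFDerivAt.comp_hasDerivAt u hu.hasDerivAt
    rw [h1.deriv]
    have h2 := real_inner_le_norm e (deriv γ u)
    rw [hen, one_mul] at h2
    exact h2

theorem norm_le_len {w : E n → ℝ} (hw : Continuous w) (hpos : ∀ x, 0 < w x)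
    {γ : ℝ → E n} {L : ℝ≥0} (hγ : LipschitzWith L γ) {s t m : ℝ} (hst : s ≤ t)
    (hm : ∀ u ∈ Icc s t, w (γ u) ≤ m) :
    ‖γ t - γ s‖ ≤ m * ∫ u in s..t, ‖deriv γ u‖ / w (γ u) := by
  refine (norm_le_int hγ hst).trans ?_
  rw [← intervalIntegral.integral_const_mul]
  apply intervalIntegral.integral_mono_on hst (curve_int hγ s t)
    ((len_integrable hw hpos hγ s t).const_mul m)
  intro u hu
  have h1 := hpos (γ u)
  have h2 : ‖deriv γ u‖ = w (γ u) * (‖deriv γ u‖ / w (γ u)) := by field_simp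
  conv_lhs => rw [h2]
  exact mul_le_mul_of_nonneg_right (hm u hu) (div_nonneg (norm_nonneg _) h1.le)

/-- The length of an initial piece is at most the length. -/
theorem len_piece {w : E n → ℝ} (hw : Continuous w) (hpos : ∀ x, 0 < w x)
    {γ : ℝ → E n} {L : ℝ≥0} (hγ : LipschitzWith L γ) {t : ℝ} (h0 : 0 ≤ t) (h1 : t ≤ 1) :
    ∫ u in (0 : ℝ)..t, ‖deriv γ u‖ / w (γ u) ≤ len w γ := by
  apply intervalIntegral.integral_mono_interval le_rfl h0 h1
  · exact Eventually.of_forall fun u => div_nonneg (norm_nonneg _) (hpos _).le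
  · exact len_integrable hw hpos hγ 0 1

theorem td_nonneg (b : Module.Basis (Fin n) ℝ (E n)) {w : E n → ℝ} (hpos : ∀ x, 0 < w x)
    (x y : E n) : 0 ≤ td b w x y := by
  apply Real.sInf_nonneg
  rintro ℓ ⟨γ, -, -, -, rfl⟩
  exact len_nonneg hpos γ

theorem td_le_len (b : Module.Basis (Fin n) ℝ (E n)) {w : E n → ℝ} (hpos : ∀ x, 0 < w x)
    {x y : E n} {γ : ℝ → E n} {L : ℝ≥0} (hγ : LipschitzWith L γ) (h0 : γ 0 = x)
    (h1 : γ 1 - y ∈ Lat b) : td b w x y ≤ len w γ := by
  apply csInf_le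
  · refine ⟨0, ?_⟩
    rintro ℓ ⟨γ, -, -, -, rfl⟩
    exact len_nonneg hpos γ
  · exact ⟨γ, ⟨L, hγ⟩, h0, h1, rfl⟩

theorem exists_len_lt (b : Module.Basis (Fin n) ℝ (E n)) (w : E n → ℝ)
    (x y : E n) {ε : ℝ} (hε : 0 < ε) :
    ∃ γ : ℝ → E n, (∃ L : ℝ≥0, LipschitzWith L γ) ∧ γ 0 = x ∧ γ 1 - y ∈ Lat b ∧
      len w γ < td b w x y + ε := by
  have hne : {ℓ | ∃ γ : ℝ → E n, (∃ M : ℝ≥0, LipschitzWith M γ) ∧ γ 0 = x ∧ γ 1 - y ∈ Lat b ∧
    ℓ = len w γ}.Nonempty := by
    refine ⟨_, fun t => x + t • (y - x), ⟨‖y - x‖₊, ?_⟩, ?_, ?_, rfl⟩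
    · apply LipschitzWith.of_dist_le_mul
      intro s t
      rw [dist_eq_norm, dist_eq_norm, add_sub_add_left_eq_sub, ← sub_smul, norm_smul, coe_nnnorm,
        mul_comm]
    · simp
    · simp
  have hlt : td b w x y < td b w x y + ε := by linarith
  obtain ⟨ℓ, ⟨γ, h1, h2, h3, rfl⟩, h4⟩ := exists_lt_of_csInf_lt hne hlt
  exact ⟨γ, h1, h2, h3, h4⟩

end H68.CF
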