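import Mathlib

/-!
# Conformally flat metrics on tori: definitions

`E n` is Euclidean space, a lattice is given by a basis `b`, `Lat b` is the lattice, and
`ZSpan.fundamentalDomain b` the fundamental domain over which one integrates periodic functions.

Geometry (used in the final statement): metric tensor `G`, Christoffel symbols, Riemann tensor,
lower bound for the sectional curvature, Lipschitz-Killing curvature, intrinsic volumes (Weyl),
length of curves and Riemannian distance on the torus `E n / Lat b`.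

Analysis: elementary symmetric functions `sig j A` of the eigenvalues of a matrix and the Newton
tensors `newt j A`, defined as the coefficients of `det (1 + X A)` and of `adj (1 + X A)`.
-/

open MeasureTheory Set Filter Topology Matrix Polynomial
open scoped ContDiff NNReal

noncomputable section

namespace H68.CF

/-- Euclidean space of dimension `n`. -/
abbrev E (n : ℕ) := EuclideanSpace ℝ (Fin n)

/-- The lattice spanned by the basis `b`. -/
abbrev Lat {n : ℕ} (b : Module.Basis (Fin n) ℝ (E n)) : Submodule ℤ (E n) :=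
  Submodule.span ℤ (Set.range b)

/-- The partial derivative of `f` in the direction of the `i`-th coordinate. -/
def pd {n : ℕ} (i : Fin n) (f : E n → ℝ) (x : E n) : ℝ :=
  fderiv ℝ f x (EuclideanSpace.single i 1)

/-! ### Riemannian geometry of a metric tensor `G` in coordinates -/

/-- Christoffel symbols `Γ^p_{ij}` of the metric `G`. -/
def chris {n : ℕ} (G : E n → Matrix (Fin n) (Fin n) ℝ) (p i j : Fin n) (x : E n) : ℝ :=
  (1 / 2) * ∑ q, (G x)⁻¹ p q *
    (pd i (fun y => G y j q) x + pd j (fun y => G y i q) x - pd q (fun y => G y i j) x)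

/-- The Riemann curvature tensor `R_{ijkl}` of the metric `G` (sign: `R_{1212} > 0` on spheres). -/
def riem {n : ℕ} (G : E n → Matrix (Fin n) (Fin n) ℝ) (i j k l : Fin n) (x : E n) : ℝ :=
  (1 / 2) * (pd j (pd k (fun y => G y i l)) x + pd i (pd l (fun y => G y j k)) x
      - pd i (pd k (fun y => G y j l)) x - pd j (pd l (fun y => G y i k)) x)
    + ∑ p, ∑ q, G x p q *
        (chris G p j k x * chris G q i l x - chris G p j l x * chris G q i k x)

/-- All sectional curvatures of `G` are at least `κ`: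
`R(u,v,u,v) ≥ κ (|u|² |v|² - ⟨u,v⟩²)` for all tangent vectors `u`, `v`. -/
def SecGe {n : ℕ} (G : E n → Matrix (Fin n) (Fin n) ℝ) (κ : ℝ) : Prop :=
  ∀ (x : E n) (u v : Fin n → ℝ),
    κ * ((∑ i, ∑ j, G x i j * u i * u j) * (∑ i, ∑ j, G x i j * v i * v j)
        - (∑ i, ∑ j, G x i j * u i * v j) ^ 2)
      ≤ ∑ i, ∑ j, ∑ k, ∑ l, riem G i j k l x * u i * v j * u k * v l

/-- The Riemann tensor `R_{ij}{}^{kl}` with the last two indices raised. -/
def riemUp {n : ℕ} (G : E n → Matrix (Fin n) (Fin n) ℝ) (i j k l : Fin n) (x : E n) : ℝ :=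
  ∑ p, ∑ q, riem G i j p q x * (G x)⁻¹ p k * (G x)⁻¹ q l

/-- The Lipschitz-Killing curvature of degree `k`:
`2^{-k} δ^{i_1 ... i_{2k}}_{j_1 ... j_{2k}} R_{i_1 i_2}{}^{j_1 j_2} ⋯`
(the generalized Kronecker symbol is written as a sum over permutations, `j_r = i_{π(r)}`).
It is `1` for `k = 0` and the scalar curvature for `k = 1`. -/
def lipKil {n : ℕ} (k : ℕ) (G : E n → Matrix (Fin n) (Fin n) ℝ) (x : E n) : ℝ :=
  (1 / 2 ^ k) * ∑ i : Fin k × Bool → Fin n, ∑ π : Equiv.Perm (Fin k × Bool),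
    ((Equiv.Perm.sign π : ℤ) : ℝ) * ∏ s : Fin k,
      riemUp G (i (s, false)) (i (s, true)) (i (π (s, false))) (i (π (s, true))) x

/-- The intrinsic volume `V_{n-2k}` of the torus `E n / Lat b` with the metric `G`
(Weyl's formula: `(4π)^{-k} / k!` times the integral of the Lipschitz-Killing curvature). -/
def intrinsicVolume {n : ℕ} (k : ℕ) (b : Module.Basis (Fin n) ℝ (E n))
    (G : E n → Matrix (Fin n) (Fin n) ℝ) : ℝ :=
  1 / ((4 * Real.pi) ^ k * (k.factorial : ℝ)) *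
    ∫ x in ZSpan.fundamentalDomain b, lipKil k G x * Real.sqrt (G x).det

/-- The length of the curve `γ` on `[0,1]` for the metric `G`. -/
def gLength {n : ℕ} (G : E n → Matrix (Fin n) (Fin n) ℝ) (γ : ℝ → E n) : ℝ :=
  ∫ t in (0 : ℝ)..1, Real.sqrt (∑ i, ∑ j, G (γ t) i j * deriv γ t i * deriv γ t j)

/-- The Riemannian distance of the classes of `x` and `y` in the torus `E n / Lat b`: the
infimum of the lengths of the Lipschitz curves from `x` to a translate of `y`. -/
def gDist {n : ℕ} (b : Module.Basis (Fin n) ℝ (E n)) (G : E n → Matrix (Fin n) (Fin n) ℝ)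
    (x y : E n) : ℝ :=
  sInf {ℓ | ∃ γ : ℝ → E n, (∃ M : ℝ≥0, LipschitzWith M γ) ∧ γ 0 = x ∧ γ 1 - y ∈ Lat b ∧
    ℓ = gLength G γ}

/-- A smooth positive periodic function `w`; it gives the metric `w⁻² |dx|²` on the torus. -/
structure ConfFactor {n : ℕ} (b : Module.Basis (Fin n) ℝ (E n)) where
  w : E n → ℝ
  smooth : ContDiff ℝ ∞ w
  pos : ∀ x, 0 < w x
  per : ∀ v ∈ Lat b, ∀ x, w (x + v) = w x

/-- The conformally flat metric tensor `w⁻² δ_{ij}`. -/
def conf {n : ℕ} (w : E n → ℝ) (x : E n) : Matrix (Fin n) (Fin n) ℝ :=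
  ((w x) ^ 2)⁻¹ • (1 : Matrix (Fin n) (Fin n) ℝ)

/-! ### Analysis -/

/-- The Hessian matrix. -/
def hess {n : ℕ} (w : E n → ℝ) (x : E n) : Matrix (Fin n) (Fin n) ℝ :=
  fun i j => pd i (pd j w) x

/-- `|∇w|²`. -/
def grad2 {n : ℕ} (w : E n → ℝ) (x : E n) : ℝ := ∑ i, (pd i w x) ^ 2

/-- The `j`-th elementary symmetric function of the eigenvalues of `A`: the coefficient of `X^j`
in `det (1 + X A)`. -/
def sig {n : ℕ} (j : ℕ) (A : Matrix (Fin n) (Fin n) ℝ) : ℝ :=
  (Matrix.det (1 + (X : ℝ[X]) • A.map (C : ℝ → ℝ[X]))).coeff j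

/-- The `j`-th Newton tensor of `A`: the coefficient of `X^j` in the adjugate of `1 + X A`. -/
def newt {n : ℕ} (j : ℕ) (A : Matrix (Fin n) (Fin n) ℝ) : Matrix (Fin n) (Fin n) ℝ :=
  fun a b => (Matrix.adjugate (1 + (X : ℝ[X]) • A.map (C : ℝ → ℝ[X])) a b).coeff j

/-- Hessian plus a constant. -/
def hc {n : ℕ} (w : E n → ℝ) (C0 : ℝ) (x : E n) : Matrix (Fin n) (Fin n) ℝ :=
  hess w x + C0 • (1 : Matrix (Fin n) (Fin n) ℝ)

/-- The Schouten tensor of `w⁻² |dx|²` in an orthonormal frame: `w D²w - |∇w|²/2`. -/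
def schouten {n : ℕ} (w : E n → ℝ) (x : E n) : Matrix (Fin n) (Fin n) ℝ :=
  w x • hess w x - (grad2 w x / 2) • (1 : Matrix (Fin n) (Fin n) ℝ)

/-- Up to a constant the intrinsic volume `V_{n-2k}`: the integral of `σ_k` of the Schouten
tensor. -/
def VV {n : ℕ} (b : Module.Basis (Fin n) ℝ (E n)) (k : ℕ) (w : E n → ℝ) : ℝ :=
  ∫ x in ZSpan.fundamentalDomain b, sig k (schouten w x) / (w x) ^ n

/-- `A(u,u) + A(v,v) ≥ 2 s` for all orthonormal pairs `u`, `v`. -/
def PairGe {n : ℕ} (A : Matrix (Fin n) (Fin n) ℝ) (s : ℝ) : Prop :=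
  ∀ u v : Fin n → ℝ, u ⬝ᵥ u = 1 → v ⬝ᵥ v = 1 → u ⬝ᵥ v = 0 →
    2 * s ≤ u ⬝ᵥ (A *ᵥ u) + v ⬝ᵥ (A *ᵥ v)

/-- The convex class of functions in which all estimates take place. -/
structure Cls {n : ℕ} (b : Module.Basis (Fin n) ℝ (E n)) (θ C0 c M : ℝ) (w : E n → ℝ) :
    Prop where
  smooth : ContDiff ℝ ∞ w
  per : ∀ v ∈ Lat b, ∀ x, w (x + v) = w x
  lower : ∀ x, c ≤ w x
  upper : ∀ x, w x ≤ M
  pair : ∀ x, PairGe (hc w C0 x) (θ * grad2 w x)

/-- Length of a curve for the metric `w⁻² |dx|²`. -/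
def len {n : ℕ} (w : E n → ℝ) (γ : ℝ → E n) : ℝ :=
  ∫ t in (0 : ℝ)..1, ‖deriv γ t‖ / w (γ t)

/-- Distance on the torus for the metric `w⁻² |dx|²`. -/
def td {n : ℕ} (b : Module.Basis (Fin n) ℝ (E n)) (w : E n → ℝ) (x y : E n) : ℝ :=
  sInf {ℓ | ∃ γ : ℝ → E n, (∃ M : ℝ≥0, LipschitzWith M γ) ∧ γ 0 = x ∧ γ 1 - y ∈ Lat b ∧
    ℓ = len w γ}

end H68.CF
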