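import Pool.Agent.H68.CF.FdMeas

/-!
# [H68 CF DetB] The integral of the Jacobian determinant

Let `s = {x ∈ FD | F differentiable at x}` (measurable: `measurableSet_of_differentiableAt`; of full measure in
`FD` by Rademacher). `F` is injective, so by `lintegral_abs_det_fderiv_eq_addHaar_image`
`∫_s |det DF| = vol F(s)`. `F(s)` is measurable
(`MeasureTheory.measurable_image_of_fderivWithin`/measurable embedding) and its translates by `v' ∈ Lat b'` are pairwise
disjoint: if `F x + v' = F y` with `x, y ∈ FD`, then applying `G`, `x + B v' = y`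
(`G (F x + v') = x + B v'`), so `B v' ∈ Lat b` with `x, y ∈ FD` gives `B v' = 0`, `x = y`,
`v' = 0`. A measurable set whose translates by the lattice are pairwise disjoint has volume at
most `vol FD'` (`IsAddFundamentalDomain.measure_le_of_pairwise_disjoint`).
-/

open MeasureTheory Set Filter Topology Matrix Polynomial
open scoped ContDiff NNReal Pointwise

noncomputable section

namespace H68.CF

variable {n : ℕ}

theorem det_bound (b b' : Module.Basis (Fin n) ℝ (E n)) {F G : E n → E n} {L L' : ℝ≥0}
    (hF : LipschitzWith L F) (hG : LipschitzWith L' G) (hGF : ∀ x, G (F x) = x)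
    (hFG : ∀ x, F (G x) = x) {B : E n →L[ℝ] E n}
    (hB : ∀ v ∈ Lat b', B v ∈ Lat b ∧ ∀ x, G (x + v) = G x + B v) :
    ∫ x in ZSpan.fundamentalDomain b, |(fderiv ℝ F x).det| ≤
      (volume (ZSpan.fundamentalDomain b')).toReal := by
  obtain ⟨s, hs⟩ : ∃ s : Set (E n), s = ZSpan.fundamentalDomain b ∩
      {x | DifferentiableAt ℝ F x} := ⟨_, rfl⟩
  have hsm : MeasurableSet s := by
    rw [hs]
    exact (ZSpan.fundamentalDomain_measurableSet b).inter (measurableSet_of_differentiableAt ℝ F)
  have hsd : ∀ x ∈ s, HasFDerivWithinAt F (fderiv ℝ F x) s x := by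
    intro x hx
    rw [hs] at hx
    have h1 : DifferentiableAt ℝ F x := hx.2
    exact h1.hasFDerivAt.hasFDerivWithinAt
  have hinj : InjOn F s := by
    intro x _ y _ hxy
    rw [← hGF x, ← hGF y, hxy]
  have hae : s =ᵐ[volume] ZSpan.fundamentalDomain b := by
    rw [hs]
    have h1 : ∀ᵐ x : E n, DifferentiableAt ℝ F x := hF.ae_differentiableAt
    filter_upwards [h1] with x hx
    apply propext
    constructor
    · intro h
      exact h.1
    · intro h
      exact ⟨h, hx⟩
  have hmeas : Measurable fun x => |(fderiv ℝ F x).det| := by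
    have h1 : Measurable fun x => (fderiv ℝ F x).det :=
      ContinuousLinearMap.continuous_det.measurable.comp (measurable_fderiv ℝ F)
    have h2 : Measurable fun x => ‖(fderiv ℝ F x).det‖ := h1.norm
    exact h2
  rw [← setIntegral_congr_set hae]
  rw [integral_eq_lintegral_of_nonneg_ae (Filter.Eventually.of_forall fun x => abs_nonneg _)
    hmeas.aestronglyMeasurable]
  rw [lintegral_abs_det_fderiv_eq_addHaar_image volume hsm hsd hinj]
  have hfin : volume (ZSpan.fundamentalDomain b') ≠ ⊤ :=
    (ZSpan.fundamentalDomain_isBounded b').measure_lt_top.ne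
  refine ENNReal.toReal_mono hfin ?_
  have himg : MeasurableSet (F '' s) := measurable_image_of_fderivWithin hsm hsd hinj
  have hi : VAddInvariantMeasure (Submodule.span ℤ (Set.range b')) (E n) (volume : Measure (E n)) := by
    refine ⟨fun l s _ => ?_⟩
    exact measure_preimage_add (volume : Measure (E n)) (l : E n) s
  refine (ZSpan.isAddFundamentalDomain b' (volume : Measure (E n))).measure_le_of_pairwise_disjoint
    himg.nullMeasurableSet ?_
  intro v w hvw
  refine Disjoint.aedisjoint ?_
  rw [Set.disjoint_left]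
  rintro z ⟨⟨p, ⟨x, hx, rfl⟩, hp⟩, -⟩ ⟨⟨q, ⟨y, hy, rfl⟩, hq⟩, -⟩
  apply hvw
  have e1 : (v : E n) + F x = z := hp
  have e2 : (w : E n) + F y = z := hq
  have e3 : F x + ((v : E n) - (w : E n)) = F y := by
    rw [← e2] at e1
    have : F y = (v : E n) + F x - (w : E n) := by
      rw [e1]
      abel
    rw [this]
    abel
  have hd := hB ((v : E n) - (w : E n)) (Submodule.sub_mem _ v.2 w.2)
  have e4 : x + B ((v : E n) - (w : E n)) = y := by
    rw [← hGF x, ← hd.2, e3, hGF]
  rw [hs] at hx hy
  have e5 : x = y := by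
    rw [← ZSpan.fract_eq_self.2 hy.1, ← e4, ZSpan.fract_add_ZSpan b _ hd.1,
      ZSpan.fract_eq_self.2 hx.1]
  rw [e5] at e3
  have e6 : (v : E n) - (w : E n) = 0 := by
    have := e3
    rwa [add_eq_left] at this
  exact Subtype.ext (sub_eq_zero.1 e6)

end H68.CF
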