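import Pool.Agent.H68.CF.SmoothSig

/-!
# [H68 CF DivP] Divergence of the Newton tensors of the Schouten tensor

`P = schouten w`, `P_{bc} = w w_{bc} - (Z/2) δ_{bc}`, `Z = |∇w|²`, `w_a = pd a w`,
`T_j = newt j (P x)` (symmetric, commutes with `P`). Claim (`w(x) ≠ 0`):
`∑_a ∂_a (T_j)_{ab} = (1/w) (n ∑_a (T_j)_{ab} w_a - w_b tr T_j)`.

(1) Codazzi-type identity (product rule, `pd_comm`):
`∂_a P_{bc} - ∂_b P_{ac} = w_a w_{bc} - w_b w_{ac} - (∑_l w_l w_{la}) δ_{bc} + (∑_l w_l w_{lb}) δ_{ac}`
and with `w_{bc} = (P_{bc} + (Z/2) δ_{bc})/w` (the `Z` terms cancel)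
`= (1/w) (w_a P_{bc} - w_b P_{ac} - (Pw)_a δ_{bc} + (Pw)_b δ_{ac})`, `(Pw)_a = ∑_l P_{al} w_l`.

(2) Induction on `j`. `j = 0`: `T_0 = 1`, left side `0`, right side `(1/w)(n w_b - w_b n) = 0`.
Step `j-1 → j`: `T = T_{j-1}`, `T_j = sig_j 1 - T P` (`newt_succ'`), so
`∑_a ∂_a (T_j)_{ab} = ∂_b sig_j - ∑_c (∑_a ∂_a T_{ac}) P_{cb} - ∑_{a,c} T_{ac} ∂_a P_{cb}`.
By (1) (with `P` symmetric) `∑ T_{ac} ∂_a P_{bc} = ∑ T_{ac} ∂_b P_{ac}
 + (1/w) ((P T w)_b - w_b tr(TP) - (T P w)_b + tr T (Pw)_b)
 = ∂_b sig_j + (1/w) (- j sig_j w_b + tr T (Pw)_b)`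
(`pd_sig`, `trace_newt_mul`, `T P = P T`). By induction
`∑_c (∑_a ∂_a T_{ac}) P_{cb} = (1/w)(n (P T w)_b - tr T (P w)_b)`. Together
`∑_a ∂_a (T_j)_{ab} = (1/w) (- n (P T w)_b + j sig_j w_b)`, and `P T = sig_j 1 - T_j`
(`newt_succ`), `tr T_j = (n - j) sig_j` (`trace_newt`) give the claim.
-/

open MeasureTheory Set Filter Topology Matrix Polynomial
open scoped ContDiff NNReal

noncomputable section

namespace H68.CF

variable {n : ℕ}

private theorem dp_pd_grad2 {w : E n → ℝ} (hw : ContDiff ℝ ∞ w) (a : Fin n) (x : E n) :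
    pd a (grad2 w) x = 2 * ∑ l, pd l w x * pd a (pd l w) x := by
  have hne : (∞ : WithTop ℕ∞) ≠ 0 := by simp
  have hd : ∀ l, DifferentiableAt ℝ (pd l w) x := fun l =>
    ((contDiff_pd hw l).differentiable hne) x
  have h1 : grad2 w = fun y => ∑ l, pd l w y * pd l w y := by
    funext y
    simp only [grad2, pow_two]
  have h2 : ∀ l ∈ (Finset.univ : Finset (Fin n)),
      DifferentiableAt ℝ (fun y => pd l w y * pd l w y) x := fun l _ => (hd l).mul (hd l)
  rw [h1, pd_sum Finset.univ h2, Finset.mul_sum]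
  refine Finset.sum_congr rfl fun l _ => ?_
  rw [pd_mul (hd l) (hd l)]
  ring

private theorem dp_pd_schouten {w : E n → ℝ} (hw : ContDiff ℝ ∞ w) (a b c : Fin n) (x : E n) :
    pd a (fun y => schouten w y b c) x = pd a w x * hess w x b c
      + w x * pd a (pd b (pd c w)) x
      - (∑ l, pd l w x * pd a (pd l w) x) * (1 : Matrix (Fin n) (Fin n) ℝ) b c := by
  have hne : (∞ : WithTop ℕ∞) ≠ 0 := by simp
  have hdw : DifferentiableAt ℝ w x := (hw.differentiable hne) x
  have hdh : DifferentiableAt ℝ (pd b (pd c w)) x :=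
    ((contDiff_pd (contDiff_pd hw c) b).differentiable hne) x
  have hdg : DifferentiableAt ℝ (grad2 w) x := ((contDiff_grad2 hw).differentiable hne) x
  have h1 : (fun y => schouten w y b c) = fun y => w y * pd b (pd c w) y
      - ((1 / 2) * (1 : Matrix (Fin n) (Fin n) ℝ) b c) * grad2 w y := by
    funext y
    simp only [schouten, hess, Matrix.sub_apply, Matrix.smul_apply, smul_eq_mul]
    ring
  have h2 : DifferentiableAt ℝ (fun y => w y * pd b (pd c w) y) x := hdw.mul hdh
  have h3 : DifferentiableAt ℝ (fun y => ((1 / 2) * (1 : Matrix (Fin n) (Fin n) ℝ) b c)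
      * grad2 w y) x := hdg.const_mul _
  rw [h1, pd_sub h2 h3, pd_mul hdw hdh, pd_const_mul hdg, dp_pd_grad2 hw]
  simp only [hess]
  ring

private theorem dp_third {w : E n → ℝ} (hw : ContDiff ℝ ∞ w) (c l a : Fin n) (x : E n) :
    pd c (pd l (pd a w)) x = pd a (pd l (pd c w)) x := by
  rw [pd_comm (contDiff_pd hw a) c l]
  have h3 : pd c (pd a w) = pd a (pd c w) := funext fun y => pd_comm hw c a y
  rw [h3, pd_comm (contDiff_pd hw c) l a]

private theorem dp_mulVec {w : E n → ℝ} (a : Fin n) (x : E n) :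
    (schouten w x *ᵥ fun k => pd k w x) a =
      w x * (∑ l, pd l w x * pd a (pd l w) x) - grad2 w x / 2 * pd a w x := by
  simp only [Matrix.mulVec, dotProduct, schouten, hess, Matrix.sub_apply, Matrix.smul_apply,
    smul_eq_mul, sub_mul, Finset.sum_sub_distrib]
  congr 1
  · rw [Finset.mul_sum]
    refine Finset.sum_congr rfl fun l _ => ?_
    ring
  · rw [Finset.sum_eq_single a]
    · rw [Matrix.one_apply_eq, mul_one]
    · intro b _ hb
      rw [Matrix.one_apply_ne hb.symm]
      ring
    · intro h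
      exact absurd (Finset.mem_univ a) h

private theorem dp_codazzi {w : E n → ℝ} (hw : ContDiff ℝ ∞ w) (a l c : Fin n) (x : E n) :
    w x * (pd a (fun y => schouten w y l c) x - pd c (fun y => schouten w y l a) x) =
      pd a w x * schouten w x l c - pd c w x * schouten w x l a
        - (schouten w x *ᵥ fun k => pd k w x) a * (1 : Matrix (Fin n) (Fin n) ℝ) l c
        + (schouten w x *ᵥ fun k => pd k w x) c * (1 : Matrix (Fin n) (Fin n) ℝ) l a := by
  rw [dp_pd_schouten hw, dp_pd_schouten hw, dp_third hw a l c, dp_mulVec, dp_mulVec]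
  simp only [schouten, Matrix.sub_apply, Matrix.smul_apply, smul_eq_mul]
  ring

private theorem dp_sum {P T : Matrix (Fin n) (Fin n) ℝ} (hP : P.IsSymm) (hPT : P * T = T * P)
    (v : Fin n → ℝ) (c : Fin n) :
    ∑ a, ∑ l, T a l * (v a * P l c - v c * P l a - (P *ᵥ v) a * (1 : Matrix (Fin n) (Fin n) ℝ) l c
      + (P *ᵥ v) c * (1 : Matrix (Fin n) (Fin n) ℝ) l a) =
    (P *ᵥ v) c * Matrix.trace T - v c * Matrix.trace (T * P) := by
  have e1 : ∑ a, ∑ l, T a l * (v a * P l c) = (v ᵥ* (T * P)) c := by
    simp only [Matrix.vecMul, dotProduct, Matrix.mul_apply, Finset.mul_sum]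
    refine Finset.sum_congr rfl fun a _ => Finset.sum_congr rfl fun l _ => ?_
    ring
  have e2 : ∑ a, ∑ l, T a l * (v c * P l a) = v c * Matrix.trace (T * P) := by
    simp only [Matrix.trace, Matrix.diag_apply, Matrix.mul_apply, Finset.mul_sum]
    refine Finset.sum_congr rfl fun a _ => Finset.sum_congr rfl fun l _ => ?_
    ring
  have e3 : ∑ a, ∑ l, T a l * ((P *ᵥ v) a * (1 : Matrix (Fin n) (Fin n) ℝ) l c) =
      ((P *ᵥ v) ᵥ* T) c := by
    have h1 : ∀ a, ∑ l, T a l * ((P *ᵥ v) a * (1 : Matrix (Fin n) (Fin n) ℝ) l c) =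
        (P *ᵥ v) a * T a c := by
      intro a
      rw [Finset.sum_eq_single c]
      · rw [Matrix.one_apply_eq]
        ring
      · intro b _ hb
        rw [Matrix.one_apply_ne hb]
        ring
      · intro h
        exact absurd (Finset.mem_univ c) h
    simp only [h1]
    rfl
  have e4 : ∑ a, ∑ l, T a l * ((P *ᵥ v) c * (1 : Matrix (Fin n) (Fin n) ℝ) l a) =
      (P *ᵥ v) c * Matrix.trace T := by
    have h1 : ∀ a, ∑ l, T a l * ((P *ᵥ v) c * (1 : Matrix (Fin n) (Fin n) ℝ) l a) =
        (P *ᵥ v) c * T a a := by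
      intro a
      rw [Finset.sum_eq_single a]
      · rw [Matrix.one_apply_eq]
        ring
      · intro b _ hb
        rw [Matrix.one_apply_ne hb]
        ring
      · intro h
        exact absurd (Finset.mem_univ a) h
    simp only [h1]
    rw [← Finset.mul_sum]
    rfl
  have e5 : (P *ᵥ v) ᵥ* T = v ᵥ* (T * P) := by
    have h1 : P *ᵥ v = v ᵥ* P := by
      conv_lhs => rw [← hP.eq]
      exact Matrix.mulVec_transpose P v
    rw [h1, Matrix.vecMul_vecMul, hPT]
  have e6 : ∀ a l, T a l * (v a * P l c - v c * P l a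
      - (P *ᵥ v) a * (1 : Matrix (Fin n) (Fin n) ℝ) l c
      + (P *ᵥ v) c * (1 : Matrix (Fin n) (Fin n) ℝ) l a) =
      T a l * (v a * P l c) - T a l * (v c * P l a)
      - T a l * ((P *ᵥ v) a * (1 : Matrix (Fin n) (Fin n) ℝ) l c)
      + T a l * ((P *ᵥ v) c * (1 : Matrix (Fin n) (Fin n) ℝ) l a) := by
    intro a l
    ring
  simp only [e6, Finset.sum_add_distrib, Finset.sum_sub_distrib]
  rw [e1, e2, e3, e4, e5]
  ring

private theorem dp_main {w : E n → ℝ} (hw : ContDiff ℝ ∞ w) (j : ℕ) (c : Fin n) (x : E n) :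
    w x * ∑ a, pd a (fun y => newt j (schouten w y) a c) x =
      (n : ℝ) * ((fun k => pd k w x) ᵥ* newt j (schouten w x)) c
        - pd c w x * Matrix.trace (newt j (schouten w x)) := by
  induction j generalizing c with
  | zero =>
    simp only [newt_zero, Matrix.vecMul_one, Matrix.trace_one, Fintype.card_fin]
    have h1 : ∑ a, pd a (fun _ : E n => (1 : Matrix (Fin n) (Fin n) ℝ) a c) x = 0 :=
      Finset.sum_eq_zero fun a _ => pd_const a _ x
    rw [h1]
    ring
  | succ j ih =>
    have hne : (∞ : WithTop ℕ∞) ≠ 0 := by simp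
    have hh := contDiff_schouten hw
    have hs : DifferentiableAt ℝ (fun y => sig (j + 1) (schouten w y)) x :=
      ((contDiff_sig hh (j + 1)).differentiable hne) x
    have hN : ∀ a l, DifferentiableAt ℝ (fun y => newt j (schouten w y) a l) x := fun a l =>
      ((contDiff_newt hh j a l).differentiable hne) x
    have hH : ∀ a l, DifferentiableAt ℝ (fun y => schouten w y a l) x := fun a l =>
      ((hh a l).differentiable hne) x
    have h1 : ∀ a, pd a (fun y => newt (j + 1) (schouten w y) a c) x =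
        (1 : Matrix (Fin n) (Fin n) ℝ) a c * pd a (fun y => sig (j + 1) (schouten w y)) x
        - ∑ l, (newt j (schouten w x) a l * pd a (fun y => schouten w y l c) x
          + schouten w x l c * pd a (fun y => newt j (schouten w y) a l) x) := by
      intro a
      have h2 : (fun y => newt (j + 1) (schouten w y) a c) = fun y =>
          (1 : Matrix (Fin n) (Fin n) ℝ) a c * sig (j + 1) (schouten w y)
            - ∑ l, newt j (schouten w y) a l * schouten w y l c := by
        funext y
        rw [newt_succ', Matrix.sub_apply, Matrix.smul_apply, Matrix.mul_apply, smul_eq_mul,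
          mul_comm (sig (j + 1) (schouten w y))]
      have hp : ∀ l, DifferentiableAt ℝ (fun y => newt j (schouten w y) a l * schouten w y l c) x :=
        fun l => (hN a l).mul (hH l c)
      have hps : DifferentiableAt ℝ
          (fun y => ∑ l, newt j (schouten w y) a l * schouten w y l c) x :=
        DifferentiableAt.fun_sum fun l _ => hp l
      have hs1 : DifferentiableAt ℝ (fun y => (1 : Matrix (Fin n) (Fin n) ℝ) a c *
          sig (j + 1) (schouten w y)) x := hs.const_mul _
      rw [h2, pd_sub hs1 hps, pd_const_mul hs, pd_sum Finset.univ (fun l _ => hp l)]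
      congr 1
      refine Finset.sum_congr rfl fun l _ => ?_
      exact pd_mul (hN a l) (hH l c) a
    simp only [h1]
    rw [Finset.sum_sub_distrib]
    simp only [Finset.sum_add_distrib]
    have h3 : w x * ∑ a, ∑ l, schouten w x l c * pd a (fun y => newt j (schouten w y) a l) x =
        (n : ℝ) * ((fun k => pd k w x) ᵥ* (newt j (schouten w x) * schouten w x)) c
          - ((fun k => pd k w x) ᵥ* schouten w x) c * Matrix.trace (newt j (schouten w x)) := by
      rw [Finset.sum_comm]
      simp only [← Finset.mul_sum]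
      rw [Finset.mul_sum]
      have h4 : ∀ l, w x * (schouten w x l c *
          ∑ a, pd a (fun y => newt j (schouten w y) a l) x) =
          (n : ℝ) * (((fun k => pd k w x) ᵥ* newt j (schouten w x)) l * schouten w x l c)
          - (pd l w x * schouten w x l c) * Matrix.trace (newt j (schouten w x)) := by
        intro l
        rw [mul_left_comm, ih l]
        ring
      simp only [h4]
      rw [Finset.sum_sub_distrib, ← Finset.mul_sum, ← Finset.sum_mul, ← Matrix.vecMul_vecMul]
      rfl
    have h4 : ∑ a, (1 : Matrix (Fin n) (Fin n) ℝ) a c *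
        pd a (fun y => sig (j + 1) (schouten w y)) x
        = pd c (fun y => sig (j + 1) (schouten w y)) x := by
      rw [Finset.sum_eq_single c]
      · rw [Matrix.one_apply_eq, one_mul]
      · intro a _ hac
        rw [Matrix.one_apply_ne hac, zero_mul]
      · intro hcn
        exact absurd (Finset.mem_univ c) hcn
    have h5 : pd c (fun y => sig (j + 1) (schouten w y)) x =
        ∑ a, ∑ l, newt j (schouten w x) a l * pd c (fun y => schouten w y l a) x := by
      rw [pd_sig hh j c x, Matrix.trace]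
      refine Finset.sum_congr rfl fun a _ => ?_
      rw [Matrix.diag_apply, Matrix.mul_apply]
      refine Finset.sum_congr rfl fun l _ => ?_
      rw [Matrix.of_apply]
    have h6 : w x * (∑ a, ∑ l, newt j (schouten w x) a l * pd a (fun y => schouten w y l c) x
        - ∑ a, ∑ l, newt j (schouten w x) a l * pd c (fun y => schouten w y l a) x) =
        (schouten w x *ᵥ fun k => pd k w x) c * Matrix.trace (newt j (schouten w x))
          - pd c w x * Matrix.trace (newt j (schouten w x) * schouten w x) := by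
      rw [← dp_sum (schouten_symm hw x) (newt_comm j (schouten w x)) (fun k => pd k w x) c,
        ← Finset.sum_sub_distrib, Finset.mul_sum]
      refine Finset.sum_congr rfl fun a _ => ?_
      rw [← Finset.sum_sub_distrib, Finset.mul_sum]
      refine Finset.sum_congr rfl fun l _ => ?_
      rw [← mul_sub, mul_left_comm, dp_codazzi hw a l c x]
    have h7 : (schouten w x *ᵥ fun k => pd k w x) = (fun k => pd k w x) ᵥ* schouten w x := by
      conv_lhs => rw [← (schouten_symm hw x).eq]
      exact Matrix.mulVec_transpose _ _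
    have h8 := trace_newt_mul j (schouten w x)
    have h9 := trace_newt (j + 1) (schouten w x)
    rw [h7, h8] at h6
    rw [h9, newt_succ' j (schouten w x), Matrix.vecMul_sub, Matrix.vecMul_smul,
      Matrix.vecMul_one, Pi.sub_apply, Pi.smul_apply, smul_eq_mul, h4, h5]
    push_cast
    linear_combination -h6 - h3

theorem div_newt_schouten {w : E n → ℝ} (hw : ContDiff ℝ ∞ w) (j : ℕ) (c : Fin n) (x : E n)
    (hx : w x ≠ 0) :
    ∑ a, pd a (fun y => newt j (schouten w y) a c) x =
      (1 / w x) * ((n : ℝ) * (∑ a, newt j (schouten w x) a c * pd a w x)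
        - pd c w x * Matrix.trace (newt j (schouten w x))) := by
  have h1 := dp_main hw j c x
  have h2 : ((fun k => pd k w x) ᵥ* newt j (schouten w x)) c =
      ∑ a, newt j (schouten w x) a c * pd a w x := by
    simp only [Matrix.vecMul, dotProduct]
    exact Finset.sum_congr rfl fun a _ => mul_comm _ _
  rw [h2] at h1
  rw [← h1]
  field_simp

end H68.CF
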