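import Pool.Agent.H68.CF.FdBall

/-!
# [H68 CF EnergyZ] Dirichlet energy

`∑_a ∂_a (w ∂_a w) = |∇w|² + w Δw` has integral `0` over `FD` (`per_integral_pd`;
`tr (hess w) = ∑_a ∂_a ∂_a w`). So, `Z = grad2 w`,
`0 ≥ ∫_FD (Z + n (Z - K)/2) = (1 + n/2) ∫_FD Z - (n/2) K vol FD`, so
`∫_FD Z ≤ K vol FD`. And `√Z ≤ 1 + Z`.
-/

open MeasureTheory Set Filter Topology Matrix Polynomial
open scoped ContDiff NNReal

noncomputable section

namespace H68.CF

variable {n : ℕ}

theorem energy_z (b : Module.Basis (Fin n) ℝ (E n)) {w : E n → ℝ} (hw : ContDiff ℝ ∞ w)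
    (hper : ∀ v ∈ Lat b, ∀ x, w (x + v) = w x) {K : ℝ} (hK : 0 ≤ K)
    (h : ∀ x, (n : ℝ) * (grad2 w x - K) / 2 ≤ w x * Matrix.trace (hess w x)) :
    ∫ x in ZSpan.fundamentalDomain b, grad2 w x ≤
      K * (volume (ZSpan.fundamentalDomain b)).toReal := by
  have hdw : ∀ x, DifferentiableAt ℝ w x := fun x => hw.contDiffAt.differentiableAt (by simp)
  have hpw : ∀ a, ContDiff ℝ ∞ (pd a w) := fun a => contDiff_pd hw a
  have hdp : ∀ a x, DifferentiableAt ℝ (pd a w) x := fun a x =>
    (hpw a).contDiffAt.differentiableAt (by simp)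
  -- the divergence
  have hdiv : ∀ x, ∑ a, pd a (fun y => w y * pd a w y) x =
      w x * Matrix.trace (hess w x) + grad2 w x := by
    intro x
    have h1 : ∀ a, pd a (fun y => w y * pd a w y) x =
        w x * pd a (pd a w) x + (pd a w x) ^ 2 := fun a => by
      rw [pd_mul (hdw x) (hdp a x)]; ring
    simp only [h1, Finset.sum_add_distrib, ← Finset.mul_sum]
    rfl
  have hint0 : ∫ x in ZSpan.fundamentalDomain b,
      (w x * Matrix.trace (hess w x) + grad2 w x) = 0 := by
    simp only [← hdiv]
    rw [integral_finsetSum]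
    · refine Finset.sum_eq_zero fun a _ => ?_
      refine per_integral_pd b (f := fun y => w y * pd a w y) ?_ ?_ a
      · exact (hw.mul (hpw a)).of_le (by exact_mod_cast le_top)
      · intro v hv x
        show w (x + v) * pd a w (x + v) = _
        rw [hper v hv, pd_per (hper v hv)]
    · intro a _
      exact integrableOn_fd b (contDiff_pd (hw.mul (hpw a)) a).continuous
  have hcg : Continuous (grad2 w) := (contDiff_grad2 hw).continuous
  have hct : Continuous (fun x => Matrix.trace (hess w x)) := by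
    unfold Matrix.trace
    exact continuous_finsetSum _ fun a _ => (contDiff_hess hw a a).continuous
  have i1 : IntegrableOn (fun x => w x * Matrix.trace (hess w x) + grad2 w x)
      (ZSpan.fundamentalDomain b) :=
    integrableOn_fd b ((hw.continuous.mul hct).add hcg)
  have i2 : IntegrableOn (fun x => (n : ℝ) * (grad2 w x - K) / 2 + grad2 w x)
      (ZSpan.fundamentalDomain b) :=
    integrableOn_fd b (((continuous_const.mul (hcg.sub continuous_const)).div_const 2).add hcg)
  have hle : ∫ x in ZSpan.fundamentalDomain b,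
      ((n : ℝ) * (grad2 w x - K) / 2 + grad2 w x) ≤ 0 := by
    rw [← hint0]
    refine integral_mono i2 i1 fun x => ?_
    have := h x
    simp only
    linarith
  have ig : IntegrableOn (grad2 w) (ZSpan.fundamentalDomain b) := integrableOn_fd b hcg
  set V := (volume (ZSpan.fundamentalDomain b)).toReal with hV
  have hVr : volume.real (ZSpan.fundamentalDomain b) = V := rfl
  have hcomp : ∫ x in ZSpan.fundamentalDomain b,
      ((n : ℝ) * (grad2 w x - K) / 2 + grad2 w x) =
      ((n : ℝ) / 2 + 1) * (∫ x in ZSpan.fundamentalDomain b, grad2 w x) - (n : ℝ) / 2 * K * V := by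
    have h1 : ∀ x, (n : ℝ) * (grad2 w x - K) / 2 + grad2 w x =
        ((n : ℝ) / 2 + 1) * grad2 w x - (n : ℝ) / 2 * K := fun x => by ring
    simp only [h1]
    rw [integral_sub (ig.const_mul _) (integrableOn_fd b continuous_const),
      integral_const_mul, setIntegral_const, hVr, smul_eq_mul]
    ring
  rw [hcomp] at hle
  have hn : (0 : ℝ) ≤ n := Nat.cast_nonneg n
  have hV0 : 0 ≤ V := ENNReal.toReal_nonneg
  have hKV : 0 ≤ K * V := mul_nonneg hK hV0
  by_contra hcon
  push Not at hcon
  have h2 : (n : ℝ) / 2 * (K * V) ≤ (n : ℝ) / 2 * ∫ x in ZSpan.fundamentalDomain b, grad2 w x :=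
    mul_le_mul_of_nonneg_left hcon.le (by positivity)
  nlinarith

theorem energy_sqrt (b : Module.Basis (Fin n) ℝ (E n)) {w : E n → ℝ} (hw : ContDiff ℝ ∞ w)
    (hper : ∀ v ∈ Lat b, ∀ x, w (x + v) = w x) {K : ℝ} (hK : 0 ≤ K)
    (h : ∀ x, (n : ℝ) * (grad2 w x - K) / 2 ≤ w x * Matrix.trace (hess w x)) :
    ∫ x in ZSpan.fundamentalDomain b, Real.sqrt (grad2 w x) ≤
      (1 + K) * (volume (ZSpan.fundamentalDomain b)).toReal := by
  have hcg : Continuous (grad2 w) := (contDiff_grad2 hw).continuous
  have h1 := energy_z b hw hper hK h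
  have h2 : ∫ x in ZSpan.fundamentalDomain b, Real.sqrt (grad2 w x) ≤
      ∫ x in ZSpan.fundamentalDomain b, (1 + grad2 w x) := by
    refine integral_mono (integrableOn_fd b hcg.sqrt)
      (integrableOn_fd b (continuous_const.add hcg)) fun x => ?_
    have h3 : 0 ≤ grad2 w x := grad2_nonneg w x
    show Real.sqrt (grad2 w x) ≤ 1 + grad2 w x
    rw [Real.sqrt_le_left (by linarith)]
    nlinarith
  have h4 : ∫ x in ZSpan.fundamentalDomain b, (1 + grad2 w x) =
      (volume (ZSpan.fundamentalDomain b)).toReal +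
        ∫ x in ZSpan.fundamentalDomain b, grad2 w x := by
    rw [integral_add (integrableOn_fd b continuous_const) (integrableOn_fd b hcg),
      setIntegral_const, smul_eq_mul, mul_one]
    rfl
  rw [h4] at h2
  linarith

end H68.CF
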