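import Pool.Agent.H68.CF.Dom

/-!
# [H68 CF Entry] Diagonal entries of pair-positive matrices

Let `n ≥ 3`, `A` symmetric with `A(u,u) + A(v,v) ≥ 0` for orthonormal pairs. With
`u = e_i`, `v = e_l` (`l ≠ i`): `A i i ≥ - A l l`. Sum over `l ≠ i`:
`(n-1) A i i ≥ - (tr A - A i i)`, so `(n-2) A i i ≥ - tr A`, and as `tr A ≥ 0`
(`2 tr A ≥ 0` by summing pairs, or `sig_nonneg` with `sig_one`, `2 ≤ n`),
`A i i ≥ - tr A`. For the upper bound `A i i = tr A - ∑_{l ≠ i} A l l ≤ tr A + (n-1) tr A/(n-2)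
 ≤ 3 tr A`. And `tr A = sig 1 A` (`sig_one`).
-/

open MeasureTheory Set Filter Topology Matrix Polynomial
open scoped ContDiff NNReal

noncomputable section

namespace H68.CF

variable {n : ℕ}

private theorem entry_pair {A : Matrix (Fin n) (Fin n) ℝ} (hp : PairGe A 0) {i l : Fin n}
    (h : i ≠ l) : 0 ≤ A i i + A l l := by
  have h1 := hp (Pi.single i 1) (Pi.single l 1) (by simp) (by simp) (by simp [h])
  simpa using h1

theorem entry_bound (hn : 3 ≤ n) {A : Matrix (Fin n) (Fin n) ℝ} (hA : A.IsSymm)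
    (hp : PairGe A 0) (i : Fin n) : |A i i| ≤ 3 * sig 1 A := by
  have hN : (3 : ℝ) ≤ (n : ℝ) := by exact_mod_cast hn
  rw [sig_one]
  obtain ⟨T, hT⟩ : ∃ T, T = Matrix.trace A := ⟨_, rfl⟩
  rw [← hT]
  have hTs : T = ∑ l, A l l := hT
  have hcard : ∀ i : Fin n, ((Finset.univ.erase i).card : ℝ) = (n : ℝ) - 1 := by
    intro i
    rw [Finset.card_erase_of_mem (Finset.mem_univ i), Finset.card_univ, Fintype.card_fin,
      Nat.cast_sub (by omega)]
    simp
  have hsum : ∀ i : Fin n, ∑ l ∈ Finset.univ.erase i, A l l = T - A i i := by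
    intro i
    rw [hTs, ← Finset.add_sum_erase Finset.univ (fun l => A l l) (Finset.mem_univ i)]
    ring
  have h2 : ∀ i : Fin n, 0 ≤ ((n : ℝ) - 2) * A i i + T := by
    intro i
    have h3 : 0 ≤ ∑ l ∈ Finset.univ.erase i, (A i i + A l l) :=
      Finset.sum_nonneg fun l hl => entry_pair hp (Finset.ne_of_mem_erase hl).symm
    rw [Finset.sum_add_distrib, Finset.sum_const, nsmul_eq_mul, hcard, hsum] at h3
    linarith
  have h3 : 0 ≤ T := by
    have h4 : 0 ≤ ∑ i : Fin n, (((n : ℝ) - 2) * A i i + T) := Finset.sum_nonneg fun i _ => h2 i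
    rw [Finset.sum_add_distrib, ← Finset.mul_sum, ← hTs, Finset.sum_const, nsmul_eq_mul,
      Finset.card_univ, Fintype.card_fin] at h4
    nlinarith
  have h5 : 0 ≤ ((n : ℝ) - 2) * (3 * T - A i i) := by
    have h6 : 0 ≤ ∑ l ∈ Finset.univ.erase i, (((n : ℝ) - 2) * A l l + T) :=
      Finset.sum_nonneg fun l _ => h2 l
    rw [Finset.sum_add_distrib, ← Finset.mul_sum, hsum, Finset.sum_const, nsmul_eq_mul,
      hcard] at h6
    nlinarith
  have h6 : 0 ≤ 3 * T - A i i := by
    by_contra hc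
    push Not at hc
    nlinarith
  rw [abs_le]
  constructor
  · by_contra hc
    push Not at hc
    have h7 := h2 i
    nlinarith
  · linarith

end H68.CF
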