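import Pool.Agent.H68.CF.IbpP

/-!
# [H68 CF FdMeas] Measurable periodic functions

`FD = ZSpan.fundamentalDomain b`.
* `ball_le_fd_meas`: as `ball_le_fd` (module `FdBall`), for measurable bounded periodic functions.
  Every `y` is congruent to a point of `FD` (`ZSpan.exist_unique_vadd_mem_fundamentalDomain`), and
  `f` is periodic, so one may assume `y ∈ FD`, `ball y R ⊂ ball 0 R'`; only finitely many lattice
  points `v` satisfy `(v + FD) ∩ ball 0 R' ≠ ∅` (discreteness), let `K` be their number;
  `ball y R ⊂ ⋃_v (v + FD)` and `∫_{v + FD} f = ∫_FD f`. (Finite union bound for nonnegative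
  integrable functions, e.g. with `lintegral_iUnion_le`/`measure` of `withDensity`.)
* `ae_of_ae_fd`: the exceptional set `N` is invariant under the (countable) lattice and
  `N = ⋃_v (v + (N ∩ FD))` (`v` in the lattice), a countable union of null sets
  (`measure_preimage_add`).
-/

open MeasureTheory Set Filter Topology Matrix Polynomial
open scoped ContDiff NNReal

noncomputable section

namespace H68.CF

variable {n : ℕ}

private theorem fdm_ball (b : Module.Basis (Fin n) ℝ (E n)) :
    ∃ ρ : ℝ, 0 ≤ ρ ∧ ∀ x ∈ ZSpan.fundamentalDomain b, ‖x‖ ≤ ρ := by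
  obtain ⟨ρ, hρ⟩ := (ZSpan.fundamentalDomain_isBounded b).subset_closedBall 0
  refine ⟨max ρ 0, le_max_right _ _, fun x hx => ?_⟩
  have h := hρ hx
  rw [mem_closedBall_zero_iff] at h
  exact h.trans (le_max_left _ _)

theorem ball_le_fd_meas (b : Module.Basis (Fin n) ℝ (E n)) (R : ℝ) :
    ∃ K : ℝ, 0 ≤ K ∧ ∀ f : E n → ℝ, Measurable f → (∃ B : ℝ, ∀ x, f x ≤ B) →
      (∀ v ∈ Lat b, ∀ x, f (x + v) = f x) →
      (∀ x, 0 ≤ f x) → ∀ y, ∫ x in Metric.ball y R, f x ≤
        K * ∫ x in ZSpan.fundamentalDomain b, f x := by
  classical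
  obtain ⟨ρ, hρ0, hρ⟩ := fdm_ball b
  have hfin : ((Metric.closedBall (0 : E n) (R + 2 * ρ)) ∩
      (Submodule.span ℤ (Set.range b) : Set (E n))).Finite :=
    ZSpan.setFinite_inter b Metric.isBounded_closedBall
  obtain ⟨S, hS⟩ : ∃ S : Finset (E n), S = hfin.toFinset := ⟨_, rfl⟩
  have hmem : ∀ v, v ∈ S ↔ ‖v‖ ≤ R + 2 * ρ ∧ v ∈ Lat b := by
    intro v
    rw [hS, Set.Finite.mem_toFinset, Set.mem_inter_iff, mem_closedBall_zero_iff]
    rfl
  refine ⟨(S.card : ℝ), Nat.cast_nonneg _, fun f hc hB hf h0 y => ?_⟩
  obtain ⟨B, hB⟩ := hB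
  have hper : ∀ v ∈ Lat b, ∀ x, f (x - v) = f x := by
    intro v hv x
    have h1 := hf v hv (x - v)
    rw [sub_add_cancel] at h1
    exact h1.symm
  have hbd : ∀ s : Set (E n), volume s ≠ ⊤ → IntegrableOn f s := by
    intro s hs
    refine Measure.integrableOn_of_bounded hs hc.aestronglyMeasurable
      (Filter.Eventually.of_forall (fun x => ?_)) (M := B)
    rw [Real.norm_eq_abs, abs_of_nonneg (h0 x)]
    exact hB x
  have hFm : MeasurableSet (ZSpan.fundamentalDomain b) := ZSpan.fundamentalDomain_measurableSet b
  have hint : Integrable ((ZSpan.fundamentalDomain b).indicator f) :=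
    (integrable_indicator_iff hFm).2 (hbd _ (ZSpan.fundamentalDomain_isBounded b).measure_lt_top.ne)
  have hI : ∀ v : E n, ∫ x, (ZSpan.fundamentalDomain b).indicator f (x - v) =
      ∫ x in ZSpan.fundamentalDomain b, f x := by
    intro v
    rw [integral_sub_right_eq_self (fun x => (ZSpan.fundamentalDomain b).indicator f x) v,
      integral_indicator hFm]
  have hbi : IntegrableOn f (Metric.ball y R) := hbd _ measure_ball_lt_top.ne
  rw [← integral_indicator measurableSet_ball]
  calc ∫ x, (Metric.ball y R).indicator f x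
      ≤ ∫ x, ∑ v ∈ S, (ZSpan.fundamentalDomain b).indicator f
          (x - (v + (ZSpan.floor b y : E n))) := by
        refine integral_mono ((integrable_indicator_iff measurableSet_ball).2 hbi)
          (integrable_finsetSum _ fun v _ => hint.comp_sub_right _) ?_
        intro x
        have hnn : ∀ v ∈ S, 0 ≤ (ZSpan.fundamentalDomain b).indicator f
            (x - (v + (ZSpan.floor b y : E n))) := fun v _ =>
          Set.indicator_nonneg (fun z _ => h0 z) _
        change (Metric.ball y R).indicator f x ≤ ∑ v ∈ S, (ZSpan.fundamentalDomain b).indicator f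
            (x - (v + (ZSpan.floor b y : E n)))
        by_cases hx : x ∈ Metric.ball y R
        · rw [Set.indicator_of_mem hx]
          have hv : (ZSpan.floor b x : E n) - (ZSpan.floor b y : E n) ∈ S := by
            rw [hmem]
            refine ⟨?_, Submodule.sub_mem _ (ZSpan.floor b x).2 (ZSpan.floor b y).2⟩
            have h1 : (ZSpan.floor b x : E n) - (ZSpan.floor b y : E n) =
                (x - y) - (ZSpan.fract b x - ZSpan.fract b y) := by
              rw [ZSpan.fract_apply, ZSpan.fract_apply]
              abel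
            have h2 := hρ _ (ZSpan.fract_mem_fundamentalDomain b x)
            have h3 := hρ _ (ZSpan.fract_mem_fundamentalDomain b y)
            have h4 : ‖x - y‖ ≤ R := by
              rw [Metric.mem_ball, dist_eq_norm] at hx
              exact hx.le
            rw [h1]
            have h5 := norm_sub_le (x - y) (ZSpan.fract b x - ZSpan.fract b y)
            have h6 := norm_sub_le (ZSpan.fract b x) (ZSpan.fract b y)
            linarith
          have h7 := Finset.single_le_sum hnn hv
          refine le_trans ?_ h7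
          have h8 : x - ((ZSpan.floor b x : E n) - (ZSpan.floor b y : E n) +
              (ZSpan.floor b y : E n)) = ZSpan.fract b x := by
            rw [ZSpan.fract_apply]
            abel
          rw [h8, Set.indicator_of_mem (ZSpan.fract_mem_fundamentalDomain b x), ZSpan.fract_apply,
            hper _ (ZSpan.floor b x).2]
        · rw [Set.indicator_of_notMem hx]
          exact Finset.sum_nonneg hnn
    _ = ∑ v ∈ S, ∫ x, (ZSpan.fundamentalDomain b).indicator f
          (x - (v + (ZSpan.floor b y : E n))) :=
        integral_finsetSum _ fun v _ => hint.comp_sub_right _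
    _ = (S.card : ℝ) * ∫ x in ZSpan.fundamentalDomain b, f x := by
        rw [Finset.sum_congr rfl fun v _ => hI _, Finset.sum_const, nsmul_eq_mul]

theorem ae_of_ae_fd (b : Module.Basis (Fin n) ℝ (E n)) {P : E n → Prop}
    (hP : ∀ v ∈ Lat b, ∀ x, P x → P (x + v))
    (h : ∀ᵐ x ∂(volume.restrict (ZSpan.fundamentalDomain b)), P x) :
    ∀ᵐ x : E n, P x := by
  rw [ae_restrict_iff' (ZSpan.fundamentalDomain_measurableSet b)] at h
  have h1 : ∀ v : Submodule.span ℤ (Set.range b), ∀ᵐ x : E n,
      x - (v : E n) ∈ ZSpan.fundamentalDomain b → P (x - (v : E n)) := by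
    intro v
    exact (measurePreserving_sub_right (volume : Measure (E n)) (v : E n)).quasiMeasurePreserving.ae h
  rw [← ae_all_iff] at h1
  filter_upwards [h1] with x hx
  have h2 := hx (ZSpan.floor b x) (by
    rw [← ZSpan.fract_apply]
    exact ZSpan.fract_mem_fundamentalDomain b x)
  have h3 := hP _ (ZSpan.floor b x).2 _ h2
  rw [sub_add_cancel] at h3
  exact h3

end H68.CF
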