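import Pool.Agent.H68.CF.LipK

/-!
# [H68 CF IvEq] Intrinsic volumes of `w⁻² |dx|²`

`√(det (conf w x)) = √(w^{-2n}) = w^{-n}` (`Matrix.det_smul`, `det 1 = 1`, `w > 0`); so by
`lipKil_conf` `intrinsicVolume k b (conf w) = (n-k)! / ((2π)^k (n-2k)!) * VV b k w`.
-/

open MeasureTheory Set Filter Topology Matrix Polynomial
open scoped ContDiff NNReal

noncomputable section

namespace H68.CF

variable {n : ℕ}

theorem intrinsicVolume_conf (b : Module.Basis (Fin n) ℝ (E n)) {w : E n → ℝ}
    (hw : ContDiff ℝ ∞ w) (hpos : ∀ x, 0 < w x) {k : ℕ} (hk : 2 * k ≤ n) :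
    intrinsicVolume k b (conf w) =
      ((n - k).factorial : ℝ) / ((2 * Real.pi) ^ k * ((n - 2 * k).factorial : ℝ)) *
        VV b k w := by
  have hf : ((n - 2 * k).factorial : ℝ) ≠ 0 := by positivity
  have hf2 : (k.factorial : ℝ) ≠ 0 := by positivity
  have hpi : (Real.pi : ℝ) ≠ 0 := Real.pi_ne_zero
  have h1 : ∀ x, lipKil k (conf w) x * Real.sqrt (conf w x).det =
      (2 ^ k * (k.factorial : ℝ) * ((n - k).factorial : ℝ) / ((n - 2 * k).factorial : ℝ)) *
        (sig k (schouten w x) / (w x) ^ n) := by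
    intro x
    have h2 := lipKil_conf hw hpos hk x
    have h3 : lipKil k (conf w) x = 2 ^ k * (k.factorial : ℝ) * ((n - k).factorial : ℝ) *
        sig k (schouten w x) / ((n - 2 * k).factorial : ℝ) := by
      rw [eq_div_iff hf, ← h2]
      ring
    have h4 : Real.sqrt (conf w x).det = ((w x) ^ n)⁻¹ := by
      have hw0 := hpos x
      unfold conf
      rw [Matrix.det_smul, Matrix.det_one, mul_one, Fintype.card_fin,
        show (((w x) ^ 2)⁻¹) ^ n = (((w x) ^ n)⁻¹) ^ 2 by
          rw [inv_pow, inv_pow, ← pow_mul, ← pow_mul, mul_comm]]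
      exact Real.sqrt_sq (by positivity)
    rw [h3, h4]
    ring
  unfold intrinsicVolume VV
  simp only [h1]
  rw [integral_const_mul, ← mul_assoc]
  congr 1
  have h5 : (4 * Real.pi) ^ k = 2 ^ k * (2 * Real.pi) ^ k := by
    rw [← mul_pow]
    congr 1
    ring
  rw [h5]
  field_simp

end H68.CF
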