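import Pool.Agent.H68.CF.Key
import Pool.Agent.H68.CF.IvEq

/-!
# [H68 CF Final] The theorem

If no sequence as in the statement exists, `v = 0`. Otherwise fix one, `(κ⁰, c⁰, b⁰, g⁰)`. By `VV_bdd` and
compactness of intervals there is a subsequence `ψ` with `VV b⁰ k (g⁰ (ψ l)).w → v₀`; let
`v = const * v₀` with the constant of `intrinsicVolume_conf`. For any `(κ, c, b, g)` and any
subsequence `ns` apply `key` to `g ∘ ns` and `g⁰ ∘ ψ`: along a further subsequence `ms`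
`VV b k (g (ns (ms l))).w - VV b⁰ k (g⁰ (ψ (ms l))).w → 0`, so `VV b k (g (ns (ms l))).w → v₀`
(`Filter.tendsto_of_subseq_tendsto`).
-/

open MeasureTheory Set Filter Topology Matrix Polynomial
open scoped ContDiff NNReal

noncomputable section

namespace H68.CF

open GromovHausdorff

/-- Convergence of the analytic quantity `VV`. -/
theorem VV_limit {n k : ℕ} (hn : 3 ≤ n) (hk1 : 1 ≤ k) (hk : 2 * k + 1 ≤ n) (X : GHSpace)
    (hnt : Nontrivial X.Rep) :
    ∃ v : ℝ, ∀ (κ c : ℝ) (b : Module.Basis (Fin n) ℝ (E n)) (g : ℕ → ConfFactor b), 0 < c →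
      (∀ l x, c ≤ (g l).w x) → (∀ l, SecGe (conf (g l).w) κ) →
      Tendsto (fun l => toGHSpace (Torus (g l))) atTop (𝓝 X) →
      Tendsto (fun l => VV b k (g l).w) atTop (𝓝 v) := by
  by_cases hex : ∃ (κ c : ℝ) (b : Module.Basis (Fin n) ℝ (E n)) (g : ℕ → ConfFactor b), 0 < c ∧
      (∀ l x, c ≤ (g l).w x) ∧ (∀ l, SecGe (conf (g l).w) κ) ∧
      Tendsto (fun l => toGHSpace (Torus (g l))) atTop (𝓝 X)
  · obtain ⟨κ0, c0, b0, g0, hc0, hlow0, hsec0, hX0⟩ := hex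
    obtain ⟨φ, hφ, K, hK⟩ := VV_bdd hn hk1 hk hc0 g0 hlow0 hsec0 hnt hX0
    obtain ⟨v, -, ψ, hψ, hv⟩ := (isCompact_Icc (a := -K) (b := K)).tendsto_subseq
      (x := fun l => VV b0 k (g0 (φ l)).w) (fun l => abs_le.1 (hK l))
    refine ⟨v, fun κ c b g hc hlow hsec hX => ?_⟩
    refine Filter.tendsto_of_subseq_tendsto fun ns hns => ?_
    obtain ⟨ms, hms, hkey⟩ := key hn hk1 hk hc hc0 (fun l => g (ns l)) (fun l => g0 (φ (ψ l)))
      (fun l x => hlow _ x) (fun l x => hlow0 _ x) (fun l => hsec _) (fun l => hsec0 _) hnt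
      (hX.comp hns) (hX0.comp (hφ.comp hψ).tendsto_atTop)
    refine ⟨ms, ?_⟩
    have h1 : Tendsto (fun l => VV b0 k (g0 (φ (ψ (ms l)))).w) atTop (𝓝 v) :=
      hv.comp hms.tendsto_atTop
    have h2 := hkey.add h1
    simpa using h2
  · refine ⟨0, fun κ c b g hc hlow hsec hX => (hex ⟨κ, c, b, g, hc, hlow, hsec, hX⟩).elim⟩

theorem intrinsicVolume_limit {n k : ℕ} (hk1 : 1 ≤ k) (hk : 2 * k < n) (X : GHSpace)
    (hnt : Nontrivial X.Rep) :
    ∃ v : ℝ, ∀ (κ c : ℝ) (b : Module.Basis (Fin n) ℝ (E n)) (g : ℕ → ConfFactor b), 0 < c →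
      (∀ l x, c ≤ (g l).w x) → (∀ l, SecGe (conf (g l).w) κ) →
      Tendsto (fun l => toGHSpace (Torus (g l))) atTop (𝓝 X) →
      Tendsto (fun l => intrinsicVolume k b (conf (g l).w)) atTop (𝓝 v) := by
  obtain ⟨v, hv⟩ := VV_limit (n := n) (k := k) (by omega) hk1 (by omega) X hnt
  refine ⟨((n - k).factorial : ℝ) / ((2 * Real.pi) ^ k * ((n - 2 * k).factorial : ℝ)) * v,
    fun κ c b g hc hlow hsec hX => ?_⟩
  have h := (hv κ c b g hc hlow hsec hX).const_mul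
      (((n - k).factorial : ℝ) / ((2 * Real.pi) ^ k * ((n - 2 * k).factorial : ℝ)))
  refine h.congr fun l => ?_
  rw [intrinsicVolume_conf b (g l).smooth (g l).pos (by omega)]

end H68.CF
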