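import Pool.Agent.H68.CF.Curve

/-!
# [H68 CF TdLow] Lower bounds for the distance

* `td_lower`: for every admissible curve, `v = γ 1 - y ∈ Lat b` and
  `‖x - y - v‖ = ‖γ 1 - γ 0‖ ≤ M len w γ` (`norm_le_len`). So `inf_{v ∈ Lat b} ‖x - y - v‖ ≤ M td`.
  The infimum is attained: `Lat b` is discrete and closed (`Submodule.span ℤ (range b)` is a
  discrete subgroup; or: choose `v_m ∈ Lat b` with `‖x - y - v_m‖ ≤ M (td + 1/(m+1))`; bounded
  subsets of `Lat b` are finite, so some `v` occurs infinitely often).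
* `exists_min_vec`: nonzero lattice vectors have norm at least `2 ρ₀ > 0`.
* `td_local`: let `γ` be admissible for `x`, `x + h`. If `γ` stays in `ball x ρ` on `[0,1]`, then
  `len w γ ≥ ‖γ 1 - x‖/m` (`norm_le_len`), `γ 1 - x = h + v`, and `‖h + v‖ ≥ ‖h‖` (clear if
  `v = 0`, otherwise `‖h + v‖ ≥ 2ρ₀ - ‖h‖ ≥ ‖h‖`). Otherwise let `t` be the first time with
  `‖γ t - x‖ ≥ ρ` (`sInf` of a closed set; on `[0,t)` the curve is in the ball and by continuity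
  `w ≤ m` also at `t`), then `len w γ ≥ ∫_0^t ≥ ρ/m ≥ ‖h‖/m` (`len_piece`, `norm_le_len`).
-/

open MeasureTheory Set Filter Topology Matrix Polynomial
open scoped ContDiff NNReal

noncomputable section

namespace H68.CF

variable {n : ℕ}

theorem td_lower (b : Module.Basis (Fin n) ℝ (E n)) {w : E n → ℝ} (hw : Continuous w)
    (hpos : ∀ x, 0 < w x) {M : ℝ} (hM : ∀ x, w x ≤ M) (x y : E n) :
    ∃ v ∈ Lat b, ‖x - y - v‖ ≤ M * td b w x y := by
  have hM0 : 0 < M := (hpos x).trans_le (hM x)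
  have key : ∀ ε : ℝ, 0 < ε → ∃ v ∈ Lat b, ‖x - y - v‖ ≤ M * (td b w x y + ε) := by
    intro ε hε
    obtain ⟨γ, ⟨L, hL⟩, h0, h1, hlen⟩ := exists_len_lt b w x y hε
    refine ⟨γ 1 - y, h1, ?_⟩
    have h2 := norm_le_len hw hpos hL (zero_le_one) (m := M) (fun u _ => hM (γ u))
    have h3 : x - y - (γ 1 - y) = -(γ 1 - γ 0) := by
      rw [h0]
      abel
    rw [h3, norm_neg]
    refine h2.trans ?_
    exact mul_le_mul_of_nonneg_left hlen.le hM0.le
  have hfin : (Metric.closedBall (x - y) (M * (td b w x y + 1)) ∩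
      (Lat b : Set (E n))).Finite := ZSpan.setFinite_inter b Metric.isBounded_closedBall
  have hmem : ∀ v ∈ Lat b, ‖x - y - v‖ ≤ M * (td b w x y + 1) →
      v ∈ hfin.toFinset := by
    intro v hv h
    rw [Set.Finite.mem_toFinset]
    refine ⟨?_, hv⟩
    rw [mem_closedBall_iff_norm, norm_sub_rev]
    exact h
  obtain ⟨v1, hv1, hv1'⟩ := key 1 one_pos
  obtain ⟨v, hv, hmin⟩ := Finset.exists_min_image hfin.toFinset (fun v => ‖x - y - v‖)
    ⟨v1, hmem v1 hv1 hv1'⟩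
  rw [Set.Finite.mem_toFinset] at hv
  refine ⟨v, hv.2, ?_⟩
  refine le_of_forall_pos_le_add fun δ hδ => ?_
  obtain ⟨u, hu, hu'⟩ := key (min 1 (δ / M)) (lt_min one_pos (div_pos hδ hM0))
  have h4 : ‖x - y - u‖ ≤ M * (td b w x y + 1) :=
    hu'.trans (mul_le_mul_of_nonneg_left (by linarith [min_le_left 1 (δ / M)]) hM0.le)
  refine (hmin u (hmem u hu h4)).trans (hu'.trans ?_)
  have h5 : M * min 1 (δ / M) ≤ δ := by
    calc M * min 1 (δ / M) ≤ M * (δ / M) :=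
          mul_le_mul_of_nonneg_left (min_le_right _ _) hM0.le
      _ = δ := by field_simp
  linarith

theorem exists_min_vec (b : Module.Basis (Fin n) ℝ (E n)) :
    ∃ ρ0 : ℝ, 0 < ρ0 ∧ ∀ v ∈ Lat b, v ≠ 0 → 2 * ρ0 ≤ ‖v‖ := by
  have hfin : (Metric.closedBall (0 : E n) 1 ∩ (Lat b : Set (E n))).Finite :=
    ZSpan.setFinite_inter b Metric.isBounded_closedBall
  have hmem : ∀ v ∈ Lat b, v ≠ 0 → ‖v‖ ≤ 1 → v ∈ hfin.toFinset.erase 0 := by
    intro v hv h0 h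
    rw [Finset.mem_erase, Set.Finite.mem_toFinset]
    exact ⟨h0, mem_closedBall_zero_iff.2 h, hv⟩
  rcases (hfin.toFinset.erase 0).eq_empty_or_nonempty with he | hne
  · refine ⟨1 / 2, by norm_num, fun v hv h0 => ?_⟩
    by_contra hn
    have h1 := hmem v hv h0 (by linarith)
    rw [he] at h1
    simp at h1
  · obtain ⟨v0, hv0, hmin⟩ := Finset.exists_min_image _ (fun v : E n => ‖v‖) hne
    rw [Finset.mem_erase, Set.Finite.mem_toFinset] at hv0
    refine ⟨‖v0‖ / 2, half_pos (norm_pos_iff.2 hv0.1), fun v hv h0 => ?_⟩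
    have h2 : ‖v0‖ ≤ 1 := mem_closedBall_zero_iff.1 hv0.2.1
    rcases le_or_gt ‖v‖ 1 with h | h
    · have := hmin v (hmem v hv h0 h)
      linarith
    · linarith

theorem td_local (b : Module.Basis (Fin n) ℝ (E n)) {ρ0 : ℝ}
    (hρ0 : ∀ v ∈ Lat b, v ≠ 0 → 2 * ρ0 ≤ ‖v‖) {w : E n → ℝ} (hw : Continuous w)
    (hpos : ∀ x, 0 < w x) {x : E n} {ρ m : ℝ} (hρ : 0 < ρ) (hρ' : ρ ≤ ρ0)
    (hm : ∀ y ∈ Metric.ball x ρ, w y ≤ m) {h : E n} (hh : ‖h‖ < ρ) :
    ‖h‖ / m ≤ td b w x (x + h) := by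
  have hm0 : 0 < m := (hpos x).trans_le (hm x (Metric.mem_ball_self hρ))
  refine le_of_forall_pos_le_add fun ε hε => ?_
  obtain ⟨γ, ⟨L, hL⟩, h0, h1, hlen⟩ := exists_len_lt b w x (x + h) hε
  refine le_trans ?_ hlen.le
  rw [div_le_iff₀ hm0, mul_comm]
  by_cases hin : ∀ t ∈ Icc (0 : ℝ) 1, γ t ∈ Metric.ball x ρ
  · have h2 := norm_le_len hw hpos hL (zero_le_one) (m := m) (fun u hu => hm _ (hin u hu))
    refine le_trans ?_ h2
    obtain ⟨v, hv, hv'⟩ : ∃ v ∈ Lat b, γ 1 - γ 0 = h + v := by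
      refine ⟨γ 1 - (x + h), h1, ?_⟩
      rw [h0]
      abel
    rw [hv']
    by_cases hv0 : v = 0
    · rw [hv0, add_zero]
    · have h3 := hρ0 v hv hv0
      have h4 : ‖v‖ ≤ ‖h + v‖ + ‖h‖ := by
        calc ‖v‖ = ‖(h + v) - h‖ := by rw [add_sub_cancel_left]
          _ ≤ ‖h + v‖ + ‖h‖ := norm_sub_le _ _
      linarith
  · push Not at hin
    obtain ⟨t1, ht1, ht1'⟩ := hin
    have hγc : Continuous γ := hL.continuous
    have hTc : IsClosed {t : ℝ | t ∈ Icc (0 : ℝ) 1 ∧ ρ ≤ ‖γ t - x‖} :=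
      isClosed_Icc.inter (isClosed_le continuous_const (hγc.sub continuous_const).norm)
    have hTn : {t : ℝ | t ∈ Icc (0 : ℝ) 1 ∧ ρ ≤ ‖γ t - x‖}.Nonempty := by
      refine ⟨t1, ht1, ?_⟩
      rw [mem_ball_iff_norm, not_lt] at ht1'
      exact ht1'
    have hTb : BddBelow {t : ℝ | t ∈ Icc (0 : ℝ) 1 ∧ ρ ≤ ‖γ t - x‖} :=
      ⟨0, fun t ht => ht.1.1⟩
    have hmem := hTc.csInf_mem hTn hTb
    set t0 := sInf {t : ℝ | t ∈ Icc (0 : ℝ) 1 ∧ ρ ≤ ‖γ t - x‖} with ht0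
    obtain ⟨⟨ht00, ht01⟩, ht0ρ⟩ := hmem
    have ht0pos : 0 < t0 := by
      rcases ht00.lt_or_eq with h | h
      · exact h
      · rw [← h, h0, sub_self, norm_zero] at ht0ρ
        linarith
    have hIco : Ico 0 t0 ⊆ {u : ℝ | w (γ u) ≤ m} := by
      intro u hu
      refine hm _ ?_
      rw [mem_ball_iff_norm]
      by_contra hn
      push Not at hn
      have h3 : t0 ≤ u := csInf_le hTb ⟨⟨hu.1, hu.2.le.trans ht01⟩, hn⟩
      exact absurd hu.2 (not_lt.2 h3)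
    have hcl : IsClosed {u : ℝ | w (γ u) ≤ m} := isClosed_le (hw.comp hγc) continuous_const
    have hIcc : Icc 0 t0 ⊆ {u : ℝ | w (γ u) ≤ m} := by
      rw [← closure_Ico ht0pos.ne]
      exact closure_minimal hIco hcl
    have h3 := norm_le_len hw hpos hL ht00 (m := m) (fun u hu => hIcc hu)
    have h4 := len_piece hw hpos hL ht00 ht01
    rw [h0] at h3
    calc ‖h‖ ≤ ‖γ t0 - x‖ := hh.le.trans ht0ρ
      _ ≤ m * ∫ u in (0 : ℝ)..t0, ‖deriv γ u‖ / w (γ u) := h3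
      _ ≤ m * len w γ := mul_le_mul_of_nonneg_left h4 hm0.le

end H68.CF
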