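import Pool.Agent.H68.CF.TdTri
import Pool.Agent.H68.CF.TdBasic
import Pool.Agent.H68.CF.TdLow

/-!
# [H68 CF SpaceInst] The Riemannian torus as a compact metric space

`Pt g` is `E n` with the pseudo-distance `gDist b (conf g.w)` (points of `E n` modulo the lattice
have distance `0`), `Torus g` is its metric quotient (separation quotient), which is the torus
`E n / Lat b` with the Riemannian distance of `w⁻² |dx|²`.

Compactness: `g.w` is continuous, periodic and positive, hence `≥ c > 0`
(`exists_lower`: `per_bounded`-type argument on the compact closure of `ZSpan.fundamentalDomain b`);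
the map `E n → Torus g` is Lipschitz (`td_le_dist`, `gDist_conf`), and its restriction to the
compact closure of the fundamental domain is onto (every `x` is congruent to a point `y` of the
fundamental domain modulo `Lat b`, and `gDist x y = 0` by `td_per_right`, `td_self`).
-/

open MeasureTheory Set Filter Topology Matrix Polynomial
open scoped ContDiff NNReal

noncomputable section

namespace H68.CF

variable {n : ℕ} {b : Module.Basis (Fin n) ℝ (E n)}

/-- Every point is congruent modulo the lattice to a point of the fundamental domain. -/
private theorem exists_fd (b : Module.Basis (Fin n) ℝ (E n)) (x : E n) :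
    ∃ v ∈ Lat b, x + v ∈ ZSpan.fundamentalDomain b := by
  obtain ⟨v, hv, -⟩ := ZSpan.exist_unique_vadd_mem_fundamentalDomain b x
  refine ⟨(v : E n), v.2, ?_⟩
  have : v +ᵥ x = (v : E n) + x := rfl
  rw [this, add_comm] at hv
  exact hv

theorem exists_lower (g : ConfFactor b) : ∃ c : ℝ, 0 < c ∧ ∀ x, c ≤ g.w x := by
  have hcomp : IsCompact (closure (ZSpan.fundamentalDomain b)) :=
    (ZSpan.fundamentalDomain_isBounded b).isCompact_closure
  have hne : (closure (ZSpan.fundamentalDomain b)).Nonempty := by
    obtain ⟨v, -, hv⟩ := exists_fd b 0
    exact ⟨_, subset_closure hv⟩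
  obtain ⟨x0, -, hx0⟩ := hcomp.exists_isMinOn hne g.smooth.continuous.continuousOn
  refine ⟨g.w x0, g.pos x0, fun x => ?_⟩
  obtain ⟨v, hv, hxv⟩ := exists_fd b x
  have h1 : g.w x0 ≤ g.w (x + v) := hx0 (subset_closure hxv)
  rwa [g.per v hv x] at h1

theorem gDist_self (g : ConfFactor b) (x : E n) : gDist b (conf g.w) x x = 0 := by
  rw [gDist_conf b g.pos, td_self b g.pos]

theorem gDist_comm (g : ConfFactor b) (x y : E n) :
    gDist b (conf g.w) x y = gDist b (conf g.w) y x := by
  rw [gDist_conf b g.pos, gDist_conf b g.pos, td_comm b g.per]

theorem gDist_triangle (g : ConfFactor b) (x y z : E n) :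
    gDist b (conf g.w) x z ≤ gDist b (conf g.w) x y + gDist b (conf g.w) y z := by
  rw [gDist_conf b g.pos, gDist_conf b g.pos, gDist_conf b g.pos]
  exact td_triangle b g.smooth.continuous g.pos g.per x y z

/-- The points of `E n`, to be equipped with the pseudo-distance of the torus. -/
def Pt (_g : ConfFactor b) : Type := E n

/-- The class of a point. -/
def toPt (g : ConfFactor b) (x : E n) : Pt g := x

instance instPt (g : ConfFactor b) : PseudoMetricSpace (Pt g) where
  dist x y := gDist b (conf g.w) (x : E n) (y : E n)
  dist_self x := gDist_self g x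
  dist_comm x y := gDist_comm g x y
  dist_triangle x y z := gDist_triangle g x y z

/-- The torus `E n / Lat b` with the Riemannian distance of the metric `w⁻² |dx|²`. -/
abbrev Torus (g : ConfFactor b) : Type := SeparationQuotient (Pt g)

/-- The projection of `E n` to the torus. -/
def proj (g : ConfFactor b) (x : E n) : Torus g := SeparationQuotient.mk (toPt g x)

theorem dist_proj (g : ConfFactor b) (x y : E n) :
    dist (proj g x) (proj g y) = td b g.w x y := by
  rw [← gDist_conf b g.pos]
  exact SeparationQuotient.dist_mk _ _

theorem proj_surj (g : ConfFactor b) : Function.Surjective (proj g) := fun q => by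
  obtain ⟨x, hx⟩ := SeparationQuotient.surjective_mk q
  exact ⟨x, hx⟩

/-- Every point of the torus is represented in the fundamental domain. -/
theorem proj_fd (g : ConfFactor b) (q : Torus g) :
    ∃ x ∈ ZSpan.fundamentalDomain b, proj g x = q := by
  obtain ⟨x, rfl⟩ := proj_surj g q
  obtain ⟨v, hv, hxv⟩ := exists_fd b x
  refine ⟨x + v, hxv, ?_⟩
  rw [← dist_eq_zero, dist_proj, td_per_left b g.per hv, td_self b g.pos]

instance instNonempty (g : ConfFactor b) : Nonempty (Torus g) := ⟨proj g 0⟩

private theorem continuous_proj (g : ConfFactor b) : Continuous (proj g) := by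
  obtain ⟨c, hc, hlow⟩ := exists_lower g
  refine (LipschitzWith.of_dist_le_mul (K := Real.toNNReal (1 / c)) fun x y => ?_).continuous
  rw [dist_proj, Real.coe_toNNReal _ (by positivity), dist_eq_norm]
  have := td_le_dist b hc g.smooth.continuous hlow x y
  rwa [div_eq_inv_mul, ← one_div] at this

instance instCompact (g : ConfFactor b) : CompactSpace (Torus g) := by
  have hcomp : IsCompact (closure (ZSpan.fundamentalDomain b)) :=
    (ZSpan.fundamentalDomain_isBounded b).isCompact_closure
  have h := hcomp.image (continuous_proj g)
  refine ⟨?_⟩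
  have h2 : proj g '' closure (ZSpan.fundamentalDomain b) = Set.univ := by
    refine Set.eq_univ_of_forall fun q => ?_
    obtain ⟨x, hx, hq⟩ := proj_fd g q
    exact ⟨x, subset_closure hx, hq⟩
  rwa [h2] at h

end H68.CF
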