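import Pool.Agent.H68.CF.ArzA
import Pool.Agent.H68.CF.SpaceInst

/-!
# [H68 CF GhLim] The Gromov-Hausdorff limit as a quotient of `E n`

The limit `D` of the distances `td b (g l).w` (`= gDist`, `gDist_conf`) is a pseudo-distance,
`D x y ≤ ‖x - y‖/c`, and `D x (x+v) = 0` for `v ∈ Lat b`. Let `Y` be the separation quotient of
`E n` with `D` (as in `SpaceInst`: type synonym of `E n`), `q : E n → Y` the projection. It is
compact: image of the compact closure of the fundamental domain. By `unif_of_pointwise`
(`td_sub_le`, `td_triangle`) for every `ε > 0` and large `l`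
`|td b (g l).w x y - D x y| ≤ ε` for `x, y` in the fundamental domain (bounded). Choose for every
point of `Torus (g l)` a representative in the fundamental domain (`proj_fd`); this gives
`Φ : Torus (g l) → Y` with distortion `≤ ε` and such that every point of `Y` is within `ε` of the
image (for `q y`, `y ∈ FD`: let `x ∈ FD` be the chosen representative of `proj (g l) y`; then
`td x y = 0`, so `D x y ≤ ε`). `GromovHausdorff.ghDist_le_of_approx_subsets` (with `s = univ`,
`ε₁ = 0`) gives `ghDist ≤ 2 ε`, and `dist (toGHSpace A) (toGHSpace B) = ghDist A B` by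
definition (`rfl`).
-/

open MeasureTheory Set Filter Topology Matrix Polynomial
open scoped ContDiff NNReal

noncomputable section

namespace H68.CF

variable {n : ℕ} {b : Module.Basis (Fin n) ℝ (E n)}

open GromovHausdorff

/-- A copy of `E n`, to be equipped with the limit pseudo-distance. -/
def LPt (n : ℕ) : Type := E n

theorem gh_limit (g : ℕ → ConfFactor b) {c : ℝ} (hc : 0 < c) (hlow : ∀ l x, c ≤ (g l).w x)
    {D : E n → E n → ℝ}
    (hD : ∀ x y, Tendsto (fun l => td b (g l).w x y) atTop (𝓝 (D x y))) :
    ∃ (Y : Type) (_ : MetricSpace Y) (_ : CompactSpace Y) (_ : Nonempty Y) (q : E n → Y),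
      Function.Surjective q ∧ (∀ x y, dist (q x) (q y) = D x y) ∧
      Tendsto (fun l => toGHSpace (Torus (g l))) atTop (𝓝 (toGHSpace Y)) := by
  have hself : ∀ x, D x x = 0 := fun x => by
    have h := hD x x
    simp only [td_self b (g _).pos] at h
    exact tendsto_nhds_unique h tendsto_const_nhds
  have hcomm : ∀ x y, D x y = D y x := fun x y => by
    refine tendsto_nhds_unique (hD x y) ?_
    simp only [td_comm b (g _).per x y]
    exact hD y x
  have htri : ∀ x y z, D x z ≤ D x y + D y z := fun x y z =>
    le_of_tendsto_of_tendsto' (hD x z) ((hD x y).add (hD y z)) fun l =>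
      td_triangle b (g l).smooth.continuous (g l).pos (g l).per x y z
  have hle : ∀ x y, D x y ≤ ‖x - y‖ / c := fun x y =>
    le_of_tendsto' (hD x y) fun l => td_le_dist b hc (g l).smooth.continuous (hlow l) x y
  have hlat : ∀ x, ∀ v ∈ Lat b, D x (x + v) = 0 := fun x v hv => by
    have h := hD x (x + v)
    simp only [td_per_right b _ hv, td_self b (g _).pos] at h
    exact tendsto_nhds_unique h tendsto_const_nhds
  let inst : PseudoMetricSpace (LPt n) :=
    { dist := fun x y => D x y
      dist_self := hself
      dist_comm := hcomm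
      dist_triangle := htri }
  let q : E n → SeparationQuotient (LPt n) := fun x =>
    SeparationQuotient.mk (show LPt n from x)
  have hq : Function.Surjective q := fun y => by
    obtain ⟨x, hx⟩ := SeparationQuotient.surjective_mk y
    exact ⟨x, hx⟩
  have hqD : ∀ x y, dist (q x) (q y) = D x y := fun x y => SeparationQuotient.dist_mk _ _
  have hqfd : ∀ y, ∃ x ∈ ZSpan.fundamentalDomain b, q x = y := by
    intro y
    obtain ⟨x, rfl⟩ := hq y
    obtain ⟨v, hv, -⟩ := ZSpan.exist_unique_vadd_mem_fundamentalDomain b x
    have h1 : v +ᵥ x = (v : E n) + x := rfl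
    rw [h1, add_comm] at hv
    refine ⟨_, hv, ?_⟩
    rw [← dist_eq_zero, hqD, hcomm]
    exact hlat x v v.2
  have hqc : Continuous q := by
    refine (LipschitzWith.of_dist_le_mul (K := Real.toNNReal (1 / c)) fun x y => ?_).continuous
    rw [hqD, Real.coe_toNNReal _ (by positivity), dist_eq_norm]
    have := hle x y
    rwa [div_eq_inv_mul, ← one_div] at this
  have hcpt : CompactSpace (SeparationQuotient (LPt n)) := by
    have hcomp : IsCompact (closure (ZSpan.fundamentalDomain b)) :=
      (ZSpan.fundamentalDomain_isBounded b).isCompact_closure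
    have h := hcomp.image hqc
    refine ⟨?_⟩
    have h2 : q '' closure (ZSpan.fundamentalDomain b) = Set.univ := by
      refine Set.eq_univ_of_forall fun y => ?_
      obtain ⟨x, hx, hy⟩ := hqfd y
      exact ⟨x, subset_closure hx, hy⟩
    rwa [h2] at h
  have hnem : Nonempty (SeparationQuotient (LPt n)) := ⟨q 0⟩
  refine ⟨SeparationQuotient (LPt n), inferInstance, hcpt, hnem, q, hq, hqD, ?_⟩
  obtain ⟨R, hR⟩ := (ZSpan.fundamentalDomain_isBounded b).exists_norm_le
  rw [Metric.tendsto_nhds]
  intro ε hε
  have hunif := unif_of_pointwise (d := fun l x y => td b (g l).w x y) (D := D) (L := 1 / c)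
    (fun l x y x' y' => td_sub_le b hc (g l).smooth.continuous (hlow l) (g l).per
      (fun x y z => td_triangle b (g l).smooth.continuous (g l).pos (g l).per x y z) x y x' y')
    hD R (ε := ε / 4) (by positivity)
  filter_upwards [hunif] with l hl
  choose rep hrep hrep' using proj_fd (g l)
  have hmain : ghDist (Torus (g l)) (SeparationQuotient (LPt n)) ≤
      0 + (ε / 4) / 2 + ε / 4 := by
    refine ghDist_le_of_approx_subsets (s := Set.univ)
      (fun s : (Set.univ : Set (Torus (g l))) => q (rep s.1)) ?_ ?_ ?_
    · intro x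
      exact ⟨x, Set.mem_univ _, by simp⟩
    · intro y
      obtain ⟨x, hx, rfl⟩ := hqfd y
      refine ⟨⟨proj (g l) x, Set.mem_univ _⟩, ?_⟩
      rw [hqD]
      have h0 : td b (g l).w x (rep (proj (g l) x)) = 0 := by
        rw [← dist_proj, hrep', dist_self]
      have h1 := hl x (rep (proj (g l) x)) (hR _ hx) (hR _ (hrep _))
      simp only [h0, zero_sub, abs_neg] at h1
      exact (le_abs_self _).trans h1
    · intro s t
      have h1 := hl (rep s.1) (rep t.1) (hR _ (hrep _)) (hR _ (hrep _))
      have h2 : dist s t = td b (g l).w (rep s.1) (rep t.1) := by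
        rw [← dist_proj, hrep', hrep']
        rfl
      rw [h2, hqD]
      exact h1
  have h3 : dist (toGHSpace (Torus (g l))) (toGHSpace (SeparationQuotient (LPt n))) =
      ghDist (Torus (g l)) (SeparationQuotient (LPt n)) := rfl
  rw [h3]
  linarith

end H68.CF
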