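import Pool.Agent.H68.CF.GhLim

/-!
# [H68 CF GhSub] Subsequences of convergent sequences of tori

`arzela` for `d l = td b (g l).w` (`td_self`, `td_sub_le`, `td_triangle`, `L = 1/c`) gives `φ` and
`D`; `gh_limit` for `g ∘ φ` gives `Y` with `toGHSpace (Torus (g (φ l))) → toGHSpace Y`. Limits
are unique (`tendsto_nhds_unique`), so `toGHSpace Y = X = toGHSpace X.Rep`
(`GHSpace.toGHSpace_rep`), hence `Y ≃ᵢ X.Rep` (`toGHSpace_eq_toGHSpace_iff_isometryEquiv`).
Compose with `q`.
-/

open MeasureTheory Set Filter Topology Matrix Polynomial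
open scoped ContDiff NNReal

noncomputable section

namespace H68.CF

variable {n : ℕ} {b : Module.Basis (Fin n) ℝ (E n)}

open GromovHausdorff

theorem gh_sub (g : ℕ → ConfFactor b) {c : ℝ} (hc : 0 < c) (hlow : ∀ l x, c ≤ (g l).w x)
    {X : GHSpace} (hX : Tendsto (fun l => toGHSpace (Torus (g l))) atTop (𝓝 X)) :
    ∃ φ : ℕ → ℕ, StrictMono φ ∧ ∃ p : E n → X.Rep, Function.Surjective p ∧
      ∀ x y, Tendsto (fun l => td b (g (φ l)).w x y) atTop (𝓝 (dist (p x) (p y))) := by
  obtain ⟨φ, hφ, D, hD⟩ := arzela (fun l x y => td b (g l).w x y) (L := 1 / c)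
    (fun l x => td_self b (g l).pos x)
    (fun l x y x' y' => td_sub_le b hc (g l).smooth.continuous (hlow l) (g l).per
      (fun x y z => td_triangle b (g l).smooth.continuous (g l).pos (g l).per x y z) x y x' y')
  obtain ⟨Y, iY, iYc, iYn, q, hq, hqD, hlim⟩ := gh_limit (fun l => g (φ l)) hc
    (fun l x => hlow _ x) hD
  have h1 : Tendsto (fun l => toGHSpace (Torus (g (φ l)))) atTop (𝓝 X) :=
    hX.comp hφ.tendsto_atTop
  have h2 : toGHSpace Y = toGHSpace X.Rep := by
    rw [GHSpace.toGHSpace_rep]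
    exact tendsto_nhds_unique hlim h1
  obtain ⟨e⟩ := toGHSpace_eq_toGHSpace_iff_isometryEquiv.1 h2
  refine ⟨φ, hφ, fun x => e (q x), e.surjective.comp hq, fun x y => ?_⟩
  rw [e.dist_eq, hqD]
  exact hD x y

end H68.CF
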