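import Pool.Agent.H68.CF.Defs

/-!
# [H68 CF HsMat] Linear maps with `‖A u‖ = lam ‖u‖`

`lam ≥ 0`. If `lam = 0`, `A = 0` (only `0 < lam` is needed). `A = lam • U` with
`U = lam⁻¹ • A` a linear isometry, an equivalence by finite dimension
(`LinearIsometry.toLinearIsometryEquiv`). The columns `U e_i` have norm one:
`∑_j (A e_i)_j² = lam²` (`EuclideanSpace.norm_eq`, `real_norm_sq_eq`). `|det U| = 1`
(`LinearIsometryEquiv.det_eq_one_or...`, or `volume` is preserved and `addHaar_preimage`..., or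
`Uᵀ U = 1` for the matrix), `det (lam U) = lam^n det U` (`LinearMap.det_smul`,
`ContinuousLinearMap.det`).
-/

open MeasureTheory Set Filter Topology Matrix Polynomial
open scoped ContDiff NNReal

noncomputable section

namespace H68.CF

variable {n : ℕ}

theorem conf_form {A : E n →L[ℝ] E n} {lam : ℝ} (hlam : 0 < lam)
    (h : ∀ u, ‖A u‖ = lam * ‖u‖) : ∃ U : E n ≃ₗᵢ[ℝ] E n, ∀ u, A u = lam • U u := by
  let V : E n →ₗᵢ[ℝ] E n :=
    { toLinearMap := (lam⁻¹ • A : E n →L[ℝ] E n)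
      norm_map' := by
        intro u
        change ‖lam⁻¹ • A u‖ = ‖u‖
        rw [norm_smul, h, Real.norm_eq_abs, abs_of_pos (inv_pos.2 hlam)]
        field_simp }
  refine ⟨V.toLinearIsometryEquiv rfl, fun u => ?_⟩
  change A u = lam • (lam⁻¹ • A u)
  rw [smul_smul, mul_inv_cancel₀ hlam.ne', one_smul]

theorem conf_hs {A : E n →L[ℝ] E n} {lam : ℝ} (hlam : 0 < lam)
    (h : ∀ u, ‖A u‖ = lam * ‖u‖) :
    ∑ i, ∑ j, ((A (EuclideanSpace.single i 1)) j) ^ 2 = (n : ℝ) * lam ^ 2 := by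
  have h1 : ∀ i : Fin n, ∑ j, ((A (EuclideanSpace.single i 1)) j) ^ 2 = lam ^ 2 := by
    intro i
    rw [← EuclideanSpace.real_norm_sq_eq, h]
    simp
  rw [Finset.sum_congr rfl fun i _ => h1 i]
  simp

theorem conf_det {A : E n →L[ℝ] E n} {lam : ℝ} (hlam : 0 < lam)
    (h : ∀ u, ‖A u‖ = lam * ‖u‖) : |A.det| = lam ^ n := by
  obtain ⟨U, hU⟩ := conf_form hlam h
  have h1 : (A : E n →ₗ[ℝ] E n) = lam • (U.toLinearEquiv : E n →ₗ[ℝ] E n) := by
    ext1 u
    exact hU u
  have h2 : |LinearMap.det (U.toLinearEquiv : E n →ₗ[ℝ] E n)| = 1 := by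
    have h3 := Measure.addHaar_image_linearMap (volume : Measure (E n))
      (U.toLinearEquiv : E n →ₗ[ℝ] E n) (Metric.ball 0 1)
    have h4 : (U.toLinearEquiv : E n →ₗ[ℝ] E n) '' Metric.ball 0 1 = Metric.ball 0 1 := by
      have := U.image_ball 0 1
      rw [map_zero] at this
      exact this
    rw [h4] at h3
    have h5 : volume (Metric.ball (0 : E n) 1) ≠ 0 := (Metric.measure_ball_pos _ _ one_pos).ne'
    have h6 : volume (Metric.ball (0 : E n) 1) ≠ ⊤ := measure_ball_lt_top.ne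
    have h7 : ENNReal.ofReal |LinearMap.det (U.toLinearEquiv : E n →ₗ[ℝ] E n)| = 1 := by
      have h8 : 1 * volume (Metric.ball (0 : E n) 1) =
          ENNReal.ofReal |LinearMap.det (U.toLinearEquiv : E n →ₗ[ℝ] E n)| *
            volume (Metric.ball (0 : E n) 1) := by
        rw [one_mul]
        exact h3
      exact ((ENNReal.mul_left_inj h5 h6).1 h8).symm
    rw [ENNReal.ofReal_eq_one] at h7
    exact h7
  unfold ContinuousLinearMap.det
  rw [h1, LinearMap.det_smul, abs_mul, h2, mul_one, abs_pow, abs_of_pos hlam]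
  simp

end H68.CF
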