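import Pool.Agent.H68.CF.AvgDer
import Pool.Agent.H68.CF.DetB
import Pool.Agent.H68.CF.HsMat
import Pool.Agent.H68.CF.FdBall

/-!
# [H68 CF HsB] The energy inequality

`V = vol FD > 0`, `V' = vol FD' > 0`, `D_ij(x) = (fderiv F x e_i)_j`, `A_ij = (A e_i)_j`. For a.e.
`x`, `∑ D_ij² = n λ²`, `|det DF| = λⁿ` with `λ = λ(x) > 0` (`conf_hs`, `conf_det`,
`HasFDerivAt.fderiv`). `∫_FD D_ij = V A_ij` (`avg_der`) gives
`∫_FD ∑ (D_ij - A_ij)² + V ∑ A_ij² = ∫_FD ∑ D_ij²` (expand the square), and pointwise a.e.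
`∑ D_ij² = n |det DF|^{2/n}`. Jensen/Hölder (`n ≥ 2`, exponent `n/2 ≥ 1`;
`u = |det DF|`): `∫_FD u^{2/n} ≤ V^{1-2/n} (∫_FD u)^{2/n} ≤ V (V'/V)^{2/n}` (`det_bound`).
(Elementary proof of the Hölder step: with `m = V'/V` and Young, `u^{2/n} ≤ m^{2/n} ((2/n) u/m + 1 - 2/n)`
(concavity of `s ↦ s^{2/n}`, `Real.rpow_le...`/weighted AM-GM `Real.inner_le_nnorm_mul_nnorm`...);
integrate.)
-/

open MeasureTheory Set Filter Topology Matrix Polynomial
open scoped ContDiff NNReal

noncomputable section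

namespace H68.CF

variable {n : ℕ}

theorem hs_bound (hn : 2 ≤ n) (b b' : Module.Basis (Fin n) ℝ (E n)) {F G : E n → E n}
    {L L' : ℝ≥0} (hF : LipschitzWith L F) (hG : LipschitzWith L' G) (hGF : ∀ x, G (F x) = x)
    (hFG : ∀ x, F (G x) = x) {A B : E n →L[ℝ] E n}
    (hA : ∀ v ∈ Lat b, A v ∈ Lat b' ∧ ∀ x, F (x + v) = F x + A v)
    (hB : ∀ v ∈ Lat b', B v ∈ Lat b ∧ ∀ x, G (x + v) = G x + B v)
    (hconf : ∀ᵐ x : E n, ∃ (D : E n →L[ℝ] E n) (lam : ℝ), HasFDerivAt F D x ∧ 0 < lam ∧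
      ∀ u : E n, ‖D u‖ = lam * ‖u‖) :
    (∫ x in ZSpan.fundamentalDomain b, ∑ i, ∑ j,
        ((fderiv ℝ F x (EuclideanSpace.single i 1)) j - (A (EuclideanSpace.single i 1)) j) ^ 2) +
      (volume (ZSpan.fundamentalDomain b)).toReal *
        ∑ i, ∑ j, ((A (EuclideanSpace.single i 1)) j) ^ 2 ≤
      (volume (ZSpan.fundamentalDomain b)).toReal * ((n : ℝ) *
        ((volume (ZSpan.fundamentalDomain b')).toReal /
          (volume (ZSpan.fundamentalDomain b)).toReal) ^ (2 / (n : ℝ))) := by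
  classical
  obtain ⟨hV, hVt⟩ := fd_pos b
  obtain ⟨hV', -⟩ := fd_pos b'
  set V : ℝ := (volume (ZSpan.fundamentalDomain b)).toReal with hVdef
  set V' : ℝ := (volume (ZSpan.fundamentalDomain b')).toReal with hV'def
  have hn0 : (0 : ℝ) < n := by exact_mod_cast (by omega : 0 < n)
  have hn2 : (2 : ℝ) ≤ n := by exact_mod_cast hn
  have hVreal : (volume : Measure (E n)).real (ZSpan.fundamentalDomain b) = V := rfl
  set D : Fin n → Fin n → E n → ℝ := fun i j x => (fderiv ℝ F x (EuclideanSpace.single i 1)) j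
    with hD
  set a : Fin n → Fin n → ℝ := fun i j => (A (EuclideanSpace.single i 1)) j with ha
  have hDint : ∀ i j, IntegrableOn (D i j) (ZSpan.fundamentalDomain b) := fun i j =>
    fderiv_entry_integrable b hF i j
  have hDb : ∀ i j x, |D i j x| ≤ L := by
    intro i j x
    have h1 : ‖fderiv ℝ F x‖ ≤ L := norm_fderiv_le_of_lipschitz ℝ hF
    have h2 : ‖(EuclideanSpace.single i (1 : ℝ) : E n)‖ = 1 := by simp
    calc |D i j x| ≤ ‖fderiv ℝ F x (EuclideanSpace.single i 1)‖ :=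
          PiLp.norm_apply_le (fderiv ℝ F x (EuclideanSpace.single i 1)) j
      _ ≤ ‖fderiv ℝ F x‖ * ‖(EuclideanSpace.single i (1 : ℝ) : E n)‖ :=
          ContinuousLinearMap.le_opNorm _ _
      _ ≤ L := by rw [h2, mul_one]; exact h1
  have hfin : IsFiniteMeasure (volume.restrict (ZSpan.fundamentalDomain b)) :=
    ⟨by rw [Measure.restrict_apply_univ]; exact lt_top_iff_ne_top.mpr hVt⟩
  have hD2int : ∀ i j, IntegrableOn (fun x => D i j x ^ 2) (ZSpan.fundamentalDomain b) := by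
    intro i j
    refine Integrable.of_bound ((hDint i j).aestronglyMeasurable.pow 2) ((L : ℝ) ^ 2)
      (Filter.Eventually.of_forall fun x => ?_)
    change ‖D i j x ^ 2‖ ≤ (L : ℝ) ^ 2
    rw [norm_pow, Real.norm_eq_abs]
    exact pow_le_pow_left₀ (abs_nonneg _) (hDb i j x) 2
  have hexp : ∀ i j, ∫ x in ZSpan.fundamentalDomain b, (D i j x - a i j) ^ 2 =
      (∫ x in ZSpan.fundamentalDomain b, D i j x ^ 2) - V * a i j ^ 2 := by
    intro i j
    have h1 : (fun x => (D i j x - a i j) ^ 2) =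
        fun x => (D i j x ^ 2 - (2 * a i j) * D i j x) + a i j ^ 2 := by
      funext x
      ring
    have h2 : ∫ x in ZSpan.fundamentalDomain b, D i j x = V * a i j :=
      avg_der b hF (fun v hv => (hA v hv).2) i j
    have h3 : IntegrableOn (fun x => D i j x ^ 2 - (2 * a i j) * D i j x)
        (ZSpan.fundamentalDomain b) := (hD2int i j).sub ((hDint i j).const_mul _)
    rw [h1, integral_add h3 (integrable_const _),
      integral_sub (hD2int i j) ((hDint i j).const_mul _), integral_const_mul, h2,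
      setIntegral_const, hVreal, smul_eq_mul]
    ring
  have hDaint : ∀ i j, IntegrableOn (fun x => (D i j x - a i j) ^ 2)
      (ZSpan.fundamentalDomain b) := by
    intro i j
    have h1 : (fun x => (D i j x - a i j) ^ 2) =
        fun x => (D i j x ^ 2 - (2 * a i j) * D i j x) + a i j ^ 2 := by
      funext x
      ring
    rw [h1]
    exact ((hD2int i j).sub ((hDint i j).const_mul _)).add (integrable_const _)
  have hsum1 : ∫ x in ZSpan.fundamentalDomain b, ∑ i, ∑ j, (D i j x - a i j) ^ 2 =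
      (∫ x in ZSpan.fundamentalDomain b, ∑ i, ∑ j, D i j x ^ 2) - V * ∑ i, ∑ j, a i j ^ 2 := by
    rw [integral_finsetSum _ fun i _ => integrable_finsetSum _ fun j _ => hDaint i j,
      integral_finsetSum _ fun i _ => integrable_finsetSum _ fun j _ => hD2int i j,
      Finset.mul_sum, ← Finset.sum_sub_distrib]
    apply Finset.sum_congr rfl
    intro i _
    rw [integral_finsetSum _ fun j _ => hDaint i j, integral_finsetSum _ fun j _ => hD2int i j,
      Finset.mul_sum, ← Finset.sum_sub_distrib]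
    exact Finset.sum_congr rfl fun j _ => hexp i j
  -- the pointwise identity
  have hpt : ∀ᵐ x : E n, ∃ lam : ℝ, 0 < lam ∧ lam ≤ L ∧
      ∑ i, ∑ j, D i j x ^ 2 = (n : ℝ) * lam ^ 2 ∧ |(fderiv ℝ F x).det| = lam ^ n := by
    filter_upwards [hconf] with x hx
    obtain ⟨D', lam, hD', hlam, hu⟩ := hx
    have h1 : fderiv ℝ F x = D' := hD'.fderiv
    refine ⟨lam, hlam, ?_, ?_, ?_⟩
    · have h2 : ‖(EuclideanSpace.single (⟨0, by omega⟩ : Fin n) (1 : ℝ) : E n)‖ = 1 := by simp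
      have h3 : ‖fderiv ℝ F x‖ ≤ L := norm_fderiv_le_of_lipschitz ℝ hF
      have h4 := hu (EuclideanSpace.single (⟨0, by omega⟩ : Fin n) (1 : ℝ))
      rw [h2, mul_one] at h4
      have h5 := ContinuousLinearMap.le_opNorm (fderiv ℝ F x)
        (EuclideanSpace.single (⟨0, by omega⟩ : Fin n) (1 : ℝ))
      rw [h2, mul_one, h1, h4] at h5
      rw [h1] at h3
      exact h5.trans h3
    · have h2 := conf_hs hlam hu
      rw [← h1] at h2
      exact h2
    · have h2 := conf_det hlam hu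
      rw [← h1] at h2
      exact h2
  have hptr := ae_restrict_of_ae (s := ZSpan.fundamentalDomain b) hpt
  set m : ℝ := V' / V with hm
  have hm0 : 0 < m := div_pos hV' hV
  have hq0 : (0 : ℝ) ≤ 2 / n := by positivity
  have hq1 : (2 : ℝ) / n ≤ 1 := by
    rw [div_le_one hn0]
    exact hn2
  have huint : IntegrableOn (fun x => |(fderiv ℝ F x).det|) (ZSpan.fundamentalDomain b) := by
    have h1 : Measurable fun x => |(fderiv ℝ F x).det| :=
      (ContinuousLinearMap.continuous_det.measurable.comp (measurable_fderiv ℝ F)).abs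
    refine Integrable.of_bound h1.aestronglyMeasurable ((L : ℝ) ^ n) ?_
    filter_upwards [hptr] with x hx
    obtain ⟨lam, h2, h3, -, h4⟩ := hx
    rw [h4, Real.norm_eq_abs, abs_of_pos (pow_pos h2 n)]
    exact pow_le_pow_left₀ h2.le h3 n
  have hle : ∫ x in ZSpan.fundamentalDomain b, ∑ i, ∑ j, D i j x ^ 2 ≤
      ∫ x in ZSpan.fundamentalDomain b,
        ((n : ℝ) * m ^ (2 / (n : ℝ)) * (2 / n) / m * |(fderiv ℝ F x).det| +
          (n : ℝ) * m ^ (2 / (n : ℝ)) * (1 - 2 / n)) := by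
    refine integral_mono_ae
      (integrable_finsetSum _ fun i _ => integrable_finsetSum _ fun j _ => hD2int i j)
      ((huint.const_mul _).add (integrable_const _)) ?_
    filter_upwards [hptr] with x hx
    obtain ⟨lam, h2, -, h3, h4⟩ := hx
    rw [h3, h4]
    have h5 : lam ^ 2 = (lam ^ n) ^ (2 / (n : ℝ)) := by
      rw [← Real.rpow_natCast lam n, ← Real.rpow_mul h2.le,
        mul_div_cancel₀ (2 : ℝ) hn0.ne', Real.rpow_two]
    have h6 : 0 ≤ lam ^ n / m := by positivity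
    have h7 := rpow_one_add_le_one_add_mul_self (s := lam ^ n / m - 1) (by linarith) hq0 hq1
    rw [add_sub_cancel] at h7
    have h8 : (lam ^ n) ^ (2 / (n : ℝ)) = m ^ (2 / (n : ℝ)) * (lam ^ n / m) ^ (2 / (n : ℝ)) := by
      rw [← Real.mul_rpow hm0.le h6, mul_div_cancel₀ _ hm0.ne']
    rw [h5, h8]
    have h9 : (0 : ℝ) ≤ n * m ^ (2 / (n : ℝ)) := by positivity
    have h10 := mul_le_mul_of_nonneg_left h7 h9
    calc (n : ℝ) * (m ^ (2 / (n : ℝ)) * (lam ^ n / m) ^ (2 / (n : ℝ)))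
        = (n : ℝ) * m ^ (2 / (n : ℝ)) * (lam ^ n / m) ^ (2 / (n : ℝ)) := by ring
      _ ≤ (n : ℝ) * m ^ (2 / (n : ℝ)) * (1 + 2 / n * (lam ^ n / m - 1)) := h10
      _ = _ := by ring
  have hdet := det_bound b b' hF hG hGF hFG hB
  have hint : ∫ x in ZSpan.fundamentalDomain b,
        ((n : ℝ) * m ^ (2 / (n : ℝ)) * (2 / n) / m * |(fderiv ℝ F x).det| +
          (n : ℝ) * m ^ (2 / (n : ℝ)) * (1 - 2 / n)) ≤ V * ((n : ℝ) * m ^ (2 / (n : ℝ))) := by
    rw [integral_add (huint.const_mul _) (integrable_const _), integral_const_mul,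
      setIntegral_const, hVreal, smul_eq_mul]
    have h1 : (0 : ℝ) ≤ (n : ℝ) * m ^ (2 / (n : ℝ)) * (2 / n) / m := by positivity
    have h2 := mul_le_mul_of_nonneg_left hdet h1
    have h3 : (n : ℝ) * m ^ (2 / (n : ℝ)) * (2 / n) / m * V' =
        (n : ℝ) * m ^ (2 / (n : ℝ)) * (2 / n) * V := by
      have h4 : V' = m * V := by
        rw [hm]
        field_simp
      rw [h4]
      field_simp
    rw [h3] at h2
    calc _ ≤ (n : ℝ) * m ^ (2 / (n : ℝ)) * (2 / n) * V +
          V * ((n : ℝ) * m ^ (2 / (n : ℝ)) * (1 - 2 / n)) := by linarith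
      _ = _ := by ring
  rw [hsum1]
  linarith

end H68.CF
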