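import Pool.Agent.H68.CF.PdBasic

/-!
# [H68 CF IbpP] Integrals of periodic functions over the fundamental domain

`FD = ZSpan.fundamentalDomain b` is a bounded (`ZSpan.fundamentalDomain_isBounded`) measurable
(`ZSpan.fundamentalDomain_measurableSet`) fundamental domain
(`ZSpan.isAddFundamentalDomain b volume`).

* `per_translate`: `∫_FD f(x+v) dx = ∫_{FD + v} f`, and `FD + v` is again a fundamental domain
  (`MeasureTheory.IsAddFundamentalDomain.vadd`/translation; or prove that the translate is a
  fundamental domain by `IsAddFundamentalDomain` of the image); then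
  `IsAddFundamentalDomain.setIntegral_eq` for the invariant function `f`.
* `integrableOn_fd`: continuous functions are bounded on the compact closure of `FD`.
* `per_integral_pd`: `g(t) = ∫_FD f(x + t e_a) dx` is constant by `per_translate` and its
  derivative at `0` is `∫_FD pd a f` (differentiate under the integral; `pd a f` is continuous
  and periodic, hence bounded: `per_bounded`).
* `per_bounded`: a continuous periodic function is bounded (compactness of the closure of `FD`;
  every point is congruent to a point of `FD`, `ZSpan.exist_unique_vadd_mem_fundamentalDomain`).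
-/

open MeasureTheory Set Filter Topology Matrix Polynomial
open scoped ContDiff NNReal Pointwise

noncomputable section

namespace H68.CF

variable {n : ℕ}

private theorem ibpp_ball (b : Module.Basis (Fin n) ℝ (E n)) :
    ∃ R : ℝ, ZSpan.fundamentalDomain b ⊆ Metric.closedBall 0 R :=
  (ZSpan.fundamentalDomain_isBounded b).subset_closedBall 0

private theorem ibpp_pd (v : E n) {f : E n → ℝ} {a : Fin n}
    (hf : ∀ x, f (x + v) = f x) (x : E n) : pd a f (x + v) = pd a f x := by
  unfold pd
  have h : (fun y => f (y + v)) = f := by
    funext y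
    exact hf y
  conv_rhs => rw [← h]
  rw [fderiv_comp_add_right]

theorem per_translate (b : Module.Basis (Fin n) ℝ (E n)) {f : E n → ℝ}
    (hf : ∀ v ∈ Lat b, ∀ x, f (x + v) = f x) (v : E n) :
    ∫ x in ZSpan.fundamentalDomain b, f (x + v) = ∫ x in ZSpan.fundamentalDomain b, f x := by
  have hc : VAddCommClass (E n) (Submodule.span ℤ (Set.range b)) (E n) := by
    refine ⟨fun g l x => ?_⟩
    change g + ((l : E n) + x) = (l : E n) + (g + x)
    abel
  have hi : VAddInvariantMeasure (Submodule.span ℤ (Set.range b)) (E n) (volume : Measure (E n)) := by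
    refine ⟨fun l s _ => ?_⟩
    exact measure_preimage_add (volume : Measure (E n)) (l : E n) s
  have h0 := ZSpan.isAddFundamentalDomain b (volume : Measure (E n))
  have h1 := (h0.vadd_of_comm v).setIntegral_eq h0 (f := f) (by
    intro g x
    change f ((g : E n) + x) = f x
    rw [add_comm]
    exact hf g g.2 x)
  rw [← h1]
  have h2 := (measurePreserving_add_left (volume : Measure (E n)) v).setIntegral_image_emb
    (MeasurableEquiv.addLeft v).measurableEmbedding f (ZSpan.fundamentalDomain b)
  have h3 : (v +ᵥ ZSpan.fundamentalDomain b : Set (E n)) =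
      (fun x => v + x) '' ZSpan.fundamentalDomain b := rfl
  rw [h3, h2]
  simp only [add_comm]

theorem integrableOn_fd (b : Module.Basis (Fin n) ℝ (E n)) {f : E n → ℝ} (hf : Continuous f) :
    IntegrableOn f (ZSpan.fundamentalDomain b) := by
  obtain ⟨R, hR⟩ := ibpp_ball b
  exact (hf.continuousOn.integrableOn_compact (isCompact_closedBall 0 R)).mono_set hR

theorem per_bounded (b : Module.Basis (Fin n) ℝ (E n)) {f : E n → ℝ} (hc : Continuous f)
    (hf : ∀ v ∈ Lat b, ∀ x, f (x + v) = f x) : ∃ K : ℝ, ∀ x, |f x| ≤ K := by
  obtain ⟨R, hR⟩ := ibpp_ball b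
  obtain ⟨K, hK⟩ := (isCompact_closedBall (0 : E n) R).exists_bound_of_continuousOn hc.continuousOn
  refine ⟨K, fun x => ?_⟩
  have h1 : x = ZSpan.fract b x + (ZSpan.floor b x : E n) := by
    rw [ZSpan.fract_apply]
    abel
  have h2 := hf (ZSpan.floor b x : E n) (ZSpan.floor b x).2 (ZSpan.fract b x)
  rw [← h1] at h2
  rw [h2, ← Real.norm_eq_abs]
  exact hK _ (hR (ZSpan.fract_mem_fundamentalDomain b x))

theorem per_integral_pd (b : Module.Basis (Fin n) ℝ (E n)) {f : E n → ℝ}
    (hc : ContDiff ℝ 1 f) (hf : ∀ v ∈ Lat b, ∀ x, f (x + v) = f x) (a : Fin n) :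
    ∫ x in ZSpan.fundamentalDomain b, pd a f x = 0 := by
  have hpc : Continuous (pd a f) := by
    have h1 : Continuous (fderiv ℝ f) := hc.continuous_fderiv (by norm_num)
    exact h1.clm_apply continuous_const
  obtain ⟨K, hK⟩ := per_bounded b hpc (fun v hv x => ibpp_pd v (fun y => hf v hv y) x)
  have hfc : Continuous f := hc.continuous
  have hfin : volume (ZSpan.fundamentalDomain b) < ⊤ := (ZSpan.fundamentalDomain_isBounded b).measure_lt_top
  have hmain := hasDerivAt_integral_of_dominated_loc_of_deriv_le
    (μ := (volume : Measure (E n)).restrict (ZSpan.fundamentalDomain b))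
    (F := fun (t : ℝ) (x : E n) => f (x + t • EuclideanSpace.single a (1 : ℝ)))
    (F' := fun (t : ℝ) (x : E n) => pd a f (x + t • EuclideanSpace.single a (1 : ℝ)))
    (x₀ := (0 : ℝ)) (s := Set.univ) (bound := fun _ => K) Filter.univ_mem
    (Filter.Eventually.of_forall fun t =>
      (hfc.comp (continuous_id.add continuous_const)).aestronglyMeasurable)
    (by
      have h1 : Continuous fun x : E n => f (x + (0 : ℝ) • EuclideanSpace.single a (1 : ℝ)) :=
        hfc.comp (continuous_id.add continuous_const)
      exact integrableOn_fd b h1)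
    ((hpc.comp (continuous_id.add continuous_const)).aestronglyMeasurable)
    (Filter.Eventually.of_forall fun x t _ => by
      rw [Real.norm_eq_abs]
      exact hK _)
    (by
      have : IntegrableOn (fun _ : E n => K) (ZSpan.fundamentalDomain b) :=
        integrableOn_const hfin.ne
      exact this)
    (Filter.Eventually.of_forall fun x t _ => by
      have h1 : HasFDerivAt f (fderiv ℝ f (x + t • EuclideanSpace.single a (1 : ℝ)))
          (x + t • EuclideanSpace.single a (1 : ℝ)) :=
        (hc.differentiable (by norm_num) _).hasFDerivAt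
      have h2 : HasDerivAt (fun s : ℝ => x + s • (EuclideanSpace.single a (1 : ℝ) : E n))
          (EuclideanSpace.single a (1 : ℝ)) t := by
        have h3 := (hasDerivAt_id t).smul_const (EuclideanSpace.single a (1 : ℝ) : E n)
        rw [one_smul] at h3
        exact h3.const_add x
      exact h1.comp_hasDerivAt t h2)
  have h1 := hmain.2
  have h2 : (fun t : ℝ => ∫ x in ZSpan.fundamentalDomain b,
      f (x + t • EuclideanSpace.single a (1 : ℝ))) =
      fun _ => ∫ x in ZSpan.fundamentalDomain b, f x := by
    funext t
    exact per_translate b hf _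
  rw [h2] at h1
  have h3 := h1.unique (hasDerivAt_const (0 : ℝ) _)
  simpa using h3

end H68.CF
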