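import Pool.Agent.H68.CF.Defs

/-!
# [H68 CF ZeroDer] Lipschitz maps with derivative zero almost everywhere are constant

Let `N` be the null set where the derivative is not zero. Fix `z`. By Fubini, for a.e. `x` the set
`{t ∈ [0,1] | x + t z ∈ N}` is null (the set `{(x,t) | x + t z ∈ N}` is null in the product: for each
`t` the slice is a translate of `N`; use a measurable null superset `toMeasurable`). For
such `x` the Lipschitz function `t ↦ P(x + t z)` (coordinates) has derivative `0` a.e. on `[0,1]`,
so `P(x + z) = P(x)` (`LipschitzOnWith.absolutelyContinuousOnInterval`,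
`AbsolutelyContinuousOnInterval.integral_deriv_eq_sub`). Both sides are continuous in `x`, so this
holds for all `x` (a.e. sets are dense).
-/

open MeasureTheory Set Filter Topology Matrix Polynomial
open scoped ContDiff NNReal

noncomputable section

namespace H68.CF

variable {n : ℕ}

/-- along almost every line in the direction `z` almost all points satisfy `Q` -/
private theorem zder_fubini {Q : E n → Prop} (hQ : ∀ᵐ x, Q x) (z : E n) :
    ∀ᵐ y : E n, ∀ᵐ t : ℝ, Q (y + t • z) := by
  obtain ⟨N, hN⟩ : ∃ N : Set (E n), N = toMeasurable volume {x | ¬ Q x} := ⟨_, rfl⟩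
  have hNm : MeasurableSet N := by
    rw [hN]
    exact measurableSet_toMeasurable _ _
  have hN0 : volume N = 0 := by
    rw [hN, measure_toMeasurable]
    exact hQ
  have hNQ : ∀ x, x ∉ N → Q x := by
    intro x hx
    by_contra h
    apply hx
    rw [hN]
    exact subset_toMeasurable _ _ h
  have h1 : ∀ t : ℝ, ∀ᵐ y : E n, y + t • z ∉ N := by
    intro t
    rw [ae_iff]
    have h2 : {y : E n | ¬ y + t • z ∉ N} = (fun y => y + t • z) ⁻¹' N := by
      ext y
      simp
    rw [h2, measure_preimage_add_right]
    exact hN0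
  have hm : MeasurableSet {p : E n × ℝ | p.1 + p.2 • z ∉ N} := by
    have hc : Continuous fun p : E n × ℝ => p.1 + p.2 • z :=
      continuous_fst.add (continuous_snd.smul continuous_const)
    exact (hc.measurable hNm).compl
  have h3 := (Measure.ae_ae_comm (μ := (volume : Measure (E n))) (ν := (volume : Measure ℝ))
    (p := fun y t => y + t • z ∉ N) hm).2 (Filter.Eventually.of_forall h1)
  filter_upwards [h3] with y hy
  filter_upwards [hy] with t ht
  exact hNQ _ ht

private theorem zder_line {P : E n → E n} {L : ℝ≥0} (hP : LipschitzWith L P) {y z : E n}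
    (h : ∀ᵐ t : ℝ, HasFDerivAt P (0 : E n →L[ℝ] E n) (y + t • z)) : P (y + z) = P y := by
  ext j
  have hd : ∀ᵐ t : ℝ, HasDerivAt (fun t : ℝ => (P (y + t • z)) j) 0 t := by
    filter_upwards [h] with t ht
    have h2 : HasDerivAt (fun s : ℝ => y + s • z) z t := by
      have h3 := (hasDerivAt_id t).smul_const z
      rw [one_smul] at h3
      exact h3.const_add y
    have h4 := ht.comp_hasDerivAt t h2
    have h5 := (EuclideanSpace.proj j : E n →L[ℝ] ℝ).hasFDerivAt.comp_hasDerivAt t h4
    have h6 : HasDerivAt (fun t : ℝ => (P (y + t • z)) j)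
        ((EuclideanSpace.proj j : E n →L[ℝ] ℝ) ((0 : E n →L[ℝ] E n) z)) t := h5
    have h7 : (EuclideanSpace.proj j : E n →L[ℝ] ℝ) ((0 : E n →L[ℝ] E n) z) = 0 := by simp
    rw [h7] at h6
    exact h6
  have hl : LipschitzWith (L * ‖z‖₊) (fun t : ℝ => (P (y + t • z)) j) := by
    refine LipschitzWith.of_dist_le_mul fun s t => ?_
    have h1 : dist ((P (y + s • z)) j) ((P (y + t • z)) j) ≤ dist (P (y + s • z)) (P (y + t • z)) := by
      rw [dist_eq_norm, dist_eq_norm]
      have := EuclideanSpace.norm_eq (P (y + s • z) - P (y + t • z))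
      have h2 := PiLp.norm_apply_le (P (y + s • z) - P (y + t • z)) j
      simpa using h2
    have h2 := hP.dist_le_mul (y + s • z) (y + t • z)
    have h3 : dist (y + s • z) (y + t • z) = ‖z‖ * dist s t := by
      rw [dist_add_left, dist_eq_norm, ← sub_smul, norm_smul, ← dist_eq_norm, mul_comm]
    rw [h3] at h2
    push_cast
    calc dist ((P (y + s • z)) j) ((P (y + t • z)) j) ≤ _ := h1
      _ ≤ _ := h2
      _ = _ := by ring
  have hac : AbsolutelyContinuousOnInterval (fun t : ℝ => (P (y + t • z)) j) 0 1 :=
    (hl.lipschitzOnWith (s := uIcc 0 1)).absolutelyContinuousOnInterval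
  have h6 := hac.integral_deriv_eq_sub
  have h7 : ∫ t in (0 : ℝ)..1, deriv (fun t : ℝ => (P (y + t • z)) j) t = 0 := by
    rw [intervalIntegral.integral_zero_ae]
    filter_upwards [hd] with t ht _
    exact ht.deriv
  rw [h7] at h6
  simp only [one_smul, zero_smul, add_zero] at h6
  linarith

theorem zero_der {P : E n → E n} {L : ℝ≥0} (hP : LipschitzWith L P)
    (h : ∀ᵐ x : E n, HasFDerivAt P (0 : E n →L[ℝ] E n) x) (x : E n) : P x = P 0 := by
  have h1 : (fun y => P (y + x)) =ᵐ[volume] P := by
    filter_upwards [zder_fubini h x] with y hy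
    exact zder_line hP hy
  have h2 : (fun y => P (y + x)) = P := by
    refine ((hP.continuous.comp (continuous_id.add continuous_const)).ae_eq_iff_eq volume
      hP.continuous).1 h1
  have h3 := congrFun h2 0
  simpa using h3

end H68.CF
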