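import Pool.Agent.H68.CF.HsB
import Pool.Agent.H68.CF.ZeroDer

/-!
# [H68 CF Rigid] Rigidity

Write `hs A = ∑ A_ij²`, `r = (V'/V)^{2/n}`. `hs_bound` for `F` and for `G` (roles exchanged):
`hs A ≤ n r`, `hs B ≤ n / r`. `B (A v) = v` for `v ∈ Lat b` (`G (F x + A v) = x + B (A v)` and
`G (F (x + v)) = x + v`), so `B A = 1` (the basis `b` lies in `Lat b`), and
`n = tr (B A) = ∑_ij A_ij B_ji ≤ √(hs A) √(hs B)` (Cauchy-Schwarz; expand
`(B (A e_i))_i = ∑_j (A e_i)_j (B e_j)_i`). So `n² ≤ hs A · n / r`, `hs A ≥ n r`, and `hs_bound`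
gives `∫_FD ∑ (D_ij - A_ij)² ≤ 0`: `fderiv F = A` a.e. on `FD`, hence a.e. (periodicity of
`fderiv F`, `ae_of_ae_fd`). By `zero_der` for `P = F - A` (differentiable a.e. with derivative
`0`), `F x = A x + F 0`. At a point `x` where `hconf` holds, `A = fderiv F x` satisfies
`‖A u‖ = lam ‖u‖` (such a point exists, `volume ≠ 0`), and `conf_form` gives `U`.
-/

open MeasureTheory Set Filter Topology Matrix Polynomial
open scoped ContDiff NNReal

noncomputable section

namespace H68.CF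

variable {n : ℕ}

private theorem rigid_abs_le (v : E n) (j : Fin n) : |v j| ≤ ‖v‖ := by
  have h := EuclideanSpace.norm_eq v
  rw [h]
  apply Real.abs_le_sqrt
  have h1 : ∀ i ∈ (Finset.univ : Finset (Fin n)), 0 ≤ ‖v i‖ ^ 2 := fun i _ => sq_nonneg _
  have h2 := Finset.single_le_sum h1 (Finset.mem_univ j)
  rwa [Real.norm_eq_abs, sq_abs] at h2

private theorem rigid_expand (A : E n →L[ℝ] E n) (v : E n) :
    A v = ∑ j, v j • A (EuclideanSpace.single j 1) := by
  have h : v = ∑ j, v j • (EuclideanSpace.single j (1 : ℝ) : E n) := by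
    ext k
    simp [Finset.sum_apply, Pi.single_apply]
  conv_lhs => rw [h]
  rw [map_sum]
  exact Finset.sum_congr rfl fun j _ => by rw [map_smul]

private theorem rigid_ext {A D : E n →L[ℝ] E n}
    (h : ∀ i, A (EuclideanSpace.single i 1) = D (EuclideanSpace.single i 1)) : A = D := by
  ext1 v
  rw [rigid_expand A v, rigid_expand D v]
  exact Finset.sum_congr rfl fun j _ => by rw [h j]

/-- the inequality of Cauchy and Schwarz for the traces -/
private theorem rigid_cs {A B : E n →L[ℝ] E n} (h : ∀ v, B (A v) = v) :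
    (n : ℝ) ^ 2 ≤ (∑ i, ∑ j, ((A (EuclideanSpace.single i 1)) j) ^ 2) *
      ∑ i, ∑ j, ((B (EuclideanSpace.single i 1)) j) ^ 2 := by
  have h1 : ∀ i : Fin n, ∑ j, (A (EuclideanSpace.single i 1)) j *
      (B (EuclideanSpace.single j 1)) i = 1 := by
    intro i
    have h2 := h (EuclideanSpace.single i 1)
    rw [rigid_expand B] at h2
    have h3 := congrArg (fun v : E n => v i) h2
    simpa [Finset.sum_apply] using h3
  have h4 : ∑ p ∈ (Finset.univ : Finset (Fin n)) ×ˢ (Finset.univ : Finset (Fin n)),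
      (A (EuclideanSpace.single p.1 1)) p.2 * (B (EuclideanSpace.single p.2 1)) p.1 = n := by
    rw [Finset.sum_product]
    simp only [h1]
    simp
  have h5 := Finset.sum_mul_sq_le_sq_mul_sq
    ((Finset.univ : Finset (Fin n)) ×ˢ (Finset.univ : Finset (Fin n)))
    (fun p => (A (EuclideanSpace.single p.1 1)) p.2)
    (fun p => (B (EuclideanSpace.single p.2 1)) p.1)
  rw [h4, Finset.sum_product, Finset.sum_product_right] at h5
  exact h5

theorem rigid (hn : 2 ≤ n) (b b' : Module.Basis (Fin n) ℝ (E n)) {F G : E n → E n}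
    {L L' : ℝ≥0} (hF : LipschitzWith L F) (hG : LipschitzWith L' G) (hGF : ∀ x, G (F x) = x)
    (hFG : ∀ x, F (G x) = x) {A B : E n →L[ℝ] E n}
    (hA : ∀ v ∈ Lat b, A v ∈ Lat b' ∧ ∀ x, F (x + v) = F x + A v)
    (hB : ∀ v ∈ Lat b', B v ∈ Lat b ∧ ∀ x, G (x + v) = G x + B v)
    (hconf : ∀ᵐ x : E n, ∃ (D : E n →L[ℝ] E n) (lam : ℝ), HasFDerivAt F D x ∧ 0 < lam ∧
      ∀ u : E n, ‖D u‖ = lam * ‖u‖)
    (hconf' : ∀ᵐ x : E n, ∃ (D : E n →L[ℝ] E n) (lam : ℝ), HasFDerivAt G D x ∧ 0 < lam ∧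
      ∀ u : E n, ‖D u‖ = lam * ‖u‖) :
    ∃ (lam : ℝ) (U : E n ≃ₗᵢ[ℝ] E n), 0 < lam ∧ ∀ x, F x = lam • U x + F 0 := by
  have hn0 : (0 : ℝ) < n := by
    have : 0 < n := by omega
    exact_mod_cast this
  obtain ⟨hV, _⟩ := fd_pos b
  obtain ⟨hV', _⟩ := fd_pos b'
  have hbF := hs_bound hn b b' hF hG hGF hFG hA hB hconf
  have hbG := hs_bound hn b' b hG hF hFG hGF hB hA hconf'
  set V : ℝ := (volume (ZSpan.fundamentalDomain b)).toReal with hVdef
  set V' : ℝ := (volume (ZSpan.fundamentalDomain b')).toReal with hV'def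
  set hsA : ℝ := ∑ i, ∑ j, ((A (EuclideanSpace.single i 1)) j) ^ 2 with hhsA
  set hsB : ℝ := ∑ i, ∑ j, ((B (EuclideanSpace.single i 1)) j) ^ 2 with hhsB
  set r : ℝ := (V' / V) ^ (2 / (n : ℝ)) with hr
  have hr0 : 0 < r := Real.rpow_pos_of_pos (div_pos hV' hV) _
  have hr' : (V / V') ^ (2 / (n : ℝ)) = r⁻¹ := by
    rw [hr, ← Real.inv_rpow (div_pos hV' hV).le, inv_div]
  rw [hr'] at hbG
  have hI0 : 0 ≤ ∫ x in ZSpan.fundamentalDomain b, ∑ i, ∑ j,
        ((fderiv ℝ F x (EuclideanSpace.single i 1)) j - (A (EuclideanSpace.single i 1)) j) ^ 2 :=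
    integral_nonneg fun x => Finset.sum_nonneg fun i _ => Finset.sum_nonneg fun j _ => sq_nonneg _
  have hJ0 : 0 ≤ ∫ x in ZSpan.fundamentalDomain b', ∑ i, ∑ j,
        ((fderiv ℝ G x (EuclideanSpace.single i 1)) j - (B (EuclideanSpace.single i 1)) j) ^ 2 :=
    integral_nonneg fun x => Finset.sum_nonneg fun i _ => Finset.sum_nonneg fun j _ => sq_nonneg _
  have hsB_le : hsB ≤ n * r⁻¹ := by
    have h1 : V' * hsB ≤ V' * (n * r⁻¹) := by linarith
    exact le_of_mul_le_mul_left h1 hV'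
  have hBA : ∀ v, B (A v) = v := by
    have h1 : (B.comp A : E n →L[ℝ] E n).toLinearMap = LinearMap.id := by
      apply b.ext
      intro i
      have hbi : b i ∈ Lat b := Submodule.subset_span ⟨i, rfl⟩
      have h2 := (hA _ hbi).2 0
      have h3 := (hB _ (hA _ hbi).1).2 (F 0)
      rw [← h2, hGF, hGF] at h3
      have h4 : B (A (b i)) = b i := by
        have : (0 : E n) + b i = 0 + B (A (b i)) := h3
        rw [zero_add, zero_add] at this
        exact this.symm
      exact h4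
    intro v
    exact congrArg (fun f : E n →ₗ[ℝ] E n => f v) h1
  have hcs := rigid_cs hBA
  rw [← hhsA, ← hhsB] at hcs
  have hsA0 : 0 ≤ hsA :=
    Finset.sum_nonneg fun i _ => Finset.sum_nonneg fun j _ => sq_nonneg _
  have hsA_ge : n * r ≤ hsA := by
    have h1 : (n : ℝ) ^ 2 ≤ hsA * (n * r⁻¹) := hcs.trans (mul_le_mul_of_nonneg_left hsB_le hsA0)
    have h2 : n * (n * r) ≤ n * hsA := by
      calc n * (n * r) = (n : ℝ) ^ 2 * r := by ring
        _ ≤ hsA * (n * r⁻¹) * r := mul_le_mul_of_nonneg_right h1 hr0.le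
        _ = n * hsA * (r⁻¹ * r) := by ring
        _ = n * hsA := by rw [inv_mul_cancel₀ hr0.ne', mul_one]
    exact le_of_mul_le_mul_left h2 hn0
  have hI : ∫ x in ZSpan.fundamentalDomain b, ∑ i, ∑ j,
        ((fderiv ℝ F x (EuclideanSpace.single i 1)) j - (A (EuclideanSpace.single i 1)) j) ^ 2 =
      0 := by
    have h1 : V * (n * r) ≤ V * hsA := mul_le_mul_of_nonneg_left hsA_ge hV.le
    linarith
  -- the derivative is constant
  have hmeas : ∀ i j : Fin n, Measurable fun x =>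
      ((fderiv ℝ F x (EuclideanSpace.single i 1)) j - (A (EuclideanSpace.single i 1)) j) ^ 2 := by
    intro i j
    have h1 : Measurable fun x => fderiv ℝ F x (EuclideanSpace.single i 1) :=
      measurable_fderiv_apply_const ℝ F _
    have h2 : Continuous fun v : E n => v j := by fun_prop
    exact ((h2.measurable.comp h1).sub_const _).pow_const 2
  have hint : IntegrableOn (fun x => ∑ i, ∑ j,
      ((fderiv ℝ F x (EuclideanSpace.single i 1)) j - (A (EuclideanSpace.single i 1)) j) ^ 2)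
      (ZSpan.fundamentalDomain b) := by
    have hfin : volume (ZSpan.fundamentalDomain b) < ⊤ :=
      lt_top_iff_ne_top.2 (fd_pos b).2
    refine integrable_finsetSum _ fun i _ => integrable_finsetSum _ fun j _ => ?_
    refine Measure.integrableOn_of_bounded (M := ((L : ℝ) + ‖A‖) ^ 2) hfin.ne
      (hmeas i j).aestronglyMeasurable ?_
    refine ae_of_all _ fun x => ?_
    rw [Real.norm_eq_abs, abs_of_nonneg (sq_nonneg _), ← sq_abs]
    apply pow_le_pow_left₀ (abs_nonneg _)
    have hone : ‖(EuclideanSpace.single i (1 : ℝ) : E n)‖ = 1 := by simp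
    have h1 : |(fderiv ℝ F x (EuclideanSpace.single i 1)) j| ≤ L := by
      refine (rigid_abs_le _ j).trans ?_
      refine (ContinuousLinearMap.le_opNorm _ _).trans ?_
      rw [hone, mul_one]
      exact norm_fderiv_le_of_lipschitz ℝ hF
    have h2 : |(A (EuclideanSpace.single i 1)) j| ≤ ‖A‖ := by
      refine (rigid_abs_le _ j).trans ?_
      refine (ContinuousLinearMap.le_opNorm _ _).trans ?_
      rw [hone, mul_one]
    exact (abs_sub _ _).trans (add_le_add h1 h2)
  have hae : ∀ᵐ x ∂(volume.restrict (ZSpan.fundamentalDomain b)), fderiv ℝ F x = A := by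
    have h1 := (integral_eq_zero_iff_of_nonneg (fun x => Finset.sum_nonneg fun i _ =>
      Finset.sum_nonneg fun j _ => sq_nonneg _) hint).1 hI
    filter_upwards [h1] with x hx
    apply rigid_ext
    intro i
    ext j
    have h2 : ∑ i, ∑ j, ((fderiv ℝ F x (EuclideanSpace.single i 1)) j -
        (A (EuclideanSpace.single i 1)) j) ^ 2 = 0 := hx
    rw [Finset.sum_eq_zero_iff_of_nonneg (fun i _ => Finset.sum_nonneg fun j _ => sq_nonneg _)]
      at h2
    have h3 := h2 i (Finset.mem_univ i)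
    rw [Finset.sum_eq_zero_iff_of_nonneg (fun j _ => sq_nonneg _)] at h3
    have h4 := h3 j (Finset.mem_univ j)
    have h5 := pow_eq_zero_iff (two_ne_zero) |>.1 h4
    exact sub_eq_zero.1 h5
  have hae2 : ∀ᵐ x : E n, fderiv ℝ F x = A := by
    refine ae_of_ae_fd b ?_ hae
    intro v hv x hx
    have h1 : (fun y => F (y + v)) = fun y => F y + A v := by
      funext y
      exact (hA v hv).2 y
    have h2 : fderiv ℝ (fun y => F (y + v)) x = fderiv ℝ F (x + v) := fderiv_comp_add_right v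
    rw [← h2, h1, fderiv_add_const]
    exact hx
  have hder : ∀ᵐ x : E n, HasFDerivAt F A x := by
    filter_upwards [hae2, hconf] with x h1 h2
    obtain ⟨D, lam, hD, _⟩ := h2
    rw [hD.fderiv] at h1
    rwa [h1] at hD
  have hP : LipschitzWith (L + ‖A‖₊) (fun x => F x - A x) := hF.sub A.lipschitz
  have hP0 : ∀ᵐ x : E n, HasFDerivAt (fun x => F x - A x) (0 : E n →L[ℝ] E n) x := by
    filter_upwards [hder] with x hx
    have h1 := hx.sub A.hasFDerivAt (x := x)
    rwa [sub_self] at h1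
  have hFx : ∀ x, F x = A x + F 0 := by
    intro x
    have h1 := zero_der hP hP0 x
    simp only [map_zero, sub_zero] at h1
    rw [← h1]
    abel
  obtain ⟨x, hx1, D, lam, hD, hlam, hnorm⟩ := (hder.and hconf).exists
  have hDA : D = A := hD.unique hx1
  rw [hDA] at hnorm
  obtain ⟨U, hU⟩ := conf_form hlam hnorm
  refine ⟨lam, U, hlam, fun y => ?_⟩
  rw [hFx y, hU y]

end H68.CF
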