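import Pool.Agent.H68.CF.LiftB
import Pool.Agent.H68.CF.AeConf
import Pool.Agent.H68.CF.Rigid

/-!
# [H68 CF LimUniq] Uniqueness of the limit data

`lift_pair` gives `F`, `G`; `ae_conf` for `F` and for `G` (roles exchanged); `rigid` gives
`F x = lam • U x + a`, `a = F 0`. Lattices: for `v ∈ Lat b`, `F (x+v) - F x = lam • U v = A v ∈ Lat b'`;
conversely if `v' = lam • U v ∈ Lat b'` then `x + v = G (F (x + v)) = G (F x + v') = x + B v'`, so
`v = B v' ∈ Lat b`. Finally at a.e. `x` the derivative `D` of `F` at `x` is `lam U`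
(`HasFDerivAt.unique`), so `lam ‖u‖ = (w'(F x)/w x) ‖u‖` for some `u ≠ 0` (`n ≥ 2`), i.e.
`w' (F x) = lam w x`.
-/

open MeasureTheory Set Filter Topology Matrix Polynomial
open scoped ContDiff NNReal

noncomputable section

namespace H68.CF

variable {n : ℕ} {X : Type} [MetricSpace X] {b b' : Module.Basis (Fin n) ℝ (E n)}
  {c M c' M' : ℝ} {p p' : E n → X} {w w' : E n → ℝ}

theorem lim_unique (hn : 2 ≤ n) (h : LimData b c M p w) (h' : LimData b' c' M' p' w') :
    ∃ (lam : ℝ) (U : E n ≃ₗᵢ[ℝ] E n) (a : E n), 0 < lam ∧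
      (∀ v, v ∈ Lat b ↔ lam • U v ∈ Lat b') ∧
      ∀ᵐ x : E n, w' (lam • U x + a) = lam * w x := by
  obtain ⟨F, G, ⟨L, hF⟩, ⟨L', hG⟩, hGF, hFG, hp, hp', ⟨A, hA⟩, ⟨B, hB⟩⟩ := lift_pair h h'
  have hc := ae_conf h h' hF hG hGF hFG hp
  have hc' := ae_conf h' h hG hF hFG hGF hp'
  have hwpos : ∀ x, 0 < w x := fun x => lt_of_lt_of_le h.cpos (h.wlow x)
  have hwpos' : ∀ x, 0 < w' x := fun x => lt_of_lt_of_le h'.cpos (h'.wlow x)
  obtain ⟨lam, U, hlam, hFx⟩ := rigid hn b b' hF hG hGF hFG hA hB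
    (by
      filter_upwards [hc] with x hx
      obtain ⟨D, hD, hDu⟩ := hx
      exact ⟨D, _, hD, div_pos (hwpos' _) (hwpos _), hDu⟩)
    (by
      filter_upwards [hc'] with x hx
      obtain ⟨D, hD, hDu⟩ := hx
      exact ⟨D, _, hD, div_pos (hwpos _) (hwpos' _), hDu⟩)
  refine ⟨lam, U, F 0, hlam, fun v => ⟨fun hv => ?_, fun hv => ?_⟩, ?_⟩
  · obtain ⟨h1, h2⟩ := hA v hv
    have h3 := h2 0
    rw [zero_add, hFx v, add_comm] at h3
    rw [add_left_cancel h3]
    exact h1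
  · obtain ⟨h1, h2⟩ := hB _ hv
    have h3 := h2 (F 0)
    rw [hGF, zero_add, add_comm, ← hFx v, hGF] at h3
    rw [h3]
    exact h1
  · filter_upwards [hc] with x hx
    obtain ⟨D, hD, hDu⟩ := hx
    have hFD : HasFDerivAt F (lam • (U.toContinuousLinearEquiv : E n →L[ℝ] E n)) x := by
      have h1 : HasFDerivAt (fun y => U y) (U.toContinuousLinearEquiv : E n →L[ℝ] E n) x :=
        U.toContinuousLinearEquiv.hasFDerivAt
      have h2 : F = fun y => lam • U y + F 0 := funext hFx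
      rw [h2]
      exact (h1.const_smul lam).add_const (F 0)
    have hDe := hD.unique hFD
    have h0 : 0 < n := by omega
    set u : E n := EuclideanSpace.single (⟨0, h0⟩ : Fin n) (1 : ℝ) with hu
    have hu1 : ‖u‖ = 1 := by
      rw [hu, EuclideanSpace.norm_single, norm_one]
    have h1 := hDu u
    have h2 : D u = lam • U u := by
      rw [hDe]
      rfl
    rw [h2, norm_smul, LinearIsometryEquiv.norm_map, hu1, mul_one, mul_one, Real.norm_eq_abs,
      abs_of_pos hlam, eq_div_iff (hwpos x).ne'] at h1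
    rw [← hFx x, h1]

end H68.CF
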