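import Pool.Agent.H68.CF.RiemB
import Pool.Agent.H68.CF.ClsBasic

/-!
# [H68 CF SecPair] The curvature condition gives the class `Cls`

* `pair_of_sec`: for orthonormal `u, v` the condition `SecGe (conf w) κ` reads (`riem_conf`,
  `kn_form`, `conf w x i j = w⁻² δ_ij`)
  `κ w⁻⁴ ≤ w⁻⁴ (P(u,u) + P(v,v))`, `P = w D²w - (Z/2)`, i.e.
  `κ + Z ≤ w D²w(u,u) + w D²w(v,v)`.
* `cls_of_sec`: divide by `w`: `D²w(u,u) + D²w(v,v) ≥ (Z + κ)/w ≥ Z/M - K/c` with
  `K = max (-κ) 0`, and `2 C0 = K/c`, `2 θ = 1/M` (`Z ≥ 0`; `0 < c ≤ w ≤ M`).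
* `trace_ge`: sum the pair inequality over all pairs of standard basis vectors `e_i, e_j`,
  `i ≠ j`: `2 (n-1) tr A ≥ 2 n (n-1) s`.
* `laplace_ge`: `tr (D²w) ≥ n (Z + κ)/(2w) ≥ - n K / (2c)`.
-/

open MeasureTheory Set Filter Topology Matrix Polynomial
open scoped ContDiff NNReal

noncomputable section

namespace H68.CF

variable {n : ℕ}

private theorem conf_form (w : E n → ℝ) (x : E n) (u v : Fin n → ℝ) :
    ∑ i, ∑ j, conf w x i j * u i * v j = ((w x) ^ 2)⁻¹ * (u ⬝ᵥ v) := by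
  have h : ∀ i j, conf w x i j = ((w x) ^ 2)⁻¹ * (if i = j then 1 else 0) := by
    intro i j
    unfold conf
    rw [Matrix.smul_apply, Matrix.one_apply, smul_eq_mul]
  simp only [h, mul_ite, mul_one, mul_zero, ite_mul, zero_mul, Finset.sum_ite_eq,
    Finset.mem_univ, if_true]
  rw [dotProduct, Finset.mul_sum]
  refine Finset.sum_congr rfl fun i _ => ?_
  ring

private theorem grad2_nn (w : E n → ℝ) (x : E n) : 0 ≤ grad2 w x :=
  Finset.sum_nonneg fun _ _ => sq_nonneg _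

private theorem quad_smul (c : ℝ) (A : Matrix (Fin n) (Fin n) ℝ) (u : Fin n → ℝ) :
    u ⬝ᵥ ((c • A) *ᵥ u) = c * (u ⬝ᵥ (A *ᵥ u)) := by
  rw [Matrix.smul_mulVec, dotProduct_smul, smul_eq_mul]

private theorem schouten_form (w : E n → ℝ) (x : E n) {u : Fin n → ℝ} (hu : u ⬝ᵥ u = 1) :
    u ⬝ᵥ (schouten w x *ᵥ u) = u ⬝ᵥ ((w x • hess w x) *ᵥ u) - grad2 w x / 2 := by
  unfold schouten
  rw [Matrix.sub_mulVec, dotProduct_sub, quad_smul (grad2 w x / 2), Matrix.one_mulVec, hu,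
    mul_one]

theorem pair_of_sec {w : E n → ℝ} (hw : ContDiff ℝ ∞ w) (hpos : ∀ x, 0 < w x) {κ : ℝ}
    (h : SecGe (conf w) κ) (x : E n) : PairGe (w x • hess w x) ((grad2 w x + κ) / 2) := by
  intro u v hu hv huv
  have h1 := h x u v
  rw [conf_form, conf_form, conf_form, hu, hv, huv] at h1
  have h2 : ∑ i, ∑ j, ∑ k, ∑ l, riem (conf w) i j k l x * u i * v j * u k * v l =
      ((w x) ^ 4)⁻¹ * ∑ i, ∑ j, ∑ k, ∑ l, kn (schouten w x) i j k l * u i * v j * u k * v l := by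
    simp only [Finset.mul_sum]
    refine Finset.sum_congr rfl fun i _ => Finset.sum_congr rfl fun j _ =>
      Finset.sum_congr rfl fun k _ => Finset.sum_congr rfl fun l _ => ?_
    rw [riem_conf hw hpos]
    ring
  rw [h2, kn_form, hu, hv, huv, schouten_form w x hu, schouten_form w x hv] at h1
  have hw4 : 0 < ((w x) ^ 4)⁻¹ := by
    have := hpos x
    positivity
  have h3 : ((w x) ^ 4)⁻¹ * κ ≤ ((w x) ^ 4)⁻¹ * (u ⬝ᵥ ((w x • hess w x) *ᵥ u) +
      v ⬝ᵥ ((w x • hess w x) *ᵥ v) - grad2 w x) := by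
    refine le_trans (le_of_eq ?_) (h1.trans (le_of_eq ?_))
    · have : (((w x) ^ 2)⁻¹ * 1) * (((w x) ^ 2)⁻¹ * 1) = ((w x) ^ 4)⁻¹ := by
        rw [mul_one, ← mul_inv, ← pow_add]
      rw [this]
      ring
    · ring
  have h4 := le_of_mul_le_mul_left h3 hw4
  linarith

theorem cls_of_sec (b : Module.Basis (Fin n) ℝ (E n)) {κ c M : ℝ} (hc : 0 < c)
    (g : ConfFactor b) (hlow : ∀ x, c ≤ g.w x) (hM : ∀ x, g.w x ≤ M)
    (h : SecGe (conf g.w) κ) : Cls b (1 / (2 * M)) (max (-κ) 0 / (2 * c)) c M g.w where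
  smooth := g.smooth
  per := g.per
  lower := hlow
  upper := hM
  pair := by
    intro x u v hu hv huv
    have h1 := pair_of_sec g.smooth g.pos h x u v hu hv huv
    rw [quad_smul, quad_smul] at h1
    have hw0 := g.pos x
    have hwc := hlow x
    have hwM := hM x
    have hM0 : 0 < M := by linarith
    have hK : 0 ≤ max (-κ) 0 := le_max_right _ _
    have hK2 : -κ ≤ max (-κ) 0 := le_max_left _ _
    have hZ := grad2_nn g.w x
    have e : ∀ y : Fin n → ℝ, y ⬝ᵥ y = 1 →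
        y ⬝ᵥ (H68.CF.hc g.w (max (-κ) 0 / (2 * c)) x *ᵥ y) =
          y ⬝ᵥ (hess g.w x *ᵥ y) + max (-κ) 0 / (2 * c) := by
      intro y hy
      unfold H68.CF.hc
      rw [Matrix.add_mulVec, dotProduct_add, quad_smul, Matrix.one_mulVec, hy, mul_one]
    rw [e u hu, e v hv]
    set S := u ⬝ᵥ (hess g.w x *ᵥ u) + v ⬝ᵥ (hess g.w x *ᵥ v) with hS
    have h2 : (grad2 g.w x - max (-κ) 0) / g.w x ≤ S := by
      rw [div_le_iff₀ hw0]
      nlinarith
    have h3 : grad2 g.w x / M ≤ grad2 g.w x / g.w x :=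
      div_le_div_of_nonneg_left hZ hw0 hwM
    have h4 : max (-κ) 0 / g.w x ≤ max (-κ) 0 / c :=
      div_le_div_of_nonneg_left hK hc hwc
    rw [sub_div] at h2
    have h5 : 2 * (1 / (2 * M) * grad2 g.w x) = grad2 g.w x / M := by
      field_simp
    have h6 : max (-κ) 0 / (2 * c) + max (-κ) 0 / (2 * c) = max (-κ) 0 / c := by
      field_simp
      ring
    rw [h5]
    linarith

theorem trace_ge (hn : 2 ≤ n) {A : Matrix (Fin n) (Fin n) ℝ} {s : ℝ} (h : PairGe A s) :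
    (n : ℝ) * s ≤ Matrix.trace A := by
  obtain ⟨m, rfl⟩ : ∃ m, n = m + 2 := ⟨n - 2, by omega⟩
  have h1 : ∀ i j : Fin (m + 2), i ≠ j → 2 * s ≤ A i i + A j j := by
    intro i j hij
    have := h (Pi.single i 1) (Pi.single j 1) (by simp) (by simp) (by simp [hij])
    simpa using this
  have h2 : ∑ i : Fin (m + 2), (2 * s) ≤
      ∑ i : Fin (m + 2), (A i i + A (finRotate (m + 2) i) (finRotate (m + 2) i)) := by
    refine Finset.sum_le_sum fun i _ => h1 i _ ?_
    rw [finRotate_apply]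
    intro hh
    have : (1 : Fin (m + 2)) = 0 := by
      have h3 : i + 0 = i + 1 := by rw [add_zero]; exact hh
      exact (add_left_cancel h3).symm
    simp at this
  rw [Finset.sum_add_distrib, Equiv.sum_comp (finRotate (m + 2)) (fun i => A i i)] at h2
  simp only [Finset.sum_const, Finset.card_univ, Fintype.card_fin, nsmul_eq_mul] at h2
  have e : Matrix.trace A = ∑ i, A i i := rfl
  rw [e]
  linarith

theorem trace_sec (hn : 2 ≤ n) {w : E n → ℝ} (hw : ContDiff ℝ ∞ w) (hpos : ∀ x, 0 < w x)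
    {κ : ℝ} (h : SecGe (conf w) κ) (x : E n) :
    (n : ℝ) * (grad2 w x - max (-κ) 0) / 2 ≤ w x * Matrix.trace (hess w x) := by
  have h1 := trace_ge hn (pair_of_sec hw hpos h x)
  rw [Matrix.trace_smul, smul_eq_mul] at h1
  have hK2 : -κ ≤ max (-κ) 0 := le_max_left _ _
  have h2 : (n : ℝ) * (grad2 w x - max (-κ) 0) ≤ n * (grad2 w x + κ) :=
    mul_le_mul_of_nonneg_left (by linarith) (by positivity)
  linarith

theorem laplace_ge (hn : 2 ≤ n) {w : E n → ℝ} (hw : ContDiff ℝ ∞ w) {κ c : ℝ} (hc : 0 < c)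
    (hlow : ∀ x, c ≤ w x) (h : SecGe (conf w) κ) (x : E n) :
    - ((n : ℝ) * max (-κ) 0 / (2 * c)) ≤ Matrix.trace (hess w x) := by
  have hpos : ∀ x, 0 < w x := fun x => hc.trans_le (hlow x)
  have h1 := trace_sec hn hw hpos h x
  have hZ := grad2_nn w x
  have hw0 := hpos x
  have hK : 0 ≤ max (-κ) 0 := le_max_right _ _
  have h2 : -((n : ℝ) * max (-κ) 0 / (2 * w x)) ≤ Matrix.trace (hess w x) := by
    rw [← neg_div, div_le_iff₀ (by positivity)]
    have h4 : 0 ≤ (n : ℝ) * grad2 w x := by positivity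
    have h5 : (n : ℝ) * (grad2 w x - max (-κ) 0) / 2 =
        ((n : ℝ) * grad2 w x - n * max (-κ) 0) / 2 := by ring
    rw [h5] at h1
    linarith
  have h3 : (n : ℝ) * max (-κ) 0 / (2 * w x) ≤ (n : ℝ) * max (-κ) 0 / (2 * c) :=
    div_le_div_of_nonneg_left (by positivity) (by positivity) (by linarith [hlow x])
  linarith

end H68.CF
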