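import Pool.Agent.H68.CF.PdBasic

/-!
# [H68 CF PerHess] Periodicity of the derived quantities

If `w (x + v) = w x` for all `x` then the same holds for `grad2 w`, `hess w`, `hc w C0`,
`schouten w` (by `pd_per` twice).
-/

open MeasureTheory Set Filter Topology Matrix Polynomial
open scoped ContDiff NNReal

noncomputable section

namespace H68.CF

variable {n : ℕ}

theorem grad2_per {w : E n → ℝ} {v : E n} (h : ∀ x, w (x + v) = w x) (x : E n) :
    grad2 w (x + v) = grad2 w x := by
  unfold grad2
  exact Finset.sum_congr rfl fun i _ => by rw [pd_per h i x]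

theorem hess_per {w : E n → ℝ} {v : E n} (h : ∀ x, w (x + v) = w x) (x : E n) :
    hess w (x + v) = hess w x := by
  ext i j
  exact pd_per (fun y => pd_per h j y) i x

theorem hc_per {w : E n → ℝ} {v : E n} (h : ∀ x, w (x + v) = w x) (C0 : ℝ) (x : E n) :
    hc w C0 (x + v) = hc w C0 x := by
  unfold hc
  rw [hess_per h x]

theorem schouten_per {w : E n → ℝ} {v : E n} (h : ∀ x, w (x + v) = w x) (x : E n) :
    schouten w (x + v) = schouten w x := by
  unfold schouten
  rw [hess_per h x, grad2_per h x, h x]

end H68.CF
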