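import Pool.Agent.H68.CF.SimSch
import Pool.Agent.H68.CF.PerHess

/-!
# [H68 CF SimCls] `Cls` and `VV` under similarities

* `sim_cls`: `hc (sim w) (lam C0) x = lam • (Qᵀ * hc w C0 (T x) * Q)` (`sim_hess`, `simM_orth`); for
  orthonormal `u, v` the vectors `Q u`, `Q v` are orthonormal; `sim_grad2`. Periodicity:
  `T (x + v) = T x + lam • U v`.
* `sim_VV`: `sim_sig`, `(sim w x)^n = w(T x)^n / lam^n`, and `sim_integral` for
  `f = sig k (schouten w ·)/w^n` (`schouten_per`).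
* `sim_l1`: `sim_integral` for `f = |w1 - w2|`.
-/

open MeasureTheory Set Filter Topology Matrix Polynomial
open scoped ContDiff NNReal

noncomputable section

namespace H68.CF

variable {n : ℕ} {b b' : Module.Basis (Fin n) ℝ (E n)}

private theorem simCls_per {lam : ℝ} (U : E n ≃ₗᵢ[ℝ] E n) (a : E n) (x v : E n) :
    lam • U (x + v) + a = (lam • U x + a) + lam • U v := by
  rw [map_add, smul_add]
  abel

private theorem simCls_dot (Q : Matrix (Fin n) (Fin n) ℝ) (u w : Fin n → ℝ) :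
    (Q *ᵥ u) ⬝ᵥ w = u ⬝ᵥ (Qᵀ *ᵥ w) := by
  rw [Matrix.dotProduct_mulVec, Matrix.vecMul_transpose]

private theorem simCls_orth (Q : Matrix (Fin n) (Fin n) ℝ) (hQ : Qᵀ * Q = 1)
    (u v : Fin n → ℝ) : (Q *ᵥ u) ⬝ᵥ (Q *ᵥ v) = u ⬝ᵥ v := by
  rw [simCls_dot, Matrix.mulVec_mulVec, hQ, Matrix.one_mulVec]

private theorem simCls_quad (Q A : Matrix (Fin n) (Fin n) ℝ) (lam : ℝ) (u : Fin n → ℝ) :
    u ⬝ᵥ ((lam • (Qᵀ * A * Q)) *ᵥ u) = lam * ((Q *ᵥ u) ⬝ᵥ (A *ᵥ (Q *ᵥ u))) := by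
  rw [Matrix.smul_mulVec, dotProduct_smul, smul_eq_mul, simCls_dot, ← Matrix.mulVec_mulVec,
    ← Matrix.mulVec_mulVec]

theorem sim_cls {lam : ℝ} (hlam : 0 < lam) (U : E n ≃ₗᵢ[ℝ] E n) (a : E n)
    (hL : ∀ v, v ∈ Lat b ↔ lam • U v ∈ Lat b') {θ C0 c M : ℝ} {w : E n → ℝ}
    (h : Cls b' θ C0 c M w) :
    Cls b (lam * θ) (lam * C0) (c / lam) (M / lam) (sim lam U a w) := by
  refine ⟨sim_smooth hlam U a h.smooth, ?_, ?_, ?_, ?_⟩
  · intro v hv x
    unfold sim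
    rw [simCls_per, h.per _ ((hL v).1 hv)]
  · intro x
    exact div_le_div_of_nonneg_right (h.lower _) hlam.le
  · intro x
    exact div_le_div_of_nonneg_right (h.upper _) hlam.le
  · intro x u v hu hv huv
    obtain ⟨hQ, _⟩ := simM_orth U
    have h1 := h.pair (lam • U x + a) (simM U *ᵥ u) (simM U *ᵥ v)
      (by rw [simCls_orth _ hQ, hu]) (by rw [simCls_orth _ hQ, hv])
      (by rw [simCls_orth _ hQ, huv])
    have h2 : hc (sim lam U a w) (lam * C0) x =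
        lam • ((simM U)ᵀ * hc w C0 (lam • U x + a) * simM U) := by
      unfold hc
      rw [sim_hess hlam U a h.smooth x, Matrix.mul_add, Matrix.add_mul, smul_add]
      congr 1
      rw [Matrix.mul_smul, Matrix.mul_one, Matrix.smul_mul, hQ, smul_smul]
    rw [h2, simCls_quad, simCls_quad, sim_grad2 hlam U a h.smooth x]
    have h3 := mul_le_mul_of_nonneg_left h1 hlam.le
    calc 2 * (lam * θ * grad2 w (lam • U x + a))
        = lam * (2 * (θ * grad2 w (lam • U x + a))) := by ring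
      _ ≤ _ := h3
      _ = _ := by ring

theorem sim_VV {lam : ℝ} (hlam : 0 < lam) (U : E n ≃ₗᵢ[ℝ] E n) (a : E n)
    (hL : ∀ v, v ∈ Lat b ↔ lam • U v ∈ Lat b') {w : E n → ℝ} (hw : ContDiff ℝ ∞ w)
    (hper : ∀ v ∈ Lat b', ∀ x, w (x + v) = w x) (k : ℕ) :
    VV b k (sim lam U a w) = VV b' k w := by
  unfold VV
  have hf : ∀ v ∈ Lat b', ∀ x, sig k (schouten w (x + v)) / (w (x + v)) ^ n =
      sig k (schouten w x) / (w x) ^ n := by
    intro v hv x
    rw [schouten_per (hper v hv) x, hper v hv x]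
  rw [← sim_integral hlam U a hL hf, ← integral_const_mul]
  congr 1
  funext x
  rw [sim_sig hlam U a hw k x]
  unfold sim
  rw [div_pow, div_div_eq_mul_div, mul_comm, mul_div_assoc]

theorem sim_l1 {lam : ℝ} (hlam : 0 < lam) (U : E n ≃ₗᵢ[ℝ] E n) (a : E n)
    (hL : ∀ v, v ∈ Lat b ↔ lam • U v ∈ Lat b') {w1 w2 : E n → ℝ}
    (h1 : ∀ v ∈ Lat b', ∀ x, w1 (x + v) = w1 x) (h2 : ∀ v ∈ Lat b', ∀ x, w2 (x + v) = w2 x) :
    ∫ x in ZSpan.fundamentalDomain b, |sim lam U a w1 x - sim lam U a w2 x| =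
      (1 / lam ^ (n + 1)) * ∫ x in ZSpan.fundamentalDomain b', |w1 x - w2 x| := by
  have hf : ∀ v ∈ Lat b', ∀ x, |w1 (x + v) - w2 (x + v)| = |w1 x - w2 x| := by
    intro v hv x
    rw [h1 v hv x, h2 v hv x]
  rw [← sim_integral hlam U a hL hf]
  have h3 : ∀ x, |sim lam U a w1 x - sim lam U a w2 x| =
      (1 / lam) * |w1 (lam • U x + a) - w2 (lam • U x + a)| := by
    intro x
    unfold sim
    rw [← sub_div, abs_div, abs_of_pos hlam]
    ring
  simp only [h3]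
  rw [integral_const_mul, ← mul_assoc]
  congr 1
  have h4 : lam ≠ 0 := hlam.ne'
  field_simp
  ring

end H68.CF
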