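import Pool.Agent.H68.CF.LimEx
import Pool.Agent.H68.CF.LimUniq
import Pool.Agent.H68.CF.SimCls
import Pool.Agent.H68.CF.ContB
import Pool.Agent.H68.CF.SecPair
import Pool.Agent.H68.CF.FdMeas

/-!
# [H68 CF Key] Two sequences with the same limit

(1) `lim_exists` for `g` gives `φ₁`, `M`, `p`, `w`; `lim_exists` for `g' ∘ φ₁` (still convergent
to `X`) gives `φ₂`, `M'`, `p'`, `w'`. Put `φ = φ₁ ∘ φ₂`; `∫_FD |(g (φ l)).w - w| → 0` (subsequence).
(2) `lim_unique`: `lam`, `U`, `a`. Let `u_l = sim lam U a (g' (φ l)).w`. `w = sim lam U a w'` a.e.,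
so `∫_FD |u_l - w| = ∫_FD |u_l - sim lam U a w'| = lam^{-n-1} ∫_FD' |(g' (φ l)).w - w'| → 0`
(`sim_l1`) and `∫_FD |u_l - (g (φ l)).w| → 0`.
(3) `cls_of_sec`, `sim_cls`, `cls_mono`: `(g (φ l)).w` and `u_l` belong to one class
`Cls b θ C0 c'' M''` (minimum of the `θ`, `c`; maximum of the `C0`, `M`). `VV_holder`:
`|VV b k (g (φ l)).w - VV b k u_l| ≤ K (∫ |..|)^γ → 0`, and `VV b k u_l = VV b' k (g' (φ l)).w`
(`sim_VV`).
`VV_bdd`: along the subsequence of `lim_exists`, all `(g (φ l)).w` are in one class and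
`∫_FD |(g (φ l)).w - (g (φ 0)).w| ≤ M vol FD`; use `VV_holder`.
-/

open MeasureTheory Set Filter Topology Matrix Polynomial
open scoped ContDiff NNReal

noncomputable section

namespace H68.CF

variable {n : ℕ} {b b' : Module.Basis (Fin n) ℝ (E n)}

open GromovHausdorff

theorem fd_finite (b : Module.Basis (Fin n) ℝ (E n)) :
    volume (ZSpan.fundamentalDomain b) ≠ ⊤ := (fd_pos b).2

theorem integrableOn_bdd (b : Module.Basis (Fin n) ℝ (E n)) {f : E n → ℝ} (hf : Measurable f)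
    {K : ℝ} (hK : ∀ x, |f x| ≤ K) : IntegrableOn f (ZSpan.fundamentalDomain b) := by
  refine Measure.integrableOn_of_bounded (fd_finite b) hf.aestronglyMeasurable (M := K) ?_
  exact Filter.Eventually.of_forall fun x => by simpa [Real.norm_eq_abs] using hK x

theorem key (hn : 3 ≤ n) {k : ℕ} (hk1 : 1 ≤ k) (hk : 2 * k + 1 ≤ n) {κ κ' c c' : ℝ}
    (hc : 0 < c) (hc' : 0 < c') (g : ℕ → ConfFactor b) (g' : ℕ → ConfFactor b')
    (hlow : ∀ l x, c ≤ (g l).w x) (hlow' : ∀ l x, c' ≤ (g' l).w x)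
    (hsec : ∀ l, SecGe (conf (g l).w) κ) (hsec' : ∀ l, SecGe (conf (g' l).w) κ')
    {X : GHSpace} (hnt : Nontrivial X.Rep)
    (hX : Tendsto (fun l => toGHSpace (Torus (g l))) atTop (𝓝 X))
    (hX' : Tendsto (fun l => toGHSpace (Torus (g' l))) atTop (𝓝 X)) :
    ∃ φ : ℕ → ℕ, StrictMono φ ∧
      Tendsto (fun l => VV b k (g (φ l)).w - VV b' k (g' (φ l)).w) atTop (𝓝 0) := by
  obtain ⟨φ1, hφ1, M, hM0, hM, p, w, hd, hL⟩ := lim_exists (by omega) hc g hlow hsec hnt hX
  obtain ⟨φ2, hφ2, M', hM0', hM', p', w', hd', hL'⟩ := lim_exists (by omega) hc'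
    (fun l => g' (φ1 l)) (fun l x => hlow' _ x) (fun l => hsec' _) hnt
    (hX'.comp hφ1.tendsto_atTop)
  obtain ⟨lam, U, a, hlam, hLat, hae⟩ := lim_unique (by omega) hd hd'
  have hL2 : Tendsto (fun l => ∫ x in ZSpan.fundamentalDomain b,
      |(g (φ1 (φ2 l))).w x - w x|) atTop (𝓝 0) := hL.comp hφ2.tendsto_atTop
  refine ⟨fun l => φ1 (φ2 l), hφ1.comp hφ2, ?_⟩
  -- the pulled back factors
  set u : ℕ → E n → ℝ := fun l => sim lam U a (g' (φ1 (φ2 l))).w with hu
  have hperw : ∀ v ∈ Lat b', ∀ x, w' (x + v) = w' x := hd'.wper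
  have hLu : Tendsto (fun l => ∫ x in ZSpan.fundamentalDomain b,
      |u l x - w x|) atTop (𝓝 0) := by
    have h1 : ∀ l, ∫ x in ZSpan.fundamentalDomain b, |u l x - w x| =
        (1 / lam ^ (n + 1)) * ∫ x in ZSpan.fundamentalDomain b', |(g' (φ1 (φ2 l))).w x - w' x| := by
      intro l
      rw [← sim_l1 hlam U a hLat (g' (φ1 (φ2 l))).per hperw]
      refine setIntegral_congr_ae₀ ?_ ?_
      · exact (ZSpan.fundamentalDomain_measurableSet b).nullMeasurableSet
      · filter_upwards [hae] with x hx _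
        have : w x = sim lam U a w' x := by
          unfold sim; rw [hx]; field_simp
        rw [this]
    have h2 : Tendsto (fun l => (1 / lam ^ (n + 1)) * ∫ x in ZSpan.fundamentalDomain b',
        |(g' (φ1 (φ2 l))).w x - w' x|) atTop (𝓝 ((1 / lam ^ (n + 1)) * 0)) := hL'.const_mul _
    rw [mul_zero] at h2
    exact h2.congr fun l => (h1 l).symm
  -- the common class
  have hcl : ∀ l, Cls b (1 / (2 * M)) (max (-κ) 0 / (2 * c)) c M (g (φ1 (φ2 l))).w := fun l =>
    cls_of_sec b hc _ (hlow _) (hM _) (hsec _)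
  have hcl' : ∀ l, Cls b (lam * (1 / (2 * M'))) (lam * (max (-κ') 0 / (2 * c'))) (c' / lam)
      (M' / lam) (u l) := fun l =>
    sim_cls hlam U a hLat (cls_of_sec b' hc' _ (hlow' _) (hM' _) (hsec' _))
  set θ := min (1 / (2 * M)) (lam * (1 / (2 * M')))
  set C0 := max (max (-κ) 0 / (2 * c)) (lam * (max (-κ') 0 / (2 * c')))
  set cc := min c (c' / lam)
  set MM := max M (M' / lam)
  have hθ : 0 < θ := by
    refine lt_min (by positivity) (by positivity)
  have hC0 : 0 ≤ C0 := le_trans (by positivity) (le_max_left _ _)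
  have hcc : 0 < cc := lt_min hc (by positivity)
  have hA : ∀ l, Cls b θ C0 cc MM (g (φ1 (φ2 l))).w := fun l =>
    cls_mono (min_le_left _ _) (le_max_left _ _) (min_le_left _ _) (le_max_left _ _) (hcl l)
  have hB : ∀ l, Cls b θ C0 cc MM (u l) := fun l =>
    cls_mono (min_le_right _ _) (le_max_right _ _) (min_le_right _ _) (le_max_right _ _) (hcl' l)
  obtain ⟨K, γ, hK, hγ, hH⟩ := VV_holder hn b hθ hC0 hcc hk1 hk (M := MM)
  -- L¹ distance
  have hdist : Tendsto (fun l => ∫ x in ZSpan.fundamentalDomain b,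
      |(g (φ1 (φ2 l))).w x - u l x|) atTop (𝓝 0) := by
    have h0 := hL2.add hLu
    rw [add_zero] at h0
    refine squeeze_zero (fun l => integral_nonneg fun x => abs_nonneg _) (fun l => ?_) h0
    have mg : Measurable (g (φ1 (φ2 l))).w := (hA l).smooth.continuous.measurable
    have mu : Measurable (u l) := (hB l).smooth.continuous.measurable
    have mw : Measurable w := hd.meas
    have bg : ∀ x, |(g (φ1 (φ2 l))).w x| ≤ MM := fun x => by
      rw [abs_of_nonneg ((hcc.le).trans ((hA l).lower x))]; exact (hA l).upper x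
    have bu : ∀ x, |u l x| ≤ MM := fun x => by
      rw [abs_of_nonneg ((hcc.le).trans ((hB l).lower x))]; exact (hB l).upper x
    have bw : ∀ x, |w x| ≤ M := fun x => by
      rw [abs_of_nonneg (hc.le.trans (hd.wlow x))]; exact hd.wup x
    have i1 : IntegrableOn (fun x => |(g (φ1 (φ2 l))).w x - w x|)
        (ZSpan.fundamentalDomain b) :=
      (integrableOn_bdd b (mg.sub mw) (K := MM + M) fun x => by
        have := abs_sub (((g (φ1 (φ2 l))).w) x) (w x)
        simp only [Pi.sub_apply]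
        linarith [bg x, bw x]).abs
    have i2 : IntegrableOn (fun x => |u l x - w x|) (ZSpan.fundamentalDomain b) :=
      (integrableOn_bdd b (mu.sub mw) (K := MM + M) fun x => by
        have := abs_sub (u l x) (w x)
        simp only [Pi.sub_apply]
        linarith [bu x, bw x]).abs
    have i3 : IntegrableOn (fun x => |(g (φ1 (φ2 l))).w x - u l x|)
        (ZSpan.fundamentalDomain b) :=
      (integrableOn_bdd b (mg.sub mu) (K := MM + MM) fun x => by
        have := abs_sub (((g (φ1 (φ2 l))).w) x) (u l x)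
        simp only [Pi.sub_apply]
        linarith [bg x, bu x]).abs
    rw [← integral_add i1 i2]
    refine integral_mono i3 (i1.add i2) fun x => ?_
    have h := abs_sub_le ((g (φ1 (φ2 l))).w x) (w x) (u l x)
    rw [abs_sub_comm (u l x) (w x)]
    exact h
  have hfin : Tendsto (fun l => K * (∫ x in ZSpan.fundamentalDomain b,
      |(g (φ1 (φ2 l))).w x - u l x|) ^ γ) atTop (𝓝 0) := by
    have h1 : Tendsto (fun l => (∫ x in ZSpan.fundamentalDomain b,
      |(g (φ1 (φ2 l))).w x - u l x|) ^ γ) atTop (𝓝 ((0 : ℝ) ^ γ)) :=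
      (Real.continuousAt_rpow_const _ _ (Or.inr hγ.le)).tendsto.comp hdist
    rw [Real.zero_rpow hγ.ne'] at h1
    simpa using h1.const_mul K
  refine squeeze_zero_norm (fun l => ?_) hfin
  rw [Real.norm_eq_abs, ← sim_VV hlam U a hLat (g' (φ1 (φ2 l))).smooth (g' (φ1 (φ2 l))).per k]
  exact hH (u l) _ (hB l) (hA l)

theorem VV_bdd (hn : 3 ≤ n) {k : ℕ} (hk1 : 1 ≤ k) (hk : 2 * k + 1 ≤ n) {κ c : ℝ}
    (hc : 0 < c) (g : ℕ → ConfFactor b) (hlow : ∀ l x, c ≤ (g l).w x)
    (hsec : ∀ l, SecGe (conf (g l).w) κ) {X : GHSpace} (hnt : Nontrivial X.Rep)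
    (hX : Tendsto (fun l => toGHSpace (Torus (g l))) atTop (𝓝 X)) :
    ∃ φ : ℕ → ℕ, StrictMono φ ∧ ∃ K : ℝ, ∀ l, |VV b k (g (φ l)).w| ≤ K := by
  obtain ⟨φ1, hφ1, M, hM0, hM, p, w, hd, hL⟩ := lim_exists (by omega) hc g hlow hsec hnt hX
  have hcl : ∀ l, Cls b (1 / (2 * M)) (max (-κ) 0 / (2 * c)) c M (g (φ1 l)).w := fun l =>
    cls_of_sec b hc _ (hlow _) (hM _) (hsec _)
  obtain ⟨K, γ, hK, hγ, hH⟩ := VV_holder hn b (θ := 1 / (2 * M)) (by positivity)
    (C0 := max (-κ) 0 / (2 * c)) (by positivity) hc hk1 hk (M := M)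
  refine ⟨φ1, hφ1, |VV b k (g (φ1 0)).w| +
    K * (2 * M * (volume (ZSpan.fundamentalDomain b)).toReal) ^ γ, fun l => ?_⟩
  have h1 := hH _ _ (hcl 0) (hcl l)
  have h2 : ∫ x in ZSpan.fundamentalDomain b, |(g (φ1 l)).w x - (g (φ1 0)).w x| ≤
      2 * M * (volume (ZSpan.fundamentalDomain b)).toReal := by
    have h3 := norm_setIntegral_le_of_norm_le_const (μ := volume)
      (s := ZSpan.fundamentalDomain b) (C := 2 * M)
      (f := fun x => |(g (φ1 l)).w x - (g (φ1 0)).w x|) (fd_finite b).lt_top ?_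
    · exact (le_abs_self _).trans h3
    · intro x _
      rw [Real.norm_eq_abs, abs_abs]
      have a1 := (hcl l).lower x
      have a2 := (hcl l).upper x
      have a3 := (hcl 0).lower x
      have a4 := (hcl 0).upper x
      rw [abs_le]; constructor <;> linarith
  have h4 : (∫ x in ZSpan.fundamentalDomain b, |(g (φ1 l)).w x - (g (φ1 0)).w x|) ^ γ ≤
      (2 * M * (volume (ZSpan.fundamentalDomain b)).toReal) ^ γ :=
    Real.rpow_le_rpow (integral_nonneg fun x => abs_nonneg _) h2 hγ.le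
  have h5 := mul_le_mul_of_nonneg_left h4 hK
  have h6 := abs_sub_abs_le_abs_sub (VV b k (g (φ1 l)).w) (VV b k (g (φ1 0)).w)
  linarith

end H68.CF
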