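import Pool.Agent.H68.CF.Defs

/-!
# [H68 CF Kn] The Kulkarni-Nomizu type expression

`kn P i j k l = P_ik δ_jl + P_jl δ_ik - P_il δ_jk - P_jk δ_il`. `kn_form`: multilinear expansion,
all sums over `δ` collapse (`Matrix.one_apply`, `Finset.sum_ite_eq`):
`∑ kn P i j k l u_i v_j u_k v_l = P(u,u)|v|² + P(v,v)|u|² - P(u,v)(v·u) - P(v,u)(u·v)`.
-/

open MeasureTheory Set Filter Topology Matrix Polynomial
open scoped ContDiff NNReal

noncomputable section

namespace H68.CF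

variable {n : ℕ}

/-- The curvature type expression built from the symmetric matrix `P` and the identity. -/
def kn (P : Matrix (Fin n) (Fin n) ℝ) (i j k l : Fin n) : ℝ :=
  P i k * (1 : Matrix (Fin n) (Fin n) ℝ) j l + P j l * (1 : Matrix (Fin n) (Fin n) ℝ) i k
    - P i l * (1 : Matrix (Fin n) (Fin n) ℝ) j k - P j k * (1 : Matrix (Fin n) (Fin n) ℝ) i l

private theorem kn_one (i : Fin n) (f : Fin n → ℝ) :
    ∑ k, (1 : Matrix (Fin n) (Fin n) ℝ) i k * f k = f i := by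
  simp [Matrix.one_apply]

private theorem kn_fac (Q : Matrix (Fin n) (Fin n) ℝ) (a b c d : Fin n → ℝ) :
    ∑ i, ∑ j, ∑ l, Q i l * a i * c j * b l * d j = (a ⬝ᵥ (Q *ᵥ b)) * (c ⬝ᵥ d) := by
  have h : (a ⬝ᵥ (Q *ᵥ b)) * (c ⬝ᵥ d) =
      (∑ i, a i * ∑ l, Q i l * b l) * ∑ j, c j * d j := rfl
  rw [h, Finset.sum_mul]
  refine Finset.sum_congr rfl fun i _ => ?_
  rw [Finset.mul_sum]
  refine Finset.sum_congr rfl fun j _ => ?_
  rw [Finset.mul_sum, Finset.sum_mul]
  refine Finset.sum_congr rfl fun l _ => ?_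
  ring

private theorem kn_fac' (Q : Matrix (Fin n) (Fin n) ℝ) (a b c d : Fin n → ℝ) :
    ∑ j, ∑ i, ∑ l, Q i l * a i * c j * b l * d j = (a ⬝ᵥ (Q *ᵥ b)) * (c ⬝ᵥ d) := by
  rw [Finset.sum_comm]
  exact kn_fac Q a b c d

theorem kn_form (P : Matrix (Fin n) (Fin n) ℝ) (u v : Fin n → ℝ) :
    ∑ i, ∑ j, ∑ k, ∑ l, kn P i j k l * u i * v j * u k * v l =
      (u ⬝ᵥ (P *ᵥ u)) * (v ⬝ᵥ v) + (v ⬝ᵥ (P *ᵥ v)) * (u ⬝ᵥ u)
        - (u ⬝ᵥ (P *ᵥ v)) * (u ⬝ᵥ v) - (v ⬝ᵥ (P *ᵥ u)) * (u ⬝ᵥ v) := by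
  have h1 : ∀ i j k, ∑ l, kn P i j k l * u i * v j * u k * v l =
      P i k * u i * v j * u k * v j
        + (1 : Matrix (Fin n) (Fin n) ℝ) i k * (∑ l, P j l * v j * u i * v l * u k)
        - (1 : Matrix (Fin n) (Fin n) ℝ) j k * (∑ l, P i l * u i * v j * v l * u k)
        - P j k * v j * u i * u k * v i := by
    intro i j k
    have e1 := kn_one j (fun l => P i k * u i * v j * u k * v l)
    have e2 := kn_one i (fun l => P j k * v j * u i * u k * v l)
    rw [← e1, ← e2, Finset.mul_sum, Finset.mul_sum, ← Finset.sum_add_distrib,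
      ← Finset.sum_sub_distrib, ← Finset.sum_sub_distrib]
    refine Finset.sum_congr rfl fun l _ => ?_
    unfold kn
    ring
  have h2 : ∀ i j, ∑ k, ∑ l, kn P i j k l * u i * v j * u k * v l =
      (∑ k, P i k * u i * v j * u k * v j)
        + (∑ l, P j l * v j * u i * v l * u i)
        - (∑ l, P i l * u i * v j * v l * u j)
        - ∑ k, P j k * v j * u i * u k * v i := by
    intro i j
    rw [Finset.sum_congr rfl (fun k _ => h1 i j k), Finset.sum_sub_distrib, Finset.sum_sub_distrib, Finset.sum_add_distrib,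
      kn_one i (fun k => ∑ l, P j l * v j * u i * v l * u k),
      kn_one j (fun k => ∑ l, P i l * u i * v j * v l * u k)]
  rw [Finset.sum_congr rfl (fun i _ => Finset.sum_congr rfl (fun j _ => h2 i j))]
  simp only [Finset.sum_sub_distrib, Finset.sum_add_distrib]
  rw [kn_fac P u u v v, kn_fac' P v v u u, kn_fac P u v v u, kn_fac' P v u u v,
    dotProduct_comm v u]

end H68.CF
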