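import Pool.Agent.H68.CF.IbpP

/-!
# [H68 CF L1A] Precompactness in `L¹`

Let `η_m(z) = m^n β⁻¹ max 0 (1 - m ‖z‖)` with `β = ∫ max 0 (1 - ‖z‖) dz > 0` (Lipschitz,
supported in `‖z‖ ≤ 1/m`, integral one), `m ≥ 1`, and `F_{l,m}(x) = ∫ f_l(x + z) η_m(z) dz`.
(1) `∫_FD |f_l - F_{l,m}| ≤ C/m` (Fubini and the translation hypothesis).
(2) `|F_{l,m}| ≤ M'`, `M' = max |c| |M|`, and `|F_{l,m}(x) - F_{l,m}(y)| ≤ C_m ‖x - y‖` uniformly in `l`
(`F_{l,m}(x) = ∫ f_l(z) η_m(z - x) dz`, `η_m` Lipschitz, support of the difference in a bounded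
set).
(3) Let `(x_i)` be dense in `E n`. The product of the intervals `[-M', M']` over `ℕ × ℕ` is
sequentially compact (`isCompact_univ_pi`, `IsCompact.tendsto_subseq`): along a subsequence `φ`
all `F_{φ l, m}(x_i)` converge; by (2) `F_{φ l,m}(x)` converges for every `x` and `m`; by dominated
convergence `∫_FD |F_{φ l,m} - F_m| → 0` with `F_m` the limit.
(4) `∫_FD |f_{φ l} - f_{φ l'}| ≤ 2C/m + ∫_FD |F_{φ l,m} - F_{φ l',m}|`: Cauchy.
-/

open MeasureTheory Set Filter Topology Matrix Polynomial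
open scoped ContDiff NNReal

noncomputable section

namespace H68.CF

variable {n : ℕ}

private def ker (δ : ℝ) (z : E n) : ℝ := max 0 (δ - ‖z‖)

private theorem ker_cont (δ : ℝ) : Continuous (ker (n := n) δ) := by
  unfold ker
  fun_prop

private theorem ker_nonneg (δ : ℝ) (z : E n) : 0 ≤ ker δ z := le_max_left _ _

private theorem ker_zero {δ : ℝ} {z : E n} (h : δ ≤ ‖z‖) : ker δ z = 0 :=
  max_eq_left (by linarith)

private theorem ker_cpt (δ : ℝ) : HasCompactSupport (ker (n := n) δ) := by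
  refine HasCompactSupport.intro (isCompact_closedBall (0 : E n) δ) fun z hz => ?_
  apply ker_zero
  rw [Metric.mem_closedBall, dist_zero_right, not_le] at hz
  exact hz.le

private theorem ker_int (δ : ℝ) : Integrable (ker (n := n) δ) :=
  (ker_cont δ).integrable_of_hasCompactSupport (ker_cpt δ)

private theorem ker_pos {δ : ℝ} (hδ : 0 < δ) : 0 < ∫ z : E n, ker δ z := by
  refine (ker_cont δ).integral_pos_of_hasCompactSupport_nonneg_nonzero (ker_cpt δ)
    (fun z => ker_nonneg δ z) (x := (0 : E n)) ?_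
  unfold ker
  rw [norm_zero, sub_zero, max_eq_right hδ.le]
  exact hδ.ne'

private theorem ker_lip (δ : ℝ) (z w : E n) : |ker δ z - ker δ w| ≤ ‖z - w‖ := by
  unfold ker
  rw [max_comm 0 (δ - ‖z‖), max_comm 0 (δ - ‖w‖)]
  refine (abs_max_sub_max_le_abs _ _ _).trans ?_
  have h1 : δ - ‖z‖ - (δ - ‖w‖) = ‖w‖ - ‖z‖ := by ring
  rw [h1, abs_sub_comm]
  exact abs_norm_sub_norm_le z w

/-- the mollified function -/
private def Fm (δ : ℝ) (f : E n → ℝ) (x : E n) : ℝ :=
  (∫ z : E n, ker δ z)⁻¹ * ∫ z : E n, f (x + z) * ker δ z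

private theorem fk_int {f : E n → ℝ} (hf : Continuous f) (δ : ℝ) (x : E n) :
    Integrable (fun z : E n => f (x + z) * ker δ z) := by
  refine Continuous.integrable_of_hasCompactSupport ?_ ?_
  · exact (hf.comp (continuous_const.add continuous_id)).mul (ker_cont δ)
  · exact (ker_cpt δ).mul_left

private theorem fk_int' {f : E n → ℝ} (hf : Continuous f) (δ : ℝ) (x : E n) :
    Integrable (fun z : E n => f z * ker δ (z - x)) := by
  have h1 := (fk_int hf δ x).comp_sub_right x
  refine h1.congr (Filter.Eventually.of_forall fun z => ?_)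
  show f (x + (z - x)) * ker δ (z - x) = f z * ker δ (z - x)
  rw [add_sub_cancel]

private theorem fk_shift {f : E n → ℝ} (δ : ℝ) (x : E n) :
    ∫ z : E n, f (x + z) * ker δ z = ∫ z : E n, f z * ker δ (z - x) := by
  rw [← integral_sub_right_eq_self (fun z : E n => f (x + z) * ker δ z) x]
  refine integral_congr_ae (Filter.Eventually.of_forall fun z => ?_)
  show f (x + (z - x)) * ker δ (z - x) = f z * ker δ (z - x)
  rw [add_sub_cancel]

private theorem Fm_bdd {f : E n → ℝ} (hf : Continuous f) {K : ℝ} (hK : ∀ x, |f x| ≤ K)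
    {δ : ℝ} (hδ : 0 < δ) (x : E n) : |Fm δ f x| ≤ K := by
  have hβ := ker_pos (n := n) hδ
  unfold Fm
  rw [abs_mul, abs_of_pos (inv_pos.mpr hβ)]
  have h1 : |∫ z : E n, f (x + z) * ker δ z| ≤ ∫ z : E n, K * ker δ z := by
    rw [← Real.norm_eq_abs]
    refine norm_integral_le_of_norm_le ((ker_int δ).const_mul K)
      (Filter.Eventually.of_forall fun z => ?_)
    rw [norm_mul, Real.norm_eq_abs, Real.norm_eq_abs, abs_of_nonneg (ker_nonneg δ z)]
    exact mul_le_mul_of_nonneg_right (hK _) (ker_nonneg δ z)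
  rw [integral_const_mul] at h1
  calc (∫ z : E n, ker δ z)⁻¹ * |∫ z : E n, f (x + z) * ker δ z|
      ≤ (∫ z : E n, ker δ z)⁻¹ * (K * ∫ z : E n, ker δ z) :=
        mul_le_mul_of_nonneg_left h1 (inv_nonneg.mpr hβ.le)
    _ = K := by field_simp

private def Lc (n : ℕ) (K δ : ℝ) : ℝ :=
  (∫ z : E n, ker δ z)⁻¹ * (K * (2 * (volume : Measure (E n)).real (Metric.ball 0 δ)))

private theorem Lc_nonneg {K δ : ℝ} (hK : 0 ≤ K) (hδ : 0 < δ) : 0 ≤ Lc n K δ := by
  have hβ := ker_pos (n := n) hδ
  unfold Lc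
  have : 0 ≤ (volume : Measure (E n)).real (Metric.ball 0 δ) := ENNReal.toReal_nonneg
  positivity

private theorem Fm_lip {f : E n → ℝ} (hf : Continuous f) {K : ℝ} (hK0 : 0 ≤ K)
    (hK : ∀ x, |f x| ≤ K) {δ : ℝ} (hδ : 0 < δ) (x y : E n) :
    |Fm δ f x - Fm δ f y| ≤ Lc n K δ * ‖x - y‖ := by
  have hβ := ker_pos (n := n) hδ
  unfold Fm Lc
  rw [fk_shift, fk_shift, ← mul_sub, abs_mul, abs_of_pos (inv_pos.mpr hβ), mul_assoc]
  refine mul_le_mul_of_nonneg_left ?_ (inv_nonneg.mpr hβ.le)
  rw [← integral_sub (fk_int' hf δ x) (fk_int' hf δ y), ← Real.norm_eq_abs]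
  have hi : ∀ w : E n, Integrable ((Metric.ball w δ).indicator fun _ => (1 : ℝ)) := fun w =>
    (integrable_indicator_iff measurableSet_ball).mpr
      (integrableOn_const measure_ball_lt_top.ne)
  have hv : ∀ w : E n, ∫ z, (Metric.ball w δ).indicator (fun _ => (1 : ℝ)) z
      = (volume : Measure (E n)).real (Metric.ball 0 δ) := by
    intro w
    rw [integral_indicator measurableSet_ball, setIntegral_const, smul_eq_mul, mul_one]
    show ((volume : Measure (E n)) (Metric.ball w δ)).toReal = _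
    rw [Measure.addHaar_ball_center]
    rfl
  have hbd : ∀ z : E n, ‖f z * ker δ (z - x) - f z * ker δ (z - y)‖ ≤
      K * ‖x - y‖ * ((Metric.ball x δ).indicator (fun _ => (1 : ℝ)) z
        + (Metric.ball y δ).indicator (fun _ => (1 : ℝ)) z) := by
    intro z
    rw [← mul_sub, norm_mul, Real.norm_eq_abs, Real.norm_eq_abs, mul_assoc]
    refine mul_le_mul (hK z) ?_ (abs_nonneg _) hK0
    have h1 := ker_lip δ (z - x) (z - y)
    have h2 : z - x - (z - y) = -(x - y) := by abel
    rw [h2, norm_neg] at h1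
    by_cases hx : z ∈ Metric.ball x δ
    · rw [indicator_of_mem hx]
      have h3 : (0 : ℝ) ≤ (Metric.ball y δ).indicator (fun _ => (1 : ℝ)) z :=
        indicator_nonneg (fun _ _ => zero_le_one) z
      have h4 := norm_nonneg (x - y)
      nlinarith
    · by_cases hy : z ∈ Metric.ball y δ
      · rw [indicator_of_mem hy]
        have h3 : (0 : ℝ) ≤ (Metric.ball x δ).indicator (fun _ => (1 : ℝ)) z :=
          indicator_nonneg (fun _ _ => zero_le_one) z
        have h4 := norm_nonneg (x - y)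
        nlinarith
      · have h5 : ker δ (z - x) = 0 := by
          apply ker_zero
          rw [Metric.mem_ball, dist_eq_norm, not_lt] at hx
          exact hx
        have h6 : ker δ (z - y) = 0 := by
          apply ker_zero
          rw [Metric.mem_ball, dist_eq_norm, not_lt] at hy
          exact hy
        rw [h5, h6, sub_zero, abs_zero, indicator_of_notMem hx, indicator_of_notMem hy,
          add_zero, mul_zero]
  have hsum : Integrable (fun z : E n => K * ‖x - y‖ *
      ((Metric.ball x δ).indicator (fun _ => (1 : ℝ)) z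
        + (Metric.ball y δ).indicator (fun _ => (1 : ℝ)) z)) :=
    ((hi x).add (hi y)).const_mul _
  refine (norm_integral_le_of_norm_le hsum (Filter.Eventually.of_forall hbd)).trans ?_
  rw [integral_const_mul, integral_add (hi x) (hi y), hv, hv]
  apply le_of_eq
  ring

private theorem Fm_cont {f : E n → ℝ} (hf : Continuous f) {K : ℝ} (hK0 : 0 ≤ K)
    (hK : ∀ x, |f x| ≤ K) {δ : ℝ} (hδ : 0 < δ) : Continuous (Fm δ f) := by
  have h : LipschitzWith (Real.toNNReal (Lc n K δ)) (Fm δ f) := by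
    refine LipschitzWith.of_dist_le_mul fun x y => ?_
    rw [Real.dist_eq, dist_eq_norm, Real.coe_toNNReal _ (Lc_nonneg hK0 hδ)]
    exact Fm_lip hf hK0 hK hδ x y
  exact h.continuous

private theorem fd_fin (b : Module.Basis (Fin n) ℝ (E n)) :
    IsFiniteMeasure ((volume : Measure (E n)).restrict (ZSpan.fundamentalDomain b)) := by
  refine ⟨?_⟩
  rw [Measure.restrict_apply MeasurableSet.univ, Set.univ_inter]
  exact (ZSpan.fundamentalDomain_isBounded b).measure_lt_top

private theorem Fm_close (b : Module.Basis (Fin n) ℝ (E n)) {f : E n → ℝ} (hf : Continuous f)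
    {K : ℝ} (hK0 : 0 ≤ K) (hK : ∀ x, |f x| ≤ K) {C : ℝ}
    (hC : ∀ z, ∫ x in ZSpan.fundamentalDomain b, |f (x + z) - f x| ≤ C * ‖z‖)
    {δ : ℝ} (hδ : 0 < δ) :
    ∫ x in ZSpan.fundamentalDomain b, |f x - Fm δ f x| ≤ |C| * δ := by
  have hβ := ker_pos (n := n) hδ
  have hfin := fd_fin b
  have hHc : Continuous (Function.uncurry fun (x z : E n) => |f (x + z) - f x| * ker δ z) := by
    have h1 : Continuous fun p : E n × E n => f (p.1 + p.2) :=
      hf.comp (continuous_fst.add continuous_snd)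
    have h2 : Continuous fun p : E n × E n => f p.1 := hf.comp continuous_fst
    exact (h1.sub h2).abs.mul ((ker_cont δ).comp continuous_snd)
  have hH : Integrable (Function.uncurry fun (x z : E n) => |f (x + z) - f x| * ker δ z)
      (((volume : Measure (E n)).restrict (ZSpan.fundamentalDomain b)).prod volume) := by
    have h1 : Integrable (fun p : E n × E n => 2 * K * ker δ p.2)
        (((volume : Measure (E n)).restrict (ZSpan.fundamentalDomain b)).prod volume) :=
      ((ker_int δ).comp_snd _).const_mul _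
    refine h1.mono' hHc.aestronglyMeasurable (Filter.Eventually.of_forall fun p => ?_)
    show ‖|f (p.1 + p.2) - f p.1| * ker δ p.2‖ ≤ 2 * K * ker δ p.2
    rw [norm_mul, Real.norm_eq_abs, Real.norm_eq_abs, abs_abs, abs_of_nonneg (ker_nonneg δ _)]
    refine mul_le_mul_of_nonneg_right ?_ (ker_nonneg δ _)
    have h2 := hK (p.1 + p.2)
    have h3 := hK p.1
    calc |f (p.1 + p.2) - f p.1| ≤ |f (p.1 + p.2)| + |f p.1| := abs_sub _ _
      _ ≤ 2 * K := by linarith
  have hpt : ∀ x : E n, |f x - Fm δ f x|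
      ≤ (∫ z : E n, ker δ z)⁻¹ * ∫ z : E n, |f (x + z) - f x| * ker δ z := by
    intro x
    have h1 : f x - Fm δ f x
        = (∫ z : E n, ker δ z)⁻¹ * ∫ z : E n, (f x - f (x + z)) * ker δ z := by
      have h2 : ∫ z : E n, (f x - f (x + z)) * ker δ z
          = f x * (∫ z : E n, ker δ z) - ∫ z : E n, f (x + z) * ker δ z := by
        rw [← integral_const_mul, ← integral_sub ((ker_int δ).const_mul _) (fk_int hf δ x)]
        refine integral_congr_ae (Filter.Eventually.of_forall fun z => ?_)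
        show (f x - f (x + z)) * ker δ z = f x * ker δ z - f (x + z) * ker δ z
        ring
      rw [h2]
      unfold Fm
      field_simp
    rw [h1, abs_mul, abs_of_pos (inv_pos.mpr hβ)]
    refine mul_le_mul_of_nonneg_left ?_ (inv_nonneg.mpr hβ.le)
    rw [← Real.norm_eq_abs]
    refine (norm_integral_le_integral_norm _).trans (le_of_eq ?_)
    refine integral_congr_ae (Filter.Eventually.of_forall fun z => ?_)
    show ‖(f x - f (x + z)) * ker δ z‖ = |f (x + z) - f x| * ker δ z
    rw [norm_mul, Real.norm_eq_abs, Real.norm_eq_abs, abs_of_nonneg (ker_nonneg δ z),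
      abs_sub_comm]
  have hint : Integrable (fun x : E n => ∫ z : E n, |f (x + z) - f x| * ker δ z)
      ((volume : Measure (E n)).restrict (ZSpan.fundamentalDomain b)) := hH.integral_prod_left
  calc ∫ x in ZSpan.fundamentalDomain b, |f x - Fm δ f x|
      ≤ ∫ x in ZSpan.fundamentalDomain b,
          (∫ z : E n, ker δ z)⁻¹ * ∫ z : E n, |f (x + z) - f x| * ker δ z :=
        integral_mono_of_nonneg (Filter.Eventually.of_forall fun x => abs_nonneg _)
          (hint.const_mul _) (Filter.Eventually.of_forall hpt)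
    _ = (∫ z : E n, ker δ z)⁻¹ * ∫ x in ZSpan.fundamentalDomain b,
          ∫ z : E n, |f (x + z) - f x| * ker δ z := by rw [integral_const_mul]
    _ = (∫ z : E n, ker δ z)⁻¹ * ∫ z : E n, ∫ x in ZSpan.fundamentalDomain b,
          |f (x + z) - f x| * ker δ z := by rw [integral_integral_swap hH]
    _ ≤ (∫ z : E n, ker δ z)⁻¹ * ∫ z : E n, |C| * δ * ker δ z := by
        refine mul_le_mul_of_nonneg_left ?_ (inv_nonneg.mpr hβ.le)
        refine integral_mono hH.integral_prod_right ((ker_int δ).const_mul _) fun z => ?_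
        show ∫ x in ZSpan.fundamentalDomain b, |f (x + z) - f x| * ker δ z ≤ |C| * δ * ker δ z
        rw [integral_mul_const]
        by_cases hz : ‖z‖ < δ
        · refine mul_le_mul_of_nonneg_right ?_ (ker_nonneg δ z)
          refine (hC z).trans ?_
          have h1 : C * ‖z‖ ≤ |C| * ‖z‖ := mul_le_mul_of_nonneg_right (le_abs_self C)
            (norm_nonneg z)
          have h2 : |C| * ‖z‖ ≤ |C| * δ := mul_le_mul_of_nonneg_left hz.le (abs_nonneg C)
          linarith
        · rw [ker_zero (not_lt.mp hz), mul_zero, mul_zero]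
    _ = |C| * δ := by
        rw [integral_const_mul]
        field_simp

theorem l1_cauchy (b : Module.Basis (Fin n) ℝ (E n)) (f : ℕ → E n → ℝ)
    (hf : ∀ l, Continuous (f l)) (hper : ∀ l, ∀ v ∈ Lat b, ∀ x, f l (x + v) = f l x)
    {c M C : ℝ} (hc : ∀ l x, c ≤ f l x) (hM : ∀ l x, f l x ≤ M)
    (hC : ∀ l z, ∫ x in ZSpan.fundamentalDomain b, |f l (x + z) - f l x| ≤ C * ‖z‖) :
    ∃ φ : ℕ → ℕ, StrictMono φ ∧ ∀ ε : ℝ, 0 < ε → ∃ N, ∀ l ≥ N, ∀ m ≥ N,
      ∫ x in ZSpan.fundamentalDomain b, |f (φ l) x - f (φ m) x| ≤ ε := by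
  have hfin := fd_fin b
  obtain ⟨K, hKd⟩ : ∃ K : ℝ, K = max |c| |M| := ⟨_, rfl⟩
  have hK0 : 0 ≤ K := by
    rw [hKd]
    exact le_max_of_le_left (abs_nonneg c)
  have hK : ∀ l x, |f l x| ≤ K := by
    intro l x
    rw [abs_le, hKd]
    constructor
    · have h1 := hc l x
      have h2 := neg_abs_le c
      have h3 := le_max_left |c| |M|
      linarith
    · have h1 := hM l x
      have h2 := le_abs_self M
      have h3 := le_max_right |c| |M|
      linarith
  obtain ⟨δ, hδd⟩ : ∃ δ : ℕ → ℝ, δ = fun m : ℕ => 1 / ((m : ℝ) + 1) := ⟨_, rfl⟩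
  have hδ : ∀ m, 0 < δ m := by
    intro m
    rw [hδd]
    positivity
  -- the subsequence
  obtain ⟨a, -, φ, hφ, hlim⟩ := (isCompact_univ_pi fun _ : ℕ × ℕ =>
    (isCompact_Icc : IsCompact (Set.Icc (-K) K))).tendsto_subseq
      (x := fun (l : ℕ) (p : ℕ × ℕ) => Fm (δ p.1) (f l) (TopologicalSpace.denseSeq (E n) p.2))
      (fun l p _ => abs_le.mp (Fm_bdd (hf l) (hK l) (hδ p.1) _))
  have hlim' : ∀ m i, Tendsto (fun l => Fm (δ m) (f (φ l)) (TopologicalSpace.denseSeq (E n) i))
      atTop (𝓝 (a (m, i))) := by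
    intro m i
    exact (tendsto_pi_nhds.mp hlim) (m, i)
  -- pointwise convergence
  have hpt : ∀ m x, ∃ g : ℝ, Tendsto (fun l => Fm (δ m) (f (φ l)) x) atTop (𝓝 g) := by
    intro m x
    apply cauchySeq_tendsto_of_complete
    rw [Metric.cauchySeq_iff']
    intro ε hε
    obtain ⟨L, hL⟩ : ∃ L, L = Lc n K (δ m) := ⟨_, rfl⟩
    have hL0 : 0 ≤ L := by
      rw [hL]
      exact Lc_nonneg hK0 (hδ m)
    obtain ⟨i, hi⟩ := (TopologicalSpace.denseRange_denseSeq (E n)).exists_dist_lt x
      (show (0 : ℝ) < ε / (4 * (L + 1)) by positivity)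
    obtain ⟨N, hN⟩ := Metric.tendsto_atTop.mp (hlim' m i) (ε / 4) (by positivity)
    refine ⟨N, fun l hl => ?_⟩
    have hL1 : L * dist x (TopologicalSpace.denseSeq (E n) i) ≤ ε / 4 := by
      have h1 : L * dist x (TopologicalSpace.denseSeq (E n) i) ≤ L * (ε / (4 * (L + 1))) :=
        mul_le_mul_of_nonneg_left hi.le hL0
      have h2 : L * (ε / (4 * (L + 1))) ≤ ε / 4 := by
        rw [← mul_div_assoc, div_le_div_iff₀ (by positivity) (by norm_num)]
        nlinarith
      linarith
    have hA : ∀ l, |Fm (δ m) (f (φ l)) x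
        - Fm (δ m) (f (φ l)) (TopologicalSpace.denseSeq (E n) i)| ≤ ε / 4 := by
      intro l
      have h1 := Fm_lip (hf (φ l)) hK0 (hK (φ l)) (hδ m) x (TopologicalSpace.denseSeq (E n) i)
      rw [← hL, ← dist_eq_norm] at h1
      linarith
    have h1 := hN l hl
    have h2 := hN N le_rfl
    rw [Real.dist_eq] at h1 h2 ⊢
    have h3 := hA l
    have h4 := hA N
    have h5 := abs_le.mp h3
    have h6 := abs_le.mp h4
    have h7 := abs_lt.mp h1
    have h8 := abs_lt.mp h2
    rw [abs_lt]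
    constructor <;> linarith [h5.1, h5.2, h6.1, h6.2, h7.1, h7.2, h8.1, h8.2]
  choose g hg using hpt
  have hFc : ∀ m l, Continuous (Fm (δ m) (f (φ l))) := fun m l =>
    Fm_cont (hf (φ l)) hK0 (hK (φ l)) (hδ m)
  have hgm : ∀ m, Measurable (g m) := fun m =>
    measurable_of_tendsto_metrizable (fun l => (hFc m l).measurable)
      (tendsto_pi_nhds.mpr fun x => hg m x)
  have hgb : ∀ m x, |g m x| ≤ K := by
    intro m x
    exact le_of_tendsto (hg m x).abs (Filter.Eventually.of_forall fun l =>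
      Fm_bdd (hf (φ l)) (hK (φ l)) (hδ m) x)
  have hdom : ∀ m, Tendsto (fun l => ∫ x in ZSpan.fundamentalDomain b,
      |Fm (δ m) (f (φ l)) x - g m x|) atTop (𝓝 0) := by
    intro m
    have h1 := tendsto_integral_of_dominated_convergence
      (μ := (volume : Measure (E n)).restrict (ZSpan.fundamentalDomain b))
      (F := fun l x => |Fm (δ m) (f (φ l)) x - g m x|) (f := fun _ => (0 : ℝ))
      (fun _ => 2 * K)
      (fun l => (((hFc m l).measurable.sub (hgm m)).abs).aestronglyMeasurable)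
      (integrable_const _)
      (fun l => Filter.Eventually.of_forall fun x => by
        rw [Real.norm_eq_abs, abs_abs]
        have h2 := Fm_bdd (hf (φ l)) (hK (φ l)) (hδ m) x
        have h3 := hgb m x
        calc |Fm (δ m) (f (φ l)) x - g m x| ≤ |Fm (δ m) (f (φ l)) x| + |g m x| := abs_sub _ _
          _ ≤ 2 * K := by linarith)
      (Filter.Eventually.of_forall fun x => by
        have h2 := ((hg m x).sub_const (g m x)).abs
        rw [sub_self, abs_zero] at h2
        exact h2)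
    rw [integral_zero] at h1
    exact h1
  refine ⟨φ, hφ, fun ε hε => ?_⟩
  obtain ⟨m, hm⟩ : ∃ m, |C| * δ m ≤ ε / 4 := by
    obtain ⟨m, hm⟩ := exists_nat_ge (4 * |C| / ε)
    refine ⟨m, ?_⟩
    rw [hδd]
    simp only
    rw [mul_one_div, div_le_div_iff₀ (by positivity) (by norm_num)]
    rw [div_le_iff₀ hε] at hm
    nlinarith
  obtain ⟨N, hN⟩ := Metric.tendsto_atTop.mp (hdom m) (ε / 4) (by positivity)
  refine ⟨N, fun l hl l' hl' => ?_⟩
  have hA : ∀ l, ∫ x in ZSpan.fundamentalDomain b, |f (φ l) x - Fm (δ m) (f (φ l)) x| ≤ ε / 4 :=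
    fun l => (Fm_close b (hf (φ l)) hK0 (hK (φ l)) (hC (φ l)) (hδ m)).trans hm
  have hB : ∀ l ≥ N, ∫ x in ZSpan.fundamentalDomain b,
      |Fm (δ m) (f (φ l)) x - g m x| ≤ ε / 4 := by
    intro l hl
    have h1 := hN l hl
    rw [Real.dist_eq, sub_zero] at h1
    exact (le_abs_self _).trans h1.le
  have iA : ∀ l, Integrable (fun x => |f (φ l) x - Fm (δ m) (f (φ l)) x|)
      ((volume : Measure (E n)).restrict (ZSpan.fundamentalDomain b)) := fun l =>
    integrableOn_fd b (((hf (φ l)).sub (hFc m l)).abs)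
  have iB : ∀ l, Integrable (fun x => |Fm (δ m) (f (φ l)) x - g m x|)
      ((volume : Measure (E n)).restrict (ZSpan.fundamentalDomain b)) := by
    intro l
    refine (integrable_const (2 * K)).mono'
      (((hFc m l).measurable.sub (hgm m)).abs).aestronglyMeasurable
      (Filter.Eventually.of_forall fun x => ?_)
    rw [Real.norm_eq_abs, abs_abs]
    have h2 := Fm_bdd (hf (φ l)) (hK (φ l)) (hδ m) x
    have h3 := hgb m x
    calc |Fm (δ m) (f (φ l)) x - g m x| ≤ |Fm (δ m) (f (φ l)) x| + |g m x| := abs_sub _ _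
      _ ≤ 2 * K := by linarith
  have i1 : Integrable (fun x => |f (φ l) x - Fm (δ m) (f (φ l)) x|
      + |Fm (δ m) (f (φ l)) x - g m x|)
      ((volume : Measure (E n)).restrict (ZSpan.fundamentalDomain b)) := (iA l).add (iB l)
  have i2 : Integrable (fun x => |f (φ l') x - Fm (δ m) (f (φ l')) x|
      + |Fm (δ m) (f (φ l')) x - g m x|)
      ((volume : Measure (E n)).restrict (ZSpan.fundamentalDomain b)) := (iA l').add (iB l')
  have i3 : Integrable (fun x => (|f (φ l) x - Fm (δ m) (f (φ l)) x|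
      + |Fm (δ m) (f (φ l)) x - g m x|) + (|f (φ l') x - Fm (δ m) (f (φ l')) x|
      + |Fm (δ m) (f (φ l')) x - g m x|))
      ((volume : Measure (E n)).restrict (ZSpan.fundamentalDomain b)) := i1.add i2
  have h1 : ∫ x in ZSpan.fundamentalDomain b, |f (φ l) x - f (φ l') x|
      ≤ ∫ x in ZSpan.fundamentalDomain b, ((|f (φ l) x - Fm (δ m) (f (φ l)) x|
      + |Fm (δ m) (f (φ l)) x - g m x|) + (|f (φ l') x - Fm (δ m) (f (φ l')) x|
      + |Fm (δ m) (f (φ l')) x - g m x|)) := by
    refine integral_mono_of_nonneg (Filter.Eventually.of_forall fun x => abs_nonneg _) i3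
      (Filter.Eventually.of_forall fun x => ?_)
    show |f (φ l) x - f (φ l') x| ≤ _
    have h2 : f (φ l) x - f (φ l') x = (f (φ l) x - Fm (δ m) (f (φ l)) x)
        + (Fm (δ m) (f (φ l)) x - g m x) - (f (φ l') x - Fm (δ m) (f (φ l')) x)
        - (Fm (δ m) (f (φ l')) x - g m x) := by ring
    rw [h2]
    have t1 := abs_sub ((f (φ l) x - Fm (δ m) (f (φ l)) x)
        + (Fm (δ m) (f (φ l)) x - g m x) - (f (φ l') x - Fm (δ m) (f (φ l')) x))
        (Fm (δ m) (f (φ l')) x - g m x)
    have t2 := abs_sub ((f (φ l) x - Fm (δ m) (f (φ l)) x)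
        + (Fm (δ m) (f (φ l)) x - g m x)) (f (φ l') x - Fm (δ m) (f (φ l')) x)
    have t3 := abs_add_le (f (φ l) x - Fm (δ m) (f (φ l)) x) (Fm (δ m) (f (φ l)) x - g m x)
    linarith
  rw [integral_add i1 i2, integral_add (iA l) (iB l), integral_add (iA l') (iB l')] at h1
  have h2 := hA l
  have h3 := hA l'
  have h4 := hB l hl
  have h5 := hB l' hl'
  linarith

end H68.CF
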