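import Pool.Agent.H68.CF.FdMeas

/-!
# [H68 CF L1B] The limit function

Choose a subsequence `φ` with `∫_FD |f_{φ (l+1)} - f_{φ l}| ≤ 2^{-l}`; then
`∑_l |f_{φ (l+1)} - f_{φ l}|` is integrable on `FD`, so `f_{φ l}(x)` converges for a.e.
`x ∈ FD`, hence (periodicity, `ae_of_ae_fd`) for a.e. `x ∈ E n`. (Alternatively completeness of
`L¹` and `TendstoInMeasure.exists_seq_tendsto_ae`.) Define
`w(x) = limsup_l f_{φ l}(x)` (real valued; the sequences are bounded between `c` and `M`): it is
measurable (`Measurable.limsup`), periodic, `c ≤ w ≤ M`, and equals the limit a.e. Dominated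
convergence on `FD` (finite measure): `∫_FD |f_{φ l} - w| → 0`.
-/

open MeasureTheory Set Filter Topology Matrix Polynomial
open scoped ContDiff NNReal

noncomputable section

namespace H68.CF

variable {n : ℕ}

private theorem intOn_bdd' (b : Module.Basis (Fin n) ℝ (E n)) {f : E n → ℝ} (hf : Measurable f)
    {K : ℝ} (hK : ∀ x, |f x| ≤ K) : IntegrableOn f (ZSpan.fundamentalDomain b) := by
  refine Measure.integrableOn_of_bounded
    (ZSpan.fundamentalDomain_isBounded b).measure_lt_top.ne hf.aestronglyMeasurable (M := K) ?_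
  exact Filter.Eventually.of_forall fun x => by simpa [Real.norm_eq_abs] using hK x

/-- A sequence with summable increments converges. -/
private theorem tendsto_of_summable {u : ℕ → ℝ} (h : Summable fun l => |u (l + 1) - u l|) :
    ∃ t, Tendsto u atTop (𝓝 t) := by
  have h1 : CauchySeq u := by
    refine cauchySeq_of_summable_dist ?_
    refine h.congr fun l => ?_
    rw [dist_comm, Real.dist_eq]
  exact cauchySeq_tendsto_of_complete h1

theorem l1_limit (b : Module.Basis (Fin n) ℝ (E n)) (f : ℕ → E n → ℝ)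
    (hf : ∀ l, Continuous (f l)) (hper : ∀ l, ∀ v ∈ Lat b, ∀ x, f l (x + v) = f l x)
    {c M : ℝ} (hc : ∀ l x, c ≤ f l x) (hM : ∀ l x, f l x ≤ M)
    (hC : ∀ ε : ℝ, 0 < ε → ∃ N, ∀ l ≥ N, ∀ m ≥ N,
      ∫ x in ZSpan.fundamentalDomain b, |f l x - f m x| ≤ ε) :
    ∃ φ : ℕ → ℕ, StrictMono φ ∧ ∃ w : E n → ℝ, Measurable w ∧
      (∀ v ∈ Lat b, ∀ x, w (x + v) = w x) ∧ (∀ x, c ≤ w x) ∧ (∀ x, w x ≤ M) ∧
      (∀ᵐ x, Tendsto (fun l => f (φ l) x) atTop (𝓝 (w x))) ∧
      Tendsto (fun l => ∫ x in ZSpan.fundamentalDomain b, |f (φ l) x - w x|) atTop (𝓝 0) := by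
  set μ : Measure (E n) := volume.restrict (ZSpan.fundamentalDomain b) with hμ
  have hfm : ∀ l, Measurable (f l) := fun l => (hf l).measurable
  set B : ℝ := |c| + |M| with hB
  have hbd : ∀ t : ℝ, c ≤ t → t ≤ M → |t| ≤ B := by
    intro t h1 h2
    rw [abs_le]
    constructor
    · have := neg_abs_le c; have := abs_nonneg M; linarith
    · have := le_abs_self M; have := abs_nonneg c; linarith
  have hfb : ∀ l x, |f l x| ≤ B := fun l x => hbd _ (hc l x) (hM l x)
  have hint : ∀ l m, IntegrableOn (fun x => |f l x - f m x|) (ZSpan.fundamentalDomain b) :=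
    fun l m => (intOn_bdd' b ((hfm l).sub (hfm m)) (K := B + B) (fun z => by
      have := abs_sub (f l z) (f m z)
      simp only [Pi.sub_apply]
      linarith [hfb l z, hfb m z])).abs
  -- a fast subsequence
  obtain ⟨φ, hφ, hfast⟩ : ∃ φ : ℕ → ℕ, StrictMono φ ∧ ∀ l,
      ∫ x in ZSpan.fundamentalDomain b, |f (φ (l + 1)) x - f (φ l) x| ≤ (1 / 2) ^ l := by
    choose N hN using fun l : ℕ => hC ((1 / 2) ^ l) (by positivity)
    obtain ⟨φ, hφ, hφN⟩ := Filter.extraction_forall_of_eventually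
      (P := fun l k => N l ≤ k) (fun l => eventually_ge_atTop (N l))
    refine ⟨φ, hφ, fun l => hN l _ ?_ _ (hφN l)⟩
    exact (hφN l).trans (hφ.monotone (by omega))
  have haeFD : ∀ᵐ x ∂μ, ∃ t, Tendsto (fun l => f (φ l) x) atTop (𝓝 t) := by
    have hme : ∀ l, Measurable fun x => ENNReal.ofReal |f (φ (l + 1)) x - f (φ l) x| :=
      fun l => ((hfm (φ (l + 1))).sub (hfm (φ l))).abs.ennreal_ofReal
    have h1 : ∑' l, ∫⁻ x, ENNReal.ofReal |f (φ (l + 1)) x - f (φ l) x| ∂μ ≠ ⊤ := by
      have h2 : ∀ l, ∫⁻ x, ENNReal.ofReal |f (φ (l + 1)) x - f (φ l) x| ∂μ ≤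
          ENNReal.ofReal ((1 / 2) ^ l) := by
        intro l
        have h3 := hint (φ (l + 1)) (φ l)
        have h4 : ∫⁻ x, ENNReal.ofReal |f (φ (l + 1)) x - f (φ l) x| ∂μ =
            ENNReal.ofReal (∫ x, |f (φ (l + 1)) x - f (φ l) x| ∂μ) := by
          rw [ofReal_integral_eq_lintegral_ofReal h3
            (Filter.Eventually.of_forall fun x => abs_nonneg _)]
        rw [h4]
        exact ENNReal.ofReal_le_ofReal (hfast l)
      refine ne_top_of_le_ne_top ?_ (ENNReal.tsum_le_tsum h2)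
      rw [← ENNReal.ofReal_tsum_of_nonneg (fun l => by positivity)
        (summable_geometric_of_lt_one (by norm_num) (by norm_num))]
      exact ENNReal.ofReal_ne_top
    have h5 : ∫⁻ x, ∑' l, ENNReal.ofReal |f (φ (l + 1)) x - f (φ l) x| ∂μ ≠ ⊤ := by
      rwa [lintegral_tsum (f := fun l x => ENNReal.ofReal |f (φ (l + 1)) x - f (φ l) x|)
        fun l => (hme l).aemeasurable]
    have h6 := ae_lt_top (Measurable.ennreal_tsum hme) h5
    filter_upwards [h6] with x hx
    refine tendsto_of_summable ?_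
    have h7 := ENNReal.summable_toReal hx.ne
    refine h7.congr fun l => ?_
    rw [ENNReal.toReal_ofReal (abs_nonneg _)]
  have hae : ∀ᵐ x : E n, ∃ t, Tendsto (fun l => f (φ l) x) atTop (𝓝 t) := by
    refine ae_of_ae_fd b ?_ haeFD
    rintro v hv x ⟨t, ht⟩
    refine ⟨t, ?_⟩
    simpa only [hper _ v hv] using ht
  set w : E n → ℝ := fun x => limsup (fun l => f (φ l) x) atTop with hw
  have hbdd : ∀ x, IsBoundedUnder (· ≤ ·) atTop (fun l => f (φ l) x) := fun x =>
    isBoundedUnder_of ⟨M, fun l => hM _ x⟩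
  have hbdd' : ∀ x, IsBoundedUnder (· ≥ ·) atTop (fun l => f (φ l) x) := fun x =>
    isBoundedUnder_of ⟨c, fun l => hc _ x⟩
  have hwm : Measurable w := Measurable.limsup fun l => hfm (φ l)
  have hwlow : ∀ x, c ≤ w x := fun x =>
    le_limsup_of_frequently_le (Frequently.of_forall fun l => hc _ x) (hbdd x)
  have hwM : ∀ x, w x ≤ M := fun x =>
    limsup_le_of_le (hbdd' x).isCoboundedUnder_le (Eventually.of_forall fun l => hM _ x)
  have haew : ∀ᵐ x, Tendsto (fun l => f (φ l) x) atTop (𝓝 (w x)) := by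
    filter_upwards [hae] with x hx
    obtain ⟨t, ht⟩ := hx
    have : w x = t := ht.limsup_eq
    rwa [this]
  refine ⟨φ, hφ, w, hwm, ?_, hwlow, hwM, haew, ?_⟩
  · intro v hv x
    simp only [hw, hper _ v hv]
  · have hwb : ∀ x, |w x| ≤ B := fun x => hbd _ (hwlow x) (hwM x)
    have h1 : Tendsto (fun l => ∫ x, |f (φ l) x - w x| ∂μ) atTop (𝓝 (∫ x, (0 : ℝ) ∂μ)) := by
      refine tendsto_integral_of_dominated_convergence (fun _ => B + B) ?_ ?_ ?_ ?_
      · exact fun l => ((hfm _).sub hwm).abs.aestronglyMeasurable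
      · exact integrableOn_const (ZSpan.fundamentalDomain_isBounded b).measure_lt_top.ne
      · refine fun l => Filter.Eventually.of_forall fun x => ?_
        rw [Real.norm_eq_abs, abs_abs]
        have := abs_sub (f (φ l) x) (w x)
        linarith [hfb (φ l) x, hwb x]
      · filter_upwards [ae_restrict_of_ae haew] with x hx
        have := (hx.sub_const (w x)).abs
        simpa using this
    simpa using h1

end H68.CF
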