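import Pool.Agent.H68.CF.LimDef
import Pool.Agent.H68.CF.TdLow

/-!
# [H68 CF LiftA] Lifting through the covering `E n → X`

`p = p'` of a `LimData` is a quotient map: continuous (`lip`), onto and open: if `ball x ρ ⊂ U` and
`dist (p x) (p y) < ρ/M` then by `low` some `y + v`, `v ∈ Lat b`, lies in `ball x ρ` and
`p (y + v) = p y` (`per`). `p x = p y ↔ y - x ∈ Lat b` (`low` with distance zero, `per`).
`Lat b` is discrete (`exists_min_vec`). So `Topology.IsQuotientMap` and the additive version of
`Topology.IsQuotientMap.isQuotientCoveringMap_of_subgroup` (file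
`Mathlib/Topology/Covering/Quotient.lean`), `IsAddQuotientCoveringMap.isCoveringMap` give a
covering map, and `IsCoveringMap.existsUnique_continuousMap_lifts` (file
`Mathlib/Topology/Homotopy/Lifting.lean`; `E n` is simply connected and locally path connected)
gives the lift `F` of the continuous map `p`.
`lat_const`: a continuous function on `E n` with values in `Lat b` is constant (connectedness,
values at distance `< 2 ρ₀` coincide).
-/

open MeasureTheory Set Filter Topology Matrix Polynomial
open scoped ContDiff NNReal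

noncomputable section

namespace H68.CF

variable {n : ℕ} {X : Type} [MetricSpace X] {b b' : Module.Basis (Fin n) ℝ (E n)}
  {c M c' M' : ℝ} {p p' : E n → X} {w w' : E n → ℝ}

theorem p_eq_iff (h : LimData b c M p w) (x y : E n) : p x = p y ↔ y - x ∈ Lat b := by
  constructor
  · intro hxy
    obtain ⟨v, hv, hn⟩ := h.low x y
    rw [hxy, dist_self, mul_zero] at hn
    have h0 : x - y - v = 0 := norm_le_zero_iff.1 hn
    have h1 : y - x = -v := by
      have : x - y = v := sub_eq_zero.1 h0
      rw [← this]; abel
    rw [h1]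
    exact Submodule.neg_mem _ hv
  · intro hxy
    have := h.per (y - x) hxy x
    rw [← this]
    congr 1
    abel

theorem lat_const (b : Module.Basis (Fin n) ℝ (E n)) {f : E n → E n} (hf : Continuous f)
    (hv : ∀ x, f x ∈ Lat b) (x y : E n) : f x = f y := by
  obtain ⟨ρ0, hρ0, hmin⟩ := exists_min_vec b
  have hloc : IsLocallyConstant f := by
    rw [IsLocallyConstant.iff_eventually_eq]
    intro z
    have h1 : ∀ᶠ u in 𝓝 z, dist (f u) (f z) < 2 * ρ0 :=
      (hf.tendsto z).eventually (Metric.ball_mem_nhds _ (by positivity))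
    filter_upwards [h1] with u hu
    by_contra hne
    have h2 := hmin (f u - f z) (Submodule.sub_mem _ (hv u) (hv z)) (sub_ne_zero.2 hne)
    rw [dist_eq_norm] at hu
    linarith
  exact hloc.apply_eq_of_isPreconnected isPreconnected_univ (mem_univ x) (mem_univ y)

private theorem p_continuous (h : LimData b c M p w) : Continuous p := by
  have hc := h.cpos
  refine (LipschitzWith.of_dist_le_mul (K := Real.toNNReal (1 / c)) fun x y => ?_).continuous
  rw [Real.coe_toNNReal _ (by positivity), dist_eq_norm]
  have := h.lip x y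
  rwa [div_eq_inv_mul, ← one_div] at this

private theorem p_open (h : LimData b c M p w) : IsOpenMap p := by
  have hM := h.mpos
  intro U hU
  rw [Metric.isOpen_iff]
  rintro _ ⟨x, hx, rfl⟩
  obtain ⟨ρ, hρ, hb⟩ := Metric.isOpen_iff.1 hU x hx
  refine ⟨ρ / M, by positivity, fun q hq => ?_⟩
  obtain ⟨y, rfl⟩ := h.surj q
  obtain ⟨v, hv, hn⟩ := h.low x y
  refine ⟨y + v, hb ?_, h.per v hv y⟩
  rw [Metric.mem_ball, dist_comm] at hq
  rw [lt_div_iff₀ hM] at hq
  rw [Metric.mem_ball, dist_comm, dist_eq_norm]
  have h1 : x - (y + v) = x - y - v := by abel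
  rw [h1]
  linarith

private theorem p_covering (h : LimData b c M p w) : IsCoveringMap p := by
  have hq : Topology.IsQuotientMap p :=
    (p_open h).isQuotientMap (p_continuous h) h.surj
  have hdisc : DiscreteTopology ((Submodule.span ℤ (Set.range b)).toAddSubgroup : Set (E n)) :=
    inferInstanceAs (DiscreteTopology (Submodule.span ℤ (Set.range b)))
  have h1 := hq.isAddQuotientCoveringMap_of_addSubgroup
    (Submodule.span ℤ (Set.range b)).toAddSubgroup hdisc.isDiscrete
    (fun {e₁ e₂} => by
      rw [p_eq_iff h, ← sub_eq_add_neg]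
      exact Iff.rfl)
  exact IsAddQuotientCoveringMap.isCoveringMap _ _ h1

theorem exists_lift (h : LimData b c M p w) (h' : LimData b' c' M' p' w') {x0 y0 : E n}
    (h0 : p' y0 = p x0) :
    ∃ F : E n → E n, Continuous F ∧ F x0 = y0 ∧ ∀ x, p' (F x) = p x := by
  obtain ⟨F, ⟨hF0, hF⟩, -⟩ := (p_covering h').existsUnique_continuousMap_lifts
    ⟨p, p_continuous h⟩ x0 y0 h0
  exact ⟨F, F.continuous, hF0, fun x => congrFun hF x⟩

end H68.CF
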