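import Pool.Agent.H68.CF.LiftA

/-!
# [H68 CF LiftB] Periodicity and Lipschitz bounds for lifts

Let `F` be continuous with `p' ∘ F = p`.
(1) For `v ∈ Lat b` the continuous function `x ↦ F(x+v) - F(x)` has values in `Lat b'`
(`p_eq_iff`), so it is constant (`lat_const`), `= α v`; `α` is additive on `Lat b`. Let `A` be the
linear map with `A b_i = α b_i`; then `A v = α v` for `v ∈ Lat b` (`Submodule.span_induction`).
(2) `F - A` is continuous and periodic, hence uniformly continuous (compactness of the closure of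
the fundamental domain, or of a large ball), so `F` is uniformly continuous. Choose `δ` with
`‖F x - F y‖ < ρ₀'` for `‖x - y‖ < δ` (`ρ₀'` of `exists_min_vec` for `b'`), and
`M' δ / c < ρ₀'`. For `‖x - y‖ < δ`: by `low` of `h'` there is `v' ∈ Lat b'` with
`‖F x - F y - v'‖ ≤ M' dist (p x) (p y) ≤ (M'/c) ‖x - y‖ < ρ₀'`, so `‖v'‖ < 2 ρ₀'`, `v' = 0`, and
`‖F x - F y‖ ≤ (M'/c) ‖x - y‖`. Subdividing segments the same bound holds for all `x, y`.
(3) `lift_pair`: choose `x0`, `y0` with `p' y0 = p x0` (`surj`), `F` with `F x0 = y0`, `G` with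
`G y0 = x0` (`exists_lift` with the roles exchanged). `G ∘ F` and the identity are lifts of `p`
through `p` which agree at `x0`: their difference is continuous with values in `Lat b`, so
constant `= 0`. Similarly `F ∘ G`.
-/

open MeasureTheory Set Filter Topology Matrix Polynomial
open scoped ContDiff NNReal

noncomputable section

namespace H68.CF

variable {n : ℕ} {X : Type} [MetricSpace X] {b b' : Module.Basis (Fin n) ℝ (E n)}
  {c M c' M' : ℝ} {p p' : E n → X} {w w' : E n → ℝ}

private theorem lift_shift (h : LimData b c M p w) (h' : LimData b' c' M' p' w') {F : E n → E n}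
    (hF : Continuous F) (hp : ∀ x, p' (F x) = p x) {v : E n} (hv : v ∈ Lat b) :
    F v - F 0 ∈ Lat b' ∧ ∀ x, F (x + v) = F x + (F v - F 0) := by
  have h1 : ∀ x, F (x + v) - F x ∈ Lat b' := by
    intro x
    rw [← p_eq_iff h' (F x) (F (x + v)), hp, hp, h.per v hv x]
  have hc : Continuous fun x => F (x + v) - F x :=
    (hF.comp (continuous_id.add continuous_const)).sub hF
  have h2 : ∀ x, F (x + v) - F x = F v - F 0 := by
    intro x
    have h3 := lat_const b' hc h1 x 0
    simp only [zero_add] at h3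
    exact h3
  refine ⟨?_, fun x => ?_⟩
  · rw [← h2 0]
    exact h1 0
  · rw [← h2 x]
    abel

theorem lift_linear (h : LimData b c M p w) (h' : LimData b' c' M' p' w') {F : E n → E n}
    (hF : Continuous F) (hp : ∀ x, p' (F x) = p x) :
    ∃ A : E n →L[ℝ] E n, ∀ v ∈ Lat b, A v ∈ Lat b' ∧ ∀ x, F (x + v) = F x + A v := by
  obtain ⟨A, hA⟩ : ∃ A : E n →L[ℝ] E n, ∀ i, A (b i) = F (b i) - F 0 := by
    refine ⟨LinearMap.toContinuousLinearMap (b.constr ℝ fun i => F (b i) - F 0), fun i => ?_⟩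
    show (b.constr ℝ fun i => F (b i) - F 0) (b i) = _
    rw [Module.Basis.constr_basis]
  let S : AddSubgroup (E n) :=
    { carrier := {v | ∀ x, F (x + v) = F x + A v}
      add_mem' := by
        intro u v hu hv x
        rw [← add_assoc, hv (x + u), hu x, map_add, add_assoc]
      zero_mem' := by
        intro x
        rw [add_zero, map_zero, add_zero]
      neg_mem' := by
        intro v hv x
        have h1 := hv (x + -v)
        rw [neg_add_cancel_right] at h1
        rw [map_neg, h1]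
        abel }
  have hle : Lat b ≤ AddSubgroup.toIntSubmodule S := by
    refine Submodule.span_le.mpr ?_
    rintro _ ⟨i, rfl⟩
    show ∀ x, F (x + b i) = F x + A (b i)
    intro x
    rw [hA i]
    exact (lift_shift h h' hF hp (Submodule.subset_span ⟨i, rfl⟩)).2 x
  refine ⟨A, fun v hv => ?_⟩
  have h1 : ∀ x, F (x + v) = F x + A v := hle hv
  refine ⟨?_, h1⟩
  have h2 := (lift_shift h h' hF hp hv).1
  have h3 := h1 0
  rw [zero_add] at h3
  rw [h3, add_sub_cancel_left] at h2
  exact h2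

private theorem lip_of_local {F : E n → E n} {K δ : ℝ} (hδ : 0 < δ)
    (h : ∀ x y, ‖x - y‖ < δ → ‖F x - F y‖ ≤ K * ‖x - y‖) (x y : E n) :
    ‖F x - F y‖ ≤ K * ‖x - y‖ := by
  obtain ⟨N, hN⟩ := exists_nat_gt (‖x - y‖ / δ)
  have hN0 : 0 < (N : ℝ) := lt_of_le_of_lt (div_nonneg (norm_nonneg _) hδ.le) hN
  have hstep : ‖x - y‖ / N < δ := by
    rw [div_lt_iff₀ hδ] at hN
    rw [div_lt_iff₀ hN0]
    linarith
  obtain ⟨g, hg⟩ : ∃ g : ℕ → E n, g = fun i : ℕ => y + ((i : ℝ) / N) • (x - y) := ⟨_, rfl⟩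
  have hdiff : ∀ i, g i - g (i + 1) = (-(1 / (N : ℝ))) • (x - y) := by
    intro i
    rw [hg]
    simp only
    rw [add_sub_add_left_eq_sub, ← sub_smul]
    congr 1
    push_cast
    field_simp
    ring
  have hnd : ∀ i, ‖g i - g (i + 1)‖ = ‖x - y‖ / N := by
    intro i
    rw [hdiff, norm_smul, norm_neg, norm_div, norm_one, Real.norm_eq_abs, abs_of_pos hN0]
    ring
  have hsum := dist_le_range_sum_dist (fun i => F (g i)) N
  have h0 : g 0 = y := by
    rw [hg]
    simp
  have hNN : g N = x := by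
    rw [hg]
    simp only
    rw [div_self hN0.ne', one_smul]
    abel
  rw [h0, hNN] at hsum
  have hle : ∀ i ∈ Finset.range N, dist (F (g i)) (F (g (i + 1))) ≤ K * (‖x - y‖ / N) := by
    intro i _
    rw [dist_eq_norm, ← hnd i]
    exact h _ _ (by rw [hnd i]; exact hstep)
  have h2 := hsum.trans (Finset.sum_le_sum hle)
  rw [Finset.sum_const, Finset.card_range, nsmul_eq_mul, dist_comm, dist_eq_norm] at h2
  have h3 : (N : ℝ) * (K * (‖x - y‖ / N)) = K * ‖x - y‖ := by field_simp
  rw [h3] at h2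
  exact h2

theorem lift_lipschitz (h : LimData b c M p w) (h' : LimData b' c' M' p' w') {F : E n → E n}
    (hF : Continuous F) (hp : ∀ x, p' (F x) = p x) : ∃ L : ℝ≥0, LipschitzWith L F := by
  obtain ⟨A, hA⟩ := lift_linear h h' hF hp
  obtain ⟨ρ0, hρ0, hmin⟩ := exists_min_vec b'
  obtain ⟨R, hR⟩ := (ZSpan.fundamentalDomain_isBounded b).subset_closedBall 0
  have huc := (isCompact_closedBall (0 : E n) (R + 1)).uniformContinuousOn_of_continuous
    hF.continuousOn
  obtain ⟨δ, hδ, hδF⟩ := Metric.uniformContinuousOn_iff.mp huc ρ0 hρ0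
  -- uniform continuity at scale rho0
  have hu : ∀ x y, ‖x - y‖ < min δ 1 → ‖F x - F y‖ < ρ0 := by
    intro x y hxy
    have hx1 : x = ZSpan.fract b x + (ZSpan.floor b x : E n) := by
      rw [ZSpan.fract_apply]
      abel
    obtain ⟨v, hv⟩ : ∃ v : E n, v = (ZSpan.floor b x : E n) := ⟨_, rfl⟩
    have hvL : v ∈ Lat b := by
      rw [hv]
      exact (ZSpan.floor b x).2
    obtain ⟨x1, hx1'⟩ : ∃ x1 : E n, x1 = ZSpan.fract b x := ⟨_, rfl⟩
    rw [← hv, ← hx1'] at hx1
    have hy1 : y = (y - v) + v := by abel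
    have hdxy : x1 - (y - v) = x - y := by
      rw [hx1]
      abel
    have hFx : F x = F x1 + A v := by
      conv_lhs => rw [hx1]
      exact (hA v hvL).2 x1
    have hFy : F y = F (y - v) + A v := by
      conv_lhs => rw [hy1]
      exact (hA v hvL).2 (y - v)
    rw [hFx, hFy, add_sub_add_right_eq_sub]
    have hx1R : ‖x1‖ ≤ R := by
      have h1 := hR (ZSpan.fract_mem_fundamentalDomain b x)
      rw [← hx1', Metric.mem_closedBall, dist_zero_right] at h1
      exact h1
    have hyv : ‖y - v‖ ≤ R + 1 := by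
      have h1 : y - v = x1 - (x1 - (y - v)) := by abel
      rw [h1]
      refine (norm_sub_le _ _).trans ?_
      rw [hdxy]
      have := lt_of_lt_of_le hxy (min_le_right δ 1)
      linarith
    have h2 := hδF x1 (by
      rw [Metric.mem_closedBall, dist_zero_right]
      linarith) (y - v) (by
      rw [Metric.mem_closedBall, dist_zero_right]
      exact hyv) (by
      rw [dist_eq_norm, hdxy]
      exact lt_of_lt_of_le hxy (min_le_left δ 1))
    rwa [dist_eq_norm] at h2
  obtain ⟨K, hK⟩ : ∃ K : ℝ, K = M' / c := ⟨_, rfl⟩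
  have hK0 : 0 < K := by
    rw [hK]
    exact div_pos h'.mpos h.cpos
  have hloc : ∀ x y, ‖x - y‖ < min (min δ 1) (ρ0 / K) → ‖F x - F y‖ ≤ K * ‖x - y‖ := by
    intro x y hxy
    obtain ⟨v, hv, hvle⟩ := h'.low (F x) (F y)
    rw [hp, hp] at hvle
    have h1 : M' * dist (p x) (p y) ≤ K * ‖x - y‖ := by
      have h2 := mul_le_mul_of_nonneg_left (h.lip x y) h'.mpos.le
      have h3 : M' * (‖x - y‖ / c) = K * ‖x - y‖ := by
        rw [hK]
        ring
      linarith
    have h4 : K * ‖x - y‖ < ρ0 := by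
      have h5 := lt_of_lt_of_le hxy (min_le_right _ _)
      rw [lt_div_iff₀ hK0] at h5
      linarith
    have h6 := hu x y (lt_of_lt_of_le hxy (min_le_left _ _))
    have hv0 : v = 0 := by
      by_contra hne
      have h7 := hmin v hv hne
      have h8 : ‖v‖ ≤ ‖F x - F y‖ + ‖F x - F y - v‖ := by
        have h9 : v = (F x - F y) - (F x - F y - v) := by abel
        calc ‖v‖ = ‖(F x - F y) - (F x - F y - v)‖ := by rw [← h9]
          _ ≤ _ := norm_sub_le _ _
      linarith
    rw [hv0, sub_zero] at hvle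
    exact hvle.trans h1
  refine ⟨Real.toNNReal K, LipschitzWith.of_dist_le_mul fun x y => ?_⟩
  rw [dist_eq_norm, dist_eq_norm, Real.coe_toNNReal _ hK0.le]
  exact lip_of_local (lt_min (lt_min hδ one_pos) (div_pos hρ0 hK0)) hloc x y

theorem lift_pair (h : LimData b c M p w) (h' : LimData b' c' M' p' w') :
    ∃ F G : E n → E n, (∃ L : ℝ≥0, LipschitzWith L F) ∧ (∃ L : ℝ≥0, LipschitzWith L G) ∧
      (∀ x, G (F x) = x) ∧ (∀ x, F (G x) = x) ∧ (∀ x, p' (F x) = p x) ∧
      (∀ x, p (G x) = p' x) ∧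
      (∃ A : E n →L[ℝ] E n, ∀ v ∈ Lat b, A v ∈ Lat b' ∧ ∀ x, F (x + v) = F x + A v) ∧
      (∃ B : E n →L[ℝ] E n, ∀ v ∈ Lat b', B v ∈ Lat b ∧ ∀ x, G (x + v) = G x + B v) := by
  obtain ⟨y0, hy0⟩ := h'.surj (p 0)
  obtain ⟨F, hF, hF0, hFp⟩ := exists_lift h h' hy0
  obtain ⟨G, hG, hG0, hGp⟩ := exists_lift h' h hy0.symm
  refine ⟨F, G, lift_lipschitz h h' hF hFp, lift_lipschitz h' h hG hGp, ?_, ?_, hFp, hGp,
    lift_linear h h' hF hFp, lift_linear h' h hG hGp⟩
  · intro x
    have h1 : ∀ x, G (F x) - x ∈ Lat b := by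
      intro x
      rw [← p_eq_iff h x (G (F x)), hGp, hFp]
    have hc : Continuous fun x => G (F x) - x := (hG.comp hF).sub continuous_id
    have h2 := lat_const b hc h1 x 0
    simp only [hF0, hG0, sub_zero] at h2
    exact sub_eq_zero.mp h2
  · intro x
    have h1 : ∀ x, F (G x) - x ∈ Lat b' := by
      intro x
      rw [← p_eq_iff h' x (F (G x)), hFp, hGp]
    have hc : Continuous fun x => F (G x) - x := (hF.comp hG).sub continuous_id
    have h2 := lat_const b' hc h1 x y0
    simp only [hG0, hF0, sub_self] at h2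
    exact sub_eq_zero.mp h2

end H68.CF
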