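import Pool.Agent.H68.CF.Defs

/-!
# [H68 CF LimDef] The structure of the limit space (definition only)
-/

open MeasureTheory Set Filter Topology Matrix Polynomial
open scoped ContDiff NNReal

noncomputable section

namespace H68.CF

variable {n : ℕ}

/-- `p : E n → X` presents the compact metric space `X` as the torus `E n / Lat b` with a distance
whose metric differential is `1/w` almost everywhere. -/
structure LimData (b : Module.Basis (Fin n) ℝ (E n)) (c M : ℝ) {X : Type} [MetricSpace X]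
    (p : E n → X) (w : E n → ℝ) : Prop where
  cpos : 0 < c
  mpos : 0 < M
  surj : Function.Surjective p
  lip : ∀ x y, dist (p x) (p y) ≤ ‖x - y‖ / c
  low : ∀ x y, ∃ v ∈ Lat b, ‖x - y - v‖ ≤ M * dist (p x) (p y)
  per : ∀ v ∈ Lat b, ∀ x, p (x + v) = p x
  meas : Measurable w
  wlow : ∀ x, c ≤ w x
  wup : ∀ x, w x ≤ M
  wper : ∀ v ∈ Lat b, ∀ x, w (x + v) = w x
  md : ∀ᵐ x : E n, ∀ ε : ℝ, 0 < ε → ∃ δ : ℝ, 0 < δ ∧ ∀ h : E n, ‖h‖ < δ →
    |dist (p x) (p (x + h)) - ‖h‖ / w x| ≤ ε * ‖h‖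

end H68.CF
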