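import Pool.Agent.H68.CF.SubB
import Pool.Agent.H68.CF.FdMeas

/-!
# [H68 CF LowA] Local upper bound by the value of the limit

Let `x` be a Lebesgue point of `w`: `⨍_{ball x r} |w - w(x)| → 0` (a.e. `x`:
`IsUnifLocDoublingMeasure.ae_tendsto_average_norm_sub` or similar; `w` is bounded, measurable).
For `y ∈ ball x r`, `sub_mean` with `a = w(x)`:
`f_l(y) - w(x) ≤ K r^{-n} ∫_{ball y r} |f_l - w(x)| + K Λ r²
 ≤ K r^{-n} (∫_{ball x (2r)} |w - w(x)| + ∫_{ball x (2r)} |f_l - w|) + K Λ r²`.
First choose `r` small so that the first and the last term are `≤ ε/3`, then the middle term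
tends to `0` as `l → ∞` (`ball_le_fd_meas`). `ρ = r`.
-/

open MeasureTheory Set Filter Topology Matrix Polynomial
open scoped ContDiff NNReal

noncomputable section

namespace H68.CF

variable {n : ℕ}

private theorem intOn_bdd {f : E n → ℝ} (hf : Measurable f) {K : ℝ} (hK : ∀ x, |f x| ≤ K)
    {s : Set (E n)} (hs : volume s ≠ ⊤) : IntegrableOn f s := by
  refine Measure.integrableOn_of_bounded hs hf.aestronglyMeasurable (M := K) ?_
  exact Filter.Eventually.of_forall fun x => by simpa [Real.norm_eq_abs] using hK x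

theorem local_sup (b : Module.Basis (Fin n) ℝ (E n)) {f : ℕ → E n → ℝ} {w : E n → ℝ}
    {c M Λ : ℝ} (hΛ : 0 ≤ Λ) (hf : ∀ l, ContDiff ℝ ∞ (f l)) (hlow : ∀ l x, c ≤ f l x)
    (hM : ∀ l x, f l x ≤ M) (hper : ∀ l, ∀ v ∈ Lat b, ∀ x, f l (x + v) = f l x)
    (hlap : ∀ l x, -Λ ≤ Matrix.trace (hess (f l) x)) (hw : Measurable w)
    (hwper : ∀ v ∈ Lat b, ∀ x, w (x + v) = w x) (hwlow : ∀ x, c ≤ w x) (hwM : ∀ x, w x ≤ M)
    (hL1 : Tendsto (fun l => ∫ x in ZSpan.fundamentalDomain b, |f l x - w x|) atTop (𝓝 0)) :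
    ∀ᵐ x : E n, ∀ ε : ℝ, 0 < ε → ∃ ρ : ℝ, 0 < ρ ∧ ∀ᶠ l in atTop,
      ∀ y ∈ Metric.ball x ρ, f l y ≤ w x + ε := by
  set B : ℝ := |c| + |M| with hB
  have hbd : ∀ t : ℝ, c ≤ t → t ≤ M → |t| ≤ B := by
    intro t h1 h2
    rw [abs_le]
    constructor
    · have := neg_abs_le c; have := abs_nonneg M; linarith
    · have := le_abs_self M; have := abs_nonneg c; linarith
  have hwb : ∀ x, |w x| ≤ B := fun x => hbd _ (hwlow x) (hwM x)
  have hfb : ∀ l x, |f l x| ≤ B := fun l x => hbd _ (hlow l x) (hM l x)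
  have hloc : LocallyIntegrable w volume := by
    rw [MeasureTheory.locallyIntegrable_iff]
    intro k hk
    exact intOn_bdd hw hwb hk.measure_lt_top.ne
  obtain ⟨K, hK, hsub⟩ := sub_mean n
  filter_upwards [IsUnifLocDoublingMeasure.ae_tendsto_average_norm_sub volume hloc 1]
    with x hx ε hε
  have hA := hx (ι := ℝ) (l := 𝓝[>] (0 : ℝ)) (fun _ => x) (fun r => r) tendsto_id
    (by
      filter_upwards [self_mem_nhdsWithin] with r hr
      have hr' : (0 : ℝ) < r := hr
      simpa using hr'.le)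
  set β : ℝ := (volume (Metric.ball (0 : E n) 1)).toReal with hβ
  have hβ0 : 0 ≤ β := ENNReal.toReal_nonneg
  -- choice of the radius
  have h1 : Tendsto (fun r : ℝ => K * (β * 2 ^ n) *
      (⨍ y in Metric.closedBall x (2 * r), ‖w y - w x‖)) (𝓝[>] (0 : ℝ)) (𝓝 0) := by
    have h2 : Tendsto (fun r : ℝ => 2 * r) (𝓝[>] (0 : ℝ)) (𝓝[>] (0 : ℝ)) := by
      refine tendsto_nhdsWithin_of_tendsto_nhds_of_eventually_within _ ?_ ?_
      · have : Tendsto (fun r : ℝ => 2 * r) (𝓝 (0 : ℝ)) (𝓝 (2 * 0)) :=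
          (continuous_const.mul continuous_id).tendsto 0
        rw [mul_zero] at this
        exact this.mono_left nhdsWithin_le_nhds
      · filter_upwards [self_mem_nhdsWithin] with r hr
        have hr' : (0 : ℝ) < r := hr
        exact Set.mem_Ioi.2 (by positivity)
    have h3 := (hA.comp h2).const_mul (K * (β * 2 ^ n))
    simpa using h3
  have h4 : Tendsto (fun r : ℝ => K * Λ * r ^ 2) (𝓝[>] (0 : ℝ)) (𝓝 0) := by
    have : Tendsto (fun r : ℝ => K * Λ * r ^ 2) (𝓝 (0 : ℝ)) (𝓝 (K * Λ * 0 ^ 2)) :=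
      (continuous_const.mul (continuous_id.pow 2)).tendsto 0
    simp only [ne_eq, OfNat.ofNat_ne_zero, not_false_eq_true, zero_pow, mul_zero] at this
    exact this.mono_left nhdsWithin_le_nhds
  have hε3 : 0 < ε / 3 := by positivity
  obtain ⟨r, hr1, hr2, hr0⟩ : ∃ r : ℝ, K * (β * 2 ^ n) *
      (⨍ y in Metric.closedBall x (2 * r), ‖w y - w x‖) < ε / 3 ∧ K * Λ * r ^ 2 < ε / 3 ∧
      0 < r := by
    have := ((h1.eventually (gt_mem_nhds hε3)).and ((h4.eventually (gt_mem_nhds hε3)).and
      (self_mem_nhdsWithin (a := (0 : ℝ)) (s := Set.Ioi 0)))).exists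
    obtain ⟨r, a1, a2, a3⟩ := this
    exact ⟨r, a1, a2, a3⟩
  obtain ⟨K', hK', hball⟩ := ball_le_fd_meas b (3 * r)
  have h5 : Tendsto (fun l => K * ((r ^ n)⁻¹ *
      (K' * ∫ x in ZSpan.fundamentalDomain b, |f l x - w x|))) atTop (𝓝 0) := by
    have := ((hL1.const_mul K').const_mul ((r ^ n)⁻¹)).const_mul K
    simpa using this
  refine ⟨r, hr0, ?_⟩
  filter_upwards [h5.eventually (gt_mem_nhds hε3)] with l hl y hy
  have h6 := hsub (f l) (hf l) Λ hΛ (hlap l) (w x) y r hr0
  have hvol : ∀ s : ℝ, volume (Metric.closedBall x s) ≠ ⊤ := fun s =>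
    measure_closedBall_lt_top.ne
  have mf : Measurable (f l) := (hf l).continuous.measurable
  have hsubset : Metric.ball y r ⊆ Metric.closedBall x (2 * r) := by
    intro z hz
    rw [Metric.mem_closedBall]
    rw [Metric.mem_ball] at hz hy
    have := dist_triangle z y x
    linarith
  have i1 : IntegrableOn (fun z => |f l z - w x|) (Metric.closedBall x (2 * r)) :=
    (intOn_bdd (mf.sub measurable_const) (K := B + B) (fun z => by
      have := abs_sub (f l z) (w x)
      simp only [Pi.sub_apply]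
      linarith [hfb l z, hwb x]) (hvol _)).abs
  have i2 : IntegrableOn (fun z => |f l z - w z|) (Metric.closedBall x (2 * r)) :=
    (intOn_bdd (mf.sub hw) (K := B + B) (fun z => by
      have := abs_sub (f l z) (w z)
      simp only [Pi.sub_apply]
      linarith [hfb l z, hwb z]) (hvol _)).abs
  have i2' : IntegrableOn (fun z => |f l z - w z|) (Metric.ball x (3 * r)) :=
    (intOn_bdd (mf.sub hw) (K := B + B) (fun z => by
      have := abs_sub (f l z) (w z)
      simp only [Pi.sub_apply]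
      linarith [hfb l z, hwb z]) measure_ball_lt_top.ne).abs
  have i3 : IntegrableOn (fun z => ‖w z - w x‖) (Metric.closedBall x (2 * r)) := by
    exact (intOn_bdd (hw.sub measurable_const) (K := B + B) (fun z => by
      have := abs_sub (w z) (w x)
      simp only [Pi.sub_apply]
      linarith [hwb z, hwb x]) (hvol (2 * r))).abs
  have e1 : ∫ z in Metric.ball y r, |f l z - w x| ≤
      ∫ z in Metric.closedBall x (2 * r), |f l z - w x| :=
    setIntegral_mono_set i1 (Filter.Eventually.of_forall fun z => abs_nonneg _)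
      (Filter.Eventually.of_forall hsubset)
  have e2 : ∫ z in Metric.closedBall x (2 * r), |f l z - w x| ≤
      (∫ z in Metric.closedBall x (2 * r), |f l z - w z|) +
        ∫ z in Metric.closedBall x (2 * r), ‖w z - w x‖ := by
    rw [← integral_add i2 i3]
    refine integral_mono i1 (i2.add i3) fun z => ?_
    have := abs_sub_le (f l z) (w z) (w x)
    simpa [Real.norm_eq_abs] using this
  have e3 : ∫ z in Metric.closedBall x (2 * r), |f l z - w z| ≤
      K' * ∫ x in ZSpan.fundamentalDomain b, |f l x - w x| := by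
    have hb1 : ∫ z in Metric.closedBall x (2 * r), |f l z - w z| ≤
        ∫ z in Metric.ball x (3 * r), |f l z - w z| :=
      setIntegral_mono_set i2' (Filter.Eventually.of_forall fun z => abs_nonneg _)
        (Filter.Eventually.of_forall (Metric.closedBall_subset_ball (by linarith)))
    refine hb1.trans (hball (fun z => |f l z - w z|) (mf.sub hw).abs ⟨B + B, fun z => ?_⟩ ?_
      (fun z => abs_nonneg _) x)
    · have := abs_sub (f l z) (w z)
      linarith [hfb l z, hwb z]
    · intro v hv z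
      rw [hper l v hv z, hwper v hv z]
  have e4 : ∫ z in Metric.closedBall x (2 * r), ‖w z - w x‖ =
      r ^ n * ((β * 2 ^ n) * ⨍ z in Metric.closedBall x (2 * r), ‖w z - w x‖) := by
    have hv : (volume (Metric.closedBall x (2 * r))).toReal = (2 * r) ^ n * β := by
      rw [Measure.addHaar_closedBall volume x (by positivity : (0 : ℝ) ≤ 2 * r)]
      rw [finrank_euclideanSpace_fin, ENNReal.toReal_mul, ENNReal.toReal_ofReal (by positivity)]
    have hv0 : (volume (Metric.closedBall x (2 * r))).toReal ≠ 0 := by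
      have h1 : 0 < volume (Metric.closedBall x (2 * r)) :=
        Metric.measure_closedBall_pos volume x (by positivity)
      exact (ENNReal.toReal_pos h1.ne' (hvol _)).ne'
    rw [setAverage_eq, smul_eq_mul]
    unfold Measure.real
    rw [hv] at hv0 ⊢
    have h7 : r ^ n * (β * 2 ^ n * (((2 * r) ^ n * β)⁻¹ *
        ∫ z in Metric.closedBall x (2 * r), ‖w z - w x‖)) =
        (((2 * r) ^ n * β) * ((2 * r) ^ n * β)⁻¹) *
          ∫ z in Metric.closedBall x (2 * r), ‖w z - w x‖ := by
      rw [mul_pow]; ring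
    rw [h7, mul_inv_cancel₀ hv0, one_mul]
  have hrn : 0 < r ^ n := by positivity
  have e5 : K * ((r ^ n)⁻¹ * ∫ z in Metric.ball y r, |f l z - w x|) ≤
      K * ((r ^ n)⁻¹ * (K' * ∫ x in ZSpan.fundamentalDomain b, |f l x - w x|)) +
        K * (β * 2 ^ n) * ⨍ z in Metric.closedBall x (2 * r), ‖w z - w x‖ := by
    have e6 : ∫ z in Metric.ball y r, |f l z - w x| ≤
        (K' * ∫ x in ZSpan.fundamentalDomain b, |f l x - w x|) +
        r ^ n * ((β * 2 ^ n) * ⨍ z in Metric.closedBall x (2 * r), ‖w z - w x‖) := by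
      rw [← e4]; linarith
    have e7 := mul_le_mul_of_nonneg_left (mul_le_mul_of_nonneg_left e6 (inv_nonneg.2 hrn.le)) hK
    refine e7.trans (le_of_eq ?_)
    field_simp
  linarith

end H68.CF
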