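import Pool.Agent.H68.CF.Defs

/-!
# [H68 CF UpB] Upper metric derivative

`u = 1/w` is measurable and bounded, so by the Lebesgue differentiation theorem
(`IsUnifLocDoublingMeasure.ae_tendsto_average_norm_sub` or
`Besicovitch`/`VitaliFamily.ae_tendsto_average_norm_sub`) for a.e. `x`:
`⨍_{ball x r} |u - u(x)| → 0` as `r → 0`. Fix such `x` and `ε > 0`, put `s = ε c/4` (and `s ≤ 1`),
`η = s ‖h‖`, `y = x + h`. For `t ∈ [0,1]`
`⨍_{z ∈ ball 0 η} |u(x + t h + z) - u(x)| dz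
 ≤ (vol ball 0 ((1+s)‖h‖)/vol ball 0 (s‖h‖)) ⨍_{ball x ((1+s)‖h‖)} |u - u(x)|
 = ((1+s)/s)^n ⨍_{ball x ((1+s)‖h‖)} |u - u(x)| ≤ ε/2` for `‖h‖` small. Hence
`D x (x+h) ≤ 2 s ‖h‖/c + ‖h‖ (u(x) + ε/2) ≤ ‖h‖ (u(x) + ε)`. (`h = 0`: let `η → 0` in the hypothesis, so
`D x x ≤ 0`.)
-/

open MeasureTheory Set Filter Topology Matrix Polynomial
open scoped ContDiff NNReal

noncomputable section

namespace H68.CF

variable {n : ℕ}

private theorem ub_vol {η : ℝ} (hη : 0 < η) :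
    (volume (Metric.ball (0 : E n) η)).toReal =
      η ^ n * (volume : Measure (E n)).real (Metric.ball (0 : E n) 1) := by
  rw [Measure.addHaar_ball_of_pos _ _ hη, ENNReal.toReal_mul, finrank_euclideanSpace_fin,
    ENNReal.toReal_ofReal (by positivity)]
  rfl

/-- the estimate at a Lebesgue point -/
private theorem ub_avg {w : E n → ℝ} {c : ℝ} (hc : 0 < c) (hw : Measurable w)
    (hwlow : ∀ x, c ≤ w x) {x h : E n} {s κ t : ℝ} (hs : 0 < s) (hh : 0 < ‖h‖)
    (ht : t ∈ Icc (0 : ℝ) 1)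
    (hκ : ⨍ y in Metric.closedBall x ((1 + s) * ‖h‖), ‖(w y)⁻¹ - (w x)⁻¹‖ ≤
      κ * (s / (1 + s)) ^ n) :
    (volume (Metric.ball (0 : E n) (s * ‖h‖))).toReal⁻¹ *
      ∫ z in Metric.ball (0 : E n) (s * ‖h‖), (w (x + t • h + z))⁻¹ ≤ (w x)⁻¹ + κ := by
  have hη : 0 < s * ‖h‖ := mul_pos hs hh
  have hr : 0 < (1 + s) * ‖h‖ := mul_pos (by linarith) hh
  have hV1 : 0 < (volume : Measure (E n)).real (Metric.ball (0 : E n) 1) :=
    ENNReal.toReal_pos (Metric.measure_ball_pos volume 0 one_pos).ne' measure_ball_lt_top.ne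
  have hbd : ∀ v, ‖(w v)⁻¹‖ ≤ c⁻¹ := by
    intro v
    rw [norm_inv, Real.norm_of_nonneg (hc.le.trans (hwlow v))]
    exact inv_anti₀ hc (hwlow v)
  have hbd2 : ∀ v, ‖‖(w v)⁻¹ - (w x)⁻¹‖‖ ≤ c⁻¹ + c⁻¹ := by
    intro v
    rw [norm_norm]
    exact (norm_sub_le _ _).trans (add_le_add (hbd v) (hbd x))
  have hm2 : Measurable fun v => ‖(w v)⁻¹ - (w x)⁻¹‖ := (hw.inv.sub_const _).norm
  have hbt : volume (Metric.ball (0 : E n) (s * ‖h‖)) < ⊤ := measure_ball_lt_top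
  have hfin1 : IsFiniteMeasure (volume.restrict (Metric.ball (0 : E n) (s * ‖h‖))) :=
    ⟨by rw [Measure.restrict_apply_univ]; exact hbt⟩
  have hfin2 : IsFiniteMeasure (volume.restrict (Metric.closedBall x ((1 + s) * ‖h‖))) :=
    ⟨by rw [Measure.restrict_apply_univ]; exact measure_closedBall_lt_top⟩
  have hmt : Measurable fun z : E n => x + t • h + z := measurable_const_add _
  have hi1 : IntegrableOn (fun z => (w (x + t • h + z))⁻¹)
      (Metric.ball (0 : E n) (s * ‖h‖)) :=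
    Integrable.of_bound ((hw.comp hmt).inv.aestronglyMeasurable) c⁻¹
      (ae_of_all _ fun z => hbd _)
  have hi2 : IntegrableOn (fun z => ‖(w (x + t • h + z))⁻¹ - (w x)⁻¹‖)
      (Metric.ball (0 : E n) (s * ‖h‖)) :=
    Integrable.of_bound ((hm2.comp hmt).aestronglyMeasurable) (c⁻¹ + c⁻¹)
      (ae_of_all _ fun z => hbd2 _)
  have hi3 : IntegrableOn (fun v => ‖(w v)⁻¹ - (w x)⁻¹‖)
      (Metric.closedBall x ((1 + s) * ‖h‖)) :=
    Integrable.of_bound (hm2.aestronglyMeasurable) (c⁻¹ + c⁻¹) (ae_of_all _ fun z => hbd2 _)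
  -- translate
  have h1 : ∫ z in Metric.ball (0 : E n) (s * ‖h‖), ‖(w (x + t • h + z))⁻¹ - (w x)⁻¹‖ =
      ∫ v in Metric.ball (x + t • h) (s * ‖h‖), ‖(w v)⁻¹ - (w x)⁻¹‖ := by
    rw [← integral_indicator measurableSet_ball, ← integral_indicator measurableSet_ball,
      ← integral_add_left_eq_self ((Metric.ball (x + t • h) (s * ‖h‖)).indicator
        fun v => ‖(w v)⁻¹ - (w x)⁻¹‖) (x + t • h)]
    congr 1
    funext z
    have hiff : x + t • h + z ∈ Metric.ball (x + t • h) (s * ‖h‖) ↔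
        z ∈ Metric.ball (0 : E n) (s * ‖h‖) := by
      rw [mem_ball_iff_norm, mem_ball_iff_norm, add_sub_cancel_left, sub_zero]
    by_cases hz : z ∈ Metric.ball (0 : E n) (s * ‖h‖)
    · rw [indicator_of_mem hz, indicator_of_mem (hiff.2 hz)]
    · rw [indicator_of_notMem hz, indicator_of_notMem (fun h => hz (hiff.1 h))]
  have hsub : Metric.ball (x + t • h) (s * ‖h‖) ⊆ Metric.closedBall x ((1 + s) * ‖h‖) := by
    intro v hv
    rw [mem_ball_iff_norm] at hv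
    rw [mem_closedBall_iff_norm]
    have e1 : v - x = (v - (x + t • h)) + t • h := by abel
    have e2 : ‖t • h‖ ≤ ‖h‖ := by
      rw [norm_smul, Real.norm_of_nonneg ht.1]
      exact mul_le_of_le_one_left (norm_nonneg _) ht.2
    rw [e1]
    refine (norm_add_le _ _).trans ?_
    linarith
  have h2 : ∫ v in Metric.ball (x + t • h) (s * ‖h‖), ‖(w v)⁻¹ - (w x)⁻¹‖ ≤
      ∫ v in Metric.closedBall x ((1 + s) * ‖h‖), ‖(w v)⁻¹ - (w x)⁻¹‖ :=
    setIntegral_mono_set hi3 (ae_of_all _ fun v => norm_nonneg _) hsub.eventuallyLE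
  have hVr : (volume : Measure (E n)).real (Metric.closedBall x ((1 + s) * ‖h‖)) =
      ((1 + s) * ‖h‖) ^ n * (volume : Measure (E n)).real (Metric.ball (0 : E n) 1) := by
    rw [Measure.addHaar_real_closedBall _ _ hr.le, finrank_euclideanSpace_fin]
  rw [setAverage_eq, hVr, smul_eq_mul] at hκ
  rw [ub_vol hη]
  set V1 := (volume : Measure (E n)).real (Metric.ball (0 : E n) 1) with hV1def
  set J := ∫ v in Metric.closedBall x ((1 + s) * ‖h‖), ‖(w v)⁻¹ - (w x)⁻¹‖ with hJ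
  have h3 : J ≤ κ * ((s * ‖h‖) ^ n * V1) := by
    have h4 : J = (((1 + s) * ‖h‖) ^ n * V1) * ((((1 + s) * ‖h‖) ^ n * V1)⁻¹ * J) := by
      rw [← mul_assoc, mul_inv_cancel₀ (by positivity), one_mul]
    rw [h4]
    calc (((1 + s) * ‖h‖) ^ n * V1) * ((((1 + s) * ‖h‖) ^ n * V1)⁻¹ * J)
        ≤ (((1 + s) * ‖h‖) ^ n * V1) * (κ * (s / (1 + s)) ^ n) :=
          mul_le_mul_of_nonneg_left hκ (by positivity)
      _ = κ * ((s * ‖h‖) ^ n * V1) := by
          have h5 : (s * ‖h‖) ^ n = ((1 + s) * ‖h‖) ^ n * (s / (1 + s)) ^ n := by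
            rw [← mul_pow]
            congr 1
            field_simp
          rw [h5]
          ring
  have h4 : ∫ z in Metric.ball (0 : E n) (s * ‖h‖), (w (x + t • h + z))⁻¹ ≤
      (w x)⁻¹ * ((s * ‖h‖) ^ n * V1) + J := by
    have h5 : ∫ z in Metric.ball (0 : E n) (s * ‖h‖), (w (x + t • h + z))⁻¹ ≤
        ∫ z in Metric.ball (0 : E n) (s * ‖h‖),
          ((w x)⁻¹ + ‖(w (x + t • h + z))⁻¹ - (w x)⁻¹‖) := by
      refine integral_mono hi1 ((integrable_const _).add hi2) fun z => ?_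
      have := le_abs_self ((w (x + t • h + z))⁻¹ - (w x)⁻¹)
      rw [← Real.norm_eq_abs] at this
      change (w (x + t • h + z))⁻¹ ≤ (w x)⁻¹ + ‖(w (x + t • h + z))⁻¹ - (w x)⁻¹‖
      linarith
    rw [integral_add (integrable_const _) hi2, setIntegral_const, h1, smul_eq_mul] at h5
    have h6 : (volume : Measure (E n)).real (Metric.ball (0 : E n) (s * ‖h‖)) =
        (s * ‖h‖) ^ n * V1 := ub_vol hη
    rw [h6] at h5
    linarith
  have hVη : 0 < (s * ‖h‖) ^ n * V1 := by positivity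
  rw [inv_mul_le_iff₀ hVη]
  linarith

theorem up_diff {w : E n → ℝ} {c : ℝ} (hc : 0 < c) (hw : Measurable w)
    (hwlow : ∀ x, c ≤ w x) {D : E n → E n → ℝ}
    (hD : ∀ (x y : E n) (η : ℝ), 0 < η →
      D x y ≤ 2 * η / c + ‖y - x‖ * ∫ t in (0 : ℝ)..1,
        (volume (Metric.ball (0 : E n) η)).toReal⁻¹ *
          ∫ z in Metric.ball (0 : E n) η, (w (x + t • (y - x) + z))⁻¹) :
    ∀ᵐ x : E n, ∀ ε : ℝ, 0 < ε → ∃ δ : ℝ, 0 < δ ∧ ∀ h : E n, ‖h‖ < δ →
      D x (x + h) ≤ (1 / w x + ε) * ‖h‖ := by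
  have hbd : ∀ v, ‖(w v)⁻¹‖ ≤ c⁻¹ := by
    intro v
    rw [norm_inv, Real.norm_of_nonneg (hc.le.trans (hwlow v))]
    exact inv_anti₀ hc (hwlow v)
  have hloc : LocallyIntegrable (fun v : E n => (w v)⁻¹) volume :=
    (locallyIntegrable_const c⁻¹).mono hw.inv.aestronglyMeasurable
      (ae_of_all _ fun v => (hbd v).trans (le_abs_self _))
  filter_upwards [IsUnifLocDoublingMeasure.ae_tendsto_average_norm_sub
    (μ := (volume : Measure (E n))) hloc 1] with x hx ε hε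
  have hlim := hx (l := 𝓝[>] (0 : ℝ)) (fun _ => x) (fun r => r) tendsto_id
    (eventually_nhdsWithin_of_forall fun r hr =>
      Metric.mem_closedBall_self (by rw [one_mul]; exact (mem_Ioi.1 hr).le))
  set s := min 1 (ε * c / 4) with hs
  have hs0 : 0 < s := lt_min one_pos (by positivity)
  have hs1 : s ≤ 1 := min_le_left _ _
  have hsε : s ≤ ε * c / 4 := min_le_right _ _
  have hκ : 0 < ε / 2 * (s / (1 + s)) ^ n := by positivity
  obtain ⟨r0, hr0, hr0'⟩ := mem_nhdsGT_iff_exists_Ioo_subset.1 (hlim.eventually_lt_const hκ)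
  have hr0p : (0 : ℝ) < r0 := hr0
  refine ⟨r0 / 2, by positivity, fun h hh => ?_⟩
  rcases eq_or_ne h 0 with h0 | h0
  · rw [h0, add_zero, norm_zero, mul_zero]
    refine le_of_forall_pos_le_add fun δ hδ => ?_
    have h1 := hD x x (δ * c / 2) (by positivity)
    rw [sub_self, norm_zero, zero_mul, add_zero] at h1
    refine h1.trans (le_of_eq ?_)
    field_simp
    ring
  · have hhp : 0 < ‖h‖ := norm_pos_iff.2 h0
    have h1 := hD x (x + h) (s * ‖h‖) (mul_pos hs0 hhp)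
    rw [add_sub_cancel_left] at h1
    have hrlt : (1 + s) * ‖h‖ < r0 := by nlinarith
    have hκ2 := (hr0' ⟨mul_pos (by linarith) hhp, hrlt⟩ :
      ⨍ y in Metric.closedBall x ((1 + s) * ‖h‖), ‖(w y)⁻¹ - (w x)⁻¹‖ <
        ε / 2 * (s / (1 + s)) ^ n)
    have h2 : ‖∫ t in (0 : ℝ)..1, (volume (Metric.ball (0 : E n) (s * ‖h‖))).toReal⁻¹ *
          ∫ z in Metric.ball (0 : E n) (s * ‖h‖), (w (x + t • h + z))⁻¹‖ ≤
        ((w x)⁻¹ + ε / 2) * |(1 : ℝ) - 0| := by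
      refine intervalIntegral.norm_integral_le_of_norm_le_const fun t ht => ?_
      rw [uIoc_of_le zero_le_one] at ht
      have h3 := ub_avg hc hw hwlow hs0 hhp ⟨ht.1.le, ht.2⟩ hκ2.le
      have h4 : 0 ≤ (volume (Metric.ball (0 : E n) (s * ‖h‖))).toReal⁻¹ *
          ∫ z in Metric.ball (0 : E n) (s * ‖h‖), (w (x + t • h + z))⁻¹ :=
        mul_nonneg (inv_nonneg.2 ENNReal.toReal_nonneg)
          (integral_nonneg fun z => inv_nonneg.2 (hc.le.trans (hwlow _)))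
      rw [Real.norm_of_nonneg h4]
      exact h3
    rw [sub_zero, abs_one, mul_one] at h2
    have h3 := (le_abs_self _).trans h2
    have h4 : 2 * (s * ‖h‖) / c ≤ ε / 2 * ‖h‖ := by
      rw [div_le_iff₀ hc]
      nlinarith
    have h5 := mul_le_mul_of_nonneg_left h3 hhp.le
    rw [one_div]
    nlinarith

end H68.CF
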