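import Pool.Agent.H68.CF.UpA
import Pool.Agent.H68.CF.UpB
import Pool.Agent.H68.CF.LowA
import Pool.Agent.H68.CF.TdLow

/-!
# [H68 CF MetD] The metric differential of the limit distance

Upper bound: `up_avg`, `up_diff`. Lower bound: for `x` as in `local_sup` and `ε' > 0` take `ρ`
(and `ρ ≤ ρ₀` of `exists_min_vec`); for large `l`, `f_l ≤ w(x) + ε'` on `ball x ρ`, so by
`td_local` `td b (f l) x (x+h) ≥ ‖h‖/(w(x) + ε')` for `‖h‖ < ρ`; in the limit
`D x (x+h) ≥ ‖h‖/(w(x)+ε') ≥ ‖h‖ (1/w(x) - ε'/c²)`. Take `ε' = ε c²`.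
-/

open MeasureTheory Set Filter Topology Matrix Polynomial
open scoped ContDiff NNReal

noncomputable section

namespace H68.CF

variable {n : ℕ}

theorem metric_diff (b : Module.Basis (Fin n) ℝ (E n)) {f : ℕ → E n → ℝ} {w : E n → ℝ}
    {c M Λ : ℝ} (hc : 0 < c) (hΛ : 0 ≤ Λ) (hf : ∀ l, ContDiff ℝ ∞ (f l))
    (hlow : ∀ l x, c ≤ f l x) (hM : ∀ l x, f l x ≤ M)
    (hper : ∀ l, ∀ v ∈ Lat b, ∀ x, f l (x + v) = f l x)
    (hlap : ∀ l x, -Λ ≤ Matrix.trace (hess (f l) x)) (hw : Measurable w)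
    (hwper : ∀ v ∈ Lat b, ∀ x, w (x + v) = w x) (hwlow : ∀ x, c ≤ w x) (hwM : ∀ x, w x ≤ M)
    (hae : ∀ᵐ x, Tendsto (fun l => f l x) atTop (𝓝 (w x)))
    (hL1 : Tendsto (fun l => ∫ x in ZSpan.fundamentalDomain b, |f l x - w x|) atTop (𝓝 0))
    {D : E n → E n → ℝ} (hD : ∀ x y, Tendsto (fun l => td b (f l) x y) atTop (𝓝 (D x y))) :
    ∀ᵐ x : E n, ∀ ε : ℝ, 0 < ε → ∃ δ : ℝ, 0 < δ ∧ ∀ h : E n, ‖h‖ < δ →
      |D x (x + h) - ‖h‖ / w x| ≤ ε * ‖h‖ := by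
  have hup := up_diff hc hw hwlow (D := D) fun x y η hη =>
    up_avg b hc (fun l => (hf l).continuous) hlow hper hw hwlow hae hD x y hη
  have hlo := local_sup b hΛ hf hlow hM hper hlap hw hwper hwlow hwM hL1
  obtain ⟨ρ0, hρ0, hmin⟩ := exists_min_vec b
  filter_upwards [hup, hlo] with x hx1 hx2 ε hε
  obtain ⟨δ1, hδ1, h1⟩ := hx1 ε hε
  obtain ⟨ρ, hρ, h2⟩ := hx2 (ε * c ^ 2) (by positivity)
  have hw0 : 0 < w x := hc.trans_le (hwlow x)
  refine ⟨min δ1 (min ρ ρ0), by positivity, fun h hh => ?_⟩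
  have hh1 : ‖h‖ < δ1 := hh.trans_le (min_le_left _ _)
  have hh2 : ‖h‖ < min ρ ρ0 := hh.trans_le (min_le_right _ _)
  have hup' := h1 h hh1
  have hlow' : ‖h‖ / (w x + ε * c ^ 2) ≤ D x (x + h) := by
    refine ge_of_tendsto (hD x (x + h)) ?_
    filter_upwards [h2] with l hl
    exact td_local b hmin (hf l).continuous (fun z => hc.trans_le (hlow l z))
      (lt_min hρ hρ0) (min_le_right _ _)
      (fun y hy => hl y (Metric.ball_subset_ball (min_le_left _ _) hy)) hh2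
  have hn0 : 0 ≤ ‖h‖ := norm_nonneg h
  rw [abs_le]
  constructor
  · have h3 : 1 / w x - ε ≤ 1 / (w x + ε * c ^ 2) := by
      have hpos : 0 < w x + ε * c ^ 2 := by positivity
      rw [le_div_iff₀ hpos, sub_mul, div_mul_eq_mul_div, one_mul]
      have h4 : (w x + ε * c ^ 2) / w x = 1 + ε * c ^ 2 / w x := by field_simp
      rw [h4]
      have h5 : ε * c ^ 2 / w x ≤ ε * w x := by
        rw [div_le_iff₀ hw0]
        have : c ^ 2 ≤ w x ^ 2 := by
          have := hwlow x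
          exact pow_le_pow_left₀ hc.le this 2
        nlinarith
      have h6 : 0 ≤ ε * (ε * c ^ 2) := by positivity
      nlinarith
    have h7 := mul_le_mul_of_nonneg_right h3 hn0
    have h8 : 1 / (w x + ε * c ^ 2) * ‖h‖ = ‖h‖ / (w x + ε * c ^ 2) := by ring
    have h9 : (1 / w x - ε) * ‖h‖ = ‖h‖ / w x - ε * ‖h‖ := by ring
    linarith
  · have h9 : (1 / w x + ε) * ‖h‖ = ‖h‖ / w x + ε * ‖h‖ := by ring
    linarith

end H68.CF
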