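import Pool.Agent.H68.CF.FdBall

/-!
# [H68 CF Poinc] Translations and the Poincare inequality

`FD = ZSpan.fundamentalDomain b`, `ψ` smooth periodic.
* `trans_grad`: `|ψ(x+z) - ψ(x)| ≤ ‖z‖ ∫_0^1 √(grad2 ψ)(x + t z) dt` (`hasDerivAt_line`,
  `abs_fderiv_le`, fundamental theorem of calculus); integrate over `FD`, Fubini (the integrand is
  continuous and `[0,1] × FD` bounded), `per_translate`.
* `poinc`: let `V = vol FD`, `D` with `‖x - y‖ ≤ D` for `x, y ∈ FD`. For `x ∈ FD`
  `|ψ(x) - V⁻¹ ∫_FD ψ| ≤ V⁻¹ ∫_{y ∈ FD} |ψ(x) - ψ(y)| dy ≤ V⁻¹ ∫_{‖z‖ ≤ D} |ψ(x) - ψ(x+z)| dz`;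
  integrate over `x ∈ FD`, Fubini and `trans_grad`: the result is
  `≤ V⁻¹ vol(closedBall 0 D) D ∫_FD √(grad2 ψ)`.
-/

open MeasureTheory Set Filter Topology Matrix Polynomial
open scoped ContDiff NNReal

noncomputable section

namespace H68.CF

variable {n : ℕ}

private theorem poinc_fin (b : Module.Basis (Fin n) ℝ (E n)) :
    IsFiniteMeasure ((volume : Measure (E n)).restrict (ZSpan.fundamentalDomain b)) := by
  refine ⟨?_⟩
  rw [Measure.restrict_apply MeasurableSet.univ, Set.univ_inter]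
  exact (ZSpan.fundamentalDomain_isBounded b).measure_lt_top

private theorem poinc_s_cont {ψ : E n → ℝ} (hψ : ContDiff ℝ ∞ ψ) :
    Continuous fun x => Real.sqrt (grad2 ψ x) := (contDiff_grad2 hψ).continuous.sqrt

private theorem poinc_s_per {ψ : E n → ℝ} {v : E n} (h : ∀ x, ψ (x + v) = ψ x) (x : E n) :
    Real.sqrt (grad2 ψ (x + v)) = Real.sqrt (grad2 ψ x) := by
  unfold grad2
  simp only [pd_per h]

private theorem poinc_pt {ψ : E n → ℝ} (hψ : ContDiff ℝ ∞ ψ) (z x : E n) :
    |ψ (x + z) - ψ x| ≤ ‖z‖ * ∫ t in Set.Ioc (0 : ℝ) 1, Real.sqrt (grad2 ψ (x + t • z)) := by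
  have hd : Differentiable ℝ ψ := hψ.differentiable (by simp)
  have hfc : Continuous (fderiv ℝ ψ) := hψ.continuous_fderiv (by simp)
  have hlc : Continuous fun t : ℝ => x + t • z :=
    continuous_const.add (continuous_id.smul continuous_const)
  have hder : ∀ t ∈ Set.uIcc (0 : ℝ) 1,
      HasDerivAt (fun s : ℝ => ψ (x + s • z)) (fderiv ℝ ψ (x + t • z) z) t := by
    intro t _
    have h1 := hasDerivAt_line hd x z t
    rw [← fderiv_eq_sum] at h1
    exact h1
  have hcont : Continuous fun t : ℝ => fderiv ℝ ψ (x + t • z) z :=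
    (hfc.comp hlc).clm_apply continuous_const
  have hftc := intervalIntegral.integral_eq_sub_of_hasDerivAt hder
    (hcont.intervalIntegrable 0 1)
  simp only [one_smul, zero_smul, add_zero] at hftc
  rw [← hftc, ← Real.norm_eq_abs, intervalIntegral.integral_of_le zero_le_one,
    ← integral_const_mul]
  have hsc : Continuous fun t : ℝ => ‖z‖ * Real.sqrt (grad2 ψ (x + t • z)) :=
    continuous_const.mul ((poinc_s_cont hψ).comp hlc)
  have hint : IntegrableOn (fun t : ℝ => ‖z‖ * Real.sqrt (grad2 ψ (x + t • z)))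
      (Set.Ioc (0 : ℝ) 1) :=
    (hsc.continuousOn.integrableOn_compact isCompact_Icc).mono_set Set.Ioc_subset_Icc_self
  refine norm_integral_le_of_norm_le hint (Filter.Eventually.of_forall fun t => ?_)
  rw [Real.norm_eq_abs, mul_comm]
  exact abs_fderiv_le ψ (x + t • z) z

theorem trans_grad (b : Module.Basis (Fin n) ℝ (E n)) {ψ : E n → ℝ} (hψ : ContDiff ℝ ∞ ψ)
    (hper : ∀ v ∈ Lat b, ∀ x, ψ (x + v) = ψ x) (z : E n) :
    ∫ x in ZSpan.fundamentalDomain b, |ψ (x + z) - ψ x| ≤
      ‖z‖ * ∫ x in ZSpan.fundamentalDomain b, Real.sqrt (grad2 ψ x) := by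
  have hfin := poinc_fin b
  have hsc := poinc_s_cont hψ
  have hsp : ∀ v ∈ Lat b, ∀ x, Real.sqrt (grad2 ψ (x + v)) = Real.sqrt (grad2 ψ x) :=
    fun v hv x => poinc_s_per (hper v hv) x
  obtain ⟨K, hK⟩ := per_bounded b hsc hsp
  have hHc : Continuous (Function.uncurry fun (x : E n) (t : ℝ) =>
      Real.sqrt (grad2 ψ (x + t • z))) := by
    have h1 : Continuous fun p : E n × ℝ => p.1 + p.2 • z := by fun_prop
    exact hsc.comp h1
  have hH : Integrable (Function.uncurry fun (x : E n) (t : ℝ) =>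
      Real.sqrt (grad2 ψ (x + t • z)))
      (((volume : Measure (E n)).restrict (ZSpan.fundamentalDomain b)).prod
        ((volume : Measure ℝ).restrict (Set.Ioc (0 : ℝ) 1))) := by
    refine (integrable_const K).mono' hHc.aestronglyMeasurable
      (Filter.Eventually.of_forall fun p => ?_)
    rw [Real.norm_eq_abs]
    exact hK _
  have hint : Integrable (fun x : E n => ∫ t in Set.Ioc (0 : ℝ) 1,
      Real.sqrt (grad2 ψ (x + t • z)))
      ((volume : Measure (E n)).restrict (ZSpan.fundamentalDomain b)) := hH.integral_prod_left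
  calc ∫ x in ZSpan.fundamentalDomain b, |ψ (x + z) - ψ x|
      ≤ ∫ x in ZSpan.fundamentalDomain b, ‖z‖ * ∫ t in Set.Ioc (0 : ℝ) 1,
          Real.sqrt (grad2 ψ (x + t • z)) :=
        integral_mono_of_nonneg (Filter.Eventually.of_forall fun x => abs_nonneg _)
          (hint.const_mul _) (Filter.Eventually.of_forall fun x => poinc_pt hψ z x)
    _ = ‖z‖ * ∫ x in ZSpan.fundamentalDomain b, ∫ t in Set.Ioc (0 : ℝ) 1,
          Real.sqrt (grad2 ψ (x + t • z)) := by rw [integral_const_mul]
    _ = ‖z‖ * ∫ t in Set.Ioc (0 : ℝ) 1, ∫ x in ZSpan.fundamentalDomain b,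
          Real.sqrt (grad2 ψ (x + t • z)) := by rw [integral_integral_swap hH]
    _ = ‖z‖ * ∫ x in ZSpan.fundamentalDomain b, Real.sqrt (grad2 ψ x) := by
        congr 1
        have h1 : ∀ t : ℝ, ∫ x in ZSpan.fundamentalDomain b, Real.sqrt (grad2 ψ (x + t • z))
            = ∫ x in ZSpan.fundamentalDomain b, Real.sqrt (grad2 ψ x) := fun t =>
          per_translate b (f := fun x => Real.sqrt (grad2 ψ x)) hsp (t • z)
        simp_rw [h1]
        rw [setIntegral_const, smul_eq_mul]
        simp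

theorem poinc (b : Module.Basis (Fin n) ℝ (E n)) :
    ∃ K : ℝ, 0 ≤ K ∧ ∀ ψ : E n → ℝ, ContDiff ℝ ∞ ψ →
      (∀ v ∈ Lat b, ∀ x, ψ (x + v) = ψ x) →
      ∫ x in ZSpan.fundamentalDomain b,
          |ψ x - (volume (ZSpan.fundamentalDomain b)).toReal⁻¹ *
            ∫ y in ZSpan.fundamentalDomain b, ψ y| ≤
        K * ∫ x in ZSpan.fundamentalDomain b, Real.sqrt (grad2 ψ x) := by
  have hfin := poinc_fin b
  obtain ⟨R, hR⟩ := (ZSpan.fundamentalDomain_isBounded b).subset_closedBall 0
  obtain ⟨V, hV⟩ : ∃ V : ℝ, V = (volume (ZSpan.fundamentalDomain b)).toReal := ⟨_, rfl⟩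
  have hVpos : 0 < V := by
    rw [hV]
    exact ENNReal.toReal_pos (ZSpan.measure_fundamentalDomain_ne_zero b)
      (ZSpan.fundamentalDomain_isBounded b).measure_lt_top.ne
  refine ⟨max R 0, le_max_right _ _, fun ψ hψ hper => ?_⟩
  rw [← hV]
  have hψc : Continuous ψ := hψ.continuous
  obtain ⟨S, hS⟩ : ∃ S : ℝ, S = ∫ x in ZSpan.fundamentalDomain b, Real.sqrt (grad2 ψ x) :=
    ⟨_, rfl⟩
  have hS0 : 0 ≤ S := by
    rw [hS]
    exact integral_nonneg fun x => Real.sqrt_nonneg _
  rw [← hS]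
  obtain ⟨K, hK⟩ := per_bounded b hψc hper
  have hHc : Continuous (Function.uncurry fun (x z : E n) => |ψ (x + z) - ψ x|) := by
    have h1 : Continuous fun p : E n × E n => ψ (p.1 + p.2) :=
      hψc.comp (continuous_fst.add continuous_snd)
    exact (h1.sub (hψc.comp continuous_fst)).abs
  have hH : Integrable (Function.uncurry fun (x z : E n) => |ψ (x + z) - ψ x|)
      (((volume : Measure (E n)).restrict (ZSpan.fundamentalDomain b)).prod
        ((volume : Measure (E n)).restrict (ZSpan.fundamentalDomain b))) := by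
    refine (integrable_const (K + K)).mono' hHc.aestronglyMeasurable
      (Filter.Eventually.of_forall fun p => ?_)
    show ‖|ψ (p.1 + p.2) - ψ p.1|‖ ≤ K + K
    rw [Real.norm_eq_abs, abs_abs]
    exact (abs_sub _ _).trans (add_le_add (hK _) (hK _))
  have hint : Integrable (fun x : E n => ∫ z in ZSpan.fundamentalDomain b,
      |ψ (x + z) - ψ x|)
      ((volume : Measure (E n)).restrict (ZSpan.fundamentalDomain b)) := hH.integral_prod_left
  have hpt : ∀ x : E n, |ψ x - V⁻¹ * ∫ y in ZSpan.fundamentalDomain b, ψ y|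
      ≤ V⁻¹ * ∫ z in ZSpan.fundamentalDomain b, |ψ (x + z) - ψ x| := by
    intro x
    have h1 : ψ x - V⁻¹ * ∫ y in ZSpan.fundamentalDomain b, ψ y
        = V⁻¹ * ∫ y in ZSpan.fundamentalDomain b, (ψ x - ψ y) := by
      rw [integral_sub (integrable_const _) (integrableOn_fd b hψc), setIntegral_const,
        smul_eq_mul]
      show _ = V⁻¹ * ((volume (ZSpan.fundamentalDomain b)).toReal * ψ x - _)
      rw [← hV]
      field_simp
    have h2 : ∫ z in ZSpan.fundamentalDomain b, |ψ (x + z) - ψ x|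
        = ∫ y in ZSpan.fundamentalDomain b, |ψ x - ψ y| := by
      have h3 := per_translate b (f := fun y => |ψ x - ψ y|)
        (fun v hv y => by rw [hper v hv y]) x
      rw [← h3]
      refine integral_congr_ae (Filter.Eventually.of_forall fun z => ?_)
      show |ψ (x + z) - ψ x| = |ψ x - ψ (z + x)|
      rw [abs_sub_comm, add_comm x z]
    rw [h1, h2, abs_mul, abs_of_pos (inv_pos.mpr hVpos)]
    refine mul_le_mul_of_nonneg_left ?_ (inv_nonneg.mpr hVpos.le)
    rw [← Real.norm_eq_abs]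
    exact norm_integral_le_integral_norm _
  calc ∫ x in ZSpan.fundamentalDomain b, |ψ x - V⁻¹ * ∫ y in ZSpan.fundamentalDomain b, ψ y|
      ≤ ∫ x in ZSpan.fundamentalDomain b, V⁻¹ * ∫ z in ZSpan.fundamentalDomain b,
          |ψ (x + z) - ψ x| :=
        integral_mono_of_nonneg (Filter.Eventually.of_forall fun x => abs_nonneg _)
          (hint.const_mul _) (Filter.Eventually.of_forall hpt)
    _ = V⁻¹ * ∫ x in ZSpan.fundamentalDomain b, ∫ z in ZSpan.fundamentalDomain b,
          |ψ (x + z) - ψ x| := by rw [integral_const_mul]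
    _ = V⁻¹ * ∫ z in ZSpan.fundamentalDomain b, ∫ x in ZSpan.fundamentalDomain b,
          |ψ (x + z) - ψ x| := by rw [integral_integral_swap hH]
    _ ≤ V⁻¹ * ∫ z in ZSpan.fundamentalDomain b, max R 0 * S := by
        refine mul_le_mul_of_nonneg_left ?_ (inv_nonneg.mpr hVpos.le)
        refine setIntegral_mono_on hH.integral_prod_right (integrable_const _)
          (ZSpan.fundamentalDomain_measurableSet b) fun z hz => ?_
        have h1 := trans_grad b hψ hper z
        rw [← hS] at h1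
        refine h1.trans (mul_le_mul_of_nonneg_right ?_ hS0)
        have h2 := hR hz
        rw [Metric.mem_closedBall, dist_zero_right] at h2
        exact h2.trans (le_max_left _ _)
    _ = max R 0 * S := by
        rw [setIntegral_const, smul_eq_mul]
        show V⁻¹ * ((volume (ZSpan.fundamentalDomain b)).toReal * _) = _
        rw [← hV]
        field_simp

end H68.CF
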