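import Pool.Agent.H68.CF.SubA
import Pool.Agent.H68.CF.IbpC

/-!
# [H68 CF SubB] Sub-mean value inequality for `Δw ≥ -Λ`

Let `η, H` be as in `exists_kernel`, `φ(r) = ∫ w(y + r z) η(z) dz` for `r ≥ 0`. Then
`φ(0) = w(y)` and `φ'(r) = ∫ ∑_i ∂_i w(y+rz) z_i η(z) dz = - ∫ ∑_i ∂_i w(y+rz) ∂_i H(z) dz
 = r ∫ ∑_i ∂_i ∂_i w (y + rz) H(z) dz ≥ - Λ r ∫ H` (differentiate under the integral sign;
`integral_pd_eq_zero` for the compactly supported functions `z ↦ ∂_i w(y+rz) H(z)`). So
`w(y) ≤ ∫ w(y+rz) η(z) dz + Λ (r²/2) ∫ H`. Apply this to `w - a` (same derivatives); and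
`∫ (w(y+rz) - a) η(z) dz ≤ (sup η) ∫_{ball 0 1} |w(y+rz) - a| dz
 = (sup η) r^{-n} ∫_{ball y r} |w - a|`. `K = max (sup η) (∫ H)`.
(`tr (hess w) = ∑_i pd i (pd i w)`.)
-/

open MeasureTheory Set Filter Topology Matrix Polynomial
open scoped ContDiff NNReal

noncomputable section

namespace H68.CF

variable {n : ℕ}

private theorem sb_pd {g : E n → ℝ} (hg : ContDiff ℝ ∞ g) (y z : E n) (s : ℝ) (i : Fin n) :
    pd i (fun z => g (y + s • z)) z = s * pd i g (y + s • z) := by
  have hne : (∞ : WithTop ℕ∞) ≠ 0 := by simp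
  have h1 : HasFDerivAt (fun z : E n => y + s • z)
      (s • ContinuousLinearMap.id ℝ (E n)) z :=
    ((hasFDerivAt_id z).const_smul s).const_add y
  have h2 : HasFDerivAt g (fderiv ℝ g (y + s • z)) (y + s • z) :=
    ((hg.differentiable hne) _).hasFDerivAt
  have h3 : HasFDerivAt (fun z : E n => g (y + s • z))
      ((fderiv ℝ g (y + s • z)).comp (s • ContinuousLinearMap.id ℝ (E n))) z := h2.comp z h1
  unfold pd
  rw [h3.fderiv]
  simp

private theorem sb_aff (y : E n) (s : ℝ) : ContDiff ℝ ∞ fun z : E n => y + s • z :=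
  contDiff_const.add (contDiff_id.const_smul s)

/-- the derivative of the average -/
private theorem sb_deriv {w η : E n → ℝ} (hw : ContDiff ℝ ∞ w) (hη : ContDiff ℝ ∞ η)
    (h0 : ∀ x, x ∉ Metric.ball (0 : E n) 1 → η x = 0) (hc : HasCompactSupport η)
    (y : E n) (s : ℝ) :
    HasDerivAt (fun r : ℝ => ∫ z, w (y + r • z) * η z)
      (∫ z, (∑ i, z i * pd i w (y + s • z)) * η z) s := by
  have hne : (∞ : WithTop ℕ∞) ≠ 0 := by simp
  have hcont : Continuous fun q : ℝ × E n =>
      (∑ i, q.2 i * pd i w (y + q.1 • q.2)) * η q.2 := by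
    refine Continuous.mul ?_ (hη.continuous.comp continuous_snd)
    refine continuous_finsetSum _ fun i _ => ?_
    refine Continuous.mul ?_ ?_
    · exact (EuclideanSpace.proj (𝕜 := ℝ) i).continuous.comp continuous_snd
    · exact (contDiff_pd hw i).continuous.comp
        (continuous_const.add (continuous_fst.smul continuous_snd))
  obtain ⟨C, hC⟩ := ((isCompact_Icc (a := s - 1) (b := s + 1)).prod
    (isCompact_closedBall (0 : E n) 1)).exists_bound_of_continuousOn hcont.continuousOn
  have hs : Ioo (s - 1) (s + 1) ∈ 𝓝 s := Ioo_mem_nhds (by linarith) (by linarith)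
  refine (hasDerivAt_integral_of_dominated_loc_of_deriv_le (μ := (volume : Measure (E n)))
    (F := fun r z => w (y + r • z) * η z)
    (F' := fun r z => (∑ i, z i * pd i w (y + r • z)) * η z)
    (bound := (Metric.closedBall (0 : E n) 1).indicator fun _ => C) hs ?_ ?_ ?_ ?_ ?_ ?_).2
  · refine Eventually.of_forall fun r => ?_
    exact ((hw.continuous.comp (sb_aff y r).continuous).mul hη.continuous).aestronglyMeasurable
  · exact ((hw.continuous.comp (sb_aff y s).continuous).mul
      hη.continuous).integrable_of_hasCompactSupport hc.mul_left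
  · exact (hcont.comp (Continuous.prodMk_right s)).aestronglyMeasurable
  · refine Eventually.of_forall fun z r hr => ?_
    by_cases hz : z ∈ Metric.closedBall (0 : E n) 1
    · rw [indicator_of_mem hz]
      exact hC (r, z) ⟨Ioo_subset_Icc_self hr, hz⟩
    · have hz' : z ∉ Metric.ball (0 : E n) 1 := fun h => hz (Metric.ball_subset_closedBall h)
      rw [indicator_of_notMem hz, h0 z hz', mul_zero, norm_zero]
  · rw [integrable_indicator_iff measurableSet_closedBall]
    exact integrableOn_const (measure_closedBall_lt_top.ne) (by simp)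
  · refine Eventually.of_forall fun z r _ => ?_
    exact (hasDerivAt_line (hw.differentiable hne) y z r).mul_const (η z)

/-- the derivative in terms of the Laplacian -/
private theorem sb_lap {w η H : E n → ℝ} (hw : ContDiff ℝ ∞ w)
    (hH : ContDiff ℝ ∞ H) (hc : HasCompactSupport H)
    (hp : ∀ i x, pd i H x = - (x i * η x)) (y : E n) (s : ℝ) :
    ∫ z, (∑ i, z i * pd i w (y + s • z)) * η z =
      ∫ z, s * (H z * Matrix.trace (hess w (y + s • z))) := by
  have hne : (∞ : WithTop ℕ∞) ≠ 0 := by simp
  have hg : ∀ i, ContDiff ℝ ∞ fun z : E n => pd i w (y + s • z) := fun i =>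
    (contDiff_pd hw i).comp (sb_aff y s)
  have hf : ∀ i, ContDiff ℝ ∞ fun z : E n => pd i w (y + s • z) * H z := fun i =>
    (hg i).mul hH
  have hfc : ∀ i, HasCompactSupport fun z : E n => pd i w (y + s • z) * H z := fun i =>
    hc.mul_left
  have hpf : ∀ i z, pd i (fun z : E n => pd i w (y + s • z) * H z) z =
      - (z i * pd i w (y + s • z) * η z) + s * (H z * pd i (pd i w) (y + s • z)) := by
    intro i z
    rw [pd_mul (((hg i).differentiable hne) z) ((hH.differentiable hne) z), hp,
      sb_pd (contDiff_pd hw i)]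
    ring
  have hint : ∀ i, Integrable fun z : E n =>
      pd i (fun z : E n => pd i w (y + s • z) * H z) z := by
    intro i
    refine (contDiff_pd (hf i) i).continuous.integrable_of_hasCompactSupport ?_
    exact (hfc i).fderiv_apply ℝ _
  have h1 : ∫ z, ∑ i, pd i (fun z : E n => pd i w (y + s • z) * H z) z = 0 := by
    rw [integral_finsetSum _ fun i _ => hint i]
    exact Finset.sum_eq_zero fun i _ =>
      integral_pd_eq_zero ((hf i).of_le (by simp)) (hfc i) i
  have h2 : ∀ z, s * (H z * Matrix.trace (hess w (y + s • z))) =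
      (∑ i, z i * pd i w (y + s • z)) * η z +
        ∑ i, pd i (fun z : E n => pd i w (y + s • z) * H z) z := by
    intro z
    simp only [hpf]
    rw [Finset.sum_add_distrib, Finset.sum_neg_distrib, Finset.sum_mul, add_neg_cancel_left]
    rw [← Finset.mul_sum, ← Finset.mul_sum]
    rfl
  have hi1 : Integrable fun z : E n => ∑ i, pd i (fun z : E n => pd i w (y + s • z) * H z) z :=
    integrable_finsetSum _ fun i _ => hint i
  have hi2 : Integrable fun z : E n => s * (H z * Matrix.trace (hess w (y + s • z))) := by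
    have hcont : Continuous fun z : E n => Matrix.trace (hess w (y + s • z)) := by
      have h3 : Continuous fun x : E n => ∑ i, hess w x i i :=
        continuous_finsetSum _ fun i _ => (contDiff_hess hw i i).continuous
      exact h3.comp (sb_aff y s).continuous
    exact ((hH.continuous.mul hcont).integrable_of_hasCompactSupport hc.mul_right).const_mul s
  have h3 : ∫ z, (∑ i, z i * pd i w (y + s • z)) * η z =
      ∫ z, (s * (H z * Matrix.trace (hess w (y + s • z))) -
        ∑ i, pd i (fun z : E n => pd i w (y + s • z) * H z) z) := by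
    congr 1
    funext z
    rw [h2 z]
    ring
  rw [h3, integral_sub hi2 hi1, h1, sub_zero]

theorem sub_mean (n : ℕ) :
    ∃ K : ℝ, 0 ≤ K ∧ ∀ w : E n → ℝ, ContDiff ℝ ∞ w → ∀ Λ : ℝ, 0 ≤ Λ →
      (∀ x, -Λ ≤ Matrix.trace (hess w x)) → ∀ (a : ℝ) (y : E n) (r : ℝ), 0 < r →
      w y - a ≤ K * ((r ^ n)⁻¹ * ∫ x in Metric.ball y r, |w x - a|) + K * Λ * r ^ 2 := by
  obtain ⟨η, H, hη, hH, η0, H0, hη1, hH1, hηc, hHc, hηi, hp⟩ := exists_kernel n
  obtain ⟨S, hS⟩ := hη.continuous.bounded_above_of_compact_support hηc
  have hS0 : 0 ≤ S := (norm_nonneg _).trans (hS 0)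
  have hI0 : 0 ≤ ∫ x, H x := integral_nonneg H0
  have hηint : Integrable η := hη.continuous.integrable_of_hasCompactSupport hηc
  have hHint : Integrable H := hH.continuous.integrable_of_hasCompactSupport hHc
  refine ⟨max S (∫ x, H x), hS0.trans (le_max_left _ _), fun w hw Λ hΛ hlap a y r hr => ?_⟩
  -- monotonicity
  have hderiv : ∀ s : ℝ, HasDerivAt
      (fun r : ℝ => (∫ z, w (y + r • z) * η z) + Λ * r ^ 2 / 2 * ∫ x, H x)
      ((∫ z, s * (H z * Matrix.trace (hess w (y + s • z)))) + Λ * s * ∫ x, H x) s := by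
    intro s
    have h1 := sb_deriv hw hη hη1 hηc y s
    rw [sb_lap hw hH hHc hp y s] at h1
    have h2 : HasDerivAt (fun r : ℝ => Λ * r ^ 2 / 2 * ∫ x, H x) (Λ * s * ∫ x, H x) s := by
      have h3 : HasDerivAt (fun r : ℝ => r ^ 2) (2 * s) s := by
        simpa using hasDerivAt_pow 2 s
      have h4 := ((h3.const_mul Λ).div_const 2).mul_const (∫ x, H x)
      refine h4.congr_deriv ?_
      ring
    exact h1.add h2
  have hnn : ∀ s : ℝ, 0 < s →
      0 ≤ (∫ z, s * (H z * Matrix.trace (hess w (y + s • z)))) + Λ * s * ∫ x, H x := by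
    intro s hs
    have hcont : Continuous fun z : E n => Matrix.trace (hess w (y + s • z)) := by
      have h3 : Continuous fun x : E n => ∑ i, hess w x i i :=
        continuous_finsetSum _ fun i _ => (contDiff_hess hw i i).continuous
      exact h3.comp (sb_aff y s).continuous
    have hi2 : Integrable fun z : E n => s * (H z * Matrix.trace (hess w (y + s • z))) :=
      ((hH.continuous.mul hcont).integrable_of_hasCompactSupport hHc.mul_right).const_mul s
    rw [← integral_const_mul, ← integral_add hi2 (hHint.const_mul _)]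
    refine integral_nonneg fun z => ?_
    have h4 := hlap (y + s • z)
    have h5 : 0 ≤ s * H z := mul_nonneg hs.le (H0 z)
    have h6 : 0 ≤ s * H z * (Matrix.trace (hess w (y + s • z)) + Λ) :=
      mul_nonneg h5 (by linarith)
    change 0 ≤ s * (H z * Matrix.trace (hess w (y + s • z))) + Λ * s * H z
    linarith
  have hmono : MonotoneOn
      (fun r : ℝ => (∫ z, w (y + r • z) * η z) + Λ * r ^ 2 / 2 * ∫ x, H x) (Ici 0) := by
    refine monotoneOn_of_deriv_nonneg (convex_Ici 0)
      (fun s _ => (hderiv s).continuousAt.continuousWithinAt)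
      (fun s _ => (hderiv s).differentiableAt.differentiableWithinAt) ?_
    intro s hs
    rw [interior_Ici] at hs
    rw [(hderiv s).deriv]
    exact hnn s hs
  have h1 := hmono (mem_Ici.2 le_rfl) (mem_Ici.2 hr.le) hr.le
  have h2 : ∫ z, w (y + (0 : ℝ) • z) * η z = w y := by
    simp only [zero_smul, add_zero]
    rw [integral_const_mul, hηi, mul_one]
  simp only [h2] at h1
  -- the bound by the integral over the ball
  have hcw : Continuous fun z : E n => w (y + r • z) :=
    hw.continuous.comp (sb_aff y r).continuous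
  have hi3 : Integrable fun z : E n => w (y + r • z) * η z :=
    (hcw.mul hη.continuous).integrable_of_hasCompactSupport hηc.mul_left
  have h3 : (∫ z, w (y + r • z) * η z) - a = ∫ z, (w (y + r • z) - a) * η z := by
    have : (∫ z, w (y + r • z) * η z) - a = (∫ z, w (y + r • z) * η z) - ∫ z, a * η z := by
      rw [integral_const_mul, hηi, mul_one]
    rw [this, ← integral_sub hi3 (hηint.const_mul a)]
    congr 1
    funext z
    ring
  have hball : ∀ z : E n, (Metric.ball y r).indicator (fun x => |w x - a|) (y + r • z) =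
      (Metric.ball (0 : E n) 1).indicator (fun z => |w (y + r • z) - a|) z := by
    intro z
    have hiff : y + r • z ∈ Metric.ball y r ↔ z ∈ Metric.ball (0 : E n) 1 := by
      rw [mem_ball_iff_norm, mem_ball_iff_norm, add_sub_cancel_left, sub_zero, norm_smul,
        Real.norm_of_nonneg hr.le]
      constructor
      · intro h
        by_contra hn
        push Not at hn
        nlinarith
      · intro h
        nlinarith
    by_cases hz : z ∈ Metric.ball (0 : E n) 1
    · rw [indicator_of_mem hz, indicator_of_mem (hiff.2 hz)]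
    · rw [indicator_of_notMem hz, indicator_of_notMem (fun h => hz (hiff.1 h))]
  have h4 : ∫ z, (Metric.ball (0 : E n) 1).indicator (fun z => |w (y + r • z) - a|) z =
      (r ^ n)⁻¹ * ∫ x in Metric.ball y r, |w x - a| := by
    have e1 := Measure.integral_comp_smul_of_nonneg (volume : Measure (E n))
      (fun x => (Metric.ball y r).indicator (fun x => |w x - a|) (y + x)) r (hR := hr.le)
    simp only [hball] at e1
    rw [e1, finrank_euclideanSpace_fin, smul_eq_mul,
      integral_add_left_eq_self ((Metric.ball y r).indicator fun x => |w x - a|) y,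
      integral_indicator measurableSet_ball]
  have hi4 : Integrable fun z : E n =>
      S * (Metric.ball (0 : E n) 1).indicator (fun z => |w (y + r • z) - a|) z := by
    refine Integrable.const_mul ?_ S
    rw [integrable_indicator_iff measurableSet_ball]
    exact ((hcw.sub continuous_const).abs.continuousOn.integrableOn_compact
      (isCompact_closedBall (0 : E n) 1)).mono_set Metric.ball_subset_closedBall
  have hi5 : Integrable fun z : E n => (w (y + r • z) - a) * η z :=
    ((hcw.sub continuous_const).mul hη.continuous).integrable_of_hasCompactSupport hηc.mul_left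
  have h5 : ∫ z, (w (y + r • z) - a) * η z ≤
      S * ((r ^ n)⁻¹ * ∫ x in Metric.ball y r, |w x - a|) := by
    rw [← h4, ← integral_const_mul]
    refine integral_mono hi5 hi4 fun z => ?_
    change (w (y + r • z) - a) * η z ≤
      S * (Metric.ball (0 : E n) 1).indicator (fun z => |w (y + r • z) - a|) z
    by_cases hz : z ∈ Metric.ball (0 : E n) 1
    · rw [indicator_of_mem hz]
      have h6 : η z ≤ S := (le_abs_self _).trans (hS z)
      calc (w (y + r • z) - a) * η z ≤ |w (y + r • z) - a| * η z :=
            mul_le_mul_of_nonneg_right (le_abs_self _) (η0 z)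
        _ ≤ |w (y + r • z) - a| * S := mul_le_mul_of_nonneg_left h6 (abs_nonneg _)
        _ = S * |w (y + r • z) - a| := mul_comm _ _
    · rw [indicator_of_notMem hz, hη1 z hz, mul_zero, mul_zero]
  have hJ : 0 ≤ (r ^ n)⁻¹ * ∫ x in Metric.ball y r, |w x - a| :=
    mul_nonneg (by positivity) (integral_nonneg fun x => abs_nonneg _)
  have h6 : S * ((r ^ n)⁻¹ * ∫ x in Metric.ball y r, |w x - a|) ≤
      max S (∫ x, H x) * ((r ^ n)⁻¹ * ∫ x in Metric.ball y r, |w x - a|) :=
    mul_le_mul_of_nonneg_right (le_max_left _ _) hJ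
  have h7 : Λ * r ^ 2 / 2 * (∫ x, H x) ≤ max S (∫ x, H x) * Λ * r ^ 2 := by
    have h8 : (∫ x, H x) ≤ max S (∫ x, H x) := le_max_right _ _
    have h9 : 0 ≤ Λ * r ^ 2 := by positivity
    nlinarith [mul_le_mul_of_nonneg_left h8 h9, mul_nonneg h9 hI0]
  have h8 : w y + Λ * (0 : ℝ) ^ 2 / 2 * (∫ x, H x) = w y := by ring
  rw [h8] at h1
  linarith

end H68.CF
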