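import Pool.Agent.H68.CF.AvgPath
import Pool.Agent.H68.CF.SubB
import Pool.Agent.H68.CF.EnergyZ
import Pool.Agent.H68.CF.Poinc
import Pool.Agent.H68.CF.SecPair

/-!
# [H68 CF SupB] Upper bound for `w` if the torus is not collapsed

Let `V = vol FD`, `K = max (-κ) 0`, `w = g.w`, `a = V⁻¹ ∫_FD w ≥ c > 0`.
(1) `trace_sec`, `energy_sqrt`, `poinc`: `∫_FD |w - a| ≤ C₁` (`C₁` depends on `b, κ`).
(2) Pointwise `1/w ≤ 2/a + (2/(c a)) |w - a|` (if `w ≥ a/2` the first term suffices, otherwise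
`|w - a| ≥ a/2` and the second is `≥ 1/c ≥ 1/w`). So `∫_FD 1/w ≤ C₂/a`.
(3) `td_le_avg` with `η = δ c/8`: `δ ≤ δ/4 + ‖y0 - x0‖ (vol ball 0 η)⁻¹ K' ∫_FD 1/w`, where
`∫_{ball p η} f ≤ K' ∫_FD f` (`ball_le_fd`; translate the ball:
`∫_{z ∈ ball 0 η} f(p+z) = ∫_{ball p η} f`). So `3δ/4 ≤ C₃/a`, i.e. `a ≤ C₄`.
(4) `laplace_ge` and `sub_mean` with `r = 1`, `a = 0`, `Λ = n K/(2c)`, and `ball_le_fd`:
`w y ≤ K₅ (∫_{ball y 1} w + Λ) ≤ K₅ (K₆ V a + Λ) ≤ M`.
-/

open MeasureTheory Set Filter Topology Matrix Polynomial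
open scoped ContDiff NNReal

noncomputable section

namespace H68.CF

variable {n : ℕ}

private theorem sb_int (b : Module.Basis (Fin n) ℝ (E n)) {f : E n → ℝ} (hf : Continuous f) :
    IntegrableOn f (ZSpan.fundamentalDomain b) := by
  obtain ⟨ρ, hρ⟩ := (ZSpan.fundamentalDomain_isBounded b).subset_closedBall 0
  exact (hf.continuousOn.integrableOn_compact (isCompact_closedBall 0 ρ)).mono_set hρ

private theorem sb_shift (f : E n → ℝ) (p : E n) (η : ℝ) :
    ∫ z in Metric.ball (0 : E n) η, f (p + z) = ∫ z in Metric.ball p η, f z := by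
  rw [← integral_indicator measurableSet_ball, ← integral_indicator measurableSet_ball,
    ← integral_add_left_eq_self ((Metric.ball p η).indicator f) p]
  refine integral_congr_ae (ae_of_all _ fun z => ?_)
  by_cases h : z ∈ Metric.ball (0 : E n) η
  · have h' : p + z ∈ Metric.ball p η := by
      rw [mem_ball_zero_iff] at h
      rw [mem_ball_iff_norm, add_sub_cancel_left]
      exact h
    simp only [Set.indicator_of_mem h, Set.indicator_of_mem h']
  · have h' : p + z ∉ Metric.ball p η := by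
      intro h1
      apply h
      rw [mem_ball_iff_norm, add_sub_cancel_left] at h1
      rw [mem_ball_zero_iff]
      exact h1
    simp only [Set.indicator_of_notMem h, Set.indicator_of_notMem h']

private theorem sb_point {w a c : ℝ} (hc : 0 < c) (hw : c ≤ w) (ha : 0 < a) :
    w⁻¹ ≤ 2 / a + 2 / (c * a) * |w - a| := by
  have hw0 : 0 < w := hc.trans_le hw
  have h0 : 0 ≤ 2 / (c * a) * |w - a| := by positivity
  have h00 : 0 ≤ 2 / a := by positivity
  rcases le_or_gt (a / 2) w with h | h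
  · have h1 : w⁻¹ ≤ 2 / a := by
      rw [inv_le_comm₀ hw0 (by positivity), inv_div]
      exact h
    linarith
  · have h1 : a / 2 ≤ |w - a| := by
      rw [abs_sub_comm]
      exact le_trans (by linarith) (le_abs_self _)
    have h2 : c⁻¹ ≤ 2 / (c * a) * |w - a| := by
      have h3 : c⁻¹ = 2 / (c * a) * (a / 2) := by field_simp
      rw [h3]
      exact mul_le_mul_of_nonneg_left h1 (by positivity)
    have h4 : w⁻¹ ≤ c⁻¹ := inv_anti₀ hc hw
    linarith

theorem sup_bound (hn : 2 ≤ n) (b : Module.Basis (Fin n) ℝ (E n)) (κ : ℝ) {c : ℝ}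
    (hc : 0 < c) (x0 y0 : E n) {δ : ℝ} (hδ : 0 < δ) :
    ∃ M : ℝ, 0 < M ∧ ∀ g : ConfFactor b, (∀ x, c ≤ g.w x) → SecGe (conf g.w) κ →
      δ ≤ td b g.w x0 y0 → ∀ x, g.w x ≤ M := by
  obtain ⟨hV, hVt⟩ := fd_pos b
  obtain ⟨V, hVdef⟩ : ∃ V, V = (volume (ZSpan.fundamentalDomain b)).toReal := ⟨_, rfl⟩
  rw [← hVdef] at hV
  obtain ⟨K, hKdef⟩ : ∃ K, K = max (-κ) 0 := ⟨_, rfl⟩
  have hK0 : 0 ≤ K := by
    rw [hKdef]
    exact le_max_right _ _
  obtain ⟨Kp, hKp, hpo⟩ := poinc b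
  obtain ⟨C1, hC1def⟩ : ∃ C1, C1 = Kp * ((1 + K) * V) := ⟨_, rfl⟩
  have hC1 : 0 ≤ C1 := by
    rw [hC1def]
    positivity
  obtain ⟨η, hηdef⟩ : ∃ η, η = δ * c / 8 := ⟨_, rfl⟩
  have hη : 0 < η := by
    rw [hηdef]
    positivity
  obtain ⟨K', hK', hball⟩ := ball_le_fd b η
  obtain ⟨K6, hK6, hball1⟩ := ball_le_fd b 1
  obtain ⟨Ks, hKs, hsub⟩ := sub_mean n
  obtain ⟨W, hWdef⟩ : ∃ W, W = (volume (Metric.ball (0 : E n) η)).toReal := ⟨_, rfl⟩
  have hW : 0 < W := by
    rw [hWdef]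
    exact ENNReal.toReal_pos (Metric.measure_ball_pos volume 0 hη).ne' measure_ball_lt_top.ne
  obtain ⟨C2, hC2def⟩ : ∃ C2, C2 = 2 * V + 2 * C1 / c := ⟨_, rfl⟩
  have hC2 : 0 ≤ C2 := by
    rw [hC2def]
    positivity
  obtain ⟨C3, hC3def⟩ : ∃ C3, C3 = ‖y0 - x0‖ * (W⁻¹ * (K' * C2)) := ⟨_, rfl⟩
  have hC3 : 0 ≤ C3 := by
    rw [hC3def]
    positivity
  obtain ⟨C4, hC4def⟩ : ∃ C4, C4 = 4 * C3 / (3 * δ) := ⟨_, rfl⟩
  have hC4 : 0 ≤ C4 := by
    rw [hC4def]
    positivity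
  obtain ⟨Λ, hΛdef⟩ : ∃ Λ, Λ = (n : ℝ) * K / (2 * c) := ⟨_, rfl⟩
  have hΛ : 0 ≤ Λ := by
    rw [hΛdef]
    positivity
  refine ⟨Ks * (K6 * (V * C4)) + Ks * Λ + 1, by positivity, fun g hlow hsec htd y => ?_⟩
  have hwc : Continuous g.w := g.smooth.continuous
  have hIw : IntegrableOn g.w (ZSpan.fundamentalDomain b) := sb_int b hwc
  obtain ⟨a, hadef⟩ : ∃ a, a = V⁻¹ * ∫ x in ZSpan.fundamentalDomain b, g.w x := ⟨_, rfl⟩
  have hIa : ∫ x in ZSpan.fundamentalDomain b, g.w x = V * a := by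
    rw [hadef, ← mul_assoc, mul_inv_cancel₀ hV.ne', one_mul]
  have ha : 0 < a := by
    have h1 : ∫ _ in ZSpan.fundamentalDomain b, c ≤ ∫ x in ZSpan.fundamentalDomain b, g.w x :=
      setIntegral_mono (integrableOn_const hVt) hIw hlow
    rw [setIntegral_const, hIa, smul_eq_mul] at h1
    have h2 : volume.real (ZSpan.fundamentalDomain b) = V := hVdef.symm
    rw [h2] at h1
    exact hc.trans_le (le_of_mul_le_mul_left h1 hV)
  -- (1)
  have h1 : ∫ x in ZSpan.fundamentalDomain b, |g.w x - a| ≤ C1 := by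
    have h2 := hpo g.w g.smooth g.per
    rw [← hVdef, ← hadef] at h2
    have h3 := energy_sqrt b g.smooth g.per hK0 (by
      rw [hKdef]
      exact trace_sec hn g.smooth g.pos hsec)
    rw [← hVdef] at h3
    rw [hC1def]
    exact h2.trans (mul_le_mul_of_nonneg_left h3 hKp)
  -- (2)
  have hinvc : Continuous (fun x => (g.w x)⁻¹) := hwc.inv₀ fun x => (g.pos x).ne'
  have h2 : ∫ x in ZSpan.fundamentalDomain b, (g.w x)⁻¹ ≤ C2 / a := by
    have i1 : IntegrableOn (fun _ : E n => 2 / a) (ZSpan.fundamentalDomain b) :=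
      integrableOn_const hVt
    have i2 : IntegrableOn (fun x => 2 / (c * a) * |g.w x - a|) (ZSpan.fundamentalDomain b) :=
      sb_int b (continuous_const.mul (hwc.sub continuous_const).abs)
    have i3 : IntegrableOn (fun x => 2 / a + 2 / (c * a) * |g.w x - a|)
        (ZSpan.fundamentalDomain b) := i1.add i2
    have h3 : ∫ x in ZSpan.fundamentalDomain b, (g.w x)⁻¹ ≤
        ∫ x in ZSpan.fundamentalDomain b, (2 / a + 2 / (c * a) * |g.w x - a|) :=
      setIntegral_mono (sb_int b hinvc) i3 fun x => sb_point hc (hlow x) ha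
    rw [integral_add i1 i2, setIntegral_const, integral_const_mul, smul_eq_mul] at h3
    have h4 : volume.real (ZSpan.fundamentalDomain b) = V := hVdef.symm
    rw [h4] at h3
    have h5 : 2 / (c * a) * ∫ x in ZSpan.fundamentalDomain b, |g.w x - a| ≤ 2 / (c * a) * C1 :=
      mul_le_mul_of_nonneg_left h1 (by positivity)
    have h6 : V * (2 / a) + 2 / (c * a) * C1 = C2 / a := by
      rw [hC2def]
      field_simp
    linarith
  have hI0 : 0 ≤ ∫ x in ZSpan.fundamentalDomain b, (g.w x)⁻¹ :=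
    integral_nonneg fun x => (inv_pos.2 (g.pos x)).le
  -- (3)
  have h3 : ∫ t in (0 : ℝ)..1, W⁻¹ *
        ∫ z in Metric.ball (0 : E n) η, (g.w (x0 + t • (y0 - x0) + z))⁻¹ ≤
      W⁻¹ * (K' * ∫ x in ZSpan.fundamentalDomain b, (g.w x)⁻¹) := by
    have hp : ∀ t : ℝ, W⁻¹ * ∫ z in Metric.ball (0 : E n) η, (g.w (x0 + t • (y0 - x0) + z))⁻¹ ≤
        W⁻¹ * (K' * ∫ x in ZSpan.fundamentalDomain b, (g.w x)⁻¹) := by
      intro t
      refine mul_le_mul_of_nonneg_left ?_ (by positivity)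
      have e := sb_shift (fun x => (g.w x)⁻¹) (x0 + t • (y0 - x0)) η
      rw [e]
      exact hball _ hinvc (fun v hv x => by rw [g.per v hv]) (fun x => (inv_pos.2 (g.pos x)).le) _
    by_cases hi : IntervalIntegrable (fun t => W⁻¹ *
        ∫ z in Metric.ball (0 : E n) η, (g.w (x0 + t • (y0 - x0) + z))⁻¹) volume 0 1
    · have h4 := intervalIntegral.integral_mono_on zero_le_one hi
        (intervalIntegrable_const (c := W⁻¹ * (K' *
          ∫ x in ZSpan.fundamentalDomain b, (g.w x)⁻¹))) (fun t _ => hp t)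
      rw [intervalIntegral.integral_const, sub_zero, one_smul] at h4
      exact h4
    · rw [intervalIntegral.integral_undef hi]
      positivity
  have h4 := htd.trans (td_le_avg b hc hwc hlow g.per x0 y0 hη)
  rw [← hWdef] at h4
  have h5 : 2 * η / c = δ / 4 := by
    rw [hηdef]
    field_simp
    norm_num
  rw [h5] at h4
  have h6 : ‖y0 - x0‖ * ∫ t in (0 : ℝ)..1, W⁻¹ *
        ∫ z in Metric.ball (0 : E n) η, (g.w (x0 + t • (y0 - x0) + z))⁻¹ ≤ C3 / a := by
    have e : C3 / a = ‖y0 - x0‖ * (W⁻¹ * (K' * (C2 / a))) := by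
      rw [hC3def]
      ring
    rw [e]
    refine mul_le_mul_of_nonneg_left (h3.trans ?_) (norm_nonneg _)
    exact mul_le_mul_of_nonneg_left (mul_le_mul_of_nonneg_left h2 hK') (by positivity)
  have haC : a ≤ C4 := by
    have h7 : 3 * δ / 4 ≤ C3 / a := by linarith
    rw [le_div_iff₀ ha] at h7
    rw [hC4def, le_div_iff₀ (by positivity)]
    linarith
  -- (4)
  have h8 := hsub g.w g.smooth Λ hΛ (by
    rw [hΛdef, hKdef]
    exact laplace_ge hn g.smooth hc hlow hsec) 0 y 1 one_pos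
  have h9 : ∫ x in Metric.ball y 1, |g.w x - 0| ≤ K6 * (V * a) := by
    have e : ∀ x, |g.w x - 0| = g.w x := fun x => by rw [sub_zero, abs_of_pos (g.pos x)]
    simp only [e]
    rw [← hIa]
    exact hball1 _ hwc g.per (fun x => (g.pos x).le) _
  rw [one_pow, inv_one, one_mul, one_pow, mul_one, sub_zero] at h8
  have h10 : Ks * ∫ x in Metric.ball y 1, |g.w x - 0| ≤ Ks * (K6 * (V * C4)) := by
    refine mul_le_mul_of_nonneg_left (h9.trans ?_) hKs
    exact mul_le_mul_of_nonneg_left (mul_le_mul_of_nonneg_left haC hV.le) hK6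
  linarith

end H68.CF
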