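import Pool.Agent.H68.CF.LimDef
import Pool.Agent.H68.CF.MetD
import Pool.Agent.H68.CF.SupB
import Pool.Agent.H68.CF.L1A
import Pool.Agent.H68.CF.L1B
import Pool.Agent.H68.CF.GhSub

/-!
# [H68 CF LimEx] Existence of the limit data

(1) `gh_sub`: `φ₁`, `p`, `td b (g (φ₁ l)).w x y → dist (p x) (p y)`. As `X.Rep` is nontrivial and
`p` onto, some `δ₀ = dist (p x0) (p y0) > 0`; for large `l` `td ≥ δ₀/2`; drop finitely many `l`
(shift the subsequence), so that this holds for all `l`.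
(2) `sup_bound`: `(g (φ₁ l)).w ≤ M` for all `l`.
(3) `f l = (g (φ₁ l)).w` satisfies the hypotheses of `l1_cauchy`: `trans_grad`, `trace_sec`,
`energy_sqrt` (module `Poinc`, `EnergyZ`, `SecPair`) with
`C = (1 + max (-κ) 0) vol FD`. Then `l1_limit`: subsequence and `w`. (Compose subsequences.)
(4) `lip`: limit of `td_le_dist`. `low`: `td_lower` gives `v_l ∈ Lat b` with
`‖x - y - v_l‖ ≤ M td_l ≤ M ‖x - y‖/c`, bounded, hence finitely many possible `v_l` (discreteness; or use that the `v_l` have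
a convergent subsequence and `Lat b` is closed), one of which occurs infinitely often.
`per`: `dist (p (x+v)) (p x) = lim td (x+v) x = lim td x x = 0` (`td_per_left`, `td_self`).
`md`: `metric_diff` with `Λ = n max(-κ) 0/(2c)` (`laplace_ge`).
-/

open MeasureTheory Set Filter Topology Matrix Polynomial
open scoped ContDiff NNReal

noncomputable section

namespace H68.CF

variable {n : ℕ} {b : Module.Basis (Fin n) ℝ (E n)}

open GromovHausdorff

private theorem isClosed_lat (b : Module.Basis (Fin n) ℝ (E n)) :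
    IsClosed ((Lat b : Submodule ℤ (E n)) : Set (E n)) := by
  have : DiscreteTopology (Submodule.span ℤ (Set.range b)).toAddSubgroup :=
    inferInstanceAs (DiscreteTopology (Submodule.span ℤ (Set.range b)))
  exact AddSubgroup.isClosed_of_discrete (H := (Submodule.span ℤ (Set.range b)).toAddSubgroup)

/-- Limits of the lower bounds. -/
private theorem low_limit (b : Module.Basis (Fin n) ℝ (E n)) {M : ℝ} {x y : E n} {t : ℕ → ℝ}
    {T : ℝ} (ht : Tendsto t atTop (𝓝 T))
    (h : ∀ l, ∃ v ∈ Lat b, ‖x - y - v‖ ≤ M * t l) :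
    ∃ v ∈ Lat b, ‖x - y - v‖ ≤ M * T := by
  choose v hv hv' using h
  have htM : Tendsto (fun l => M * t l) atTop (𝓝 (M * T)) := ht.const_mul M
  obtain ⟨R, hR⟩ := htM.bddAbove_range
  have hbd : ∀ l, v l ∈ Metric.closedBall (x - y) R := by
    intro l
    rw [Metric.mem_closedBall, dist_eq_norm, ← norm_neg]
    have : -(v l - (x - y)) = x - y - v l := by abel
    rw [this]
    exact (hv' l).trans (hR ⟨l, rfl⟩)
  obtain ⟨u, -, ψ, hψ, hu⟩ := (isCompact_closedBall (x - y) R).tendsto_subseq hbd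
  refine ⟨u, ?_, ?_⟩
  · exact (isClosed_lat b).mem_of_tendsto hu (Eventually.of_forall fun l => hv (ψ l))
  · refine le_of_tendsto_of_tendsto ((tendsto_const_nhds.sub hu).norm)
      (htM.comp hψ.tendsto_atTop) (Eventually.of_forall fun l => hv' (ψ l))

theorem lim_exists (hn : 2 ≤ n) {κ c : ℝ} (hc : 0 < c) (g : ℕ → ConfFactor b)
    (hlow : ∀ l x, c ≤ (g l).w x) (hsec : ∀ l, SecGe (conf (g l).w) κ) {X : GHSpace}
    (hnt : Nontrivial X.Rep) (hX : Tendsto (fun l => toGHSpace (Torus (g l))) atTop (𝓝 X)) :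
    ∃ φ : ℕ → ℕ, StrictMono φ ∧ ∃ M : ℝ, 0 < M ∧ (∀ l x, (g (φ l)).w x ≤ M) ∧
      ∃ (p : E n → X.Rep) (w : E n → ℝ), LimData b c M p w ∧
        Tendsto (fun l => ∫ x in ZSpan.fundamentalDomain b, |(g (φ l)).w x - w x|)
          atTop (𝓝 0) := by
  obtain ⟨φ0, hφ0, p, hp, hpt⟩ := gh_sub g hc hlow hX
  obtain ⟨q1, q2, hq⟩ := exists_pair_ne X.Rep
  obtain ⟨x0, rfl⟩ := hp q1
  obtain ⟨y0, rfl⟩ := hp q2
  have hδ : 0 < dist (p x0) (p y0) := dist_pos.2 hq
  have hev := (hpt x0 y0).eventually (eventually_ge_nhds (half_lt_self hδ))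
  obtain ⟨N, hN⟩ := eventually_atTop.1 hev
  set φ1 : ℕ → ℕ := fun l => φ0 (l + N) with hφ1def
  have hφ1 : StrictMono φ1 := fun i j hij => hφ0 (by omega)
  have hpt1 : ∀ x y, Tendsto (fun l => td b (g (φ1 l)).w x y) atTop (𝓝 (dist (p x) (p y))) :=
    fun x y => (hpt x y).comp (tendsto_add_atTop_nat N)
  obtain ⟨M, hM0, hM⟩ := sup_bound hn b κ hc x0 y0 (half_pos hδ)
  have hMl : ∀ l x, (g (φ1 l)).w x ≤ M := fun l x =>
    hM (g (φ1 l)) (hlow _) (hsec _) (hN _ (by omega)) x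
  set K : ℝ := max (-κ) 0
  have hK : 0 ≤ K := le_max_right _ _
  set C : ℝ := (1 + K) * (volume (ZSpan.fundamentalDomain b)).toReal
  have htrans : ∀ l z, ∫ x in ZSpan.fundamentalDomain b,
      |(g (φ1 l)).w (x + z) - (g (φ1 l)).w x| ≤ C * ‖z‖ := by
    intro l z
    have h1 := trans_grad b (g (φ1 l)).smooth (g (φ1 l)).per z
    have h2 := energy_sqrt b (g (φ1 l)).smooth (g (φ1 l)).per hK
      (fun x => trace_sec hn (g (φ1 l)).smooth (g (φ1 l)).pos (hsec _) x)
    calc _ ≤ _ := h1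
      _ ≤ ‖z‖ * C := mul_le_mul_of_nonneg_left h2 (norm_nonneg _)
      _ = C * ‖z‖ := mul_comm _ _
  obtain ⟨φ2, hφ2, hcau⟩ := l1_cauchy b (fun l => (g (φ1 l)).w)
    (fun l => (g (φ1 l)).smooth.continuous) (fun l => (g (φ1 l)).per) (fun l x => hlow _ x) hMl
    htrans
  obtain ⟨φ3, hφ3, w, hwm, hwper, hwlow, hwM, hae, hL1⟩ := l1_limit b
    (fun l => (g (φ1 (φ2 l))).w)
    (fun l => (g (φ1 (φ2 l))).smooth.continuous) (fun l => (g (φ1 (φ2 l))).per)
    (fun l x => hlow _ x) (fun l x => hMl _ x) hcau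
  refine ⟨fun l => φ1 (φ2 (φ3 l)), hφ1.comp (hφ2.comp hφ3), M, hM0, fun l x => hMl _ x, p, w,
    ?_, hL1⟩
  have hpt3 : ∀ x y, Tendsto (fun l => td b (g (φ1 (φ2 (φ3 l)))).w x y) atTop
      (𝓝 (dist (p x) (p y))) :=
    fun x y => (hpt1 x y).comp (hφ2.comp hφ3).tendsto_atTop
  refine ⟨hc, hM0, hp, ?_, ?_, ?_, hwm, hwlow, hwM, hwper, ?_⟩
  · intro x y
    refine le_of_tendsto (hpt3 x y) (Eventually.of_forall fun l => ?_)
    exact td_le_dist b hc (g _).smooth.continuous (hlow _) x y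
  · intro x y
    exact low_limit b (hpt3 x y) fun l =>
      td_lower b (g _).smooth.continuous (g _).pos (fun z => hMl _ z) x y
  · intro v hv x
    have h1 := hpt3 (x + v) x
    have h2 : ∀ l, td b (g (φ1 (φ2 (φ3 l)))).w (x + v) x = 0 := fun l => by
      rw [td_per_left b (g _).per hv, td_self b (g _).pos]
    simp only [h2] at h1
    exact dist_eq_zero.1 (tendsto_nhds_unique h1 tendsto_const_nhds)
  · exact metric_diff b (D := fun x y => dist (p x) (p y)) hc
      (Λ := (n : ℝ) * max (-κ) 0 / (2 * c)) (by positivity) (fun l => (g _).smooth)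
      (fun l x => hlow _ x) (fun l x => hMl _ x) (fun l => (g _).per)
      (fun l x => laplace_ge hn (g _).smooth hc (hlow _) (hsec _) x) hwm hwper hwlow hwM hae hL1
      hpt3

end H68.CF
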