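import Pool.Agent.H68.CF.MixA
import Pool.Agent.H68.CF.Kn

/-!
# [H68 CF MixC] Products of `kn P`

Each factor `kn P a b c d = P_ac δ_bd + P_bd δ_ac - P_ad δ_bc - P_bc δ_ad` has four terms, indexed
by `(α, β) ∈ Bool × Bool`: `(-1)^{α+β} P(x_α, y_β) δ(x_{1-α}, y_{1-β})` with `x = (a,b)`,
`y = (c,d)`. Expanding the product over `s : Fin k` (`Finset.prod_univ_sum` or
`Finset.prod_sum`) gives a sum over `(α, β) : Fin k → Bool × Bool`; for fixed `α, β` let `τ`, `τ'` be
the permutations of `Fin k × Bool` with `τ (s, ε) = (s, ε xor α_s)`,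
`τ' (s, ε) = (s, ε xor β_s)`, of sign `(-1)^{∑ α}`, `(-1)^{∑ β}`. The term is
`∑_i ∑_π sgn π sgn τ sgn τ' ∏_s P(i_{τ(s,0)}, i_{π τ'(s,0)}) δ(i_{τ(s,1)}, i_{π τ'(s,1)})`,
and with `i' = i ∘ τ`, `π' = τ⁻¹ π τ'` it is
`∑_{i'} ∑_{π'} sgn π' ∏_s P(i'_{(s,0)}, i'_{π'(s,0)}) δ(i'_{(s,1)}, i'_{π'(s,1)})`, independent of
`α, β`; it equals the `mix` on the right (product over `Fin k × Bool`,
`Fintype.prod_prod_type`, `Fintype.prod_bool`). There are `4^k` terms.
(`false` plays the role of `0`.) An alternative to the global expansion: induction on the set of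
`s` already replaced.
-/

open MeasureTheory Set Filter Topology Matrix Polynomial
open scoped ContDiff NNReal

noncomputable section

namespace H68.CF

variable {n : ℕ}

/-- the flip of a bit -/
private def bx (a : Bool) : Equiv.Perm Bool := if a then Equiv.boolNot else 1

private theorem bx_false (a : Bool) : bx a false = a := by cases a <;> rfl

private theorem bx_true (a : Bool) : bx a true = !a := by cases a <;> rfl

/-- the sign of a bit -/
private def bs (a : Bool) : ℝ := if a then -1 else 1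

private theorem bx_sign (a : Bool) : ((Equiv.Perm.sign (bx a) : ℤ) : ℝ) = bs a := by
  have h : (Equiv.Perm.sign (bx a) : ℤ) = if a then -1 else 1 := by
    cases a <;> decide
  rw [h]
  cases a <;> simp [bs]

private def tau {k : ℕ} (α : Fin k → Bool) : Equiv.Perm (Fin k × Bool) :=
  Equiv.prodCongrRight fun s => bx (α s)

private theorem tau_false {k : ℕ} (α : Fin k → Bool) (s : Fin k) :
    tau α (s, false) = (s, α s) := by
  simp [tau, bx_false]

private theorem tau_true {k : ℕ} (α : Fin k → Bool) (s : Fin k) :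
    tau α (s, true) = (s, !(α s)) := by
  simp [tau, bx_true]

private theorem tau_sign {k : ℕ} (α : Fin k → Bool) :
    ((Equiv.Perm.sign (tau α) : ℤ) : ℝ) = ∏ s, bs (α s) := by
  unfold tau
  rw [Equiv.Perm.sign_prodCongrRight]
  push_cast
  exact Finset.prod_congr rfl fun s _ => bx_sign (α s)

private theorem kn_sum (P : Matrix (Fin n) (Fin n) ℝ) (x y : Bool → Fin n) :
    kn P (x false) (x true) (y false) (y true) = ∑ ab : Bool × Bool,
      bs ab.1 * bs ab.2 * (P (x ab.1) (y ab.2) *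
        (1 : Matrix (Fin n) (Fin n) ℝ) (x (!ab.1)) (y (!ab.2))) := by
  rw [Fintype.sum_prod_type, Fintype.sum_bool, Fintype.sum_bool, Fintype.sum_bool]
  change kn P (x false) (x true) (y false) (y true) =
    (bs true * bs true * (P (x true) (y true) *
        (1 : Matrix (Fin n) (Fin n) ℝ) (x false) (y false)) +
      bs true * bs false * (P (x true) (y false) *
        (1 : Matrix (Fin n) (Fin n) ℝ) (x false) (y true))) +
    (bs false * bs true * (P (x false) (y true) *
        (1 : Matrix (Fin n) (Fin n) ℝ) (x true) (y false)) +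
      bs false * bs false * (P (x false) (y false) *
        (1 : Matrix (Fin n) (Fin n) ℝ) (x true) (y true)))
  have e1 : bs true = -1 := by simp [bs]
  have e2 : bs false = 1 := by simp [bs]
  rw [e1, e2]
  unfold kn
  ring

private theorem sgn_conj {R : Type} [Fintype R] [DecidableEq R] (σ τ π : Equiv.Perm R) :
    ((Equiv.Perm.sign (σ⁻¹ * π * τ) : ℤ) : ℝ) =
      ((Equiv.Perm.sign π : ℤ) : ℝ) * ((Equiv.Perm.sign σ : ℤ) : ℝ) *
        ((Equiv.Perm.sign τ : ℤ) : ℝ) := by
  rw [Equiv.Perm.sign_mul, Equiv.Perm.sign_mul, Equiv.Perm.sign_inv]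
  push_cast
  ring

private theorem one_term (k : ℕ) (P Q : Fin n → Fin n → ℝ) (α β : Fin k → Bool) :
    ∑ i : Fin k × Bool → Fin n, ∑ π : Equiv.Perm (Fin k × Bool),
        ((Equiv.Perm.sign π : ℤ) : ℝ) * ∏ s : Fin k,
          (bs (α s) * bs (β s) * (P (i (s, α s)) (i (π (s, β s))) *
            Q (i (s, !(α s))) (i (π (s, !(β s)))))) =
      ∑ i : Fin k × Bool → Fin n, ∑ π : Equiv.Perm (Fin k × Bool),
        ((Equiv.Perm.sign π : ℤ) : ℝ) * ∏ r : Fin k × Bool,
          (if r ∈ (Finset.univ : Finset (Fin k × Bool)).filter (fun r => r.2 = false) then P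
            else Q) (i r) (i (π r)) := by
  symm
  rw [← Equiv.sum_comp (Equiv.arrowCongr (tau α).symm (Equiv.refl (Fin n)))]
  refine Finset.sum_congr rfl fun i _ => ?_
  rw [← Equiv.sum_comp ((Equiv.mulLeft (tau α)⁻¹).trans (Equiv.mulRight (tau β)))]
  refine Finset.sum_congr rfl fun π _ => ?_
  have hi : ∀ r, Equiv.arrowCongr (tau α).symm (Equiv.refl (Fin n)) i r = i (tau α r) :=
    fun r => rfl
  have hp : ((Equiv.mulLeft (tau α)⁻¹).trans (Equiv.mulRight (tau β))) π =
      (tau α)⁻¹ * π * tau β := rfl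
  have hp2 : ∀ r, tau α (((tau α)⁻¹ * π * tau β) r) = π (tau β r) := by
    intro r
    simp [Equiv.Perm.mul_apply]
  rw [hp, sgn_conj, tau_sign, tau_sign]
  simp only [hi, hp2]
  rw [Fintype.prod_prod_type]
  simp only [Fintype.prod_bool, Finset.mem_filter, Finset.mem_univ, true_and,
    Bool.true_eq_false, if_false, if_true, tau_false, tau_true]
  rw [mul_assoc, mul_assoc, ← Finset.prod_mul_distrib, ← Finset.prod_mul_distrib]
  congr 1
  refine Finset.prod_congr rfl fun s _ => ?_
  ring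

theorem prod_kn (k : ℕ) (P : Matrix (Fin n) (Fin n) ℝ) :
    ∑ i : Fin k × Bool → Fin n, ∑ π : Equiv.Perm (Fin k × Bool),
        ((Equiv.Perm.sign π : ℤ) : ℝ) * ∏ s : Fin k,
          kn P (i (s, false)) (i (s, true)) (i (π (s, false))) (i (π (s, true))) =
      4 ^ k * mix (fun r : Fin k × Bool =>
        if r ∈ (Finset.univ : Finset (Fin k × Bool)).filter (fun r => r.2 = false) then P
        else (1 : Matrix (Fin n) (Fin n) ℝ)) := by
  have h1 : ∀ (i : Fin k × Bool → Fin n) (π : Equiv.Perm (Fin k × Bool)),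
      ((Equiv.Perm.sign π : ℤ) : ℝ) * ∏ s : Fin k,
          kn P (i (s, false)) (i (s, true)) (i (π (s, false))) (i (π (s, true))) =
        ∑ ab : Fin k → Bool × Bool, ((Equiv.Perm.sign π : ℤ) : ℝ) * ∏ s : Fin k,
          (bs (ab s).1 * bs (ab s).2 * (P (i (s, (ab s).1)) (i (π (s, (ab s).2))) *
            (1 : Matrix (Fin n) (Fin n) ℝ) (i (s, !(ab s).1)) (i (π (s, !(ab s).2))))) := by
    intro i π
    rw [← Finset.mul_sum]
    congr 1
    rw [Finset.prod_congr rfl (fun s _ => kn_sum P (fun e => i (s, e)) (fun e => i (π (s, e)))),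
      Finset.prod_univ_sum, Fintype.piFinset_univ]
  have h2 : ∀ i : Fin k × Bool → Fin n, ∑ π : Equiv.Perm (Fin k × Bool),
      ((Equiv.Perm.sign π : ℤ) : ℝ) * ∏ s : Fin k,
          kn P (i (s, false)) (i (s, true)) (i (π (s, false))) (i (π (s, true))) =
      ∑ ab : Fin k → Bool × Bool, ∑ π : Equiv.Perm (Fin k × Bool),
        ((Equiv.Perm.sign π : ℤ) : ℝ) * ∏ s : Fin k,
          (bs (ab s).1 * bs (ab s).2 * (P (i (s, (ab s).1)) (i (π (s, (ab s).2))) *
            (1 : Matrix (Fin n) (Fin n) ℝ) (i (s, !(ab s).1)) (i (π (s, !(ab s).2))))) := by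
    intro i
    rw [Finset.sum_congr rfl (fun π _ => h1 i π), Finset.sum_comm]
  rw [Finset.sum_congr rfl (fun i _ => h2 i), Finset.sum_comm]
  have h3 : ∀ ab : Fin k → Bool × Bool,
      ∑ i : Fin k × Bool → Fin n, ∑ π : Equiv.Perm (Fin k × Bool),
        ((Equiv.Perm.sign π : ℤ) : ℝ) * ∏ s : Fin k,
          (bs (ab s).1 * bs (ab s).2 * (P (i (s, (ab s).1)) (i (π (s, (ab s).2))) *
            (1 : Matrix (Fin n) (Fin n) ℝ) (i (s, !(ab s).1)) (i (π (s, !(ab s).2))))) =
      mix (fun r : Fin k × Bool =>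
        if r ∈ (Finset.univ : Finset (Fin k × Bool)).filter (fun r => r.2 = false) then P
        else (1 : Matrix (Fin n) (Fin n) ℝ)) := fun ab =>
    one_term k P (1 : Matrix (Fin n) (Fin n) ℝ) (fun s => (ab s).1) (fun s => (ab s).2)
  rw [Finset.sum_congr rfl (fun ab _ => h3 ab), Finset.sum_const, Finset.card_univ,
    nsmul_eq_mul]
  congr 1
  simp

end H68.CF
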