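import Pool.Agent.H68.CF.RiemA

/-!
# [H68 CF RiemB] The Riemann tensor of `w⁻² |dx|²`

`riem (conf w) i j k l = w⁻⁴ kn (schouten w) i j k l`. Write `δ` for the identity matrix,
`w_i = pd i w`, `w_ij = pd i (pd j w)`, `Z = ∑ w_p²`. By `chris_conf` (collapse the sum over `p`)
`∑_p Γ^p_jk Γ^p_il = w⁻² (δ_kl w_i w_j + δ_ik w_j w_l + δ_jl w_i w_k + δ_ij w_k w_l
   - 2 δ_il w_j w_k - 2 δ_jk w_i w_l + δ_jk δ_il Z)`,
and with `k`, `l` exchanged for `∑_p Γ^p_jl Γ^p_ik`. The difference times `w⁻²`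
(`G_pq = w⁻² δ_pq`) is
`w⁻⁴ (3 δ_ik w_j w_l + 3 δ_jl w_i w_k - 3 δ_il w_j w_k - 3 δ_jk w_i w_l + Z (δ_jk δ_il - δ_jl δ_ik))`.
The first part of `riem` is by `pd_pd_conf`
`3 w⁻⁴ (δ_il w_j w_k + δ_jk w_i w_l - δ_jl w_i w_k - δ_ik w_j w_l)
 - w⁻³ (δ_il w_jk + δ_jk w_il - δ_jl w_ik - δ_ik w_jl)` (`pd_comm` for the order of the derivatives).
The sum is `w⁻⁴ (δ_jl P_ik + δ_ik P_jl - δ_il P_jk - δ_jk P_il)` with `P = w D²w - (Z/2) 1`.
-/

open MeasureTheory Set Filter Topology Matrix Polynomial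
open scoped ContDiff NNReal

noncomputable section

namespace H68.CF

variable {n : ℕ}

private theorem rb_sym (a b : Fin n) :
    (1 : Matrix (Fin n) (Fin n) ℝ) a b = (1 : Matrix (Fin n) (Fin n) ℝ) b a := by
  rw [Matrix.one_apply, Matrix.one_apply]
  simp only [eq_comm]

private theorem rb_s1 (k l : Fin n) :
    ∑ p, (1 : Matrix (Fin n) (Fin n) ℝ) k p * (1 : Matrix (Fin n) (Fin n) ℝ) l p =
      (1 : Matrix (Fin n) (Fin n) ℝ) k l := by
  rw [Finset.sum_eq_single l]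
  · rw [Matrix.one_apply_eq, mul_one]
  · intro q _ hq
    rw [Matrix.one_apply_ne hq.symm, mul_zero]
  · intro h
    exact absurd (Finset.mem_univ l) h

private theorem rb_s2 (k : Fin n) (v : Fin n → ℝ) :
    ∑ p, (1 : Matrix (Fin n) (Fin n) ℝ) k p * v p = v k := by
  rw [Finset.sum_eq_single k]
  · rw [Matrix.one_apply_eq, one_mul]
  · intro q _ hq
    rw [Matrix.one_apply_ne hq.symm, zero_mul]
  · intro h
    exact absurd (Finset.mem_univ k) h

private theorem rb_sum (v : Fin n → ℝ) (i j k l : Fin n) :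
    ∑ p, ((1 : Matrix (Fin n) (Fin n) ℝ) k p * v j + (1 : Matrix (Fin n) (Fin n) ℝ) j p * v k
        - (1 : Matrix (Fin n) (Fin n) ℝ) j k * v p) *
      ((1 : Matrix (Fin n) (Fin n) ℝ) l p * v i + (1 : Matrix (Fin n) (Fin n) ℝ) i p * v l
        - (1 : Matrix (Fin n) (Fin n) ℝ) i l * v p) =
    (1 : Matrix (Fin n) (Fin n) ℝ) k l * v i * v j
      + (1 : Matrix (Fin n) (Fin n) ℝ) k i * v j * v l
      + (1 : Matrix (Fin n) (Fin n) ℝ) j l * v k * v i
      + (1 : Matrix (Fin n) (Fin n) ℝ) j i * v k * v l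
      - 2 * (1 : Matrix (Fin n) (Fin n) ℝ) i l * v j * v k
      - 2 * (1 : Matrix (Fin n) (Fin n) ℝ) j k * v i * v l
      + (1 : Matrix (Fin n) (Fin n) ℝ) j k * (1 : Matrix (Fin n) (Fin n) ℝ) i l *
        ∑ p, v p ^ 2 := by
  have h1 : ∀ p, ((1 : Matrix (Fin n) (Fin n) ℝ) k p * v j
        + (1 : Matrix (Fin n) (Fin n) ℝ) j p * v k
        - (1 : Matrix (Fin n) (Fin n) ℝ) j k * v p) *
      ((1 : Matrix (Fin n) (Fin n) ℝ) l p * v i + (1 : Matrix (Fin n) (Fin n) ℝ) i p * v l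
        - (1 : Matrix (Fin n) (Fin n) ℝ) i l * v p) =
      (v j * v i) * ((1 : Matrix (Fin n) (Fin n) ℝ) k p * (1 : Matrix (Fin n) (Fin n) ℝ) l p)
      + (v j * v l) * ((1 : Matrix (Fin n) (Fin n) ℝ) k p * (1 : Matrix (Fin n) (Fin n) ℝ) i p)
      - (v j * (1 : Matrix (Fin n) (Fin n) ℝ) i l) * ((1 : Matrix (Fin n) (Fin n) ℝ) k p * v p)
      + (v k * v i) * ((1 : Matrix (Fin n) (Fin n) ℝ) j p * (1 : Matrix (Fin n) (Fin n) ℝ) l p)
      + (v k * v l) * ((1 : Matrix (Fin n) (Fin n) ℝ) j p * (1 : Matrix (Fin n) (Fin n) ℝ) i p)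
      - (v k * (1 : Matrix (Fin n) (Fin n) ℝ) i l) * ((1 : Matrix (Fin n) (Fin n) ℝ) j p * v p)
      - ((1 : Matrix (Fin n) (Fin n) ℝ) j k * v i) * ((1 : Matrix (Fin n) (Fin n) ℝ) l p * v p)
      - ((1 : Matrix (Fin n) (Fin n) ℝ) j k * v l) * ((1 : Matrix (Fin n) (Fin n) ℝ) i p * v p)
      + ((1 : Matrix (Fin n) (Fin n) ℝ) j k * (1 : Matrix (Fin n) (Fin n) ℝ) i l) * v p ^ 2 := by
    intro p
    ring
  simp only [h1, Finset.sum_add_distrib, Finset.sum_sub_distrib, ← Finset.mul_sum, rb_s1, rb_s2]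
  ring

theorem riem_conf {w : E n → ℝ} (hw : ContDiff ℝ ∞ w) (hpos : ∀ x, 0 < w x)
    (i j k l : Fin n) (x : E n) :
    riem (conf w) i j k l x = ((w x) ^ 4)⁻¹ * kn (schouten w x) i j k l := by
  have hx := (hpos x).ne'
  have h1 : ∑ p, ∑ q, conf w x p q * (chris (conf w) p j k x * chris (conf w) q i l x
      - chris (conf w) p j l x * chris (conf w) q i k x) =
      ((w x) ^ 4)⁻¹ * (((1 : Matrix (Fin n) (Fin n) ℝ) k l * pd i w x * pd j w x
      + (1 : Matrix (Fin n) (Fin n) ℝ) k i * pd j w x * pd l w x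
      + (1 : Matrix (Fin n) (Fin n) ℝ) j l * pd k w x * pd i w x
      + (1 : Matrix (Fin n) (Fin n) ℝ) j i * pd k w x * pd l w x
      - 2 * (1 : Matrix (Fin n) (Fin n) ℝ) i l * pd j w x * pd k w x
      - 2 * (1 : Matrix (Fin n) (Fin n) ℝ) j k * pd i w x * pd l w x
      + (1 : Matrix (Fin n) (Fin n) ℝ) j k * (1 : Matrix (Fin n) (Fin n) ℝ) i l * grad2 w x)
      - ((1 : Matrix (Fin n) (Fin n) ℝ) l k * pd i w x * pd j w x
      + (1 : Matrix (Fin n) (Fin n) ℝ) l i * pd j w x * pd k w x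
      + (1 : Matrix (Fin n) (Fin n) ℝ) j k * pd l w x * pd i w x
      + (1 : Matrix (Fin n) (Fin n) ℝ) j i * pd l w x * pd k w x
      - 2 * (1 : Matrix (Fin n) (Fin n) ℝ) i k * pd j w x * pd l w x
      - 2 * (1 : Matrix (Fin n) (Fin n) ℝ) j l * pd i w x * pd k w x
      + (1 : Matrix (Fin n) (Fin n) ℝ) j l * (1 : Matrix (Fin n) (Fin n) ℝ) i k *
        grad2 w x)) := by
    have h2 : ∀ p, ∑ q, conf w x p q * (chris (conf w) p j k x * chris (conf w) q i l x
      - chris (conf w) p j l x * chris (conf w) q i k x) =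
      ((w x) ^ 2)⁻¹ * (chris (conf w) p j k x * chris (conf w) p i l x
      - chris (conf w) p j l x * chris (conf w) p i k x) := by
      intro p
      rw [Finset.sum_eq_single p]
      · rw [conf, Matrix.smul_apply, Matrix.one_apply_eq, smul_eq_mul, mul_one]
      · intro q _ hq
        rw [conf, Matrix.smul_apply, Matrix.one_apply_ne hq.symm, smul_zero, zero_mul]
      · intro h
        exact absurd (Finset.mem_univ p) h
    have e1 := rb_sum (fun a => pd a w x) i j k l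
    have e2 := rb_sum (fun a => pd a w x) i j l k
    have hg : grad2 w x = ∑ p, pd p w x ^ 2 := rfl
    simp only [← hg] at e1 e2
    rw [Finset.sum_congr rfl (fun p _ => h2 p), ← e1, ← e2, ← Finset.sum_sub_distrib,
      Finset.mul_sum]
    simp only [chris_conf hw hpos]
    refine Finset.sum_congr rfl fun p _ => ?_
    field_simp
  unfold riem
  rw [h1, pd_pd_conf hw hpos, pd_pd_conf hw hpos, pd_pd_conf hw hpos, pd_pd_conf hw hpos,
    rb_sym l k, rb_sym l i, rb_sym k i]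
  simp only [kn, schouten, Matrix.sub_apply, Matrix.smul_apply, smul_eq_mul]
  field_simp
  ring

theorem riemUp_conf {w : E n → ℝ} (hw : ContDiff ℝ ∞ w) (hpos : ∀ x, 0 < w x)
    (i j k l : Fin n) (x : E n) :
    riemUp (conf w) i j k l x = kn (schouten w x) i j k l := by
  have hx := (hpos x).ne'
  unfold riemUp
  rw [conf_inv hpos, Finset.sum_eq_single k, Finset.sum_eq_single l]
  · rw [riem_conf hw hpos, Matrix.smul_apply, Matrix.smul_apply, Matrix.one_apply_eq,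
      Matrix.one_apply_eq, smul_eq_mul, mul_one]
    field_simp
  · intro q _ hq
    rw [Matrix.smul_apply _ _ q l, Matrix.one_apply_ne hq, smul_zero, mul_zero]
  · intro h
    exact absurd (Finset.mem_univ l) h
  · intro p _ hp
    refine Finset.sum_eq_zero fun q _ => ?_
    rw [Matrix.smul_apply _ _ p k, Matrix.one_apply_ne hp, smul_zero, mul_zero, zero_mul]
  · intro h
    exact absurd (Finset.mem_univ k) h

end H68.CF
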