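import Pool.Agent.H68.CF.MixB
import Pool.Agent.H68.CF.MixC
import Pool.Agent.H68.CF.RiemB

/-!
# [H68 CF LipK] Lipschitz-Killing curvatures of `w⁻² |dx|²`

`lipKil k (conf w) x = 2^{-k} 4^k mix(...)` (`riemUp_conf`, `prod_kn`), and `mix_two` with
`R = Fin k × Bool` (`2k` elements), `S = {r | r.2 = false}` (`k` elements):
`(n-2k)! lipKil = 2^k k! (n-k)! sig k (schouten w x)`.
-/

open MeasureTheory Set Filter Topology Matrix Polynomial
open scoped ContDiff NNReal

noncomputable section

namespace H68.CF

variable {n : ℕ}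

theorem lipKil_conf {w : E n → ℝ} (hw : ContDiff ℝ ∞ w) (hpos : ∀ x, 0 < w x) {k : ℕ}
    (hk : 2 * k ≤ n) (x : E n) :
    ((n - 2 * k).factorial : ℝ) * lipKil k (conf w) x =
      2 ^ k * (k.factorial : ℝ) * ((n - k).factorial : ℝ) * sig k (schouten w x) := by
  have hS : ((Finset.univ : Finset (Fin k × Bool)).filter (fun r => r.2 = false)).card = k := by
    have e : (Finset.univ : Finset (Fin k × Bool)).filter (fun r => r.2 = false) =
        (Finset.univ : Finset (Fin k)) ×ˢ {false} := by
      ext ⟨a, b⟩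
      simp
    rw [e, Finset.card_product, Finset.card_univ, Fintype.card_fin, Finset.card_singleton,
      mul_one]
  have hcard : Fintype.card (Fin k × Bool) = 2 * k := by
    rw [Fintype.card_prod, Fintype.card_fin, Fintype.card_bool, mul_comm]
  have h1 : lipKil k (conf w) x = 1 / 2 ^ k * (4 ^ k * mix (fun r : Fin k × Bool =>
      if r ∈ (Finset.univ : Finset (Fin k × Bool)).filter (fun r => r.2 = false)
      then schouten w x else (1 : Matrix (Fin n) (Fin n) ℝ))) := by
    unfold lipKil
    simp_rw [riemUp_conf hw hpos]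
    rw [prod_kn]
  have h2 := mix_two (schouten w x)
    ((Finset.univ : Finset (Fin k × Bool)).filter (fun r => r.2 = false))
    (by rw [hcard]; exact hk)
  rw [hS, hcard] at h2
  have h3 : (4 : ℝ) ^ k = 2 ^ k * 2 ^ k := by
    rw [← mul_pow]
    norm_num
  have h4 : (2 : ℝ) ^ k ≠ 0 := by positivity
  rw [h1, h3]
  calc ((n - 2 * k).factorial : ℝ) * (1 / 2 ^ k * (2 ^ k * 2 ^ k * mix (fun r : Fin k × Bool =>
      if r ∈ (Finset.univ : Finset (Fin k × Bool)).filter (fun r => r.2 = false)
      then schouten w x else (1 : Matrix (Fin n) (Fin n) ℝ))))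
      = 2 ^ k * (((n - 2 * k).factorial : ℝ) * mix (fun r : Fin k × Bool =>
      if r ∈ (Finset.univ : Finset (Fin k × Bool)).filter (fun r => r.2 = false)
      then schouten w x else (1 : Matrix (Fin n) (Fin n) ℝ))) := by
        field_simp
    _ = _ := by
        rw [h2]
        ring

end H68.CF
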