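import Pool.Agent.H68.CF.SigAlg

/-!
# [H68 CF MixA] Full contraction with one matrix

`mix B = ∑_{i : R → Fin n} ∑_{π ∈ Perm R} sgn π ∏_{r ∈ R} B_r (i_r, i_{π r})`.
`mix_const`: for `B_r = A` for all `r` and `m = |R|` it equals `m! sig m A`: the inner sum is
`det (A.submatrix i i)` (`Matrix.det_apply` and transposition, `Matrix.det_transpose`); it is `0`
if `i` is not injective (two equal rows, `Matrix.det_zero_of_row_eq`); the injective `i` are
grouped by their image `s`, `|s| = m`: for each `s` there are `m!` of them and all give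
`det (A.submatrix s s)` (`Matrix.det_submatrix_equiv_self`); finally
`sig m A = ∑_{s ∈ powersetCard m univ} det (A.submatrix s s)` (definition and
`Matrix.coeff_det_one_add_X_smul_eq_sum_minors`).
-/

open MeasureTheory Set Filter Topology Matrix Polynomial
open scoped ContDiff NNReal

noncomputable section

namespace H68.CF

variable {n : ℕ}

/-- The full contraction of the generalized Kronecker symbol with the matrices `B r`. -/
def mix {R : Type} [Fintype R] [DecidableEq R] (B : R → Matrix (Fin n) (Fin n) ℝ) : ℝ :=
  ∑ i : R → Fin n, ∑ π : Equiv.Perm R, ((Equiv.Perm.sign π : ℤ) : ℝ) *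
    ∏ r, B r (i r) (i (π r))

private theorem ma_det {R : Type} [Fintype R] [DecidableEq R] (A : Matrix (Fin n) (Fin n) ℝ)
    (i : R → Fin n) :
    ∑ π : Equiv.Perm R, ((Equiv.Perm.sign π : ℤ) : ℝ) * ∏ r, A (i r) (i (π r)) =
      (A.submatrix i i).det := by
  rw [← Matrix.det_transpose, Matrix.det_apply']
  rfl

private theorem ma_fib {R : Type} [Fintype R] [DecidableEq R] (A : Matrix (Fin n) (Fin n) ℝ)
    (s : Finset (Fin n)) (hs : s.card = Fintype.card R) :
    ∑ i ∈ (Finset.univ.filter fun i : R → Fin n => Function.Injective i) with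
        Finset.univ.image i = s, (A.submatrix i i).det =
      (Nat.factorial (Fintype.card R) : ℝ) *
        (A.submatrix (Subtype.val : s → Fin n) (Subtype.val : s → Fin n)).det := by
  have e0 : R ≃ s := Fintype.equivOfCardEq (by rw [Fintype.card_coe, hs])
  have h1 : ∑ e : R ≃ s, (A.submatrix (Subtype.val : s → Fin n) (Subtype.val : s → Fin n)).det =
      ∑ i ∈ (Finset.univ.filter fun i : R → Fin n => Function.Injective i) with
        Finset.univ.image i = s, (A.submatrix i i).det := by
    refine Finset.sum_bij (fun e _ => fun r => ((e r : s) : Fin n)) ?_ ?_ ?_ ?_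
    · intro e _
      rw [Finset.mem_filter, Finset.mem_filter]
      refine ⟨⟨Finset.mem_univ _, fun a b hab => e.injective (Subtype.ext hab)⟩, ?_⟩
      ext a
      rw [Finset.mem_image]
      constructor
      · rintro ⟨r, _, rfl⟩
        exact (e r).2
      · intro ha
        exact ⟨e.symm ⟨a, ha⟩, Finset.mem_univ _, by rw [e.apply_symm_apply]⟩
    · intro e _ f _ hef
      exact Equiv.ext fun r => Subtype.ext (congrFun hef r)
    · intro i hi
      rw [Finset.mem_filter, Finset.mem_filter] at hi
      obtain ⟨⟨_, hinj⟩, him⟩ := hi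
      have hm : ∀ r, i r ∈ s := fun r => by
        rw [← him]
        exact Finset.mem_image_of_mem i (Finset.mem_univ r)
      refine ⟨Equiv.ofBijective (fun r => (⟨i r, hm r⟩ : s)) ⟨?_, ?_⟩, Finset.mem_univ _, ?_⟩
      · intro a b hab
        exact hinj (Subtype.ext_iff.1 hab)
      · rintro ⟨a, ha⟩
        rw [← him, Finset.mem_image] at ha
        obtain ⟨r, _, hr⟩ := ha
        exact ⟨r, Subtype.ext hr⟩
      · funext r
        rfl
    · intro e _
      have h2 := Matrix.det_submatrix_equiv_self e
        (A.submatrix (Subtype.val : s → Fin n) (Subtype.val : s → Fin n))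
      rw [← h2]
      rfl
  rw [← h1, Finset.sum_const, Finset.card_univ, Fintype.card_equiv e0, nsmul_eq_mul]

theorem mix_const {R : Type} [Fintype R] [DecidableEq R] (A : Matrix (Fin n) (Fin n) ℝ) :
    mix (fun _ : R => A) = (Nat.factorial (Fintype.card R) : ℝ) * sig (Fintype.card R) A := by
  unfold mix sig
  simp only [ma_det]
  rw [Matrix.coeff_det_one_add_X_smul_eq_sum_minors, Finset.mul_sum]
  have h1 : ∑ i : R → Fin n, (A.submatrix i i).det =
      ∑ i ∈ Finset.univ.filter (fun i : R → Fin n => Function.Injective i),
        (A.submatrix i i).det := by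
    rw [Finset.sum_filter]
    refine Finset.sum_congr rfl fun i _ => ?_
    split_ifs with hi
    · rfl
    · obtain ⟨a, b, hab, hne⟩ : ∃ a b, i a = i b ∧ a ≠ b := by
        unfold Function.Injective at hi
        push Not at hi
        exact hi
      refine Matrix.det_zero_of_row_eq hne ?_
      funext r
      simp only [Matrix.submatrix_apply, hab]
  rw [h1, ← Finset.sum_fiberwise_of_maps_to (g := fun i : R → Fin n => Finset.univ.image i)
    (t := Finset.univ.powersetCard (Fintype.card R))]
  · refine Finset.sum_congr rfl fun s hs => ?_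
    exact ma_fib A s (Finset.mem_powersetCard.1 hs).2
  · intro i hi
    rw [Finset.mem_powersetCard]
    refine ⟨Finset.subset_univ _, ?_⟩
    rw [Finset.card_image_of_injective _ (Finset.mem_filter.1 hi).2, Finset.card_univ]

end H68.CF
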