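import Pool.Agent.H68.CF.SigAlg

/-!
# [H68 CF Shift] `sig j (A + x 1)`

`sig j (A + x 1) = ∑_{i ≤ j} binom(n-i, j-i) x^(j-i) sig i A`.

Proof. As polynomials, `1 + X (A + x) = (1 + x X) 1 + X A`. For a scalar `a` and the matrix
`A` one has `det (a 1 + X A) = ∑_{i ≤ n} a^(n-i) X^i sig i A` (for real `a ≠ 0`:
`det (a + t A) = a^n det (1 + (t/a) A)`; simplest: evaluate at real `t` with `1 + x t ≠ 0`; two
polynomials which agree at infinitely many (all but one) reals are equal,
`Polynomial.eq_of_infinite_eval_eq`). So `det (1 + X (A + x)) = ∑_{i ≤ n} (1 + x X)^(n-i) X^i sig i A` and the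
coefficient of `X^j` is `∑_{i ≤ min(j,n)} binom(n-i, j-i) x^(j-i) sig i A`. For `i > n` the term
vanishes (`sig_eq_zero`). Alternative: induction/expansion with
`Matrix.coeff_det_one_add_X_smul_eq_sum_minors`.
-/

open MeasureTheory Set Filter Topology Matrix Polynomial
open scoped ContDiff NNReal

noncomputable section

namespace H68.CF

variable {n : ℕ}

private theorem shift_eval (A : Matrix (Fin n) (Fin n) ℝ) (t : ℝ) :
    (det (1 + (X : ℝ[X]) • A.map (C : ℝ → ℝ[X]))).eval t = det (1 + t • A) := by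
  rw [← coe_evalRingHom, RingHom.map_det]
  congr 1
  ext a b
  rw [RingHom.mapMatrix_apply, Matrix.map_apply, Matrix.add_apply, Matrix.smul_apply,
    Matrix.map_apply, Matrix.add_apply, Matrix.smul_apply, Matrix.one_apply, Matrix.one_apply,
    coe_evalRingHom, smul_eq_mul, smul_eq_mul]
  split_ifs <;> (simp; ring)

private theorem shift_deg (A : Matrix (Fin n) (Fin n) ℝ) :
    (det (1 + (X : ℝ[X]) • A.map (C : ℝ → ℝ[X]))).natDegree < n + 1 := by
  refine Nat.lt_succ_of_le (natDegree_le_iff_coeff_eq_zero.2 fun N hN => ?_)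
  exact sig_eq_zero hN A

private theorem shift_sum (A : Matrix (Fin n) (Fin n) ℝ) (t : ℝ) :
    det (1 + t • A) = ∑ i ∈ Finset.range (n + 1), sig i A * t ^ i := by
  rw [← shift_eval, eval_eq_sum_range' (shift_deg A)]
  rfl

private theorem shift_real (A : Matrix (Fin n) (Fin n) ℝ) (x t : ℝ) (h : 1 + x * t ≠ 0) :
    det (1 + t • (A + x • (1 : Matrix (Fin n) (Fin n) ℝ))) =
      ∑ i ∈ Finset.range (n + 1), (1 + x * t) ^ (n - i) * (t ^ i * sig i A) := by
  have h1 : (1 + t • (A + x • (1 : Matrix (Fin n) (Fin n) ℝ))) =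
      (1 + x * t) • (1 + (t / (1 + x * t)) • A) := by
    rw [smul_add, smul_add, smul_smul, smul_smul, mul_div_cancel₀ _ h, add_smul, one_smul,
      mul_comm x t]
    abel
  rw [h1, det_smul, Fintype.card_fin, shift_sum, Finset.mul_sum]
  refine Finset.sum_congr rfl fun i hi => ?_
  have hi' : i ≤ n := Nat.lt_succ_iff.1 (Finset.mem_range.1 hi)
  have h2 : (1 + x * t) ^ n = (1 + x * t) ^ (n - i) * (1 + x * t) ^ i := by
    rw [← pow_add, Nat.sub_add_cancel hi']
  rw [h2, div_pow]
  field_simp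

private theorem shift_coeff (m k : ℕ) (x : ℝ) :
    ((1 + C x * X : ℝ[X]) ^ m).coeff k = (m.choose k : ℝ) * x ^ k := by
  have h1 : (1 + C x * X : ℝ[X]) ^ m = ((1 + X : ℝ[X]) ^ m).comp (C x * X) := by
    rw [pow_comp, add_comp, one_comp, X_comp]
  rw [h1, comp_C_mul_X_coeff, coeff_one_add_X_pow]

private theorem shift_poly (A : Matrix (Fin n) (Fin n) ℝ) (x : ℝ) :
    det (1 + (X : ℝ[X]) • (A + x • (1 : Matrix (Fin n) (Fin n) ℝ)).map (C : ℝ → ℝ[X])) =
      ∑ i ∈ Finset.range (n + 1), (1 + C x * X : ℝ[X]) ^ (n - i) * (X ^ i * C (sig i A)) := by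
  refine eq_of_infinite_eval_eq _ _ ?_
  have hfin : {t : ℝ | 1 + x * t = 0}.Finite := by
    refine Set.Subsingleton.finite ?_
    intro t ht s hs
    rw [Set.mem_ofPred_eq] at ht hs
    have hx : x ≠ 0 := by
      rintro rfl
      simp at ht
    have h1 : x * t = x * s := by linarith
    exact mul_left_cancel₀ hx h1
  refine hfin.infinite_compl.mono ?_
  intro t ht
  rw [Set.mem_compl_iff, Set.mem_ofPred_eq] at ht
  rw [Set.mem_ofPred_eq, shift_eval, shift_real A x t ht, eval_finsetSum]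
  refine Finset.sum_congr rfl fun i _ => ?_
  rw [eval_mul, eval_mul, eval_pow, eval_pow, eval_C, eval_X, eval_add, eval_one, eval_mul,
    eval_C, eval_X]

theorem sig_add_smul_one (j : ℕ) (A : Matrix (Fin n) (Fin n) ℝ) (x : ℝ) :
    sig j (A + x • (1 : Matrix (Fin n) (Fin n) ℝ)) =
      ∑ i ∈ Finset.range (j + 1), ((n - i).choose (j - i) : ℝ) * x ^ (j - i) * sig i A := by
  have h1 : sig j (A + x • (1 : Matrix (Fin n) (Fin n) ℝ)) =
      ∑ i ∈ Finset.range (n + 1),
        ((1 + C x * X : ℝ[X]) ^ (n - i) * (X ^ i * C (sig i A))).coeff j := by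
    unfold sig
    rw [shift_poly, finsetSum_coeff]
    rfl
  have h2 : ∀ i, ((1 + C x * X : ℝ[X]) ^ (n - i) * (X ^ i * C (sig i A))).coeff j =
      if i ≤ j then ((n - i).choose (j - i) : ℝ) * x ^ (j - i) * sig i A else 0 := by
    intro i
    rw [← mul_assoc, coeff_mul_C, coeff_mul_X_pow']
    split_ifs with h
    · rw [shift_coeff]
    · rw [zero_mul]
  rw [h1, Finset.sum_congr rfl fun i _ => h2 i, ← Finset.sum_filter]
  refine Finset.sum_subset ?_ ?_
  · intro i hi
    rw [Finset.mem_filter] at hi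
    exact Finset.mem_range.2 (Nat.lt_succ_of_le hi.2)
  · intro i hi hi'
    have h3 : n < i := by
      by_contra h
      apply hi'
      rw [Finset.mem_filter, Finset.mem_range]
      exact ⟨by omega, Nat.lt_succ_iff.1 (Finset.mem_range.1 hi)⟩
    rw [sig_eq_zero h3, mul_zero]

end H68.CF
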