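import Pool.Agent.H68.CF.MixA
import Pool.Agent.H68.CF.Shift

/-!
# [H68 CF MixB] Polarization

For `S ⊂ R` let `F_S = mix B` with `B_r = A` for `r ∈ S` and `B_r = 1` otherwise.
(1) `F_S = F_{S'}` if `|S| = |S'|`: there is a permutation `σ` of `R` with `σ(S') = S`; substitute
`i ↦ i ∘ σ`, `π ↦ σ⁻¹ π σ`.
(2) For all real `x`, expanding the product (`Finset.prod_add`):
`mix (fun _ => x A + 1) = ∑_{S ⊂ R} x^{|S|} F_S`. The left side is, `m = |R|`,
`m! sig m (x A + 1) = m! ∑_{i ≤ m} binom(n-i, m-i) x^i sig i A`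
(`mix_const`, `sig_add_smul_one` with `x := 1` applied to the matrix `x A`, `sig_smul`).
(3) Compare the coefficients of `x^k` of the two polynomials:
`binom(m,k) F_S = m! binom(n-k, m-k) sig k A` for `|S| = k ≤ m ≤ n`, i.e.
`(n-m)! F_S = k! (n-k)! sig k A`.
-/

open MeasureTheory Set Filter Topology Matrix Polynomial
open scoped ContDiff NNReal

noncomputable section

namespace H68.CF

variable {n : ℕ}

private theorem mixb_perm {R : Type} [Fintype R] [DecidableEq R]
    (B : R → Matrix (Fin n) (Fin n) ℝ) (σ : Equiv.Perm R) :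
    mix (fun r => B (σ r)) = mix B := by
  unfold mix
  rw [← Equiv.sum_comp (Equiv.arrowCongr σ (Equiv.refl (Fin n)))
    (fun i : R → Fin n => ∑ π : Equiv.Perm R, ((Equiv.Perm.sign π : ℤ) : ℝ) *
      ∏ r, B r (i r) (i (π r)))]
  refine Finset.sum_congr rfl fun i _ => ?_
  rw [← Equiv.sum_comp (MulAut.conj σ).toEquiv
    (fun π : Equiv.Perm R => ((Equiv.Perm.sign π : ℤ) : ℝ) *
      ∏ r, B r ((Equiv.arrowCongr σ (Equiv.refl (Fin n))) i r)
        ((Equiv.arrowCongr σ (Equiv.refl (Fin n))) i (π r)))]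
  refine Finset.sum_congr rfl fun π _ => ?_
  have h1 : Equiv.Perm.sign ((MulAut.conj σ).toEquiv π) = Equiv.Perm.sign π := by
    simp only [MulEquiv.toEquiv_eq_coe, EquivLike.coe_coe,
      MulAut.conj_apply, map_mul, map_inv]
    rw [mul_comm (Equiv.Perm.sign σ), mul_assoc, mul_inv_cancel, mul_one]
  rw [h1]
  congr 1
  rw [← Equiv.prod_comp σ (fun r => B r ((Equiv.arrowCongr σ (Equiv.refl (Fin n))) i r)
        ((Equiv.arrowCongr σ (Equiv.refl (Fin n))) i (((MulAut.conj σ).toEquiv π) r)))]
  refine Finset.prod_congr rfl fun r _ => ?_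
  simp [MulAut.conj_apply, Equiv.arrowCongr_apply]

private def mixbF {R : Type} [Fintype R] [DecidableEq R] (A : Matrix (Fin n) (Fin n) ℝ)
    (S : Finset R) : ℝ :=
  mix (fun r : R => if r ∈ S then A else (1 : Matrix (Fin n) (Fin n) ℝ))

private theorem mixbF_card {R : Type} [Fintype R] [DecidableEq R] (A : Matrix (Fin n) (Fin n) ℝ)
    {S S' : Finset R} (h : S.card = S'.card) : mixbF A S = mixbF A S' := by
  unfold mixbF
  let e : {r // r ∈ S} ≃ {r // r ∈ S'} := Finset.equivOfCardEq h
  rw [← mixb_perm (fun r : R => if r ∈ S' then A else (1 : Matrix (Fin n) (Fin n) ℝ))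
    e.extendSubtype]
  congr 1
  funext r
  by_cases hr : r ∈ S
  · rw [if_pos hr, if_pos (e.extendSubtype_mem r hr)]
  · rw [if_neg hr, if_neg (e.extendSubtype_not_mem r hr)]

private theorem mixb_expand {R : Type} [Fintype R] [DecidableEq R]
    (A : Matrix (Fin n) (Fin n) ℝ) (x : ℝ) :
    mix (fun _ : R => x • A + 1) =
      ∑ S ∈ (Finset.univ : Finset R).powerset, x ^ S.card * mixbF A S := by
  unfold mixbF mix
  simp only [Finset.mul_sum]
  conv_rhs => rw [Finset.sum_comm]
  refine Finset.sum_congr rfl fun i _ => ?_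
  conv_rhs => rw [Finset.sum_comm]
  refine Finset.sum_congr rfl fun π _ => ?_
  have h1 : ∏ r : R, (x • A + 1) (i r) (i (π r)) =
      ∑ S ∈ (Finset.univ : Finset R).powerset, x ^ S.card *
        ∏ r, (if r ∈ S then A else (1 : Matrix (Fin n) (Fin n) ℝ)) (i r) (i (π r)) := by
    simp only [Matrix.add_apply, Matrix.smul_apply, smul_eq_mul]
    rw [Finset.prod_add]
    refine Finset.sum_congr rfl fun S _ => ?_
    rw [Finset.prod_mul_distrib, Finset.prod_const, mul_assoc]
    congr 1
    rw [← Finset.prod_sdiff (Finset.subset_univ S), mul_comm]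
    congr 1
    · refine Finset.prod_congr rfl fun r hr => ?_
      rw [if_neg (Finset.mem_sdiff.1 hr).2]
    · refine Finset.prod_congr rfl fun r hr => ?_
      rw [if_pos hr]
  rw [h1, Finset.mul_sum]
  refine Finset.sum_congr rfl fun S _ => ?_
  ring

private theorem mixb_coeff {m : ℕ} {a c : ℕ → ℝ}
    (h : ∀ x : ℝ, ∑ k ∈ Finset.range (m + 1), x ^ k * a k = ∑ k ∈ Finset.range (m + 1), x ^ k * c k)
    {k : ℕ} (hk : k ≤ m) : a k = c k := by
  have h1 : (∑ k ∈ Finset.range (m + 1), C (a k) * X ^ k : ℝ[X]) =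
      ∑ k ∈ Finset.range (m + 1), C (c k) * X ^ k := by
    refine Polynomial.funext fun x => ?_
    rw [eval_finsetSum, eval_finsetSum]
    simp only [eval_mul, eval_C, eval_pow, eval_X]
    have h2 := h x
    simp only [mul_comm (x ^ _)] at h2
    exact h2
  have h3 := congrArg (fun q : ℝ[X] => q.coeff k) h1
  simp only [finsetSum_coeff, coeff_C_mul, coeff_X_pow, mul_ite, mul_one, mul_zero] at h3
  rw [Finset.sum_ite_eq, Finset.sum_ite_eq, if_pos (Finset.mem_range.2 (by omega)),
    if_pos (Finset.mem_range.2 (by omega))] at h3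
  exact h3

theorem mix_two {R : Type} [Fintype R] [DecidableEq R] (A : Matrix (Fin n) (Fin n) ℝ)
    (S : Finset R) (hR : Fintype.card R ≤ n) :
    ((n - Fintype.card R).factorial : ℝ) *
        mix (fun r : R => if r ∈ S then A else (1 : Matrix (Fin n) (Fin n) ℝ)) =
      (S.card.factorial : ℝ) * ((n - S.card).factorial : ℝ) * sig S.card A := by
  classical
  change ((n - Fintype.card R).factorial : ℝ) * mixbF A S = _
  obtain ⟨m, hm⟩ : ∃ m, m = Fintype.card R := ⟨_, rfl⟩
  rw [← hm] at hR ⊢
  have hk : S.card ≤ m := hm ▸ Finset.card_le_univ S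
  let G : ℕ → ℝ := fun k => if h : ∃ S : Finset R, S.card = k then mixbF A h.choose else 0
  have hG : ∀ S : Finset R, mixbF A S = G S.card := by
    intro S
    have h : ∃ T : Finset R, T.card = S.card := ⟨S, rfl⟩
    change _ = if h : ∃ T : Finset R, T.card = S.card then mixbF A h.choose else 0
    rw [dif_pos h]
    exact mixbF_card A h.choose_spec.symm
  have h1 : ∀ x : ℝ, ∑ k ∈ Finset.range (m + 1), x ^ k * ((m.choose k : ℝ) * G k) =
      ∑ k ∈ Finset.range (m + 1), x ^ k * ((m.factorial : ℝ) *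
        (((n - k).choose (m - k) : ℕ) * sig k A)) := by
    intro x
    have h2 := mixb_expand (R := R) A x
    rw [mix_const, ← hm] at h2
    have h3 : x • A + 1 = x • A + (1 : ℝ) • (1 : Matrix (Fin n) (Fin n) ℝ) := by rw [one_smul]
    rw [h3, sig_add_smul_one] at h2
    have h4 : ∑ S ∈ (Finset.univ : Finset R).powerset, x ^ S.card * mixbF A S =
        ∑ k ∈ Finset.range (m + 1), x ^ k * ((m.choose k : ℝ) * G k) := by
      rw [Finset.sum_congr rfl fun S _ => by rw [hG S]]
      rw [Finset.sum_powerset_apply_card (fun k => x ^ k * G k), Finset.card_univ, ← hm]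
      refine Finset.sum_congr rfl fun k _ => ?_
      rw [nsmul_eq_mul]
      ring
    rw [← h4, ← h2, Finset.mul_sum]
    refine Finset.sum_congr rfl fun k _ => ?_
    rw [sig_smul, one_pow, mul_one]
    ring
  have h2 := mixb_coeff h1 hk
  rw [hG S]
  have h3 : (m.choose S.card : ℝ) * (S.card.factorial : ℝ) * ((m - S.card).factorial : ℝ) =
      (m.factorial : ℝ) := by
    exact_mod_cast Nat.choose_mul_factorial_mul_factorial hk
  have h4 : (((n - S.card).choose (m - S.card) : ℕ) : ℝ) * ((m - S.card).factorial : ℝ) *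
      ((n - m).factorial : ℝ) = ((n - S.card).factorial : ℝ) := by
    have h5 := Nat.choose_mul_factorial_mul_factorial (n := n - S.card) (k := m - S.card) (by omega)
    have h6 : n - S.card - (m - S.card) = n - m := by omega
    rw [h6] at h5
    exact_mod_cast h5
  have h5 : (m.factorial : ℝ) ≠ 0 := by positivity
  apply mul_left_cancel₀ h5
  calc (m.factorial : ℝ) * (((n - m).factorial : ℝ) * G S.card)
      = ((m.choose S.card : ℝ) * G S.card) *
          ((S.card.factorial : ℝ) * ((m - S.card).factorial : ℝ) * ((n - m).factorial : ℝ)) := by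
        rw [← h3]
        ring
    _ = _ := by
        rw [h2, ← h4]
        ring

end H68.CF
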