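import Pool.Agent.H68.CF.PdBasic
import Pool.Agent.H68.CF.Kn

/-!
# [H68 CF RiemA] Christoffel symbols of `w⁻² |dx|²`

`conf w x i j = u(x) δ_ij`, `u = (w²)⁻¹`. By `pd_comp` / direct differentiation
`∂_i u = - 2 w_i / w³` and `∂_j ∂_i u = 6 w_i w_j / w⁴ - 2 w_ij / w³`. The inverse matrix is
`w² 1`. So
`Γ^p_ij = (1/2) w² (δ_jp ∂_i u + δ_ip ∂_j u - δ_ij ∂_p u) = - (1/w)(δ_jp w_i + δ_ip w_j - δ_ij w_p)`.
-/

open MeasureTheory Set Filter Topology Matrix Polynomial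
open scoped ContDiff NNReal

noncomputable section

namespace H68.CF

variable {n : ℕ}

private theorem ra_inv2 {r : ℝ} (hr : r ≠ 0) :
    HasDerivAt (fun s : ℝ => (s ^ 2)⁻¹) (-2 / r ^ 3) r := by
  have h := (hasDerivAt_pow 2 r).inv (pow_ne_zero 2 hr)
  refine h.congr_deriv ?_
  push_cast
  field_simp

private theorem ra_inv3 {r : ℝ} (hr : r ≠ 0) :
    HasDerivAt (fun s : ℝ => (s ^ 3)⁻¹) (-3 / r ^ 4) r := by
  have h := (hasDerivAt_pow 3 r).inv (pow_ne_zero 3 hr)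
  refine h.congr_deriv ?_
  push_cast
  field_simp

theorem pd_conf {w : E n → ℝ} (hw : ContDiff ℝ ∞ w) (hpos : ∀ x, 0 < w x) (a i j : Fin n)
    (x : E n) :
    pd a (fun y => conf w y i j) x =
      - 2 * pd a w x / (w x) ^ 3 * (1 : Matrix (Fin n) (Fin n) ℝ) i j := by
  have hne : (∞ : WithTop ℕ∞) ≠ 0 := by simp
  have hd : DifferentiableAt ℝ w x := (hw.differentiable hne) x
  have hg := ra_inv2 (hpos x).ne'
  have hgd : DifferentiableAt ℝ (fun y => ((w y) ^ 2)⁻¹) x :=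
    DifferentiableAt.comp x (g := fun s : ℝ => (s ^ 2)⁻¹) hg.differentiableAt hd
  have h1 : (fun y => conf w y i j) =
      fun y => (1 : Matrix (Fin n) (Fin n) ℝ) i j * ((w y) ^ 2)⁻¹ := by
    funext y
    simp only [conf, Matrix.smul_apply, smul_eq_mul]
    ring
  rw [h1, pd_const_mul hgd, pd_comp (g := fun s : ℝ => (s ^ 2)⁻¹) hg hd]
  ring

theorem pd_pd_conf {w : E n → ℝ} (hw : ContDiff ℝ ∞ w) (hpos : ∀ x, 0 < w x)
    (c a i j : Fin n) (x : E n) :
    pd c (pd a (fun y => conf w y i j)) x =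
      (6 * pd a w x * pd c w x / (w x) ^ 4 - 2 * hess w x c a / (w x) ^ 3) *
        (1 : Matrix (Fin n) (Fin n) ℝ) i j := by
  have hne : (∞ : WithTop ℕ∞) ≠ 0 := by simp
  have hd : DifferentiableAt ℝ w x := (hw.differentiable hne) x
  have hda : DifferentiableAt ℝ (pd a w) x := ((contDiff_pd hw a).differentiable hne) x
  have hg := ra_inv3 (hpos x).ne'
  have hgd : DifferentiableAt ℝ (fun y => ((w y) ^ 3)⁻¹) x :=
    DifferentiableAt.comp x (g := fun s : ℝ => (s ^ 3)⁻¹) hg.differentiableAt hd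
  have h1 : pd a (fun y => conf w y i j) =
      fun y => (-2 * (1 : Matrix (Fin n) (Fin n) ℝ) i j) * (pd a w y * ((w y) ^ 3)⁻¹) := by
    funext y
    rw [pd_conf hw hpos]
    ring
  have hm : DifferentiableAt ℝ (fun y => pd a w y * ((w y) ^ 3)⁻¹) x := hda.mul hgd
  rw [h1, pd_const_mul hm, pd_mul hda hgd, pd_comp (g := fun s : ℝ => (s ^ 3)⁻¹) hg hd]
  simp only [hess]
  ring

theorem conf_inv {w : E n → ℝ} (hpos : ∀ x, 0 < w x) (x : E n) :
    (conf w x)⁻¹ = ((w x) ^ 2) • (1 : Matrix (Fin n) (Fin n) ℝ) := by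
  apply Matrix.inv_eq_right_inv
  rw [conf, Matrix.smul_mul, Matrix.one_mul, smul_smul,
    inv_mul_cancel₀ (pow_ne_zero 2 (hpos x).ne'), one_smul]

theorem chris_conf {w : E n → ℝ} (hw : ContDiff ℝ ∞ w) (hpos : ∀ x, 0 < w x)
    (p i j : Fin n) (x : E n) :
    chris (conf w) p i j x = - (1 / w x) *
      ((1 : Matrix (Fin n) (Fin n) ℝ) j p * pd i w x + (1 : Matrix (Fin n) (Fin n) ℝ) i p * pd j w x
        - (1 : Matrix (Fin n) (Fin n) ℝ) i j * pd p w x) := by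
  unfold chris
  rw [conf_inv hpos, Finset.sum_eq_single p]
  · rw [pd_conf hw hpos, pd_conf hw hpos, pd_conf hw hpos, Matrix.smul_apply,
      Matrix.one_apply_eq, smul_eq_mul]
    have hx := (hpos x).ne'
    field_simp
    ring
  · intro q _ hq
    rw [Matrix.smul_apply, Matrix.one_apply_ne hq.symm, smul_zero, zero_mul]
  · intro h
    exact absurd (Finset.mem_univ p) h

end H68.CF
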