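import Pool.Agent.H68.CF.Defs

/-!
# [H68 CF SigAlg] Algebra of `sig` and `newt`

`sig j A` is the coefficient of `X^j` in `det (1 + X A)` and `newt j A` the coefficient of `X^j`
in `adj (1 + X A)` (see `Defs`). Everything follows from the polynomial matrix identities
`(1 + X A) * adj = det • 1 = adj * (1 + X A)` (`Matrix.mul_adjugate`, `Matrix.adjugate_mul`),
comparing coefficients (coefficient `0`: `newt_zero`; coefficient `j+1`: `newt_succ`, `newt_succ'`
; their difference: `newt_comm`). Transposition commutes with adjugate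
(`Matrix.adjugate_transpose`): `newt_symm`. `sig_smul`, `newt_smul`: replace `X` by `c X`
(`Polynomial.comp (C c * X)`, a ring hom commuting with `det` and `adjugate`,
`RingHom.map_det`, `RingHom.map_adjugate`; or prove `sig_smul` with
`Matrix.coeff_det_one_add_X_smul_eq_sum_minors` and then `newt_smul` by induction from
`newt_succ`). `sig_conj`: `1 + X U A V = U (1 + X A) V` if `U V = 1`
(then also `V U = 1`, `Matrix.mul_eq_one_comm`) and `det` is multiplicative; `newt_conj` then
follows by induction from `newt_succ`. `sig_eq_zero`: there are no subsets with more than `n`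
elements (`Matrix.coeff_det_one_add_X_smul_eq_sum_minors`). `sig_add_diff` is not needed.
-/

open MeasureTheory Set Filter Topology Matrix Polynomial
open scoped ContDiff NNReal

noncomputable section

namespace H68.CF

variable {n : ℕ}

/-- the polynomial matrix `1 + X A` -/
private def pm (A : Matrix (Fin n) (Fin n) ℝ) : Matrix (Fin n) (Fin n) ℝ[X] :=
  1 + (X : ℝ[X]) • A.map (C : ℝ → ℝ[X])

private theorem pm_sig (j : ℕ) (A : Matrix (Fin n) (Fin n) ℝ) : sig j A = (pm A).det.coeff j := rfl

private theorem pm_newt (j : ℕ) (A : Matrix (Fin n) (Fin n) ℝ) (a b : Fin n) :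
    newt j A a b = ((pm A).adjugate a b).coeff j := rfl

private theorem pm_left (A : Matrix (Fin n) (Fin n) ℝ) (a b : Fin n) :
    (pm A).adjugate a b + X * ∑ l, C (A a l) * (pm A).adjugate l b =
      (pm A).det * (1 : Matrix (Fin n) (Fin n) ℝ[X]) a b := by
  have h1 := congrFun (congrFun (mul_adjugate (pm A)) a) b
  rw [Matrix.smul_apply, smul_eq_mul] at h1
  rw [← h1]
  conv_rhs => rw [pm]
  rw [add_mul, one_mul, Matrix.smul_mul, Matrix.add_apply, Matrix.smul_apply, Matrix.mul_apply,
    smul_eq_mul]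
  rfl

private theorem pm_right (A : Matrix (Fin n) (Fin n) ℝ) (a b : Fin n) :
    (pm A).adjugate a b + X * ∑ l, (pm A).adjugate a l * C (A l b) =
      (pm A).det * (1 : Matrix (Fin n) (Fin n) ℝ[X]) a b := by
  have h1 := congrFun (congrFun (adjugate_mul (pm A)) a) b
  rw [Matrix.smul_apply, smul_eq_mul] at h1
  rw [← h1]
  conv_rhs => rw [pm]
  rw [mul_add, mul_one, Matrix.mul_smul, Matrix.add_apply, Matrix.smul_apply, Matrix.mul_apply,
    smul_eq_mul]
  rfl

private theorem pm_one (a b : Fin n) : (1 : Matrix (Fin n) (Fin n) ℝ[X]) a b =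
    C ((1 : Matrix (Fin n) (Fin n) ℝ) a b) := by
  rw [Matrix.one_apply, Matrix.one_apply]
  split_ifs <;> simp

theorem sig_zero (A : Matrix (Fin n) (Fin n) ℝ) : sig 0 A = 1 := by
  rw [pm_sig, coeff_zero_eq_eval_zero, ← coe_evalRingHom, RingHom.map_det]
  have h1 : (evalRingHom (0 : ℝ)).mapMatrix (pm A) = 1 := by
    ext a b
    rw [RingHom.mapMatrix_apply, Matrix.map_apply, pm, Matrix.add_apply, Matrix.smul_apply,
      Matrix.map_apply, pm_one, smul_eq_mul]
    simp
  rw [h1, det_one]

theorem newt_zero (A : Matrix (Fin n) (Fin n) ℝ) : newt 0 A = 1 := by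
  ext a b
  have h1 := congrArg (fun q : ℝ[X] => q.coeff 0) (pm_left A a b)
  simp only [coeff_add, coeff_X_mul_zero, add_zero, pm_one, coeff_mul_C] at h1
  rw [pm_newt, h1, ← pm_sig, sig_zero, one_mul]

theorem newt_succ (j : ℕ) (A : Matrix (Fin n) (Fin n) ℝ) :
    newt (j + 1) A = sig (j + 1) A • (1 : Matrix (Fin n) (Fin n) ℝ) - A * newt j A := by
  ext a b
  have h1 := congrArg (fun q : ℝ[X] => q.coeff (j + 1)) (pm_left A a b)
  simp only [coeff_add, coeff_X_mul, pm_one, coeff_mul_C, finsetSum_coeff, coeff_C_mul] at h1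
  rw [Matrix.sub_apply, Matrix.smul_apply, Matrix.mul_apply, smul_eq_mul]
  simp only [pm_newt, pm_sig]
  linarith

theorem newt_succ' (j : ℕ) (A : Matrix (Fin n) (Fin n) ℝ) :
    newt (j + 1) A = sig (j + 1) A • (1 : Matrix (Fin n) (Fin n) ℝ) - newt j A * A := by
  ext a b
  have h1 := congrArg (fun q : ℝ[X] => q.coeff (j + 1)) (pm_right A a b)
  simp only [coeff_add, coeff_X_mul, pm_one, coeff_mul_C, finsetSum_coeff] at h1
  rw [Matrix.sub_apply, Matrix.smul_apply, Matrix.mul_apply, smul_eq_mul]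
  simp only [pm_newt, pm_sig]
  linarith

theorem newt_comm (j : ℕ) (A : Matrix (Fin n) (Fin n) ℝ) : A * newt j A = newt j A * A := by
  have h1 := newt_succ j A
  have h2 := newt_succ' j A
  rw [h1] at h2
  exact sub_right_injective h2

theorem newt_symm (j : ℕ) {A : Matrix (Fin n) (Fin n) ℝ} (hA : A.IsSymm) :
    (newt j A).IsSymm := by
  have h1 : (pm A)ᵀ = pm A := by
    unfold pm
    rw [Matrix.transpose_add, Matrix.transpose_one, Matrix.transpose_smul, ← Matrix.transpose_map,
      hA.eq]
  have h2 := adjugate_transpose (pm A)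
  rw [h1] at h2
  refine Matrix.IsSymm.ext fun a b => ?_
  rw [pm_newt, pm_newt, ← congrFun (congrFun h2 a) b]
  rfl

theorem sig_smul (j : ℕ) (c : ℝ) (A : Matrix (Fin n) (Fin n) ℝ) :
    sig j (c • A) = c ^ j * sig j A := by
  have h1 : (compRingHom (C c * X)).mapMatrix (pm A) = pm (c • A) := by
    ext1 a b
    rw [RingHom.mapMatrix_apply, Matrix.map_apply, pm, pm, Matrix.add_apply, Matrix.smul_apply,
      Matrix.map_apply, Matrix.add_apply, Matrix.smul_apply, Matrix.map_apply, pm_one,
      Matrix.smul_apply, coe_compRingHom_apply, smul_eq_mul, smul_eq_mul, smul_eq_mul, add_comp,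
      mul_comp, C_comp, X_comp, C_comp, C_mul]
    ring
  rw [pm_sig, pm_sig, ← h1, ← RingHom.map_det, coe_compRingHom_apply, comp_C_mul_X_coeff, mul_comm]

theorem newt_smul (j : ℕ) (c : ℝ) (A : Matrix (Fin n) (Fin n) ℝ) :
    newt j (c • A) = c ^ j • newt j A := by
  have h1 : (compRingHom (C c * X)).mapMatrix (pm A) = pm (c • A) := by
    ext1 a b
    rw [RingHom.mapMatrix_apply, Matrix.map_apply, pm, pm, Matrix.add_apply, Matrix.smul_apply,
      Matrix.map_apply, Matrix.add_apply, Matrix.smul_apply, Matrix.map_apply, pm_one,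
      Matrix.smul_apply, coe_compRingHom_apply, smul_eq_mul, smul_eq_mul, smul_eq_mul, add_comp,
      mul_comp, C_comp, X_comp, C_comp, C_mul]
    ring
  ext a b
  rw [Matrix.smul_apply, smul_eq_mul, pm_newt, pm_newt, ← h1, ← RingHom.map_adjugate,
    RingHom.mapMatrix_apply, Matrix.map_apply, coe_compRingHom_apply, comp_C_mul_X_coeff, mul_comm]

theorem sig_conj (j : ℕ) (A : Matrix (Fin n) (Fin n) ℝ) {U V : Matrix (Fin n) (Fin n) ℝ}
    (hUV : U * V = 1) : sig j (U * A * V) = sig j A := by
  have h1 : pm (U * A * V) = U.map C * pm A * V.map C := by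
    have h2 : U.map C * V.map C = (1 : Matrix (Fin n) (Fin n) ℝ[X]) := by
      rw [← Matrix.map_mul, hUV, Matrix.map_one _ C_0 C_1]
    unfold pm
    rw [mul_add, add_mul, mul_one, h2, Matrix.mul_smul, Matrix.smul_mul, Matrix.map_mul,
      Matrix.map_mul]
  have h3 : (U.map (C : ℝ → ℝ[X])).det * (V.map (C : ℝ → ℝ[X])).det = 1 := by
    rw [← det_mul, ← Matrix.map_mul, hUV, Matrix.map_one _ C_0 C_1, det_one]
  rw [pm_sig, pm_sig, h1, det_mul, det_mul]
  have h4 : (U.map (C : ℝ → ℝ[X])).det * (pm A).det * (V.map (C : ℝ → ℝ[X])).det =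
      (pm A).det * ((U.map (C : ℝ → ℝ[X])).det * (V.map (C : ℝ → ℝ[X])).det) := by ring
  rw [h4, h3, mul_one]

theorem newt_conj (j : ℕ) (A : Matrix (Fin n) (Fin n) ℝ) {U V : Matrix (Fin n) (Fin n) ℝ}
    (hUV : U * V = 1) : newt j (U * A * V) = U * newt j A * V := by
  have hVU : V * U = 1 := mul_eq_one_comm.1 hUV
  induction j with
  | zero => rw [newt_zero, newt_zero, mul_one, hUV]
  | succ j ih =>
    rw [newt_succ, newt_succ, ih, sig_conj _ _ hUV, mul_sub, sub_mul, Matrix.mul_smul,
      Matrix.smul_mul, mul_one, hUV]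
    congr 1
    calc U * A * V * (U * newt j A * V) = U * A * (V * U) * newt j A * V := by
          simp only [Matrix.mul_assoc]
      _ = U * (A * newt j A) * V := by
          rw [hVU, Matrix.mul_one]
          simp only [Matrix.mul_assoc]

theorem sig_eq_zero {j : ℕ} (hj : n < j) (A : Matrix (Fin n) (Fin n) ℝ) : sig j A = 0 := by
  unfold sig
  rw [Matrix.coeff_det_one_add_X_smul_eq_sum_minors, Finset.powersetCard_eq_empty.2,
    Finset.sum_empty]
  rw [Finset.card_univ, Fintype.card_fin]
  exact hj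

end H68.CF
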