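import Pool.Agent.H68.CF.SigAlg

/-!
# [H68 CF SigDer] Derivative of `sig`, traces of the Newton tensors

* `hasDerivAt_sig`. One has for all real `τ`:
  `det (1 + τ A(s)) = ∑_j τ^j sig j (A s)` and `adj (1 + τ A) = ∑_j τ^j newt j A`
  (evaluate the polynomials of `Defs` at `τ`). Possible proofs:
  (1) by induction on `j` and linear algebra is NOT possible directly; do this:
  `sig (j+1) A = ∑_{s ∈ powersetCard (j+1) univ} det (A.submatrix s s)`
  (`Matrix.coeff_det_one_add_X_smul_eq_sum_minors`) is a polynomial in the entries, so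
  `s ↦ sig (j+1) (A s)` is differentiable; let `D j` be its derivative at `t`.
  For every real `τ` the derivative at `s = t` of `det (1 + τ A s)` is
  `trace (adj (1 + τ A t) * (τ A'))` (Jacobi's formula; from
  `Matrix.derivative_det_one_add_X_smul` or by `Matrix.det_apply` and
  `HasDerivAt.finset_prod`: the derivative of `det M(s)` is
  `∑_i det (M.updateRow i (M' i)) = ∑_i ∑_l M' i l * adj M l i`,
  `Matrix.adjugate_apply`/`Matrix.cramer`). So the polynomials in `τ`
  `∑_j τ^(j+1) D j` and `∑_j τ^(j+1) trace (newt j (A t) * A')` agree for all `τ`; compare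
  coefficients (`Polynomial.funext`).
* `trace_newt_mul`: apply `hasDerivAt_sig` to `A(s) = s • A` at `s = 1` and `sig_smul`.
* `trace_newt`: take the trace of `newt_succ` and use `trace_newt_mul`; `j = 0`: `trace 1 = n`.
* `sig_one`: `trace_newt_mul` for `j = 0` (or `Matrix.coeff_det_one_add_X_smul_one`).
-/

open MeasureTheory Set Filter Topology Matrix Polynomial
open scoped ContDiff NNReal

noncomputable section

namespace H68.CF

variable {n : ℕ}

/-- coefficientwise derivative of a family of polynomials -/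
private def sdPD (P : ℝ → ℝ[X]) (P' : ℝ[X]) (t : ℝ) : Prop :=
  ∀ k, HasDerivAt (fun s => (P s).coeff k) (P'.coeff k) t

private theorem sdPD_const (Q : ℝ[X]) (t : ℝ) : sdPD (fun _ => Q) 0 t := by
  intro k
  rw [coeff_zero]
  exact hasDerivAt_const t _

private theorem sdPD_mul {P Q : ℝ → ℝ[X]} {P' Q' : ℝ[X]} {t : ℝ} (hP : sdPD P P' t)
    (hQ : sdPD Q Q' t) : sdPD (fun s => P s * Q s) (P' * Q t + P t * Q') t := by
  intro k
  simp only [coeff_add, coeff_mul]
  rw [← Finset.sum_add_distrib]
  apply HasDerivAt.fun_sum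
  intro a _
  exact (hP a.1).mul (hQ a.2)

private theorem sdPD_sum {ι : Type*} (u : Finset ι) {P : ι → ℝ → ℝ[X]} {P' : ι → ℝ[X]} {t : ℝ}
    (h : ∀ i ∈ u, sdPD (P i) (P' i) t) : sdPD (fun s => ∑ i ∈ u, P i s) (∑ i ∈ u, P' i) t := by
  intro k
  simp only [finsetSum_coeff]
  exact HasDerivAt.fun_sum fun i hi => h i hi k

private theorem sdPD_prod {ι : Type*} [DecidableEq ι] (u : Finset ι) {P : ι → ℝ → ℝ[X]}
    {P' : ι → ℝ[X]} {t : ℝ} (h : ∀ i ∈ u, sdPD (P i) (P' i) t) :
    sdPD (fun s => ∏ i ∈ u, P i s) (∑ i ∈ u, (∏ j ∈ u.erase i, P j t) * P' i) t := by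
  induction u using Finset.induction_on with
  | empty =>
    simp only [Finset.prod_empty, Finset.sum_empty]
    exact sdPD_const 1 t
  | insert a u ha ih =>
    have h1 := sdPD_mul (h a (Finset.mem_insert_self a u))
      (ih fun i hi => h i (Finset.mem_insert_of_mem hi))
    have e1 : (fun s => ∏ i ∈ insert a u, P i s) = fun s => P a s * ∏ i ∈ u, P i s := by
      funext s
      rw [Finset.prod_insert ha]
    have e2 : (∑ i ∈ insert a u, (∏ j ∈ (insert a u).erase i, P j t) * P' i) =
        P' a * ∏ i ∈ u, P i t + P a t * ∑ i ∈ u, (∏ j ∈ u.erase i, P j t) * P' i := by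
      rw [Finset.sum_insert ha, Finset.erase_insert ha, mul_comm (P' a), Finset.mul_sum]
      congr 1
      apply Finset.sum_congr rfl
      intro i hi
      have hia : a ≠ i := fun hh => ha (hh ▸ hi)
      rw [Finset.erase_insert_of_ne hia, Finset.prod_insert (fun hh => ha (Finset.mem_of_mem_erase hh)),
        mul_assoc]
    rw [e1, e2]
    exact h1

private theorem sdPD_det {M : ℝ → Matrix (Fin n) (Fin n) ℝ[X]} {M' : Matrix (Fin n) (Fin n) ℝ[X]}
    {t : ℝ} (h : ∀ i j, sdPD (fun s => M s i j) (M' i j) t) :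
    sdPD (fun s => (M s).det) (Matrix.trace ((M t).adjugate * M')) t := by
  have e1 : (fun s => (M s).det) = fun s => ∑ σ : Equiv.Perm (Fin n),
      (((Equiv.Perm.sign σ : ℤ) : ℝ[X])) * ∏ i, M s (σ i) i := by
    funext s
    rw [Matrix.det_apply']
  have e2 : Matrix.trace ((M t).adjugate * M') = ∑ σ : Equiv.Perm (Fin n),
      (0 * (∏ i, M t (σ i) i) + (((Equiv.Perm.sign σ : ℤ) : ℝ[X])) *
        ∑ i, (∏ j ∈ Finset.univ.erase i, M t (σ j) j) * M' (σ i) i) := by
    simp only [zero_mul, zero_add, Finset.mul_sum]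
    rw [Finset.sum_comm, Matrix.trace]
    apply Finset.sum_congr rfl
    intro i _
    rw [Matrix.diag_apply, Matrix.mul_apply]
    have h2 : ((M t).updateCol i (fun r => M' r i)).det = ∑ l, (M t).adjugate i l * M' l i := by
      rw [← Matrix.cramer_apply, Matrix.cramer_eq_adjugate_mulVec]
      rfl
    rw [← h2, Matrix.det_apply']
    apply Finset.sum_congr rfl
    intro σ _
    congr 1
    rw [← Finset.prod_erase_mul Finset.univ _ (Finset.mem_univ i), Matrix.updateCol_self]
    congr 1
    apply Finset.prod_congr rfl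
    intro j hj
    rw [Matrix.updateCol_ne (Finset.ne_of_mem_erase hj)]
  rw [e1, e2]
  apply sdPD_sum
  intro σ _
  exact sdPD_mul (sdPD_const _ t) (sdPD_prod Finset.univ fun i _ => h (σ i) i)

theorem hasDerivAt_sig {A : ℝ → Matrix (Fin n) (Fin n) ℝ} {A' : Matrix (Fin n) (Fin n) ℝ}
    {t : ℝ} (h : ∀ i j, HasDerivAt (fun s => A s i j) (A' i j) t) (j : ℕ) :
    HasDerivAt (fun s => sig (j + 1) (A s)) (Matrix.trace (newt j (A t) * A')) t := by
  have h1 : ∀ a b, sdPD (fun s => (1 + (X : ℝ[X]) • (A s).map (C : ℝ → ℝ[X]) :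
      Matrix (Fin n) (Fin n) ℝ[X]) a b) (((X : ℝ[X]) • A'.map (C : ℝ → ℝ[X])) a b) t := by
    intro a b k
    simp only [Matrix.add_apply, Matrix.smul_apply, Matrix.map_apply, smul_eq_mul, coeff_add]
    cases k with
    | zero =>
      simp only [coeff_X_mul_zero]
      exact hasDerivAt_const t _
    | succ k =>
      simp only [coeff_X_mul, coeff_C]
      split_ifs
      · exact (h a b).const_add _
      · exact hasDerivAt_const t _
  have h2 := sdPD_det h1 (j + 1)
  have h3 : Matrix.trace (newt j (A t) * A') = (Matrix.trace ((Matrix.adjugate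
      (1 + (X : ℝ[X]) • (A t).map (C : ℝ → ℝ[X]))) * ((X : ℝ[X]) • A'.map (C : ℝ → ℝ[X])))).coeff
        (j + 1) := by
    rw [Matrix.trace, Matrix.trace, finsetSum_coeff]
    apply Finset.sum_congr rfl
    intro i _
    rw [Matrix.diag_apply, Matrix.diag_apply, Matrix.mul_apply, Matrix.mul_apply, finsetSum_coeff]
    apply Finset.sum_congr rfl
    intro l _
    rw [Matrix.smul_apply, Matrix.map_apply, smul_eq_mul, mul_left_comm, coeff_X_mul, coeff_mul_C]
    rfl
  rw [h3]
  exact h2

theorem trace_newt_mul (j : ℕ) (A : Matrix (Fin n) (Fin n) ℝ) :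
    Matrix.trace (newt j A * A) = ((j : ℝ) + 1) * sig (j + 1) A := by
  have h1 : ∀ a b, HasDerivAt (fun s : ℝ => (s • A) a b) (A a b) 1 := by
    intro a b
    have := (hasDerivAt_id (1 : ℝ)).mul_const (A a b)
    simpa [Matrix.smul_apply] using this
  have h2 := hasDerivAt_sig h1 j
  rw [one_smul] at h2
  have h3 : HasDerivAt (fun s : ℝ => sig (j + 1) (s • A)) (((j : ℝ) + 1) * sig (j + 1) A) 1 := by
    have h4 : (fun s : ℝ => sig (j + 1) (s • A)) = fun s : ℝ => s ^ (j + 1) * sig (j + 1) A := by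
      funext s
      exact sig_smul (j + 1) s A
    rw [h4]
    have h5 := (hasDerivAt_pow (j + 1) (1 : ℝ)).mul_const (sig (j + 1) A)
    simpa using h5
  exact h2.unique h3

theorem trace_newt (j : ℕ) (A : Matrix (Fin n) (Fin n) ℝ) :
    Matrix.trace (newt j A) = ((n : ℝ) - j) * sig j A := by
  cases j with
  | zero =>
    rw [newt_zero, sig_zero, Matrix.trace_one]
    simp
  | succ j =>
    have h1 := trace_newt_mul j A
    rw [newt_succ', Matrix.trace_sub, Matrix.trace_smul, Matrix.trace_one, h1, smul_eq_mul]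
    simp only [Fintype.card_fin]
    push_cast
    ring

theorem sig_one (A : Matrix (Fin n) (Fin n) ℝ) : sig 1 A = Matrix.trace A := by
  have h1 := trace_newt_mul 0 A
  rw [newt_zero, one_mul] at h1
  rw [h1]
  simp

end H68.CF
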