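import Pool.Agent.H68.CF.IbpP

/-!
# [H68 CF SimInt] Change of variables by similarities

`T x = lam • U x + a` maps `FD = fundamentalDomain b` onto a fundamental domain for `Lat b'`
(`lam U` maps `Lat b` onto `Lat b'`); `∫_FD f(T x) dx = lam^{-n} ∫_{T(FD)} f` (`lam • U` scales
volume by `lam^n`: `Measure.addHaar_image_linearMap`/`setIntegral_comp_smul_of_pos` and
`LinearIsometryEquiv.measurePreserving`, translation invariance), and
`∫_{T(FD)} f = ∫_{FD'} f` for `Lat b'`-periodic `f`
(`IsAddFundamentalDomain.setIntegral_eq`; the image is a fundamental domain, or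
use the basis `b'' = lam U b` of the same lattice `Lat b'`, whose fundamental domain is
`lam U (FD)`, and `per_translate`).
-/

open MeasureTheory Set Filter Topology Matrix Polynomial
open scoped ContDiff NNReal Pointwise

noncomputable section

namespace H68.CF

variable {n : ℕ}

/-- The pull back of a conformal factor by the similarity `x ↦ lam • U x + a`. -/
def sim (lam : ℝ) (U : E n ≃ₗᵢ[ℝ] E n) (a : E n) (w : E n → ℝ) (x : E n) : ℝ :=
  w (lam • U x + a) / lam

theorem sim_integral {b b' : Module.Basis (Fin n) ℝ (E n)} {lam : ℝ} (hlam : 0 < lam)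
    (U : E n ≃ₗᵢ[ℝ] E n) (a : E n) (hL : ∀ v, v ∈ Lat b ↔ lam • U v ∈ Lat b')
    {f : E n → ℝ} (hf : ∀ v ∈ Lat b', ∀ x, f (x + v) = f x) :
    lam ^ n * ∫ x in ZSpan.fundamentalDomain b, f (lam • U x + a) =
      ∫ x in ZSpan.fundamentalDomain b', f x := by
  let L : E n ≃ₗ[ℝ] E n :=
    U.toLinearEquiv.trans (LinearEquiv.smulOfNeZero ℝ (E n) lam hlam.ne')
  have hLx : ∀ x, L x = lam • U x := fun _ => rfl
  obtain ⟨g, hg⟩ : ∃ g : E n → ℝ, ∀ y, g y = f (y + a) := ⟨fun y => f (y + a), fun _ => rfl⟩
  have hgper : ∀ v ∈ Lat b', ∀ x, g (x + v) = g x := by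
    intro v hv x
    rw [hg, hg, show x + v + a = (x + a) + v by abel, hf v hv]
  have hspan : Submodule.span ℤ (Set.range (b.map L)) = Submodule.span ℤ (Set.range b') := by
    rw [← ZSpan.map b L]
    ext v
    constructor
    · rintro ⟨u, hu, rfl⟩
      exact (hL u).1 hu
    · intro hv
      refine ⟨L.symm v, ?_, L.apply_symm_apply v⟩
      apply (hL _).2
      rw [← hLx, L.apply_symm_apply]
      exact hv
  have hc : VAddCommClass (E n) (Submodule.span ℤ (Set.range b')) (E n) := by
    refine ⟨fun g l x => ?_⟩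
    change g + ((l : E n) + x) = (l : E n) + (g + x)
    abel
  have hi : VAddInvariantMeasure (Submodule.span ℤ (Set.range b')) (E n)
      (volume : Measure (E n)) := by
    refine ⟨fun l s _ => ?_⟩
    exact measure_preimage_add (volume : Measure (E n)) (l : E n) s
  have h0 := ZSpan.isAddFundamentalDomain b' (volume : Measure (E n))
  have h1 := ZSpan.isAddFundamentalDomain (b.map L) (volume : Measure (E n))
  rw [hspan] at h1
  have h2 := h1.setIntegral_eq h0 (f := g) (by
    intro l x
    change g ((l : E n) + x) = g x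
    rw [add_comm]
    exact hgper l l.2 x)
  have h3 : ∫ x in ZSpan.fundamentalDomain b', g x = ∫ x in ZSpan.fundamentalDomain b', f x := by
    simp only [hg]
    exact per_translate b' hf a
  have h4 := (U.measurePreserving).setIntegral_image_emb
    U.toHomeomorph.measurableEmbedding (fun y => g (lam • y)) (ZSpan.fundamentalDomain b)
  have h5 := Measure.setIntegral_comp_smul_of_pos (volume : Measure (E n)) g
    (U '' ZSpan.fundamentalDomain b) hlam
  have h6 : lam • (U '' ZSpan.fundamentalDomain b) = ZSpan.fundamentalDomain (b.map L) := by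
    rw [← ZSpan.map_fundamentalDomain b L]
    ext x
    constructor
    · rintro ⟨_, ⟨y, hy, rfl⟩, rfl⟩
      exact ⟨y, hy, rfl⟩
    · rintro ⟨y, hy, rfl⟩
      exact ⟨U y, ⟨y, hy, rfl⟩, rfl⟩
  rw [h6, h2, h3, finrank_euclideanSpace, Fintype.card_fin, smul_eq_mul] at h5
  have h7 : ∫ x in ZSpan.fundamentalDomain b, f (lam • U x + a) =
      ∫ x in ZSpan.fundamentalDomain b, g (lam • U x) := by
    simp only [hg]
  rw [h7, ← h4, h5, ← mul_assoc, mul_inv_cancel₀ (pow_pos hlam n).ne', one_mul]

end H68.CF
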