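import Pool.Agent.H68.CF.SimInt
import Pool.Agent.H68.CF.PdBasic
import Pool.Agent.H68.CF.SigAlg

/-!
# [H68 CF SimSch] Derivatives of `sim`

Let `Q` be the matrix `Q_ij = (U e_j)_i` (`simM U`); `Qᵀ Q = 1 = Q Qᵀ`. Chain rule:
`∂_i (w(lam U x + a)/lam) = ∑_p Q_pi (∂_p w)(T x)`, `T x = lam • U x + a`, and once more
`∂_i ∂_j = lam ∑_{p,q} Q_pi Q_qj (∂_p ∂_q w)(T x)`: `hess (sim w) x = lam • (Qᵀ * hess w (T x) * Q)`,
`grad2 (sim w) x = grad2 w (T x)`. So
`schouten (sim w) x = Qᵀ * schouten w (T x) * Q` and `sig_conj` applies.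
-/

open MeasureTheory Set Filter Topology Matrix Polynomial
open scoped ContDiff NNReal

noncomputable section

namespace H68.CF

variable {n : ℕ}

/-- The matrix of `U`. -/
def simM (U : E n ≃ₗᵢ[ℝ] E n) : Matrix (Fin n) (Fin n) ℝ :=
  fun i j => (U (EuclideanSpace.single j 1)) i

theorem simM_orth (U : E n ≃ₗᵢ[ℝ] E n) : (simM U)ᵀ * simM U = 1 ∧ simM U * (simM U)ᵀ = 1 := by
  have h1 : (simM U)ᵀ * simM U = 1 := by
    ext i j
    rw [Matrix.mul_apply]
    have h2 : ∑ p, (simM U)ᵀ i p * simM U p j =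
        inner ℝ (U (EuclideanSpace.single j (1 : ℝ))) (U (EuclideanSpace.single i (1 : ℝ))) := by
      rw [PiLp.inner_apply]
      apply Finset.sum_congr rfl
      intro p _
      simp [simM, Matrix.transpose_apply]
    rw [h2, LinearIsometryEquiv.inner_map_map, EuclideanSpace.inner_single_left]
    by_cases hij : i = j
    · subst hij
      simp
    · have hji : ¬ j = i := fun h => hij h.symm
      simp [hij, hji]
  exact ⟨h1, mul_eq_one_comm.mp h1⟩

private theorem simT_hasFDerivAt (lam : ℝ) (U : E n ≃ₗᵢ[ℝ] E n) (a : E n) (x : E n) :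
    HasFDerivAt (fun y => lam • U y + a)
      (lam • (U.toContinuousLinearEquiv : E n →L[ℝ] E n)) x := by
  have h1 : HasFDerivAt (fun y => U y) (U.toContinuousLinearEquiv : E n →L[ℝ] E n) x :=
    U.toContinuousLinearEquiv.hasFDerivAt
  exact (h1.const_smul lam).add_const a

private theorem simT_smooth (lam : ℝ) (U : E n ≃ₗᵢ[ℝ] E n) (a : E n) :
    ContDiff ℝ ∞ (fun y => lam • U y + a) := by
  have h1 : ContDiff ℝ ∞ (fun y : E n => U y) := U.toContinuousLinearEquiv.contDiff
  exact (h1.const_smul lam).add contDiff_const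

private theorem sim_pd_comp (lam : ℝ) (U : E n ≃ₗᵢ[ℝ] E n) (a : E n) {f : E n → ℝ}
    (hf : ContDiff ℝ ∞ f) (i : Fin n) (x : E n) :
    pd i (fun y => f (lam • U y + a)) x =
      lam * ∑ p, simM U p i * pd p f (lam • U x + a) := by
  have h1 : HasFDerivAt f (fderiv ℝ f (lam • U x + a)) (lam • U x + a) :=
    (hf.differentiable (by simp)).differentiableAt.hasFDerivAt
  have h2 := h1.comp x (simT_hasFDerivAt lam U a x)
  have h3 : pd i (fun y => f (lam • U y + a)) x =
      fderiv ℝ f (lam • U x + a) (lam • U (EuclideanSpace.single i 1)) := by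
    unfold pd
    have h4 : (fun y => f (lam • U y + a)) = f ∘ (fun y => lam • U y + a) := rfl
    rw [h4, h2.fderiv]
    rfl
  rw [h3, fderiv_eq_sum, Finset.mul_sum]
  apply Finset.sum_congr rfl
  intro p _
  simp only [simM, PiLp.smul_apply, smul_eq_mul]
  ring

private theorem sim_pd {lam : ℝ} (hlam : 0 < lam) (U : E n ≃ₗᵢ[ℝ] E n) (a : E n) {w : E n → ℝ}
    (hw : ContDiff ℝ ∞ w) (i : Fin n) (x : E n) :
    pd i (sim lam U a w) x = ∑ p, simM U p i * pd p w (lam • U x + a) := by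
  have h1 : sim lam U a w = fun y => lam⁻¹ * w (lam • U y + a) := by
    funext y
    unfold sim
    rw [div_eq_inv_mul]
  have h2 : DifferentiableAt ℝ (fun y => w (lam • U y + a)) x :=
    ((hw.comp (simT_smooth lam U a)).differentiable (by simp)).differentiableAt
  rw [h1, pd_const_mul h2, sim_pd_comp lam U a hw i x, ← mul_assoc, inv_mul_cancel₀ hlam.ne',
    one_mul]

theorem sim_smooth {lam : ℝ} (hlam : 0 < lam) (U : E n ≃ₗᵢ[ℝ] E n) (a : E n) {w : E n → ℝ}
    (hw : ContDiff ℝ ∞ w) : ContDiff ℝ ∞ (sim lam U a w) := by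
  have h1 : sim lam U a w = fun y => w (lam • U y + a) / lam := rfl
  rw [h1]
  exact (hw.comp (simT_smooth lam U a)).div_const lam

theorem sim_grad2 {lam : ℝ} (hlam : 0 < lam) (U : E n ≃ₗᵢ[ℝ] E n) (a : E n) {w : E n → ℝ}
    (hw : ContDiff ℝ ∞ w) (x : E n) : grad2 (sim lam U a w) x = grad2 w (lam • U x + a) := by
  unfold grad2
  set v : Fin n → ℝ := fun p => pd p w (lam • U x + a) with hv
  have h1 : ∀ i, pd i (sim lam U a w) x = ((simM U)ᵀ *ᵥ v) i := by
    intro i
    rw [sim_pd hlam U a hw i x]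
    simp [Matrix.mulVec, dotProduct, Matrix.transpose_apply, hv]
  have h2 : ∑ i, (pd i (sim lam U a w) x) ^ 2 = ((simM U)ᵀ *ᵥ v) ⬝ᵥ ((simM U)ᵀ *ᵥ v) := by
    rw [dotProduct]
    apply Finset.sum_congr rfl
    intro i _
    rw [h1 i, pow_two]
  have h3 : ∑ i, (pd i w (lam • U x + a)) ^ 2 = v ⬝ᵥ v := by
    rw [dotProduct]
    apply Finset.sum_congr rfl
    intro i _
    rw [hv, pow_two]
  rw [h2, h3, Matrix.dotProduct_mulVec, Matrix.vecMul_transpose, Matrix.mulVec_mulVec,
    (simM_orth U).2, Matrix.one_mulVec]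

theorem sim_hess {lam : ℝ} (hlam : 0 < lam) (U : E n ≃ₗᵢ[ℝ] E n) (a : E n) {w : E n → ℝ}
    (hw : ContDiff ℝ ∞ w) (x : E n) :
    hess (sim lam U a w) x = lam • ((simM U)ᵀ * hess w (lam • U x + a) * simM U) := by
  ext i j
  have h1 : pd j (sim lam U a w) = fun y => ∑ p ∈ Finset.univ,
      simM U p j * pd p w (lam • U y + a) := by
    funext y
    exact sim_pd hlam U a hw j y
  have h2 : ∀ p : Fin n, DifferentiableAt ℝ (fun y => pd p w (lam • U y + a)) x := fun p =>
    (((contDiff_pd hw p).comp (simT_smooth lam U a)).differentiable (by simp)).differentiableAt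
  have h3 : hess (sim lam U a w) x i j = pd i (pd j (sim lam U a w)) x := rfl
  rw [h3, h1, pd_sum Finset.univ (fun p _ => (h2 p).const_mul _) i]
  rw [Matrix.smul_apply, Matrix.mul_apply, smul_eq_mul, Finset.mul_sum]
  apply Finset.sum_congr rfl
  intro p _
  rw [pd_const_mul (h2 p), sim_pd_comp lam U a (contDiff_pd hw p) i x, Matrix.mul_apply]
  have h4 : ∀ q, (simM U)ᵀ i q * hess w (lam • U x + a) q p
      = simM U q i * pd q (pd p w) (lam • U x + a) := fun q => rfl
  rw [Finset.sum_congr rfl fun q _ => h4 q]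
  ring

theorem sim_sig {lam : ℝ} (hlam : 0 < lam) (U : E n ≃ₗᵢ[ℝ] E n) (a : E n) {w : E n → ℝ}
    (hw : ContDiff ℝ ∞ w) (j : ℕ) (x : E n) :
    sig j (schouten (sim lam U a w) x) = sig j (schouten w (lam • U x + a)) := by
  have h1 : schouten (sim lam U a w) x =
      (simM U)ᵀ * schouten w (lam • U x + a) * simM U := by
    unfold schouten
    rw [sim_hess hlam U a hw x, sim_grad2 hlam U a hw x, Matrix.mul_sub, Matrix.sub_mul,
      Matrix.mul_smul, Matrix.smul_mul, Matrix.mul_smul, Matrix.smul_mul, Matrix.mul_one,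
      (simM_orth U).1, smul_smul]
    congr 2
    unfold sim
    exact div_mul_cancel₀ _ hlam.ne'
  rw [h1, sig_conj j _ (simM_orth U).1]

end H68.CF
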