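import Pool.Agent.H68.CF.PdBasic

/-!
# [H68 CF SubA] A kernel

Let `e(u) = expNegInvGlue (1 - u)` (smooth, `> 0` for `u < 1`, `0` for `u ≥ 1`, decreasing),
`H₀(x) = e(2 |x|²)/4`, `η₀(x) = - e'(2 |x|²)` so that `∂_i H₀ = e'(2|x|²) x_i = - x_i η₀`;
`η₀ ≥ 0` (`e` is antitone), smooth, supported in `|x|² ≤ 1/2`, and `η₀(0) = - e'(0) > 0`
(`e(u) = exp(-1/(1-u))` near `0`), so `∫ η₀ > 0`. Divide `η₀`, `H₀` by `∫ η₀`.
-/

open MeasureTheory Set Filter Topology Matrix Polynomial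
open scoped ContDiff NNReal

noncomputable section

namespace H68.CF

private theorem sa_smooth : ContDiff ℝ ∞ expNegInvGlue := expNegInvGlue.contDiff

private theorem sa_dsmooth : ContDiff ℝ ∞ (deriv expNegInvGlue) :=
  (contDiff_infty_iff_deriv.1 sa_smooth).2

private theorem sa_dnn (t : ℝ) : 0 ≤ deriv expNegInvGlue t :=
  expNegInvGlue.monotone.deriv_nonneg

private theorem sa_dzero {t : ℝ} (ht : t ≤ 0) : deriv expNegInvGlue t = 0 := by
  refine IsLocalMin.deriv_eq_zero (Filter.Eventually.of_forall fun s => ?_)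
  rw [expNegInvGlue.zero_of_nonpos ht]
  exact expNegInvGlue.nonneg s

private theorem sa_done : deriv expNegInvGlue 1 ≠ 0 := by
  have h1 : expNegInvGlue =ᶠ[𝓝 (1 : ℝ)] fun x => Real.exp (-x⁻¹) := by
    filter_upwards [Ioi_mem_nhds (show (0 : ℝ) < 1 by norm_num)] with x hx
    rw [expNegInvGlue, if_neg (not_le.2 hx)]
  rw [h1.deriv_eq]
  have h2 : HasDerivAt (fun x : ℝ => Real.exp (-x⁻¹)) (Real.exp (-(1 : ℝ)⁻¹) * (-(-((1 : ℝ) ^ 2)⁻¹))) 1 :=
    ((hasDerivAt_inv (one_ne_zero)).neg).exp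
  rw [h2.deriv]
  have := Real.exp_pos (-(1 : ℝ)⁻¹)
  simp

theorem exists_kernel (n : ℕ) :
    ∃ η H : E n → ℝ, ContDiff ℝ ∞ η ∧ ContDiff ℝ ∞ H ∧
      (∀ x, 0 ≤ η x) ∧ (∀ x, 0 ≤ H x) ∧
      (∀ x, x ∉ Metric.ball (0 : E n) 1 → η x = 0) ∧
      (∀ x, x ∉ Metric.ball (0 : E n) 1 → H x = 0) ∧
      HasCompactSupport η ∧ HasCompactSupport H ∧
      (∫ x, η x = 1) ∧ (∀ i x, pd i H x = - (x i * η x)) := by
  have hu : ContDiff ℝ ∞ fun x : E n => 1 - 2 * ‖x‖ ^ 2 :=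
    contDiff_const.sub (contDiff_const.mul (contDiff_norm_sq ℝ))
  have hη0 : ContDiff ℝ ∞ fun x : E n => deriv expNegInvGlue (1 - 2 * ‖x‖ ^ 2) :=
    sa_dsmooth.comp hu
  have hH0 : ContDiff ℝ ∞ fun x : E n => expNegInvGlue (1 - 2 * ‖x‖ ^ 2) :=
    sa_smooth.comp hu
  have hneg : ∀ x : E n, x ∉ Metric.ball (0 : E n) 1 → 1 - 2 * ‖x‖ ^ 2 ≤ 0 := by
    intro x hx
    rw [mem_ball_zero_iff, not_lt] at hx
    nlinarith
  have hout : ∀ x : E n, x ∉ Metric.closedBall (0 : E n) 1 → x ∉ Metric.ball (0 : E n) 1 :=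
    fun x hx h => hx (Metric.ball_subset_closedBall h)
  have hηc : HasCompactSupport fun x : E n => deriv expNegInvGlue (1 - 2 * ‖x‖ ^ 2) :=
    HasCompactSupport.intro (isCompact_closedBall (0 : E n) 1)
      fun x hx => sa_dzero (hneg x (hout x hx))
  have hHc : HasCompactSupport fun x : E n => expNegInvGlue (1 - 2 * ‖x‖ ^ 2) :=
    HasCompactSupport.intro (isCompact_closedBall (0 : E n) 1)
      fun x hx => expNegInvGlue.zero_of_nonpos (hneg x (hout x hx))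
  have hI : 0 < ∫ x : E n, deriv expNegInvGlue (1 - 2 * ‖x‖ ^ 2) := by
    refine hη0.continuous.integral_pos_of_hasCompactSupport_nonneg_nonzero (x := (0 : E n)) hηc
      (fun x => sa_dnn _) ?_
    simp only [norm_zero]
    norm_num
    exact sa_done
  set I := ∫ x : E n, deriv expNegInvGlue (1 - 2 * ‖x‖ ^ 2) with hIdef
  refine ⟨fun x => I⁻¹ * deriv expNegInvGlue (1 - 2 * ‖x‖ ^ 2),
    fun x => (I⁻¹ / 4) * expNegInvGlue (1 - 2 * ‖x‖ ^ 2), contDiff_const.mul hη0,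
    contDiff_const.mul hH0, fun x => mul_nonneg (inv_nonneg.2 hI.le) (sa_dnn _),
    fun x => mul_nonneg (div_nonneg (inv_nonneg.2 hI.le) (by norm_num)) (expNegInvGlue.nonneg _),
    fun x hx => ?_, fun x hx => ?_, hηc.mul_left, hHc.mul_left, ?_, fun i x => ?_⟩
  · simp only [sa_dzero (hneg x hx), mul_zero]
  · simp only [expNegInvGlue.zero_of_nonpos (hneg x hx), mul_zero]
  · rw [integral_const_mul, ← hIdef, inv_mul_cancel₀ hI.ne']
  · have hne : (∞ : WithTop ℕ∞) ≠ 0 := by simp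
    have hg : HasDerivAt (fun t : ℝ => (I⁻¹ / 4) * expNegInvGlue t)
        ((I⁻¹ / 4) * deriv expNegInvGlue (1 - 2 * ‖x‖ ^ 2)) (1 - 2 * ‖x‖ ^ 2) :=
      (((sa_smooth.differentiable hne) _).hasDerivAt).const_mul _
    have hd : DifferentiableAt ℝ (fun x : E n => 1 - 2 * ‖x‖ ^ 2) x :=
      (hu.differentiable hne) x
    have h1 : pd i (fun x : E n => 1 - 2 * ‖x‖ ^ 2) x = -4 * x i := by
      have h2 : HasFDerivAt (fun x : E n => 1 - 2 * ‖x‖ ^ 2)
          (-((2 : ℝ) • (2 • (innerSL ℝ x)))) x :=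
        ((hasStrictFDerivAt_norm_sq x).hasFDerivAt.const_mul 2).const_sub 1
      unfold pd
      rw [h2.fderiv]
      simp only [_root_.neg_apply, _root_.smul_apply,
        innerSL_apply_apply, EuclideanSpace.inner_single_right]
      simp
      ring
    have h3 := pd_comp (g := fun t : ℝ => (I⁻¹ / 4) * expNegInvGlue t)
      (f := fun x : E n => 1 - 2 * ‖x‖ ^ 2) hg hd i
    rw [h3, h1]
    ring

end H68.CF
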