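import Pool.Agent.H68.CF.Curve

/-!
# [H68 CF TdTri] Triangle inequality

Given curves `γ₁` from `x` to `y + v₁` and `γ₂` from `y` to `z + v₂` put `γ t = γ₁ (2t)` for
`t ≤ 1/2` and `γ t = v₁ + γ₂ (2t - 1)` for `t > 1/2` (`v₁ = γ₁ 1 - y ∈ Lat b`). It is Lipschitz
with constant `2 max(L₁, L₂)` (continuous at `1/2`), and `len w γ = len w γ₁ + len w γ₂`: split the
integral at `1/2`; on `(0,1/2)` `deriv γ t = 2 deriv γ₁ (2t)` (also where not differentiable:
`deriv_comp_mul_left`, locally equal functions have equal `deriv`), substitution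
(`intervalIntegral.integral_comp_mul_left`...), and `w (v₁ + y) = w y`. Take infima
(`exists_len_lt`, `td_le_len`, arbitrary `ε`).
-/

open MeasureTheory Set Filter Topology Matrix Polynomial
open scoped ContDiff NNReal

noncomputable section

namespace H68.CF

variable {n : ℕ}

private theorem tdt_congr {f g : ℝ → ℝ} {a b : ℝ} (hab : a ≤ b)
    (h : ∀ t ∈ Ioo a b, f t = g t) : ∫ t in a..b, f t = ∫ t in a..b, g t := by
  rw [intervalIntegral.integral_of_le hab, intervalIntegral.integral_of_le hab,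
    integral_Ioc_eq_integral_Ioo, integral_Ioc_eq_integral_Ioo]
  exact setIntegral_congr_fun measurableSet_Ioo h

theorem td_triangle (b : Module.Basis (Fin n) ℝ (E n)) {w : E n → ℝ} (hw : Continuous w)
    (hpos : ∀ x, 0 < w x) (hper : ∀ v ∈ Lat b, ∀ x, w (x + v) = w x) (x y z : E n) :
    td b w x z ≤ td b w x y + td b w y z := by
  apply le_of_forall_pos_le_add
  intro ε hε
  obtain ⟨γ₁, ⟨L₁, hL₁⟩, h10, h11, hlen1⟩ := exists_len_lt b w x y (half_pos hε)
  obtain ⟨γ₂, ⟨L₂, hL₂⟩, h20, h21, hlen2⟩ := exists_len_lt b w y z (half_pos hε)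
  set γ : ℝ → E n := fun t => γ₁ (min (2 * t) 1) + (γ₂ (max (2 * t - 1) 0) - γ₂ 0) with hγ
  have hlin : LipschitzWith 2 (fun t : ℝ => 2 * t) := by
    apply LipschitzWith.of_dist_le_mul
    intro s t
    rw [Real.dist_eq, Real.dist_eq, ← mul_sub, abs_mul]
    simp
  have hm1 : LipschitzWith 2 (fun t : ℝ => min (2 * t) 1) := hlin.min_const 1
  have hlin2 : LipschitzWith 2 (fun t : ℝ => 2 * t - 1) := by
    apply LipschitzWith.of_dist_le_mul
    intro s t
    rw [Real.dist_eq, Real.dist_eq]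
    have : 2 * s - 1 - (2 * t - 1) = 2 * (s - t) := by ring
    rw [this, abs_mul]
    simp
  have hm2 : LipschitzWith 2 (fun t : ℝ => max (2 * t - 1) 0) := hlin2.max_const 0
  have hγL : LipschitzWith (L₁ * 2 + (L₂ * 2 + 0)) γ :=
    (hL₁.comp hm1).add ((hL₂.comp hm2).sub (LipschitzWith.const (γ₂ 0)))
  have hγ0 : γ 0 = x := by
    simp only [hγ, mul_zero]
    rw [min_eq_left zero_le_one, max_eq_right (by norm_num), sub_self, add_zero, h10]
  have hγ1 : γ 1 - z ∈ Lat b := by
    have h1 : γ 1 - z = (γ₁ 1 - y) + (γ₂ 1 - z) := by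
      simp only [hγ]
      rw [min_eq_right (by norm_num), max_eq_left (by norm_num), h20]
      norm_num
      abel
    rw [h1]
    exact add_mem h11 h21
  have hint := fun s t => len_integrable hw hpos hγL s t
  have hsplit : len w γ = (∫ t in (0 : ℝ)..(1 / 2), ‖deriv γ t‖ / w (γ t)) +
      ∫ t in (1 / 2 : ℝ)..1, ‖deriv γ t‖ / w (γ t) :=
    (intervalIntegral.integral_add_adjacent_intervals (hint _ _) (hint _ _)).symm
  have hA : (∫ t in (0 : ℝ)..(1 / 2), ‖deriv γ t‖ / w (γ t)) = len w γ₁ := by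
    have h1 : (∫ t in (0 : ℝ)..(1 / 2), ‖deriv γ t‖ / w (γ t)) =
        ∫ t in (0 : ℝ)..(1 / 2), 2 * (‖deriv γ₁ (2 * t)‖ / w (γ₁ (2 * t))) := by
      apply tdt_congr (by norm_num)
      intro t ht
      have h2 : γ =ᶠ[𝓝 t] fun s => γ₁ (2 * s) := by
        filter_upwards [Iio_mem_nhds ht.2] with s hs
        have hs' : s < 1 / 2 := hs
        simp only [hγ]
        rw [min_eq_left (by linarith), max_eq_right (by linarith), sub_self, add_zero]
      have h3 : deriv γ t = (2 : ℝ) • deriv γ₁ (2 * t) := by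
        rw [h2.deriv_eq, deriv_comp_mul_left]
      rw [h3, h2.eq_of_nhds, norm_smul]
      simp only [Real.norm_ofNat]
      ring
    rw [h1, intervalIntegral.integral_const_mul,
      intervalIntegral.mul_integral_comp_mul_left (f := fun u => ‖deriv γ₁ u‖ / w (γ₁ u))]
    unfold len
    norm_num
  have hB : (∫ t in (1 / 2 : ℝ)..1, ‖deriv γ t‖ / w (γ t)) = len w γ₂ := by
    have h1 : (∫ t in (1 / 2 : ℝ)..1, ‖deriv γ t‖ / w (γ t)) =
        ∫ t in (1 / 2 : ℝ)..1, 2 * (‖deriv γ₂ (2 * t - 1)‖ / w (γ₂ (2 * t - 1))) := by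
      apply tdt_congr (by norm_num)
      intro t ht
      have h2 : γ =ᶠ[𝓝 t] fun s => γ₁ 1 + (γ₂ (2 * s - 1) - γ₂ 0) := by
        filter_upwards [Ioi_mem_nhds ht.1] with s hs
        have hs' : 1 / 2 < s := hs
        simp only [hγ]
        rw [min_eq_right (by linarith), max_eq_left (by linarith)]
      have h3 : deriv γ t = (2 : ℝ) • deriv γ₂ (2 * t - 1) := by
        rw [h2.deriv_eq, deriv_const_add, deriv_sub_const,
          deriv_comp_mul_left 2 (fun u => γ₂ (u - 1)) t, deriv_comp_sub_const]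
      have h4 : w (γ t) = w (γ₂ (2 * t - 1)) := by
        rw [h2.eq_of_nhds, h20, ← hper (γ₁ 1 - y) h11 (γ₂ (2 * t - 1))]
        congr 1
        abel
      rw [h3, h4, norm_smul]
      simp only [Real.norm_ofNat]
      ring
    rw [h1, intervalIntegral.integral_const_mul,
      intervalIntegral.mul_integral_comp_mul_sub (f := fun u => ‖deriv γ₂ u‖ / w (γ₂ u))]
    unfold len
    norm_num
  have h1 := td_le_len b hpos hγL hγ0 hγ1
  rw [hsplit, hA, hB] at h1
  linarith

end H68.CF
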