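import Pool.Agent.H68.CF.FdBall

/-!
# [H68 CF TraceA] Trace inequality, first part (pointwise and Fubini)

Let `B = ball 0 1` in `E n`, `β = volume B`, `ψ` smooth periodic, `g = √(grad2 ψ)` (continuous,
periodic), `ρ ≥ 0` continuous periodic. For all `x`, `z`:
`|ψ(x)| ≤ |ψ(x+z)| + ∫_0^1 |∇ψ(x+rz)·z| dr ≤ |ψ(x+z)| + ∫_0^1 g(x+rz) dr` for `|z| ≤ 1`
(`hasDerivAt_line`, `abs_fderiv_le`). Average over `z ∈ B`, multiply by `ρ(x)` and integrate over
`FD` (Fubini; `per_translate` moves the shift to `ρ`):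
`β ∫_FD |ψ| ρ ≤ ∫_FD |ψ(y)| (∫_{z ∈ B} ρ(y-z)) dy + ∫_0^1 ∫_FD g(y) (∫_{z∈B} ρ(y - r z) dz) dy dr`
and `∫_{z ∈ B} ρ(y - r z) dz = r^{-n} ∫_{ball y r} ρ` (`0 < r`; change of variables,
`Measure.setIntegral_comp_smul` ...).
-/

open MeasureTheory Set Filter Topology Matrix Polynomial
open scoped ContDiff NNReal Pointwise

noncomputable section

namespace H68.CF

variable {n : ℕ}

private theorem tra_int {T : Type*} [TopologicalSpace T] [MeasurableSpace T]
    [OpensMeasurableSpace T] {μ : Measure T} [IsFiniteMeasure μ] {h : T → ℝ} (hc : Continuous h)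
    {K : ℝ} (hK : ∀ x, |h x| ≤ K) : Integrable h μ :=
  Integrable.of_bound hc.aestronglyMeasurable K (Filter.Eventually.of_forall hK)

private theorem tra_ball {ρ : E n → ℝ} (y : E n) {r : ℝ} (hr : 0 < r) :
    ∫ z in Metric.ball (0 : E n) 1, ρ (y - r • z) = (r ^ n)⁻¹ * ∫ x in Metric.ball y r, ρ x := by
  have h1 := Measure.setIntegral_comp_smul_of_pos (volume : Measure (E n)) (fun u => ρ (y - u))
    (Metric.ball (0 : E n) 1) hr
  have h2 : r • Metric.ball (0 : E n) 1 = Metric.ball (0 : E n) r := by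
    rw [smul_unitBall_of_pos hr]
  have h3 : ∫ u in Metric.ball (0 : E n) r, ρ (y - u) = ∫ x in Metric.ball y r, ρ x := by
    rw [← integral_indicator Metric.isOpen_ball.measurableSet,
      ← integral_indicator Metric.isOpen_ball.measurableSet,
      ← integral_sub_left_eq_self ((Metric.ball y r).indicator ρ) (volume : Measure (E n)) y]
    congr 1
    funext u
    have h4 : u ∈ Metric.ball (0 : E n) r ↔ y - u ∈ Metric.ball y r := by
      rw [mem_ball_iff_norm, mem_ball_iff_norm, sub_zero, sub_sub_cancel_left, norm_neg]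
    by_cases h5 : u ∈ Metric.ball (0 : E n) r
    · rw [Set.indicator_of_mem h5, Set.indicator_of_mem (h4.1 h5)]
    · rw [Set.indicator_of_notMem h5, Set.indicator_of_notMem (fun h => h5 (h4.2 h))]
  have h4 : Module.finrank ℝ (E n) = n := by
    rw [finrank_euclideanSpace, Fintype.card_fin]
  rw [h1, h2, h3, h4, smul_eq_mul]

private theorem tra_swap (b : Module.Basis (Fin n) ℝ (E n)) {f ρ : E n → ℝ} (hf : Continuous f)
    (hfper : ∀ v ∈ Lat b, ∀ x, f (x + v) = f x) (hρ : Continuous ρ)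
    (hρper : ∀ v ∈ Lat b, ∀ x, ρ (x + v) = ρ x) (s : ℝ) :
    ∫ x in ZSpan.fundamentalDomain b, ∫ z in Metric.ball (0 : E n) 1, f (x + s • z) * ρ x =
      ∫ x in ZSpan.fundamentalDomain b, f x * ∫ z in Metric.ball (0 : E n) 1, ρ (x - s • z) := by
  have i1 : IsFiniteMeasure ((volume : Measure (E n)).restrict (ZSpan.fundamentalDomain b)) :=
    isFiniteMeasure_restrict.2 (fd_pos b).2
  have i2 : IsFiniteMeasure ((volume : Measure (E n)).restrict (Metric.ball (0 : E n) 1)) :=
    isFiniteMeasure_restrict.2 measure_ball_lt_top.ne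
  obtain ⟨K, hK⟩ := per_bounded b hf hfper
  obtain ⟨L, hL⟩ := per_bounded b hρ hρper
  have hb : ∀ x y, |f x * ρ y| ≤ K * L := by
    intro x y
    rw [abs_mul]
    exact mul_le_mul (hK x) (hL y) (abs_nonneg _) ((abs_nonneg _).trans (hK x))
  have c1 : Continuous (Function.uncurry fun (x z : E n) => f (x + s • z) * ρ x) :=
    (hf.comp (continuous_fst.add (continuous_snd.const_smul s))).mul (hρ.comp continuous_fst)
  have c2 : Continuous (Function.uncurry fun (x z : E n) => f x * ρ (x - s • z)) :=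
    (hf.comp continuous_fst).mul (hρ.comp (continuous_fst.sub (continuous_snd.const_smul s)))
  have j1 : Integrable (Function.uncurry fun (x z : E n) => f (x + s • z) * ρ x)
      (((volume : Measure (E n)).restrict (ZSpan.fundamentalDomain b)).prod
        ((volume : Measure (E n)).restrict (Metric.ball (0 : E n) 1))) :=
    tra_int c1 fun p => hb _ _
  have j2 : Integrable (Function.uncurry fun (x z : E n) => f x * ρ (x - s • z))
      (((volume : Measure (E n)).restrict (ZSpan.fundamentalDomain b)).prod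
        ((volume : Measure (E n)).restrict (Metric.ball (0 : E n) 1))) :=
    tra_int c2 fun p => hb _ _
  rw [integral_integral_swap j1]
  have h1 : ∀ z : E n, ∫ x in ZSpan.fundamentalDomain b, f (x + s • z) * ρ x =
      ∫ x in ZSpan.fundamentalDomain b, f x * ρ (x - s • z) := by
    intro z
    have h2 := per_translate b (f := fun y => f y * ρ (y - s • z)) (by
      intro v hv x
      have h3 : x + v - s • z = x - s • z + v := by abel
      simp only [hfper v hv, h3, hρper v hv]) (s • z)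
    simp only [add_sub_cancel_right] at h2
    exact h2
  simp only [h1]
  rw [← integral_integral_swap j2]
  simp only [integral_const_mul]

private theorem tra_line {ψ : E n → ℝ} (hψ : ContDiff ℝ ∞ ψ) (x z : E n) (hz : ‖z‖ ≤ 1) :
    |ψ x| ≤ |ψ (x + z)| + ∫ r in (0 : ℝ)..1, Real.sqrt (grad2 ψ (x + r • z)) := by
  have hg : Continuous fun y => Real.sqrt (grad2 ψ y) :=
    (contDiff_grad2 hψ).continuous.sqrt
  have hl : Continuous fun r : ℝ => x + r • z :=
    continuous_const.add (continuous_id.smul continuous_const)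
  have hd : Continuous fun r : ℝ => fderiv ℝ ψ (x + r • z) z :=
    ((hψ.continuous_fderiv (by simp)).comp hl).clm_apply continuous_const
  have h1 : ∫ r in (0 : ℝ)..1, fderiv ℝ ψ (x + r • z) z = ψ (x + (1 : ℝ) • z) -
      ψ (x + (0 : ℝ) • z) := by
    refine intervalIntegral.integral_eq_sub_of_hasDerivAt (f := fun r : ℝ => ψ (x + r • z))
      (fun r _ => ?_) (hd.intervalIntegrable _ _)
    have h2 := hasDerivAt_line (hψ.differentiable (by simp)) x z r
    rw [← fderiv_eq_sum] at h2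
    exact h2
  rw [one_smul, zero_smul, add_zero] at h1
  have h2 : |∫ r in (0 : ℝ)..1, fderiv ℝ ψ (x + r • z) z| ≤
      ∫ r in (0 : ℝ)..1, Real.sqrt (grad2 ψ (x + r • z)) := by
    refine (intervalIntegral.abs_integral_le_integral_abs zero_le_one).trans ?_
    refine intervalIntegral.integral_mono_on zero_le_one (hd.abs.intervalIntegrable _ _)
      ((hg.comp hl).intervalIntegrable _ _) fun r _ => ?_
    have h3 := abs_fderiv_le ψ (x + r • z) z
    have h4 := Real.sqrt_nonneg (grad2 ψ (x + r • z))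
    exact h3.trans (mul_le_of_le_one_right h4 hz)
  rw [h1] at h2
  have h3 : |ψ x| ≤ |ψ (x + z)| + |ψ (x + z) - ψ x| := by
    have h4 := abs_sub_abs_le_abs_sub (ψ x) (ψ (x + z))
    rw [abs_sub_comm (ψ x)] at h4
    linarith
  linarith

theorem trace_fubini (b : Module.Basis (Fin n) ℝ (E n)) {ψ ρ : E n → ℝ}
    (hψ : ContDiff ℝ ∞ ψ) (hper : ∀ v ∈ Lat b, ∀ x, ψ (x + v) = ψ x) (hρ : Continuous ρ)
    (hρper : ∀ v ∈ Lat b, ∀ x, ρ (x + v) = ρ x) (hρ0 : ∀ x, 0 ≤ ρ x) :
    (volume (Metric.ball (0 : E n) 1)).toReal *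
        ∫ x in ZSpan.fundamentalDomain b, |ψ x| * ρ x ≤
      (∫ y in ZSpan.fundamentalDomain b, |ψ y| * ∫ x in Metric.ball y 1, ρ x) +
        ∫ r in (0 : ℝ)..1, ∫ y in ZSpan.fundamentalDomain b,
          Real.sqrt (grad2 ψ y) * ((r ^ n)⁻¹ * ∫ x in Metric.ball y r, ρ x) := by
  have i1 : IsFiniteMeasure ((volume : Measure (E n)).restrict (ZSpan.fundamentalDomain b)) :=
    isFiniteMeasure_restrict.2 (fd_pos b).2
  have i2 : IsFiniteMeasure ((volume : Measure (E n)).restrict (Metric.ball (0 : E n) 1)) :=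
    isFiniteMeasure_restrict.2 measure_ball_lt_top.ne
  obtain ⟨μ, hμ⟩ : ∃ μ, μ = (volume : Measure (E n)).restrict (ZSpan.fundamentalDomain b) :=
    ⟨_, rfl⟩
  obtain ⟨ν, hν⟩ : ∃ ν, ν = (volume : Measure (E n)).restrict (Metric.ball (0 : E n) 1) :=
    ⟨_, rfl⟩
  obtain ⟨g, hgd⟩ : ∃ g : E n → ℝ, g = fun y => Real.sqrt (grad2 ψ y) := ⟨_, rfl⟩
  have hg : Continuous g := by
    rw [hgd]
    exact (contDiff_grad2 hψ).continuous.sqrt
  have hg0 : ∀ y, 0 ≤ g y := by
    intro y
    rw [hgd]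
    exact Real.sqrt_nonneg _
  have hgper : ∀ v ∈ Lat b, ∀ x, g (x + v) = g x := by
    intro v hv x
    rw [hgd]
    have h1 : grad2 ψ (x + v) = grad2 ψ x := by
      unfold grad2
      exact Finset.sum_congr rfl fun i _ => by rw [pd_per (hper v hv) i x]
    simp only [h1]
  have hψc : Continuous fun x => |ψ x| := hψ.continuous.abs
  have hψper : ∀ v ∈ Lat b, ∀ x, |ψ (x + v)| = |ψ x| := fun v hv x => by rw [hper v hv]
  obtain ⟨K, hK⟩ := per_bounded b hψc hψper
  obtain ⟨L, hL⟩ := per_bounded b hρ hρper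
  obtain ⟨N, hN⟩ := per_bounded b hg hgper
  have hK0 : 0 ≤ K := (abs_nonneg _).trans (hK 0)
  have hN0 : 0 ≤ N := (abs_nonneg _).trans (hN 0)
  -- the three functions
  have hG : Continuous fun q : (E n × E n) × ℝ => g (q.1.1 + q.2 • q.1.2) * ρ q.1.1 :=
    (hg.comp ((continuous_fst.comp continuous_fst).add
      (continuous_snd.smul (continuous_snd.comp continuous_fst)))).mul
      (hρ.comp (continuous_fst.comp continuous_fst))
  have hGb : ∀ q : (E n × E n) × ℝ, |g (q.1.1 + q.2 • q.1.2) * ρ q.1.1| ≤ N * L := by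
    intro q
    rw [abs_mul]
    exact mul_le_mul (hN _) (hL _) (abs_nonneg _) hN0
  have cB2 : Continuous fun p : E n × E n => (∫ r in (0 : ℝ)..1, g (p.1 + r • p.2)) * ρ p.1 := by
    refine Continuous.mul ?_ (hρ.comp continuous_fst)
    refine intervalIntegral.continuous_parametric_intervalIntegral_of_continuous' ?_ 0 1
    exact hg.comp ((continuous_fst.comp continuous_fst).add
      (continuous_snd.smul (continuous_snd.comp continuous_fst)))
  have bB2 : ∀ p : E n × E n, |(∫ r in (0 : ℝ)..1, g (p.1 + r • p.2)) * ρ p.1| ≤ N * L := by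
    intro p
    rw [abs_mul]
    refine mul_le_mul ?_ (hL _) (abs_nonneg _) hN0
    have h1 := intervalIntegral.norm_integral_le_of_norm_le_const (a := (0 : ℝ)) (b := 1)
      (f := fun r => g (p.1 + r • p.2)) (C := N) (fun r _ => hN _)
    rw [sub_zero, abs_one, mul_one] at h1
    exact h1
  have cA : Continuous fun p : E n × E n => |ψ p.1| * ρ p.1 :=
    (hψc.comp continuous_fst).mul (hρ.comp continuous_fst)
  have cB1 : Continuous fun p : E n × E n => |ψ (p.1 + (1 : ℝ) • p.2)| * ρ p.1 :=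
    (hψc.comp (continuous_fst.add (continuous_snd.const_smul (1 : ℝ)))).mul
      (hρ.comp continuous_fst)
  have bb : ∀ x y, |(|ψ x| * ρ y)| ≤ K * L := by
    intro x y
    rw [abs_mul]
    exact mul_le_mul (hK x) (hL y) (abs_nonneg _) hK0
  have jA : Integrable (fun p : E n × E n => |ψ p.1| * ρ p.1) (μ.prod ν) := by
    rw [hμ, hν]
    exact tra_int cA fun p => bb _ _
  have jB1 : Integrable (fun p : E n × E n => |ψ (p.1 + (1 : ℝ) • p.2)| * ρ p.1)
      (μ.prod ν) := by
    rw [hμ, hν]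
    exact tra_int cB1 fun p => bb _ _
  have jB2 : Integrable (fun p : E n × E n => (∫ r in (0 : ℝ)..1, g (p.1 + r • p.2)) * ρ p.1)
      (μ.prod ν) := by
    rw [hμ, hν]
    exact tra_int cB2 bB2
  have jG : Integrable (fun q : (E n × E n) × ℝ => g (q.1.1 + q.2 • q.1.2) * ρ q.1.1)
      ((μ.prod ν).prod ((volume : Measure ℝ).restrict (Set.Ioc 0 1))) := by
    rw [hμ, hν]
    exact tra_int hG hGb
  have i1' : IsFiniteMeasure μ := hμ ▸ i1
  have i2' : IsFiniteMeasure ν := hν ▸ i2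
  -- the left side
  have e1 : (volume (Metric.ball (0 : E n) 1)).toReal *
      ∫ x in ZSpan.fundamentalDomain b, |ψ x| * ρ x = ∫ x, ∫ _z : E n, |ψ x| * ρ x ∂ν ∂μ := by
    rw [← integral_const_mul, hμ, hν]
    congr 1
    funext x
    rw [integral_const, smul_eq_mul, measureReal_restrict_apply_univ]
    rfl
  -- the inequality
  have e2 : ∫ x, ∫ _z : E n, |ψ x| * ρ x ∂ν ∂μ ≤
      (∫ x, ∫ z, |ψ (x + (1 : ℝ) • z)| * ρ x ∂ν ∂μ) +
      ∫ x, ∫ z, (∫ r in (0 : ℝ)..1, g (x + r • z)) * ρ x ∂ν ∂μ := by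
    rw [← integral_add jB1.integral_prod_left jB2.integral_prod_left]
    refine integral_mono jA.integral_prod_left
      (jB1.integral_prod_left.add jB2.integral_prod_left) fun x => ?_
    have k1 : Integrable (fun z : E n => |ψ (x + (1 : ℝ) • z)| * ρ x) ν :=
      tra_int (cB1.comp (continuous_const.prodMk continuous_id)) fun z => bb _ _
    have k2 : Integrable (fun z : E n => (∫ r in (0 : ℝ)..1, g (x + r • z)) * ρ x) ν :=
      tra_int (cB2.comp (continuous_const.prodMk continuous_id)) fun z => bB2 (x, z)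
    have k0 : Integrable (fun _ : E n => |ψ x| * ρ x) ν := integrable_const _
    show ∫ _z : E n, |ψ x| * ρ x ∂ν ≤ (∫ z, |ψ (x + (1 : ℝ) • z)| * ρ x ∂ν) +
      ∫ z, (∫ r in (0 : ℝ)..1, g (x + r • z)) * ρ x ∂ν
    rw [← integral_add k1 k2]
    rw [hν] at k0 k1 k2 ⊢
    refine setIntegral_mono_on k0 (k1.add k2) Metric.isOpen_ball.measurableSet fun z hz => ?_
    have h1 : ‖z‖ ≤ 1 := by
      rw [mem_ball_iff_norm, sub_zero] at hz
      exact hz.le
    have h2 := tra_line hψ x z h1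
    have h3 := mul_le_mul_of_nonneg_right h2 (hρ0 x)
    rw [add_mul] at h3
    show |ψ x| * ρ x ≤ |ψ (x + (1 : ℝ) • z)| * ρ x + (∫ r in (0 : ℝ)..1, g (x + r • z)) * ρ x
    rw [one_smul, hgd]
    exact h3
  -- first term
  have e3 : ∫ x, ∫ z, |ψ (x + (1 : ℝ) • z)| * ρ x ∂ν ∂μ =
      ∫ y in ZSpan.fundamentalDomain b, |ψ y| * ∫ x in Metric.ball y 1, ρ x := by
    rw [hμ, hν]
    have h1 := tra_swap b hψc hψper hρ hρper 1
    rw [h1]
    congr 1
    funext y
    rw [tra_ball y one_pos, one_pow, inv_one, one_mul]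
  -- second term
  have e4 : ∫ x, ∫ z, (∫ r in (0 : ℝ)..1, g (x + r • z)) * ρ x ∂ν ∂μ =
      ∫ r in (0 : ℝ)..1, ∫ y in ZSpan.fundamentalDomain b,
          Real.sqrt (grad2 ψ y) * ((r ^ n)⁻¹ * ∫ x in Metric.ball y r, ρ x) := by
    have h1 : ∫ x, ∫ z, (∫ r in (0 : ℝ)..1, g (x + r • z)) * ρ x ∂ν ∂μ =
        ∫ p, (∫ r in (0 : ℝ)..1, g (p.1 + r • p.2)) * ρ p.1 ∂(μ.prod ν) :=
      (integral_prod _ jB2).symm
    have h2 : ∀ p : E n × E n, (∫ r in (0 : ℝ)..1, g (p.1 + r • p.2)) * ρ p.1 =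
        ∫ r in Set.Ioc (0 : ℝ) 1, g (p.1 + r • p.2) * ρ p.1 := by
      intro p
      rw [intervalIntegral.integral_of_le zero_le_one, integral_mul_const]
    have h3 : ∫ p, (∫ r in Set.Ioc (0 : ℝ) 1, g (p.1 + r • p.2) * ρ p.1) ∂(μ.prod ν) =
        ∫ r in Set.Ioc (0 : ℝ) 1, (∫ p, g (p.1 + r • p.2) * ρ p.1 ∂(μ.prod ν)) :=
      integral_integral_swap jG
    rw [h1]
    simp only [h2]
    rw [h3, intervalIntegral.integral_of_le zero_le_one]
    refine setIntegral_congr_fun measurableSet_Ioc fun r hr => ?_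
    have h4 : Integrable (fun p : E n × E n => g (p.1 + r • p.2) * ρ p.1) (μ.prod ν) :=
      tra_int (hG.comp (continuous_id.prodMk continuous_const)) fun p => hGb (p, r)
    show ∫ p, g (p.1 + r • p.2) * ρ p.1 ∂(μ.prod ν) = _
    rw [integral_prod _ h4, hμ, hν]
    have h5 := tra_swap b hg hgper hρ hρper r
    rw [h5]
    congr 1
    funext y
    rw [tra_ball y hr.1, hgd]
  rw [e1, ← e3, ← e4]
  exact e2

end H68.CF
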