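import Pool.Agent.H68.CF.TraceA

/-!
# [H68 CF TraceB] Trace inequality

Let `1 ≤ k`, `2k + 1 ≤ n`, `q > 2k` real, `ρ ≥ 0` continuous periodic with
`m_r(y) := ∫_{ball y r} ρ ≤ K₀ r^(n-2k)` for `0 < r ≤ 1`. Then
`∫_FD |ψ| ρ ≤ K (∫_FD |ψ| + (∫_FD |∇ψ|^q)^(1/q))`, `K` depends on `b, k, q, K₀` only.

Proof: `trace_fubini`. First term: `m_1(y) ≤ K₀`. Second term, Hölder with `1/q + 1/q' = 1`:
`∫_FD g m_r ≤ (∫ g^q)^(1/q) (∫_FD m_r^{q'})^(1/q')`, and
`∫_FD m_r^{q'} ≤ (K₀ r^(n-2k))^(q'-1) ∫_FD m_r`, `∫_FD m_r(y) dy = vol(ball 0 r) ∫_FD ρ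
 = β r^n ∫_FD ρ` (Fubini and `per_translate`), `∫_FD ρ ≤ K₁(K₀, b)` (`FD` is covered by finitely
many balls of radius 1; e.g. `fd_le_ball` and a finite cover of a ball). So
`(∫ m_r^{q'})^(1/q') ≤ C r^{(n-2k)(1-1/q') + n/q'} = C r^{n - 2k/q}` and
`∫_0^1 r^{-n} r^{n-2k/q} dr = ∫_0^1 r^{-2k/q} dr < ∞` as `2k < q`.
-/

open MeasureTheory Set Filter Topology Matrix Polynomial
open scoped ContDiff NNReal

noncomputable section

namespace H68.CF

variable {n : ℕ}

private theorem trb_shift (ρ : E n → ℝ) (y : E n) (r : ℝ) :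
    ∫ x in Metric.ball y r, ρ x = ∫ z in Metric.ball (0 : E n) r, ρ (y + z) := by
  rw [← integral_indicator Metric.isOpen_ball.measurableSet,
    ← integral_indicator Metric.isOpen_ball.measurableSet,
    ← integral_add_left_eq_self ((Metric.ball y r).indicator ρ) y]
  congr 1
  funext z
  have h1 : y + z ∈ Metric.ball y r ↔ z ∈ Metric.ball (0 : E n) r := by
    simp
  by_cases h : z ∈ Metric.ball (0 : E n) r
  · rw [indicator_of_mem h, indicator_of_mem (h1.mpr h)]
  · rw [indicator_of_notMem h, indicator_of_notMem (fun h2 => h (h1.mp h2))]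

private theorem trb_meas {ρ : E n → ℝ} (hρ : Continuous ρ) (r : ℝ) :
    StronglyMeasurable (fun y => ∫ x in Metric.ball y r, ρ x) := by
  have h1 : (fun y => ∫ x in Metric.ball y r, ρ x) =
      fun y => ∫ z in Metric.ball (0 : E n) r, ρ (y + z) := funext fun y => trb_shift ρ y r
  rw [h1]
  apply MeasureTheory.StronglyMeasurable.integral_prod_right
  have h2 : Continuous (Function.uncurry fun y z : E n => ρ (y + z)) :=
    hρ.comp (continuous_fst.add continuous_snd)
  exact h2.stronglyMeasurable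

private theorem trb_fub (b : Module.Basis (Fin n) ℝ (E n)) {ρ : E n → ℝ} (hρ : Continuous ρ)
    (hper : ∀ v ∈ Lat b, ∀ x, ρ (x + v) = ρ x) {r : ℝ} (hr : 0 < r) :
    ∫ y in ZSpan.fundamentalDomain b, ∫ x in Metric.ball y r, ρ x =
      r ^ n * (volume (Metric.ball (0 : E n) 1)).toReal *
        ∫ y in ZSpan.fundamentalDomain b, ρ y := by
  have hfin1 : IsFiniteMeasure ((volume : Measure (E n)).restrict (ZSpan.fundamentalDomain b)) :=
    ⟨by rw [Measure.restrict_apply_univ]; exact (fd_pos b).2.lt_top⟩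
  have hfin2 : IsFiniteMeasure ((volume : Measure (E n)).restrict (Metric.ball (0 : E n) r)) :=
    ⟨by rw [Measure.restrict_apply_univ]; exact measure_ball_lt_top⟩
  obtain ⟨K, hK⟩ := per_bounded b hρ hper
  have hcont : Continuous (Function.uncurry fun y z : E n => ρ (y + z)) :=
    hρ.comp (continuous_fst.add continuous_snd)
  calc ∫ y in ZSpan.fundamentalDomain b, ∫ x in Metric.ball y r, ρ x
      = ∫ y in ZSpan.fundamentalDomain b, ∫ z in Metric.ball (0 : E n) r, ρ (y + z) := by
        congr 1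
        funext y
        exact trb_shift ρ y r
    _ = ∫ z in Metric.ball (0 : E n) r, ∫ y in ZSpan.fundamentalDomain b, ρ (y + z) := by
        apply MeasureTheory.integral_integral_swap
        apply Integrable.of_bound hcont.aestronglyMeasurable K
        exact Eventually.of_forall fun x => hK _
    _ = ∫ _z in Metric.ball (0 : E n) r, ∫ y in ZSpan.fundamentalDomain b, ρ y := by
        congr 1
        funext z
        exact per_translate b hper z
    _ = _ := by
        rw [setIntegral_const, smul_eq_mul, Measure.real,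
          Measure.addHaar_ball_of_pos volume (0 : E n) hr, ENNReal.toReal_mul,
          ENNReal.toReal_ofReal (by positivity), finrank_euclideanSpace_fin]

private theorem trb_cover (b : Module.Basis (Fin n) ℝ (E n)) (K0 : ℝ) (hK0 : 0 ≤ K0) :
    ∃ K1 : ℝ, 0 ≤ K1 ∧ ∀ ρ : E n → ℝ, Continuous ρ → (∀ x, 0 ≤ ρ x) →
      (∀ y : E n, ∫ x in Metric.ball y 1, ρ x ≤ K0) →
      ∫ x in ZSpan.fundamentalDomain b, ρ x ≤ K1 := by
  obtain ⟨R, hR, hfd⟩ := fd_le_ball b
  obtain ⟨t, -, ht⟩ := (isCompact_closedBall (0 : E n) R).elim_nhds_subcover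
    (fun y => Metric.ball y 1) (fun y _ => Metric.ball_mem_nhds y one_pos)
  refine ⟨t.card * K0, by positivity, ?_⟩
  intro ρ hρ h0 hball
  refine (hfd ρ hρ h0).trans ?_
  have hint : ∀ y : E n, IntegrableOn ρ (Metric.ball y 1) := fun y =>
    (hρ.continuousOn.integrableOn_compact (isCompact_closedBall y 1)).mono_set
      Metric.ball_subset_closedBall
  rw [← integral_indicator Metric.isOpen_ball.measurableSet]
  have hnn : ∀ (y x : E n), 0 ≤ (Metric.ball y 1).indicator ρ x := fun y x =>
    indicator_nonneg (fun x _ => h0 x) x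
  calc ∫ x, (Metric.ball (0 : E n) R).indicator ρ x
      ≤ ∫ x, ∑ y ∈ t, (Metric.ball y 1).indicator ρ x := by
        apply integral_mono_of_nonneg
        · exact Eventually.of_forall fun x => indicator_nonneg (fun x _ => h0 x) x
        · apply integrable_finsetSum
          intro y _
          exact (integrable_indicator_iff Metric.isOpen_ball.measurableSet).mpr (hint y)
        · apply Eventually.of_forall
          intro x
          show (Metric.ball (0 : E n) R).indicator ρ x ≤
            ∑ y ∈ t, (Metric.ball y 1).indicator ρ x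
          by_cases hx : x ∈ Metric.ball (0 : E n) R
          · rw [indicator_of_mem hx]
            obtain ⟨y, hy, hxy⟩ := mem_iUnion₂.mp (ht (Metric.ball_subset_closedBall hx))
            have h1 := Finset.single_le_sum (f := fun y => (Metric.ball y 1).indicator ρ x)
              (fun y _ => hnn y x) hy
            simp only [indicator_of_mem hxy] at h1
            exact h1
          · rw [indicator_of_notMem hx]
            exact Finset.sum_nonneg fun y _ => hnn y x
    _ = ∑ y ∈ t, ∫ x, (Metric.ball y 1).indicator ρ x := by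
        apply integral_finsetSum
        intro y _
        exact (integrable_indicator_iff Metric.isOpen_ball.measurableSet).mpr (hint y)
    _ = ∑ y ∈ t, ∫ x in Metric.ball y 1, ρ x := by
        apply Finset.sum_congr rfl
        intro y _
        exact integral_indicator Metric.isOpen_ball.measurableSet
    _ ≤ ∑ _y ∈ t, K0 := Finset.sum_le_sum fun y _ => hball y
    _ = t.card * K0 := by rw [Finset.sum_const, nsmul_eq_mul]

private theorem trb_key (b : Module.Basis (Fin n) ℝ (E n)) {k : ℕ} (hk : 2 * k + 1 ≤ n)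
    {q q' : ℝ} (hqq : q.HolderConjugate q') {ρ g : E n → ℝ} (hρ : Continuous ρ)
    (hper : ∀ v ∈ Lat b, ∀ x, ρ (x + v) = ρ x) (hρ0 : ∀ x, 0 ≤ ρ x) (hg : Continuous g)
    (hg0 : ∀ x, 0 ≤ g x) {C : ℝ} (hgC : ∀ x, |g x| ≤ C) {K0 K1 : ℝ} (hK0 : 0 ≤ K0)
    (hK1 : ∫ x in ZSpan.fundamentalDomain b, ρ x ≤ K1) {r : ℝ} (hr : 0 < r)
    (hm : ∀ y, ∫ x in Metric.ball y r, ρ x ≤ K0 * r ^ (n - 2 * k)) :
    ∫ y in ZSpan.fundamentalDomain b, g y * ((r ^ n)⁻¹ * ∫ x in Metric.ball y r, ρ x) ≤
      (∫ y in ZSpan.fundamentalDomain b, g y ^ q) ^ (1 / q) *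
        (K0 ^ (q' - 1) * (volume (Metric.ball (0 : E n) 1)).toReal * K1) ^ (1 / q') *
        r ^ (-(2 * (k : ℝ) / q)) := by
  have hfin1 : IsFiniteMeasure ((volume : Measure (E n)).restrict (ZSpan.fundamentalDomain b)) :=
    ⟨by rw [Measure.restrict_apply_univ]; exact (fd_pos b).2.lt_top⟩
  set m : E n → ℝ := fun y => ∫ x in Metric.ball y r, ρ x with hmdef
  set β : ℝ := (volume (Metric.ball (0 : E n) 1)).toReal with hβ
  have hβ0 : 0 ≤ β := ENNReal.toReal_nonneg
  have hm0 : ∀ y, 0 ≤ m y := fun y => integral_nonneg fun x => hρ0 x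
  set L : ℝ := K0 * r ^ (n - 2 * k) with hL
  have hL0 : 0 ≤ L := by positivity
  have hmm : StronglyMeasurable m := trb_meas hρ r
  have hq1 : 1 < q := hqq.lt
  have hq1' : 1 < q' := hqq.symm.lt
  have hm_int : Integrable m (volume.restrict (ZSpan.fundamentalDomain b)) := by
    apply Integrable.of_bound hmm.aestronglyMeasurable L
    apply Eventually.of_forall
    intro y
    rw [Real.norm_eq_abs, abs_of_nonneg (hm0 y)]
    exact hm y
  have h1 : ∫ y in ZSpan.fundamentalDomain b, g y * ((r ^ n)⁻¹ * m y) =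
      (r ^ n)⁻¹ * ∫ y in ZSpan.fundamentalDomain b, g y * m y := by
    rw [← integral_const_mul]
    congr 1
    funext y
    ring
  have h2 : ∫ y in ZSpan.fundamentalDomain b, g y * m y ≤
      (∫ y in ZSpan.fundamentalDomain b, g y ^ q) ^ (1 / q) *
        (∫ y in ZSpan.fundamentalDomain b, m y ^ q') ^ (1 / q') := by
    apply integral_mul_le_Lp_mul_Lq_of_nonneg hqq (Eventually.of_forall hg0)
      (Eventually.of_forall hm0)
    · apply MemLp.of_bound hg.aestronglyMeasurable C
      exact Eventually.of_forall hgC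
    · apply MemLp.of_bound hmm.aestronglyMeasurable L
      apply Eventually.of_forall
      intro y
      rw [Real.norm_eq_abs, abs_of_nonneg (hm0 y)]
      exact hm y
  have h3 : ∫ y in ZSpan.fundamentalDomain b, m y ^ q' ≤
      L ^ (q' - 1) * (r ^ n * β * K1) := by
    calc ∫ y in ZSpan.fundamentalDomain b, m y ^ q'
        ≤ ∫ y in ZSpan.fundamentalDomain b, L ^ (q' - 1) * m y := by
          apply integral_mono_of_nonneg
          · exact Eventually.of_forall fun y => Real.rpow_nonneg (hm0 y) _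
          · exact hm_int.const_mul _
          · apply Eventually.of_forall
            intro y
            show m y ^ q' ≤ L ^ (q' - 1) * m y
            have h4 : m y ^ q' = m y ^ (q' - 1) * m y := by
              rw [← Real.rpow_add_one' (hm0 y) (by linarith)]
              congr 1
              ring
            rw [h4]
            apply mul_le_mul_of_nonneg_right _ (hm0 y)
            exact Real.rpow_le_rpow (hm0 y) (hm y) (by linarith)
      _ = L ^ (q' - 1) * (r ^ n * β * ∫ y in ZSpan.fundamentalDomain b, ρ y) := by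
          rw [integral_const_mul]
          congr 1
          exact trb_fub b hρ hper hr
      _ ≤ _ := by
          apply mul_le_mul_of_nonneg_left _ (Real.rpow_nonneg hL0 _)
          exact mul_le_mul_of_nonneg_left hK1 (by positivity)
  have hK10 : 0 ≤ K1 := le_trans (integral_nonneg fun x => hρ0 x) hK1
  have hG : 0 ≤ (∫ y in ZSpan.fundamentalDomain b, g y ^ q) ^ (1 / q) :=
    Real.rpow_nonneg (integral_nonneg fun y => Real.rpow_nonneg (hg0 y) _) _
  have h5 : (∫ y in ZSpan.fundamentalDomain b, m y ^ q') ^ (1 / q') ≤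
      (K0 ^ (q' - 1) * β * K1) ^ (1 / q') *
        r ^ ((((n - 2 * k : ℕ) : ℝ) * (q' - 1) + n) * (1 / q')) := by
    calc (∫ y in ZSpan.fundamentalDomain b, m y ^ q') ^ (1 / q')
        ≤ (L ^ (q' - 1) * (r ^ n * β * K1)) ^ (1 / q') := by
          apply Real.rpow_le_rpow _ h3 (by positivity)
          exact integral_nonneg fun y => Real.rpow_nonneg (hm0 y) _
      _ = ((K0 ^ (q' - 1) * β * K1) * r ^ (((n - 2 * k : ℕ) : ℝ) * (q' - 1) + n)) ^ (1 / q') := by
          congr 1
          rw [hL, Real.mul_rpow hK0 (by positivity), ← Real.rpow_natCast r (n - 2 * k),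
            ← Real.rpow_mul hr.le, Real.rpow_add hr, Real.rpow_natCast r n]
          ring
      _ = _ := by
          rw [Real.mul_rpow (by positivity) (by positivity), ← Real.rpow_mul hr.le]
  rw [h1]
  calc (r ^ n)⁻¹ * ∫ y in ZSpan.fundamentalDomain b, g y * m y
      ≤ (r ^ n)⁻¹ * ((∫ y in ZSpan.fundamentalDomain b, g y ^ q) ^ (1 / q) *
        ((K0 ^ (q' - 1) * β * K1) ^ (1 / q') *
        r ^ ((((n - 2 * k : ℕ) : ℝ) * (q' - 1) + n) * (1 / q')))) := by
        apply mul_le_mul_of_nonneg_left _ (by positivity)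
        exact h2.trans (mul_le_mul_of_nonneg_left h5 hG)
    _ = (∫ y in ZSpan.fundamentalDomain b, g y ^ q) ^ (1 / q) *
        (K0 ^ (q' - 1) * β * K1) ^ (1 / q') *
        (r ^ (-(n : ℝ)) * r ^ ((((n - 2 * k : ℕ) : ℝ) * (q' - 1) + n) * (1 / q'))) := by
        rw [Real.rpow_neg hr.le, Real.rpow_natCast]
        ring
    _ = _ := by
        rw [← Real.rpow_add hr]
        congr 2
        have h6 : ((n - 2 * k : ℕ) : ℝ) = (n : ℝ) - 2 * k := by
          rw [Nat.cast_sub (by omega)]
          push_cast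
          ring
        have h7 : q⁻¹ + q'⁻¹ = 1 := hqq.inv_add_inv_eq_one
        have h8 : q ≠ 0 := by linarith
        have h9 : q' ≠ 0 := by linarith
        rw [h6]
        have h10 : (q' - 1) * (1 / q') = q⁻¹ := by
          rw [sub_mul, mul_one_div_cancel h9, one_mul, one_div]
          linarith
        have h11 : 1 / q' = 1 - q⁻¹ := by
          rw [one_div]
          linarith
        calc -(n : ℝ) + (((n : ℝ) - 2 * k) * (q' - 1) + n) * (1 / q')
            = -(n : ℝ) + ((n : ℝ) - 2 * k) * ((q' - 1) * (1 / q')) + n * (1 / q') := by ring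
          _ = -(n : ℝ) + ((n : ℝ) - 2 * k) * q⁻¹ + n * (1 - q⁻¹) := by rw [h10, h11]
          _ = _ := by rw [div_eq_mul_inv]; ring

theorem trace_ineq (b : Module.Basis (Fin n) ℝ (E n)) {k : ℕ} (hk1 : 1 ≤ k)
    (hk : 2 * k + 1 ≤ n) {q : ℝ} (hq : 2 * (k : ℝ) < q) (K0 : ℝ) :
    ∃ K : ℝ, 0 ≤ K ∧ ∀ ρ ψ : E n → ℝ, Continuous ρ → (∀ v ∈ Lat b, ∀ x, ρ (x + v) = ρ x) →
      (∀ x, 0 ≤ ρ x) →
      (∀ (y : E n) (r : ℝ), 0 < r → r ≤ 1 →
        ∫ x in Metric.ball y r, ρ x ≤ K0 * r ^ (n - 2 * k)) →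
      ContDiff ℝ ∞ ψ → (∀ v ∈ Lat b, ∀ x, ψ (x + v) = ψ x) →
      ∫ x in ZSpan.fundamentalDomain b, |ψ x| * ρ x ≤
        K * ((∫ x in ZSpan.fundamentalDomain b, |ψ x|) +
          (∫ x in ZSpan.fundamentalDomain b, Real.sqrt (grad2 ψ x) ^ q) ^ (1 / q)) := by
  have hk1' : (1 : ℝ) ≤ k := by exact_mod_cast hk1
  have hq1 : 1 < q := by linarith
  have hq0 : 0 < q := by linarith
  have hqq := Real.HolderConjugate.conjExponent hq1
  set q' := Real.conjExponent q with hq'
  set K0' : ℝ := max K0 0 with hK0'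
  have hK0'0 : 0 ≤ K0' := le_max_right _ _
  obtain ⟨K1, hK10, hK1⟩ := trb_cover b K0' hK0'0
  set β : ℝ := (volume (Metric.ball (0 : E n) 1)).toReal with hβ
  have hβ0 : 0 < β := ENNReal.toReal_pos (Metric.measure_ball_pos volume _ one_pos).ne'
    measure_ball_lt_top.ne
  set A : ℝ := (K0' ^ (q' - 1) * β * K1) ^ (1 / q') with hA
  have hA0 : 0 ≤ A := by positivity
  set J : ℝ := ∫ r in (0 : ℝ)..1, r ^ (-(2 * (k : ℝ) / q)) with hJ
  have hJ0 : 0 ≤ J := by
    apply intervalIntegral.integral_nonneg zero_le_one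
    intro u hu
    exact Real.rpow_nonneg hu.1 _
  have hJint : IntervalIntegrable (fun r : ℝ => r ^ (-(2 * (k : ℝ) / q))) volume 0 1 := by
    apply intervalIntegral.intervalIntegrable_rpow'
    have : 2 * (k : ℝ) / q < 1 := (div_lt_one hq0).mpr hq
    linarith
  refine ⟨β⁻¹ * (K0' + A * J), by positivity, ?_⟩
  intro ρ ψ hρ hρper hρ0 hball hψ hψper
  have hball' : ∀ (y : E n) (r : ℝ), 0 < r → r ≤ 1 →
        ∫ x in Metric.ball y r, ρ x ≤ K0' * r ^ (n - 2 * k) := by
    intro y r hr hr1
    refine (hball y r hr hr1).trans ?_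
    exact mul_le_mul_of_nonneg_right (le_max_left _ _) (by positivity)
  have hball1 : ∀ y : E n, ∫ x in Metric.ball y 1, ρ x ≤ K0' := by
    intro y
    have := hball' y 1 one_pos le_rfl
    simpa using this
  have hρK1 := hK1 ρ hρ hρ0 hball1
  set g : E n → ℝ := fun x => Real.sqrt (grad2 ψ x) with hg
  have hgc : Continuous g := (contDiff_grad2 hψ).continuous.sqrt
  have hg0 : ∀ x, 0 ≤ g x := fun x => Real.sqrt_nonneg _
  have hgper : ∀ v ∈ Lat b, ∀ x, g (x + v) = g x := by
    intro v hv x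
    simp only [hg, grad2]
    congr 1
    exact Finset.sum_congr rfl fun i _ => by rw [pd_per (hψper v hv) i x]
  obtain ⟨C, hC⟩ := per_bounded b hgc hgper
  set P : ℝ := ∫ x in ZSpan.fundamentalDomain b, |ψ x| with hP
  have hP0 : 0 ≤ P := integral_nonneg fun x => abs_nonneg _
  set G : ℝ := (∫ x in ZSpan.fundamentalDomain b, g x ^ q) ^ (1 / q) with hG
  have hG0 : 0 ≤ G :=
    Real.rpow_nonneg (integral_nonneg fun y => Real.rpow_nonneg (hg0 y) _) _
  have hmain := trace_fubini b hψ hψper hρ hρper hρ0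
  have hT1 : (∫ y in ZSpan.fundamentalDomain b, |ψ y| * ∫ x in Metric.ball y 1, ρ x) ≤
      K0' * P := by
    rw [hP, mul_comm, ← integral_mul_const]
    apply integral_mono_of_nonneg
    · apply Eventually.of_forall
      intro y
      exact mul_nonneg (abs_nonneg _) (integral_nonneg fun x => hρ0 x)
    · exact (integrableOn_fd b hψ.continuous.abs).mul_const _
    · apply Eventually.of_forall
      intro y
      exact mul_le_mul_of_nonneg_left (hball1 y) (abs_nonneg _)
  have hT2 : (∫ r in (0 : ℝ)..1, ∫ y in ZSpan.fundamentalDomain b,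
          g y * ((r ^ n)⁻¹ * ∫ x in Metric.ball y r, ρ x)) ≤ G * A * J := by
    rw [hJ, ← intervalIntegral.integral_const_mul,
      intervalIntegral.integral_of_le zero_le_one, intervalIntegral.integral_of_le zero_le_one]
    apply integral_mono_of_nonneg
    · apply (ae_restrict_iff' measurableSet_Ioc).mpr
      apply Eventually.of_forall
      intro r hr
      apply integral_nonneg
      intro y
      have h1 : 0 ≤ ∫ x in Metric.ball y r, ρ x := integral_nonneg fun x => hρ0 x
      have h2 := hg0 y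
      have h3 : 0 < r := hr.1
      show 0 ≤ g y * ((r ^ n)⁻¹ * ∫ x in Metric.ball y r, ρ x)
      positivity
    · have h1 := hJint.const_mul (G * A)
      rw [intervalIntegrable_iff_integrableOn_Ioc_of_le zero_le_one] at h1
      exact h1
    · apply (ae_restrict_iff' measurableSet_Ioc).mpr
      apply Eventually.of_forall
      intro r hr
      exact trb_key b hk hqq hρ hρper hρ0 hgc hg0 hC hK0'0 hρK1 hr.1
        (fun y => hball' y r hr.1 hr.2)
  have h3 : β * ∫ x in ZSpan.fundamentalDomain b, |ψ x| * ρ x ≤ K0' * P + G * A * J :=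
    hmain.trans (add_le_add hT1 hT2)
  have h4 : K0' * P + G * A * J ≤ (K0' + A * J) * (P + G) := by
    have h5 : 0 ≤ K0' * G := by positivity
    have h6 : 0 ≤ A * J * P := by positivity
    nlinarith
  calc ∫ x in ZSpan.fundamentalDomain b, |ψ x| * ρ x
      = β⁻¹ * (β * ∫ x in ZSpan.fundamentalDomain b, |ψ x| * ρ x) := by
        rw [← mul_assoc, inv_mul_cancel₀ hβ0.ne', one_mul]
    _ ≤ β⁻¹ * ((K0' + A * J) * (P + G)) :=
        mul_le_mul_of_nonneg_left (h3.trans h4) (by positivity)
    _ = _ := by ring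

end H68.CF
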