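import Pool.Agent.H68.CF.AvgPath

/-!
# [H68 CF UpA] Upper bound for the limit distance

Pass to the limit in `td_le_avg`: for every `t ∈ [0,1]`
`∫_{z ∈ ball 0 η} 1/f_l(x + t(y-x) + z) dz → ∫_{z ∈ ball 0 η} 1/w(x + t(y-x) + z) dz` by dominated
convergence (`0 < c ≤ f_l`, a.e. convergence of `f_l` to `w` at translated points,
`c ≤ w`), and the functions of `t` are bounded by `vol(ball)/c`, so dominated convergence in `t`
as well (measurability in `t`: the functions with `f_l` are continuous in `t`, the limit is a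
pointwise limit).
-/

open MeasureTheory Set Filter Topology Matrix Polynomial
open scoped ContDiff NNReal

noncomputable section

namespace H68.CF

variable {n : ℕ}

theorem up_avg (b : Module.Basis (Fin n) ℝ (E n)) {f : ℕ → E n → ℝ} {w : E n → ℝ} {c : ℝ}
    (hc : 0 < c) (hf : ∀ l, Continuous (f l)) (hlow : ∀ l x, c ≤ f l x)
    (hper : ∀ l, ∀ v ∈ Lat b, ∀ x, f l (x + v) = f l x) (hw : Measurable w)
    (hwlow : ∀ x, c ≤ w x) (hae : ∀ᵐ x, Tendsto (fun l => f l x) atTop (𝓝 (w x)))
    {D : E n → E n → ℝ} (hD : ∀ x y, Tendsto (fun l => td b (f l) x y) atTop (𝓝 (D x y)))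
    (x y : E n) {η : ℝ} (hη : 0 < η) :
    D x y ≤ 2 * η / c + ‖y - x‖ * ∫ t in (0 : ℝ)..1,
      (volume (Metric.ball (0 : E n) η)).toReal⁻¹ *
        ∫ z in Metric.ball (0 : E n) η, (w (x + t • (y - x) + z))⁻¹ := by
  have hBt : volume (Metric.ball (0 : E n) η) < ⊤ := measure_ball_lt_top
  have hfin : IsFiniteMeasure (volume.restrict (Metric.ball (0 : E n) η)) :=
    ⟨by rw [Measure.restrict_apply_univ]; exact hBt⟩
  have hbf : ∀ l v, ‖(f l v)⁻¹‖ ≤ c⁻¹ := by
    intro l v
    rw [norm_inv, Real.norm_of_nonneg (hc.le.trans (hlow l v))]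
    exact inv_anti₀ hc (hlow l v)
  have hcf : ∀ l, Continuous (fun p : ℝ × E n => (f l (x + p.1 • (y - x) + p.2))⁻¹) := by
    intro l
    exact ((hf l).comp (by fun_prop : Continuous fun p : ℝ × E n =>
      x + p.1 • (y - x) + p.2)).inv₀ (fun p => (hc.trans_le (hlow l _)).ne')
  have hA : ∀ t : ℝ, Tendsto
      (fun l => ∫ z in Metric.ball (0 : E n) η, (f l (x + t • (y - x) + z))⁻¹) atTop
      (𝓝 (∫ z in Metric.ball (0 : E n) η, (w (x + t • (y - x) + z))⁻¹)) := by
    intro t
    refine tendsto_integral_of_dominated_convergence (fun _ => c⁻¹) (fun l => ?_)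
      (integrable_const _) (fun l => ae_of_all _ fun z => hbf l _) ?_
    · exact ((hcf l).comp (Continuous.prodMk_right t)).aestronglyMeasurable
    · have h1 : ∀ᵐ z : E n, Tendsto (fun l => f l (x + t • (y - x) + z)) atTop
          (𝓝 (w (x + t • (y - x) + z))) :=
        (measurePreserving_add_left (volume : Measure (E n))
          (x + t • (y - x))).quasiMeasurePreserving.ae hae
      filter_upwards [ae_restrict_of_ae h1] with z hz
      exact hz.inv₀ (hc.trans_le (hwlow _)).ne'
  have hI : Tendsto (fun l => ∫ t in (0 : ℝ)..1,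
      (volume (Metric.ball (0 : E n) η)).toReal⁻¹ *
        ∫ z in Metric.ball (0 : E n) η, (f l (x + t • (y - x) + z))⁻¹) atTop
      (𝓝 (∫ t in (0 : ℝ)..1, (volume (Metric.ball (0 : E n) η)).toReal⁻¹ *
        ∫ z in Metric.ball (0 : E n) η, (w (x + t • (y - x) + z))⁻¹)) := by
    refine intervalIntegral.tendsto_integral_filter_of_dominated_convergence
      (fun _ => (volume (Metric.ball (0 : E n) η)).toReal⁻¹ *
        (c⁻¹ * (volume (Metric.ball (0 : E n) η)).toReal)) (Eventually.of_forall fun l => ?_)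
      (Eventually.of_forall fun l => ae_of_all _ fun t _ => ?_)
      (intervalIntegrable_const) (ae_of_all _ fun t _ => (hA t).const_mul _)
    · have h2 : StronglyMeasurable (fun t : ℝ =>
          ∫ z in Metric.ball (0 : E n) η, (f l (x + t • (y - x) + z))⁻¹) :=
        StronglyMeasurable.integral_prod_right (hcf l).stronglyMeasurable
      exact (h2.const_mul _).aestronglyMeasurable
    · rw [norm_mul, norm_inv, Real.norm_of_nonneg ENNReal.toReal_nonneg]
      refine mul_le_mul_of_nonneg_left ?_ (inv_nonneg.2 ENNReal.toReal_nonneg)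
      exact norm_setIntegral_le_of_norm_le_const hBt fun z _ => hbf l _
  exact le_of_tendsto_of_tendsto' (hD x y) ((hI.const_mul _).const_add _) fun l =>
    td_le_avg b hc (hf l) (hlow l) (hper l) x y hη

end H68.CF
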