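import Pool.Agent.H68.CF.SmoothSig

/-!
# [H68 CF VarA] Derivative of the density in the direction `ψ`

`schouten (w + t ψ) x` has entries which are polynomials of degree two in `t`
(`pd_add`, `pd_const_mul`, bilinearity of `grad2`):
`(w + tψ)(w_ij + t ψ_ij) - (1/2) ∑_a (w_a + t ψ_a)² δ_ij`, derivative at `t = 0`:
`Q_ij = ψ w_ij + w ψ_ij - (∑_a w_a ψ_a) δ_ij` (the matrix `vq w ψ x`). By `hasDerivAt_sig` the
derivative of `sig (k+1)` is `trace (newt k P * Q)`, `P = schouten w x`; quotient rule with
`(w + tψ)^n`, `HasDerivAt.div`, `HasDerivAt.pow`.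
* `hasDerivAt_density`: at an arbitrary time `s` (apply the case `s = 0` to `w + s ψ`, or do the
computation directly at `t = s`).
* `continuous_dens`: joint continuity of the derivative in `(t,x)`: every entry is a polynomial in
`t` with coefficients continuous in `x`; `continuous_newt`, `continuous_sig` (which are stated
for an arbitrary topological space, take `ℝ × E n`), and `w x + t ψ x ≠ 0` on the set considered
(we only claim `ContinuousOn` the set where `w + t ψ > 0`).
-/

open MeasureTheory Set Filter Topology Matrix Polynomial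
open scoped ContDiff NNReal

noncomputable section

namespace H68.CF

variable {n : ℕ}

/-- The derivative of the Schouten tensor of `w + t ψ` at `t = 0`. -/
def vq (w ψ : E n → ℝ) (x : E n) : Matrix (Fin n) (Fin n) ℝ :=
  ψ x • hess w x + w x • hess ψ x -
    (∑ a, pd a w x * pd a ψ x) • (1 : Matrix (Fin n) (Fin n) ℝ)

/-- The derivative of the density `sig (k+1) (schouten w x) / (w x)^n` in the direction `ψ`. -/
def dens (k : ℕ) (w ψ : E n → ℝ) (x : E n) : ℝ :=
  Matrix.trace (newt k (schouten w x) * vq w ψ x) / (w x) ^ n -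
    (n : ℝ) * sig (k + 1) (schouten w x) * ψ x / (w x) ^ (n + 1)

private theorem va_pd {w ψ : E n → ℝ} (hw : ContDiff ℝ ∞ w) (hψ : ContDiff ℝ ∞ ψ)
    (s : ℝ) (i : Fin n) :
    pd i (fun y => w y + s * ψ y) = fun x => pd i w x + s * pd i ψ x := by
  have hne : (∞ : WithTop ℕ∞) ≠ 0 := by simp
  funext x
  have h1 : DifferentiableAt ℝ w x := (hw.differentiable hne) x
  have h2 : DifferentiableAt ℝ ψ x := (hψ.differentiable hne) x
  have h3 : DifferentiableAt ℝ (fun y => s * ψ y) x := h2.const_mul s
  rw [pd_add h1 h3, pd_const_mul h2]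

private theorem va_hess {w ψ : E n → ℝ} (hw : ContDiff ℝ ∞ w) (hψ : ContDiff ℝ ∞ ψ)
    (s : ℝ) (x : E n) :
    hess (fun y => w y + s * ψ y) x = hess w x + s • hess ψ x := by
  ext i j
  simp only [hess, Matrix.add_apply, Matrix.smul_apply, smul_eq_mul]
  rw [va_pd hw hψ, va_pd (contDiff_pd hw j) (contDiff_pd hψ j)]

private theorem va_grad2 {w ψ : E n → ℝ} (hw : ContDiff ℝ ∞ w) (hψ : ContDiff ℝ ∞ ψ)
    (s : ℝ) (x : E n) :
    grad2 (fun y => w y + s * ψ y) x =
      grad2 w x + 2 * s * (∑ a, pd a w x * pd a ψ x) + s ^ 2 * grad2 ψ x := by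
  simp only [grad2, va_pd hw hψ, Finset.mul_sum, ← Finset.sum_add_distrib]
  refine Finset.sum_congr rfl fun i _ => ?_
  ring

theorem schouten_add {w ψ : E n → ℝ} (hw : ContDiff ℝ ∞ w) (hψ : ContDiff ℝ ∞ ψ)
    (s : ℝ) (x : E n) :
    schouten (fun y => w y + s * ψ y) x =
      schouten w x + s • vq w ψ x + s ^ 2 • schouten ψ x := by
  ext i j
  simp only [schouten, vq, va_hess hw hψ, va_grad2 hw hψ, Matrix.add_apply, Matrix.sub_apply,
    Matrix.smul_apply, smul_eq_mul]
  ring

private theorem va_vq {w ψ : E n → ℝ} (hw : ContDiff ℝ ∞ w) (hψ : ContDiff ℝ ∞ ψ)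
    (s : ℝ) (x : E n) :
    vq (fun y => w y + s * ψ y) ψ x = vq w ψ x + (2 * s) • schouten ψ x := by
  have h1 : ∑ a, pd a (fun y => w y + s * ψ y) x * pd a ψ x =
      (∑ a, pd a w x * pd a ψ x) + s * grad2 ψ x := by
    simp only [grad2, va_pd hw hψ, Finset.mul_sum, ← Finset.sum_add_distrib]
    refine Finset.sum_congr rfl fun i _ => ?_
    ring
  ext i j
  simp only [schouten, vq, va_hess hw hψ, h1, Matrix.add_apply, Matrix.sub_apply,
    Matrix.smul_apply, smul_eq_mul]
  ring

theorem hasDerivAt_density {w ψ : E n → ℝ} (hw : ContDiff ℝ ∞ w) (hψ : ContDiff ℝ ∞ ψ) (k : ℕ)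
    (x : E n) (s : ℝ) (hx : w x + s * ψ x ≠ 0) :
    HasDerivAt
      (fun t : ℝ => sig (k + 1) (schouten (fun y => w y + t * ψ y) x) / (w x + t * ψ x) ^ n)
      (dens k (fun y => w y + s * ψ y) ψ x) s := by
  have h1 : ∀ i j, HasDerivAt (fun t : ℝ => schouten (fun y => w y + t * ψ y) x i j)
      (vq (fun y => w y + s * ψ y) ψ x i j) s := by
    intro i j
    have e1 : (fun t : ℝ => schouten (fun y => w y + t * ψ y) x i j) = fun t : ℝ =>
        schouten w x i j + t * vq w ψ x i j + t ^ 2 * schouten ψ x i j := by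
      funext t
      rw [schouten_add hw hψ]
      simp only [Matrix.add_apply, Matrix.smul_apply, smul_eq_mul]
    have e2 : vq (fun y => w y + s * ψ y) ψ x i j =
        0 + 1 * vq w ψ x i j + (2 * s) * schouten ψ x i j := by
      rw [va_vq hw hψ]
      simp only [Matrix.add_apply, Matrix.smul_apply, smul_eq_mul]
      ring
    rw [e1, e2]
    have h2 : HasDerivAt (fun t : ℝ => t ^ 2) (2 * s) s := by
      simpa using hasDerivAt_pow 2 s
    exact ((hasDerivAt_const s _).add ((hasDerivAt_id s).mul_const _)).add (h2.mul_const _)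
  have h2 := hasDerivAt_sig h1 k
  have h3 : HasDerivAt (fun t : ℝ => w x + t * ψ x) (ψ x) s := by
    have := ((hasDerivAt_id s).mul_const (ψ x)).const_add (w x)
    simpa using this
  have h4 := h3.pow n
  have h5 := h2.div h4 (pow_ne_zero n hx)
  refine h5.congr_deriv ?_
  have hk : (n : ℝ) * (w x + s * ψ x) ^ (n - 1) = n * (w x + s * ψ x) ^ n / (w x + s * ψ x) := by
    rw [eq_div_iff hx]
    rcases Nat.eq_zero_or_pos n with h | h
    · subst h
      simp
    · rw [mul_assoc, pow_sub_one_mul (by omega)]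
  simp only [Pi.pow_apply, dens]
  rw [hk]
  field_simp
  ring

private theorem va_cont_vq {w ψ : E n → ℝ} (hw : ContDiff ℝ ∞ w) (hψ : ContDiff ℝ ∞ ψ)
    (i j : Fin n) : Continuous fun x => vq w ψ x i j := by
  simp only [vq, Matrix.add_apply, Matrix.sub_apply, Matrix.smul_apply, smul_eq_mul]
  refine ((hψ.continuous.mul (contDiff_hess hw i j).continuous).add
    (hw.continuous.mul (contDiff_hess hψ i j).continuous)).sub (Continuous.mul ?_
      continuous_const)
  exact continuous_finsetSum _ fun a _ =>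
    (contDiff_pd hw a).continuous.mul (contDiff_pd hψ a).continuous

theorem continuousOn_dens {w ψ : E n → ℝ} (hw : ContDiff ℝ ∞ w) (hψ : ContDiff ℝ ∞ ψ) (k : ℕ) :
    ContinuousOn (fun q : ℝ × E n => dens k (fun y => w y + q.1 * ψ y) ψ q.2)
      {q | 0 < w q.2 + q.1 * ψ q.2} := by
  have hP : ∀ i j, Continuous fun q : ℝ × E n =>
      schouten (fun y => w y + q.1 * ψ y) q.2 i j := by
    intro i j
    have e1 : (fun q : ℝ × E n => schouten (fun y => w y + q.1 * ψ y) q.2 i j) = fun q =>
        schouten w q.2 i j + q.1 * vq w ψ q.2 i j + q.1 ^ 2 * schouten ψ q.2 i j := by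
      funext q
      rw [schouten_add hw hψ]
      simp only [Matrix.add_apply, Matrix.smul_apply, smul_eq_mul]
    rw [e1]
    exact (((contDiff_schouten hw i j).continuous.comp continuous_snd).add
      (continuous_fst.mul ((va_cont_vq hw hψ i j).comp continuous_snd))).add
      ((continuous_fst.pow 2).mul ((contDiff_schouten hψ i j).continuous.comp continuous_snd))
  have hV : ∀ i j, Continuous fun q : ℝ × E n =>
      vq (fun y => w y + q.1 * ψ y) ψ q.2 i j := by
    intro i j
    have e1 : (fun q : ℝ × E n => vq (fun y => w y + q.1 * ψ y) ψ q.2 i j) = fun q =>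
        vq w ψ q.2 i j + 2 * q.1 * schouten ψ q.2 i j := by
      funext q
      rw [va_vq hw hψ]
      simp only [Matrix.add_apply, Matrix.smul_apply, smul_eq_mul]
    rw [e1]
    exact ((va_cont_vq hw hψ i j).comp continuous_snd).add
      ((continuous_const.mul continuous_fst).mul
        ((contDiff_schouten hψ i j).continuous.comp continuous_snd))
  have hT : Continuous fun q : ℝ × E n =>
      Matrix.trace (newt k (schouten (fun y => w y + q.1 * ψ y) q.2) *
        vq (fun y => w y + q.1 * ψ y) ψ q.2) := by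
    simp only [Matrix.trace, Matrix.diag_apply, Matrix.mul_apply]
    exact continuous_finsetSum _ fun i _ => continuous_finsetSum _ fun l _ =>
      (continuous_newt hP k i l).mul (hV l i)
  have hS := continuous_sig hP (k + 1)
  have hW : Continuous fun q : ℝ × E n => w q.2 + q.1 * ψ q.2 :=
    (hw.continuous.comp continuous_snd).add
      (continuous_fst.mul (hψ.continuous.comp continuous_snd))
  unfold dens
  refine ContinuousOn.sub ?_ ?_
  · exact hT.continuousOn.div (hW.pow n).continuousOn fun q hq => pow_ne_zero n (ne_of_gt hq)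
  · refine ContinuousOn.div ?_ (hW.pow (n + 1)).continuousOn
      fun q hq => pow_ne_zero (n + 1) (ne_of_gt hq)
    exact ((continuous_const.mul hS).mul (hψ.continuous.comp continuous_snd)).continuousOn

end H68.CF
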