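import Pool.Agent.H68.CF.VarA
import Pool.Agent.H68.CF.DivP

/-!
# [H68 CF VarB] The derivative of the density is local up to a divergence

Write `P = schouten w x`, `T = newt k P` (symmetric), `Z = |∇w|²`, `w_a = pd a w`, and
`J_a = w^{1-n} ∑_b T_{ab} ψ_b - ψ w^{-n} ∑_b T_{ab} w_b` (`flux`; written as
`w / w^n`, `1 / w^n`). Claim: `dens = (2(k+1) - n) sig (k+1) P ψ / w^{n+1} + ∑_a ∂_a J_a`.

By `div_newt_schouten`, `∑_a ∂_a T_{ab} = (1/w)(n ∑_a T_{ab} w_a - w_b tr T)`. So, product rule,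
`∑_a ∂_a J_a = (1-n) w^{-n} T(∇w,∇ψ) + w^{-n} (n T(∇w,∇ψ) - (∇w·∇ψ) tr T) + w^{1-n} tr(T D²ψ)
 - w^{-n} T(∇ψ,∇w) + n ψ w^{-n-1} T(∇w,∇w) - ψ w^{-n-1} (n T(∇w,∇w) - Z tr T)
 - ψ w^{-n} tr(T D²w)`
`= w^{-n} (w tr(T D²ψ) - (∇w·∇ψ) tr T) + ψ w^{-n-1} Z tr T - ψ w^{-n} tr(T D²w)`,
and `dens = w^{-n} (ψ tr(T D²w) + w tr(T D²ψ) - (∇w·∇ψ) tr T) - n sig (k+1) P ψ w^{-n-1}`. The
difference `dens - ∑_a ∂_a J_a + n sig (k+1) P ψ w^{-n-1}` is
`ψ w^{-n-1} (2 w tr(T D²w) - Z tr T) = 2 ψ w^{-n-1} tr (T P) = 2 (k+1) sig (k+1) P ψ w^{-n-1}`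
(`trace_newt_mul`). `flux_smooth`, `flux_per`: smoothness and periodicity (`contDiff_newt`,
`contDiff_schouten`, `schouten_per`, `pd_per`).
-/

open MeasureTheory Set Filter Topology Matrix Polynomial
open scoped ContDiff NNReal

noncomputable section

namespace H68.CF

variable {n : ℕ}

/-- The vector field whose divergence appears. -/
def flux (k : ℕ) (w ψ : E n → ℝ) (a : Fin n) (y : E n) : ℝ :=
  (w y / (w y) ^ n) * (∑ c, newt k (schouten w y) a c * pd c ψ y) -
    (ψ y / (w y) ^ n) * ∑ c, newt k (schouten w y) a c * pd c w y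

private theorem vb_hda (n : ℕ) {W : ℝ} (hW : W ≠ 0) :
    HasDerivAt (fun s : ℝ => 1 / s ^ n) (-(n : ℝ) / W ^ (n + 1)) W := by
  have h1 := (hasDerivAt_pow n W).inv (pow_ne_zero n hW)
  have h2 : (fun s : ℝ => 1 / s ^ n) = (fun s : ℝ => s ^ n)⁻¹ := by
    funext s
    simp
  rw [h2]
  refine h1.congr_deriv ?_
  rcases n with _ | m
  · simp
  · simp only [Nat.add_sub_cancel]
    field_simp
    ring

private theorem vb_smoothT {w : E n → ℝ} (hw : ContDiff ℝ ∞ w) (k : ℕ) (a c : Fin n) :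
    ContDiff ℝ ∞ (fun y => newt k (schouten w y) a c) :=
  contDiff_newt (fun i j => contDiff_schouten hw i j) k a c

private theorem vb_smoothS {w f : E n → ℝ} (hw : ContDiff ℝ ∞ w) (hf : ContDiff ℝ ∞ f) (k : ℕ)
    (a : Fin n) : ContDiff ℝ ∞ (fun y => ∑ c, newt k (schouten w y) a c * pd c f y) :=
  ContDiff.sum fun c _ => (vb_smoothT hw k a c).mul (contDiff_pd hf c)

private theorem vb_diff {f : E n → ℝ} (hf : ContDiff ℝ ∞ f) (x : E n) : DifferentiableAt ℝ f x :=
  (hf.differentiable (by simp)) x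

private theorem vb_pdS {w f : E n → ℝ} (hw : ContDiff ℝ ∞ w) (hf : ContDiff ℝ ∞ f) (k : ℕ)
    (x : E n) (hx : w x ≠ 0) :
    ∑ a, pd a (fun y => ∑ c, newt k (schouten w y) a c * pd c f y) x =
      Matrix.trace (newt k (schouten w x) * hess f x) +
        (1 / w x) * ((n : ℝ) * (∑ a, pd a w x * ∑ c, newt k (schouten w x) a c * pd c f x) -
          (∑ c, pd c w x * pd c f x) * Matrix.trace (newt k (schouten w x))) := by
  have h1 : ∀ a : Fin n, pd a (fun y => ∑ c, newt k (schouten w y) a c * pd c f y) x =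
      ∑ c, newt k (schouten w x) a c * pd a (pd c f) x +
        ∑ c, pd c f x * pd a (fun y => newt k (schouten w y) a c) x := by
    intro a
    rw [pd_sum Finset.univ (f := fun c y => newt k (schouten w y) a c * pd c f y)
      (fun c _ => (vb_diff (vb_smoothT hw k a c) x).mul (vb_diff (contDiff_pd hf c) x)),
      ← Finset.sum_add_distrib]
    refine Finset.sum_congr rfl fun c _ => ?_
    exact pd_mul (vb_diff (vb_smoothT hw k a c) x) (vb_diff (contDiff_pd hf c) x) a
  rw [Finset.sum_congr rfl fun a _ => h1 a, Finset.sum_add_distrib]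
  have h2 : ∑ a, ∑ c, newt k (schouten w x) a c * pd a (pd c f) x =
      Matrix.trace (newt k (schouten w x) * hess f x) := by
    rw [Matrix.trace]
    refine Finset.sum_congr rfl fun a _ => ?_
    rw [Matrix.diag_apply, Matrix.mul_apply]
    refine Finset.sum_congr rfl fun c _ => ?_
    have h3 : hess f x c a = hess f x a c := (hess_symm hf x).apply a c
    rw [h3]
    rfl
  have h4 : ∑ a, ∑ c, pd c f x * pd a (fun y => newt k (schouten w y) a c) x =
      (1 / w x) * ((n : ℝ) * (∑ a, pd a w x * ∑ c, newt k (schouten w x) a c * pd c f x) -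
          (∑ c, pd c w x * pd c f x) * Matrix.trace (newt k (schouten w x))) := by
    rw [Finset.sum_comm]
    have h5 : ∀ c : Fin n, ∑ a, pd c f x * pd a (fun y => newt k (schouten w y) a c) x =
        (1 / w x) * ((n : ℝ) * (∑ a, pd a w x * (newt k (schouten w x) a c * pd c f x)) -
          pd c w x * pd c f x * Matrix.trace (newt k (schouten w x))) := by
      intro c
      rw [← Finset.mul_sum, div_newt_schouten hw k c x hx]
      have h6 : ∑ a, pd a w x * (newt k (schouten w x) a c * pd c f x) =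
          (∑ a, newt k (schouten w x) a c * pd a w x) * pd c f x := by
        rw [Finset.sum_mul]
        refine Finset.sum_congr rfl fun a _ => ?_
        ring
      rw [h6]
      ring
    have h7 : ∑ a, pd a w x * ∑ c, newt k (schouten w x) a c * pd c f x =
        ∑ c, ∑ a, pd a w x * (newt k (schouten w x) a c * pd c f x) := by
      rw [Finset.sum_comm]
      refine Finset.sum_congr rfl fun a _ => ?_
      rw [Finset.mul_sum]
    rw [h7, Finset.sum_congr rfl fun c _ => h5 c, Finset.sum_mul, Finset.mul_sum,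
      ← Finset.sum_sub_distrib (f := fun c => (n : ℝ) * ∑ a, pd a w x *
        (newt k (schouten w x) a c * pd c f x)) (g := fun c => pd c w x * pd c f x *
          Matrix.trace (newt k (schouten w x))), Finset.mul_sum]
  rw [h2, h4]

private theorem vb_flux_eq (k : ℕ) (w ψ : E n → ℝ) (a : Fin n) :
    flux k w ψ a = fun y => (1 / (w y) ^ n) *
      (w y * (∑ c, newt k (schouten w y) a c * pd c ψ y) -
        ψ y * (∑ c, newt k (schouten w y) a c * pd c w y)) := by
  funext y
  unfold flux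
  ring

private theorem vb_smoothU {w : E n → ℝ} (hw : ContDiff ℝ ∞ w) (hpos : ∀ x, 0 < w x) :
    ContDiff ℝ ∞ (fun y => 1 / (w y) ^ n) :=
  contDiff_const.div (hw.pow n) fun x => pow_ne_zero n (hpos x).ne'

theorem flux_smooth {w ψ : E n → ℝ} (hw : ContDiff ℝ ∞ w) (hψ : ContDiff ℝ ∞ ψ)
    (hpos : ∀ x, 0 < w x) (k : ℕ) (a : Fin n) : ContDiff ℝ ∞ (flux k w ψ a) := by
  rw [vb_flux_eq]
  exact (vb_smoothU hw hpos).mul
    ((hw.mul (vb_smoothS hw hψ k a)).sub (hψ.mul (vb_smoothS hw hw k a)))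

private theorem vb_pdflux {w ψ : E n → ℝ} (hw : ContDiff ℝ ∞ w) (hψ : ContDiff ℝ ∞ ψ)
    (hpos : ∀ x, 0 < w x) (k : ℕ) (x : E n) (a : Fin n) :
    pd a (flux k w ψ a) x =
      (1 / (w x) ^ n) * (w x * pd a (fun y => ∑ c, newt k (schouten w y) a c * pd c ψ y) x +
        (∑ c, newt k (schouten w x) a c * pd c ψ x) * pd a w x -
        (ψ x * pd a (fun y => ∑ c, newt k (schouten w y) a c * pd c w y) x +
          (∑ c, newt k (schouten w x) a c * pd c w x) * pd a ψ x)) +
      (w x * (∑ c, newt k (schouten w x) a c * pd c ψ x) -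
        ψ x * (∑ c, newt k (schouten w x) a c * pd c w x)) *
        (-(n : ℝ) / (w x) ^ (n + 1) * pd a w x) := by
  rw [vb_flux_eq]
  have d1 := vb_diff (vb_smoothS hw hψ k a) x
  have d2 := vb_diff (vb_smoothS hw hw k a) x
  have dw := vb_diff hw x
  have dψ := vb_diff hψ x
  have dU := vb_diff (vb_smoothU hw hpos) x
  rw [pd_mul (f := fun y => 1 / (w y) ^ n) (g := fun y =>
      (w y * (∑ c, newt k (schouten w y) a c * pd c ψ y) -
        ψ y * (∑ c, newt k (schouten w y) a c * pd c w y))) dU ((dw.mul d1).sub (dψ.mul d2)) a,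
    pd_sub (f := fun y => w y * (∑ c, newt k (schouten w y) a c * pd c ψ y))
      (g := fun y => ψ y * (∑ c, newt k (schouten w y) a c * pd c w y)) (dw.mul d1) (dψ.mul d2) a,
    pd_mul (f := w) dw d1 a, pd_mul (f := ψ) dψ d2 a,
    pd_comp (g := fun s => 1 / s ^ n) (vb_hda n (hpos x).ne') dw a]

private theorem vb_alg (u W Ψ v : ℝ) (A B S T P Q : Fin n → ℝ) :
    ∑ a, (u * (W * A a + S a * P a - (Ψ * B a + T a * Q a)) + (W * S a - Ψ * T a) * (v * P a)) =
      u * (W * (∑ a, A a) + (∑ a, P a * S a) - (Ψ * (∑ a, B a) + (∑ a, Q a * T a))) +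
        (W * (∑ a, P a * S a) - Ψ * (∑ a, P a * T a)) * v := by
  simp only [Finset.mul_sum, ← Finset.sum_add_distrib, ← Finset.sum_sub_distrib, Finset.sum_mul]
  refine Finset.sum_congr rfl fun a _ => ?_
  ring

theorem dens_eq {w ψ : E n → ℝ} (hw : ContDiff ℝ ∞ w) (hψ : ContDiff ℝ ∞ ψ)
    (hpos : ∀ x, 0 < w x) (k : ℕ) (x : E n) :
    dens k w ψ x =
      (2 * ((k : ℝ) + 1) - n) * (sig (k + 1) (schouten w x) * ψ x / (w x) ^ (n + 1)) +
        ∑ a, pd a (flux k w ψ a) x := by
  have hW := (hpos x).ne'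
  have e1 := vb_pdS hw hψ k x hW
  have e2 := vb_pdS hw hw k x hW
  have hTs : (newt k (schouten w x)).IsSymm := newt_symm k (schouten_symm hw x)
  -- the sum of the derivatives of the flux
  have e3 : ∑ a, pd a (flux k w ψ a) x =
      (1 / (w x) ^ n) * (w x * (∑ a, pd a (fun y => ∑ c, newt k (schouten w y) a c * pd c ψ y) x) +
        (∑ a, pd a w x * ∑ c, newt k (schouten w x) a c * pd c ψ x) -
        (ψ x * (∑ a, pd a (fun y => ∑ c, newt k (schouten w y) a c * pd c w y) x) +
          (∑ a, pd a ψ x * ∑ c, newt k (schouten w x) a c * pd c w x))) +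
      (w x * (∑ a, pd a w x * ∑ c, newt k (schouten w x) a c * pd c ψ x) -
        ψ x * (∑ a, pd a w x * ∑ c, newt k (schouten w x) a c * pd c w x)) *
        (-(n : ℝ) / (w x) ^ (n + 1)) := by
    rw [Finset.sum_congr rfl fun a _ => vb_pdflux hw hψ hpos k x a]
    exact vb_alg _ _ _ _ _ _ _ _ _ _
  have e4 : ∑ a, pd a ψ x * ∑ c, newt k (schouten w x) a c * pd c w x =
      ∑ a, pd a w x * ∑ c, newt k (schouten w x) a c * pd c ψ x := by
    simp only [Finset.mul_sum]
    rw [Finset.sum_comm]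
    refine Finset.sum_congr rfl fun a _ => Finset.sum_congr rfl fun c _ => ?_
    have h1 : newt k (schouten w x) c a = newt k (schouten w x) a c := hTs.apply a c
    rw [h1]
    ring
  have e5 := trace_newt_mul k (schouten w x)
  have e6 : Matrix.trace (newt k (schouten w x) * schouten w x) =
      w x * Matrix.trace (newt k (schouten w x) * hess w x) -
        grad2 w x / 2 * Matrix.trace (newt k (schouten w x)) := by
    conv_lhs => rw [show schouten w x = w x • hess w x -
      (grad2 w x / 2) • (1 : Matrix (Fin n) (Fin n) ℝ) from rfl]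
    rw [Matrix.mul_sub, Matrix.trace_sub, Matrix.mul_smul, Matrix.trace_smul, Matrix.mul_smul,
      Matrix.trace_smul, Matrix.mul_one, smul_eq_mul, smul_eq_mul]
    rfl
  have e7 : Matrix.trace (newt k (schouten w x) * vq w ψ x) =
      ψ x * Matrix.trace (newt k (schouten w x) * hess w x) +
        w x * Matrix.trace (newt k (schouten w x) * hess ψ x) -
        (∑ c, pd c w x * pd c ψ x) * Matrix.trace (newt k (schouten w x)) := by
    unfold vq
    rw [Matrix.mul_sub, Matrix.mul_add, Matrix.trace_sub, Matrix.trace_add, Matrix.mul_smul,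
      Matrix.trace_smul, Matrix.mul_smul, Matrix.trace_smul, Matrix.mul_smul, Matrix.trace_smul,
      Matrix.mul_one, smul_eq_mul, smul_eq_mul, smul_eq_mul]
  have e8 : ∑ c, pd c w x * pd c w x = grad2 w x := by
    unfold grad2
    refine Finset.sum_congr rfl fun c _ => ?_
    ring
  rw [e8] at e2
  rw [e6] at e5
  unfold dens
  rw [e3, e1, e2, e4, e7]
  set τ := Matrix.trace (newt k (schouten w x))
  set hw1 := Matrix.trace (newt k (schouten w x) * hess w x)
  set hψ1 := Matrix.trace (newt k (schouten w x) * hess ψ x)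
  set α := ∑ a, pd a w x * ∑ c, newt k (schouten w x) a c * pd c ψ x
  set γ := ∑ a, pd a w x * ∑ c, newt k (schouten w x) a c * pd c w x
  set μ := ∑ c, pd c w x * pd c ψ x
  set Z := grad2 w x
  set σ := sig (k + 1) (schouten w x)
  have hpow : (w x) ^ (n + 1) = (w x) ^ n * w x := pow_succ _ _
  have hWn : (w x) ^ n ≠ 0 := pow_ne_zero n hW
  have e9 : σ * ((k : ℝ) + 1) = w x * hw1 - Z / 2 * τ := by linarith
  rw [hpow]
  field_simp
  linear_combination (-2 * ψ x) * e9

theorem flux_per {w ψ : E n → ℝ} {v : E n} (hw : ∀ x, w (x + v) = w x)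
    (hψ : ∀ x, ψ (x + v) = ψ x) (k : ℕ) (a : Fin n) (x : E n) :
    flux k w ψ a (x + v) = flux k w ψ a x := by
  have h1 : ∀ (c : Fin n) (y : E n), pd c w (y + v) = pd c w y := fun c y => pd_per hw c y
  have h2 : ∀ (c : Fin n) (y : E n), pd c ψ (y + v) = pd c ψ y := fun c y => pd_per hψ c y
  have h3 : schouten w (x + v) = schouten w x := by
    have h4 : hess w (x + v) = hess w x := by
      funext i j
      exact pd_per (h1 j) i x
    have h5 : grad2 w (x + v) = grad2 w x := by
      unfold grad2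
      refine Finset.sum_congr rfl fun i _ => ?_
      rw [h1 i x]
    unfold schouten
    rw [h4, h5, hw x]
  unfold flux
  simp only [h1, h2, h3, hw, hψ]

end H68.CF
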